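import Mathlib
import Pool.Agent.Helper65.PK.Basic
import Pool.Agent.Helper75.Zeta

/-!
# Project PK, piece A6

Each 1-face `G = mface P x` (`P = poly _`, `PP_eq_poly`, `mem_vectorSpan_mface_poly`,
`mem_mface_poly`) has two tight constraints `i ≠ j` at `x` (one or no tight constraint would give a
vectorSpan of dimension ≥ 2), so `G ⊆ F_i ∩ F_j`, and `G = F_i ∩ F_j` because `u i`, `u j` are
linearly independent (`inj`, `ne_neg_of_nonempty`), so that `F_i ∩ F_j` spans a line at most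
(use `Helper75.mface_eq_inter`). So `G ↦` the ordered pairs `(i, j)`, `(j, i)` is injective and
`2 ∑' G ≤` the double sum.
-/

namespace Pool.Agent.Helper65.PK

open MeasureTheory Module Set
open scoped ENNReal RealInnerProductSpace

private lemma mem_vs {ι : Type} [Fintype ι] {u : ι → E3} {h : ι → ℝ} {x v : E3}
    (hx : x ∈ PP u h) : v ∈ vectorSpan ℝ (Helper75.mface (PP u h) x) ↔
      ∀ i, ⟪u i, x⟫ = h i → ⟪u i, v⟫ = 0 := by
  classical
  rw [PP_eq_poly] at hx ⊢
  rw [Helper75.mem_vectorSpan_mface_poly hx]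
  simp only [Finset.mem_image, Finset.mem_univ, true_and, forall_exists_index,
    forall_apply_eq_imp_iff]

private lemma mem_mf {ι : Type} [Fintype ι] {u : ι → E3} {h : ι → ℝ} {x y : E3}
    (hx : x ∈ PP u h) : y ∈ Helper75.mface (PP u h) x ↔
      y ∈ PP u h ∧ ∀ i, ⟪u i, x⟫ = h i → ⟪u i, y⟫ = h i := by
  classical
  rw [PP_eq_poly] at hx ⊢
  rw [Helper75.mem_mface_poly hx]
  simp only [Finset.mem_image, Finset.mem_univ, true_and, forall_exists_index,
    forall_apply_eq_imp_iff]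

private lemma finrank_orth_single (a : E3) : 2 ≤ finrank ℝ ((ℝ ∙ a)ᗮ : Submodule ℝ E3) := by
  have h1 := Submodule.finrank_add_finrank_orthogonal (ℝ ∙ a)
  have h2 : finrank ℝ (ℝ ∙ a) ≤ 1 := by
    rcases eq_or_ne a 0 with h0 | ha
    · rw [h0, Submodule.span_zero_singleton, finrank_bot]
      exact zero_le_one
    · rw [finrank_span_singleton ha]
  have h3 : finrank ℝ E3 = 3 := by simp
  omega

/-- a one-dimensional face is the intersection of two facets -/
private lemma edge_eq {ι : Type} [Fintype ι] [DecidableEq ι] {u : ι → E3} {h : ι → ℝ}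
    (R : Rep u h) {G : Set E3} (hG : G ∈ Helper75.kfaces 1 (PP u h)) :
    ∃ i j, i ≠ j ∧ G = FF u h i ∩ FF u h j := by
  obtain ⟨⟨x, hx, rfl⟩, hdim⟩ := hG
  set W := vectorSpan ℝ (Helper75.mface (PP u h) x) with hW
  have hmem : ∀ v, v ∈ W ↔ ∀ i, ⟪u i, x⟫ = h i → ⟪u i, v⟫ = 0 := fun v => mem_vs hx
  -- two tight constraints
  have h2 : ∃ i j, i ≠ j ∧ ⟪u i, x⟫ = h i ∧ ⟪u j, x⟫ = h j := by
    by_contra hcon
    push Not at hcon
    obtain ⟨a, ha⟩ : ∃ a : E3, ∀ i, ⟪u i, x⟫ = h i → u i = a := by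
      by_cases he : ∃ i, ⟪u i, x⟫ = h i
      · obtain ⟨i, hi⟩ := he
        refine ⟨u i, fun j hj => ?_⟩
        by_contra hne
        exact hcon i j (fun hij => hne (by rw [hij])) hi hj
      · exact ⟨0, fun i hi => absurd ⟨i, hi⟩ he⟩
    have hle : (ℝ ∙ a)ᗮ ≤ W := by
      intro v hv
      rw [hmem]
      intro i hi
      rw [ha i hi]
      exact Submodule.mem_orthogonal_singleton_iff_inner_right.1 hv
    have h3 := Submodule.finrank_mono hle
    have h4 := finrank_orth_single a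
    omega
  obtain ⟨i, j, hij, hi, hj⟩ := h2
  have hiF : x ∈ FF u h i := ⟨hx, hi⟩
  have hjF : x ∈ FF u h j := ⟨hx, hj⟩
  have hne1 : u j ≠ u i := fun he => hij (R.inj he).symm
  have hne2 : u j ≠ -u i := ne_neg_of_mem R.unit R.int hiF hjF
  have hui : u i ≠ 0 := by
    intro h0
    have := R.unit i
    rw [h0, norm_zero] at this
    exact zero_ne_one this
  -- the directions orthogonal to `u i`, `u j`
  have hnot : u j ∉ ((ℝ ∙ u i)ᗮ)ᗮ := by
    rw [Submodule.orthogonal_orthogonal, Submodule.mem_span_singleton]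
    rintro ⟨c, hc⟩
    have h3 := congrArg norm hc
    rw [norm_smul, R.unit, R.unit, mul_one, Real.norm_eq_abs] at h3
    rcases (abs_eq zero_le_one).1 h3 with h4 | h4
    · rw [h4, one_smul] at hc
      exact hne1 hc.symm
    · rw [h4, neg_one_smul] at hc
      exact hne2 hc.symm
  have h5 := Helper75.finrank_inf_orth hnot
  have h6 := Submodule.finrank_add_finrank_orthogonal (ℝ ∙ u i)
  rw [finrank_span_singleton hui] at h6
  have h7 : finrank ℝ E3 = 3 := by simp
  have hle : W ≤ (ℝ ∙ u i)ᗮ ⊓ (ℝ ∙ u j)ᗮ := by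
    intro v hv
    rw [hmem] at hv
    exact ⟨Submodule.mem_orthogonal_singleton_iff_inner_right.2 (hv i hi),
      Submodule.mem_orthogonal_singleton_iff_inner_right.2 (hv j hj)⟩
  have heq : W = (ℝ ∙ u i)ᗮ ⊓ (ℝ ∙ u j)ᗮ := Submodule.eq_of_le_of_finrank_eq hle (by omega)
  refine ⟨i, j, hij, ?_⟩
  apply Set.Subset.antisymm
  · intro y hy
    rw [mem_mf hx] at hy
    exact ⟨⟨hy.1, hy.2 i hi⟩, ⟨hy.1, hy.2 j hj⟩⟩
  · rintro y ⟨hyi, hyj⟩
    rw [Helper75.mem_mface_iff (convex_PP u h) hx]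
    refine ⟨hyi.1, ?_⟩
    rw [← hW, heq]
    refine ⟨Submodule.mem_orthogonal_singleton_iff_inner_right.2 ?_,
      Submodule.mem_orthogonal_singleton_iff_inner_right.2 ?_⟩
    · rw [inner_sub_right, hyi.2, hi, sub_self]
    · rw [inner_sub_right, hyj.2, hj, sub_self]

/-- A6. The edge length is at most the sum over the pairs of facets. -/
theorem zeta_one_le {ι : Type} [Fintype ι] [DecidableEq ι] {u : ι → E3} {h : ι → ℝ}
    (R : Rep u h) :
    2 * Helper75.zeta 1 (PP u h) ≤
      ∑ i, ∑ j ∈ Finset.univ.erase i, μHE[1] (FF u h i ∩ FF u h j) := by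
  classical
  have hfin : (Helper75.kfaces 1 (PP u h)).Finite := by
    rw [PP_eq_poly]
    exact Helper75.finite_kfaces_poly 1 _
  have : Finite (Helper75.kfaces 1 (PP u h)) := hfin.to_subtype
  have : Fintype (Helper75.kfaces 1 (PP u h)) := Fintype.ofFinite _
  choose a b hab hG using fun G : Helper75.kfaces 1 (PP u h) => edge_eq R G.2
  let f : Helper75.kfaces 1 (PP u h) × Bool → (_ : ι) × ι := fun x =>
    if x.2 then ⟨a x.1, b x.1⟩ else ⟨b x.1, a x.1⟩
  let g : (_ : ι) × ι → ℝ≥0∞ := fun x => μHE[1] (FF u h x.1 ∩ FF u h x.2)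
  have hgf : ∀ x, g (f x) = μHE[1] ((x.1 : Set E3)) := by
    rintro ⟨G, c⟩
    cases c
    · show μHE[1] (FF u h (b G) ∩ FF u h (a G)) = μHE[1] (G : Set E3)
      rw [Set.inter_comm, ← hG G]
    · show μHE[1] (FF u h (a G) ∩ FF u h (b G)) = μHE[1] (G : Set E3)
      rw [← hG G]
  have hset : ∀ x, (x.1 : Set E3) = FF u h (f x).1 ∩ FF u h (f x).2 := by
    rintro ⟨G, c⟩
    cases c
    · show (G : Set E3) = FF u h (b G) ∩ FF u h (a G)
      rw [Set.inter_comm]
      exact hG G
    · exact hG G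
  have hinj : Function.Injective f := by
    intro x y hxy
    have h1 : x.1 = y.1 := by
      apply Subtype.ext
      rw [hset x, hset y, hxy]
    obtain ⟨G, c⟩ := x
    obtain ⟨G', c'⟩ := y
    obtain rfl : G = G' := h1
    cases c <;> cases c'
    · rfl
    · exfalso
      have h2 : b G = a G := congrArg Sigma.fst hxy
      exact hab G h2.symm
    · exfalso
      have h2 : a G = b G := congrArg Sigma.fst hxy
      exact hab G h2
    · rfl
  have h1 : 2 * Helper75.zeta 1 (PP u h) = ∑ x : Helper75.kfaces 1 (PP u h) × Bool, g (f x) := by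
    unfold Helper75.zeta
    rw [tsum_fintype, Fintype.sum_prod_type, Finset.mul_sum]
    refine Finset.sum_congr rfl fun G _ => ?_
    rw [Fintype.sum_bool, hgf, hgf, two_mul]
  rw [h1, Finset.sum_sigma', ← Finset.sum_image (f := g) (fun x _ y _ hxy => hinj hxy)]
  apply Finset.sum_le_sum_of_subset
  intro p hp
  obtain ⟨⟨G, c⟩, -, rfl⟩ := Finset.mem_image.1 hp
  rw [Finset.mem_sigma]
  refine ⟨Finset.mem_univ _, Finset.mem_erase.2 ⟨?_, Finset.mem_univ _⟩⟩
  cases c
  · exact hab G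
  · exact (hab G).symm

end Pool.Agent.Helper65.PK
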