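import Mathlib
import Pool.Agent.Helper65.PK.Basic
import Pool.Agent.Helper65.PK.LP
import Pool.Agent.Helper75.Slice

/-!
# Project PK, piece F1

Slices orthogonal to `u` (`Helper75.lintegral_slice_full`, `Helper75.slice_eq_section`): the slice
of the ball at height `s` is a disc of radius `√(9/4 - s²)` in `(ℝ ∙ u)ᗮ` (dimension 2,
`InnerProductSpace.volume_closedBall`, area `π (9/4 - s²)`), and
`∫ s in h..3/2, π (9/4 - s²) = π/3 * (3/2 - h)² (3 + h)`.
-/

namespace Pool.Agent.Helper65.PK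

open MeasureTheory Module Set
open scoped ENNReal RealInnerProductSpace

/-- The slices of the cap. -/
theorem cap_slice {u : E3} (hu : ‖u‖ = 1) {h : ℝ} (h0 : 0 < h) (s : ℝ) :
    μHE[finrank ℝ E3 - 1] ({x : E3 | ‖x‖ ≤ 3 / 2 ∧ h < ⟪u, x⟫} ∩ Helper75.hyp u s) ≤
      (Ioc h (3 / 2)).indicator (fun s => ENNReal.ofReal (Real.pi * (9 / 4 - s ^ 2))) s := by
  have hu0 : u ≠ 0 := by
    intro h1
    rw [h1, norm_zero] at hu
    exact zero_ne_one hu
  have hfr : finrank ℝ (ℝ ∙ u)ᗮ = 2 := by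
    rw [Helper75.finrank_orth_singleton hu0, finrank_euclideanSpace_fin]
  rw [Helper75.slice_eq_section hu0]
  have hnorm : ∀ w : (ℝ ∙ u)ᗮ, ‖(s / ‖u‖ ^ 2) • u + (w : E3)‖ ^ 2 = s ^ 2 + ‖w‖ ^ 2 ∧
      ⟪u, (s / ‖u‖ ^ 2) • u + (w : E3)⟫ = s := by
    intro w
    have hw := (Submodule.mem_orthogonal_singleton_iff_inner_right).1 w.2
    constructor
    · rw [norm_add_sq_real, inner_smul_left, hw, norm_smul, hu]
      simp
    · rw [inner_add_right, inner_smul_right, hw, real_inner_self_eq_norm_sq, hu]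
      simp
  by_cases hs : s ∈ Ioc h (3 / 2)
  · rw [indicator_of_mem hs]
    have hs2 : 0 ≤ 9 / 4 - s ^ 2 := by nlinarith [hs.1, hs.2]
    have hsub : {w : (ℝ ∙ u)ᗮ | (s / ‖u‖ ^ 2) • u + (w : E3) ∈
        {x : E3 | ‖x‖ ≤ 3 / 2 ∧ h < ⟪u, x⟫}} ⊆ Metric.closedBall 0 (√(9 / 4 - s ^ 2)) := by
      intro w hw
      rw [mem_closedBall_zero_iff]
      refine Real.le_sqrt_of_sq_le ?_
      have h1 := (hnorm w).1
      have h2 : ‖(s / ‖u‖ ^ 2) • u + (w : E3)‖ ^ 2 ≤ (3 / 2) ^ 2 :=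
        pow_le_pow_left₀ (norm_nonneg _) hw.1 2
      linarith
    refine (measure_mono hsub).trans ?_
    have : Nontrivial (ℝ ∙ u)ᗮ := Module.nontrivial_of_finrank_pos (R := ℝ) (by rw [hfr]; norm_num)
    rw [InnerProductSpace.volume_closedBall_of_dim_even (k := 1) (by rw [hfr]), hfr,
      ← ENNReal.ofReal_pow (Real.sqrt_nonneg _), Real.sq_sqrt hs2,
      ← ENNReal.ofReal_mul hs2]
    refine ENNReal.ofReal_le_ofReal (le_of_eq ?_)
    norm_num [Nat.factorial]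
    ring
  · rw [indicator_of_notMem hs]
    refine le_of_eq ?_
    rw [show {w : (ℝ ∙ u)ᗮ | (s / ‖u‖ ^ 2) • u + (w : E3) ∈
        {x : E3 | ‖x‖ ≤ 3 / 2 ∧ h < ⟪u, x⟫}} = ∅ from ?_, measure_empty]
    ext w
    simp only [mem_empty_iff_false, iff_false]
    rintro ⟨h1, h2⟩
    rw [(hnorm w).2] at h2
    apply hs
    refine ⟨h2, ?_⟩
    have h3 := (hnorm w).1
    have h4 : ‖(s / ‖u‖ ^ 2) • u + (w : E3)‖ ^ 2 ≤ (3 / 2) ^ 2 :=
      pow_le_pow_left₀ (norm_nonneg _) h1 2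
    by_contra h5
    push Not at h5
    nlinarith [sq_nonneg ‖w‖]

/-- The integral of the areas of the slices. -/
theorem cap_integral (h : ℝ) :
    ∫ s in h..(3 / 2), Real.pi * (9 / 4 - s ^ 2) = Real.pi / 3 * cc h := by
  rw [intervalIntegral.integral_const_mul, intervalIntegral.integral_sub (by simp)
    ((continuous_pow 2).intervalIntegrable _ _), intervalIntegral.integral_const, integral_pow]
  unfold cc
  norm_num
  ring

/-- F1. The volume of a spherical cap of the ball of radius `3/2`. -/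
theorem cap_volume {u : E3} (hu : ‖u‖ = 1) {h : ℝ} (h0 : 0 < h) (h1 : h ≤ 3 / 2) :
    volume {x : E3 | ‖x‖ ≤ 3 / 2 ∧ h < ⟪u, x⟫} ≤ ENNReal.ofReal (Real.pi / 3 * cc h) := by
  have hu0 : u ≠ 0 := by
    intro h1
    rw [h1, norm_zero] at hu
    exact zero_ne_one hu
  have hue : ‖u‖ₑ = 1 := by rw [← ofReal_norm, hu, ENNReal.ofReal_one]
  have hm : MeasurableSet {x : E3 | ‖x‖ ≤ 3 / 2 ∧ h < ⟪u, x⟫} := by
    refine MeasurableSet.inter ?_ ?_
    · exact (isClosed_le continuous_norm continuous_const).measurableSet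
    · exact (isOpen_lt continuous_const
        (continuous_const.inner continuous_id : Continuous fun x : E3 => ⟪u, x⟫)).measurableSet
  have hsl := Helper75.lintegral_slice_full hu0 hm
  rw [hue, one_mul, InnerProductSpace.euclideanHausdorffMeasure_eq_volume] at hsl
  rw [← hsl]
  calc ∫⁻ s : ℝ, μHE[finrank ℝ E3 - 1]
        ({x : E3 | ‖x‖ ≤ 3 / 2 ∧ h < ⟪u, x⟫} ∩ Helper75.hyp u s)
      ≤ ∫⁻ s : ℝ, (Ioc h (3 / 2)).indicator
          (fun s => ENNReal.ofReal (Real.pi * (9 / 4 - s ^ 2))) s :=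
        lintegral_mono fun s => cap_slice hu h0 s
    _ = ∫⁻ s in Ioc h (3 / 2), ENNReal.ofReal (Real.pi * (9 / 4 - s ^ 2)) :=
        lintegral_indicator measurableSet_Ioc _
    _ = ENNReal.ofReal (∫ s in Ioc h (3 / 2), Real.pi * (9 / 4 - s ^ 2)) := by
        rw [ofReal_integral_eq_lintegral_ofReal]
        · have hc : Continuous fun s : ℝ => Real.pi * (9 / 4 - s ^ 2) := by fun_prop
          exact (hc.integrableOn_Icc (a := h) (b := 3 / 2)).mono_set Ioc_subset_Icc_self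
        · refine (ae_restrict_iff' measurableSet_Ioc).2 (ae_of_all _ fun s hs => ?_)
          have : 0 ≤ 9 / 4 - s ^ 2 := by nlinarith [hs.1, hs.2]
          exact mul_nonneg Real.pi_pos.le this
    _ = ENNReal.ofReal (Real.pi / 3 * cc h) := by
        rw [← intervalIntegral.integral_of_le h1, cap_integral h]
    _ ≤ _ := le_rfl

/-- F2. The volume of a truncated ball (`vol (ball 0 (3/2)) = 9π/2`, minus the caps). -/
theorem ball_trunc {ι : Type} [Fintype ι] {u : ι → E3} {k : ι → ℝ} (hu : ∀ i, ‖u i‖ = 1)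
    (h0 : ∀ i, 0 < k i ∧ k i ≤ 3 / 2) :
    Real.pi / 3 * (13.5 - ∑ i, cc (k i)) ≤
      (volume {x : E3 | ‖x‖ ≤ 3 / 2 ∧ x ∈ PP u k}).toReal := by
  have hcc : ∀ i, 0 ≤ Real.pi / 3 * cc (k i) := by
    intro i
    unfold cc
    have := Real.pi_pos
    have h2 := (h0 i).1
    positivity
  have hsub : Metric.closedBall (0 : E3) (3 / 2) ⊆ {x : E3 | ‖x‖ ≤ 3 / 2 ∧ x ∈ PP u k} ∪
      ⋃ i, {x : E3 | ‖x‖ ≤ 3 / 2 ∧ k i < ⟪u i, x⟫} := by
    intro x hx
    rw [mem_closedBall_zero_iff] at hx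
    by_cases hP : x ∈ PP u k
    · exact Or.inl ⟨hx, hP⟩
    · right
      rw [mem_PP] at hP
      push Not at hP
      obtain ⟨i, hi⟩ := hP
      exact mem_iUnion.2 ⟨i, hx, hi⟩
  have hfin : volume {x : E3 | ‖x‖ ≤ 3 / 2 ∧ x ∈ PP u k} ≠ ⊤ := by
    refine ne_top_of_le_ne_top (isCompact_closedBall (0 : E3) (3 / 2)).measure_lt_top.ne
      (measure_mono fun x hx => ?_)
    rw [mem_closedBall_zero_iff]
    exact hx.1
  have h1 : volume (Metric.closedBall (0 : E3) (3 / 2)) ≤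
      volume {x : E3 | ‖x‖ ≤ 3 / 2 ∧ x ∈ PP u k} +
        ENNReal.ofReal (∑ i, Real.pi / 3 * cc (k i)) := by
    refine (measure_mono hsub).trans ((measure_union_le _ _).trans ?_)
    refine add_le_add le_rfl ?_
    rw [ENNReal.ofReal_sum_of_nonneg fun i _ => hcc i]
    refine (measure_iUnion_fintype_le _ _).trans ?_
    exact Finset.sum_le_sum fun i _ => cap_volume (hu i) (h0 i).1 (h0 i).2
  have h2 := ENNReal.toReal_mono (ENNReal.add_ne_top.2 ⟨hfin, ENNReal.ofReal_ne_top⟩) h1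
  rw [ENNReal.toReal_add hfin ENNReal.ofReal_ne_top,
    ENNReal.toReal_ofReal (Finset.sum_nonneg fun i _ => hcc i),
    EuclideanSpace.volume_closedBall_fin_three, ENNReal.toReal_mul, ENNReal.toReal_pow,
    ENNReal.toReal_ofReal (by norm_num), ENNReal.toReal_ofReal (by have := Real.pi_pos; positivity),
    ← Finset.mul_sum] at h2
  have h3 : Real.pi / 3 * (13.5 - ∑ i, cc (k i)) =
      (3 / 2) ^ 3 * (Real.pi * 4 / 3) - Real.pi / 3 * ∑ i, cc (k i) := by
    norm_num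
    ring
  rw [h3]
  linarith

end Pool.Agent.Helper65.PK
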