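import Mathlib
import Pool.Agent.Helper65.PK.Defs
import Pool.Agent.Helper75.Slice

/-!
# Project PK, piece G5

The slice of the piece at height `s` (`⟪u, x⟫ = s`) is `s u + s L {w ∈ T | g w < s ≤ f w}`
(`L w ⟂ u`), of area `s² |{w ∈ T | g w < s ≤ f w}|` (`Helper75.lintegral_slice_full`), so the
volume is `∫_0^∞ s² |{w ∈ T | g w < s ≤ f w}| ds = ∫_T ∫_{g w}^{f w} s² ds dw = ∫_T (f³ - g³)/3`.
-/

namespace Pool.Agent.Helper65.PK

open MeasureTheory Module Set
open scoped ENNReal RealInnerProductSpace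

/-- The parameter set of a cone piece. -/
def coneA (T : Set ℂ) (g f : ℂ → ℝ) : Set (ℝ × ℂ) :=
  {p | 0 < p.1 ∧ p.1⁻¹ • p.2 ∈ T ∧ g (p.1⁻¹ • p.2) < p.1 ∧ p.1 ≤ f (p.1⁻¹ • p.2)}

theorem measurableSet_coneA {T : Set ℂ} (hT : MeasurableSet T) {g f : ℂ → ℝ}
    (hg : Continuous g) (hf : Continuous f) : MeasurableSet (coneA T g f) := by
  have h1 : Measurable fun p : ℝ × ℂ => p.1⁻¹ • p.2 :=
    (measurable_fst.inv).smul measurable_snd
  have e : coneA T g f = {p : ℝ × ℂ | 0 < p.1} ∩ ((fun p : ℝ × ℂ => p.1⁻¹ • p.2) ⁻¹' T ∩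
      ({p : ℝ × ℂ | g (p.1⁻¹ • p.2) < p.1} ∩ {p : ℝ × ℂ | p.1 ≤ f (p.1⁻¹ • p.2)})) := rfl
  rw [e]
  exact (measurableSet_lt measurable_const measurable_fst).inter ((h1 hT).inter
    ((measurableSet_lt (hg.measurable.comp h1) measurable_fst).inter
      (measurableSet_le measurable_fst (hf.measurable.comp h1))))

/-- The linear parametrisation. -/
noncomputable def conePhi (u : E3) (L : ℂ →ₗᵢ[ℝ] E3) : ℝ × ℂ →ₗ[ℝ] E3 :=
  (LinearMap.fst ℝ ℝ ℂ).smulRight u + L.toLinearMap.comp (LinearMap.snd ℝ ℝ ℂ)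

theorem conePhi_apply (u : E3) (L : ℂ →ₗᵢ[ℝ] E3) (p : ℝ × ℂ) :
    conePhi u L p = p.1 • u + L p.2 := rfl

theorem inner_conePhi {u : E3} (hu : ‖u‖ = 1) (L : ℂ →ₗᵢ[ℝ] E3) (hL : ∀ w, ⟪u, L w⟫ = 0)
    (s : ℝ) (w : ℂ) : ⟪u, s • u + L w⟫ = s := by
  rw [inner_add_right, inner_smul_right, real_inner_self_eq_norm_sq, hu, hL]
  norm_num

theorem conePhi_injective {u : E3} (hu : ‖u‖ = 1) (L : ℂ →ₗᵢ[ℝ] E3) (hL : ∀ w, ⟪u, L w⟫ = 0) :
    Function.Injective (conePhi u L) := by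
  intro p q hpq
  rw [conePhi_apply, conePhi_apply] at hpq
  have h1 : p.1 = q.1 := by
    rw [← inner_conePhi hu L hL p.1 p.2, hpq, inner_conePhi hu L hL]
  rw [h1] at hpq
  exact Prod.ext h1 (L.injective (add_left_cancel hpq))

theorem conePiece_eq (u : E3) (L : ℂ →ₗᵢ[ℝ] E3) (T : Set ℂ) (g f : ℂ → ℝ)
    (h0 : ∀ w, 0 ≤ g w) : conePiece u L T g f = conePhi u L '' coneA T g f := by
  ext x
  constructor
  · rintro ⟨w, hw, s, hgs, hsf, rfl⟩
    have hs : 0 < s := (h0 w).trans_lt hgs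
    have e : s⁻¹ • (s • w) = w := inv_smul_smul₀ hs.ne' w
    refine ⟨(s, s • w), ⟨hs, ?_, ?_, ?_⟩, ?_⟩
    · simpa only [e] using hw
    · simpa only [e] using hgs
    · simpa only [e] using hsf
    · rw [conePhi_apply, map_smul, smul_add]
  · rintro ⟨⟨s, z⟩, ⟨hs, hT, hg, hf⟩, rfl⟩
    refine ⟨s⁻¹ • z, hT, s, hg, hf, ?_⟩
    rw [conePhi_apply, map_smul, smul_add, smul_inv_smul₀ (ne_of_gt hs)]

theorem measurableSet_conePiece {u : E3} (hu : ‖u‖ = 1) (L : ℂ →ₗᵢ[ℝ] E3)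
    (hL : ∀ w, ⟪u, L w⟫ = 0) {T : Set ℂ} (hT : MeasurableSet T) {g f : ℂ → ℝ}
    (hg : Continuous g) (hf : Continuous f) (h0 : ∀ w, 0 ≤ g w) :
    MeasurableSet (conePiece u L T g f) := by
  rw [conePiece_eq u L T g f h0]
  have hemb := LinearMap.isClosedEmbedding_of_injective (f := conePhi u L)
    (LinearMap.ker_eq_bot.2 (conePhi_injective hu L hL))
  exact hemb.measurableEmbedding.measurableSet_image.2 (measurableSet_coneA hT hg hf)

open scoped Pointwise in
theorem slice_conePiece {u : E3} (hu : ‖u‖ = 1) (L : ℂ →ₗᵢ[ℝ] E3)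
    (hL : ∀ w, ⟪u, L w⟫ = 0) (T : Set ℂ) (g f : ℂ → ℝ) (h0 : ∀ w, 0 ≤ g w) (s : ℝ) :
    μHE[finrank ℝ E3 - 1] (conePiece u L T g f ∩ Helper75.hyp u s) =
      ENNReal.ofReal (s ^ 2) * volume {w : ℂ | w ∈ T ∧ g w < s ∧ s ≤ f w} := by
  have himg : (fun z : ℂ => s • u + L z) '' {z | (s, z) ∈ coneA T g f} =
      conePiece u L T g f ∩ Helper75.hyp u s := by
    rw [conePiece_eq u L T g f h0]
    ext x
    constructor
    · rintro ⟨z, hz, rfl⟩
      exact ⟨⟨(s, z), hz, rfl⟩, inner_conePhi hu L hL s z⟩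
    · rintro ⟨⟨⟨s', z⟩, hz, rfl⟩, hx⟩
      have h1 : s' = s := by
        have := inner_conePhi hu L hL s' z
        rw [← this]; exact hx
      subst h1
      exact ⟨z, hz, rfl⟩
  have hiso : Isometry (fun z : ℂ => s • u + L z) := by
    refine Isometry.of_dist_eq fun a b => ?_
    rw [dist_add_left, L.dist_map]
  have hd : finrank ℝ E3 - 1 = finrank ℝ ℂ := by
    rw [Complex.finrank_real_complex, finrank_euclideanSpace, Fintype.card_fin]
  rw [← himg, hiso.euclideanHausdorffMeasure_image, hd,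
    InnerProductSpace.euclideanHausdorffMeasure_eq_volume]
  rcases lt_or_ge 0 s with hs | hs
  · have e : {z | (s, z) ∈ coneA T g f} = s • {w : ℂ | w ∈ T ∧ g w < s ∧ s ≤ f w} := by
      ext z
      rw [Set.mem_smul_set_iff_inv_smul_mem₀ hs.ne']
      exact ⟨fun h => h.2, fun h => ⟨hs, h⟩⟩
    rw [e, Measure.addHaar_smul, Complex.finrank_real_complex, abs_of_nonneg (by positivity)]
  · have e : {z | (s, z) ∈ coneA T g f} = ∅ := by
      ext z
      simp only [mem_ofPred_eq, mem_empty_iff_false, iff_false]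
      exact fun h => absurd h.1 (not_lt.2 hs)
    have e2 : {w : ℂ | w ∈ T ∧ g w < s ∧ s ≤ f w} = ∅ := by
      ext w
      simp only [mem_ofPred_eq, mem_empty_iff_false, iff_false]
      exact fun h => absurd ((h0 w).trans_lt h.2.1) (not_lt.2 hs)
    rw [e, e2, measure_empty, mul_zero]

theorem lintegral_sq_Ioc {a b : ℝ} (hab : a ≤ b) :
    ∫⁻ s in Ioc a b, ENNReal.ofReal (s ^ 2) = ENNReal.ofReal ((b ^ 3 - a ^ 3) / 3) := by
  have hint : IntegrableOn (fun s : ℝ => s ^ 2) (Ioc a b) :=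
    ((continuous_pow 2).integrableOn_Icc).mono_set Ioc_subset_Icc_self
  rw [← ofReal_integral_eq_lintegral_ofReal hint (Filter.Eventually.of_forall fun s => sq_nonneg s),
    ← intervalIntegral.integral_of_le hab, integral_pow]
  norm_num

/-- G5. The volume of a cone piece. -/
theorem volume_conePiece {u : E3} (hu : ‖u‖ = 1) (L : ℂ →ₗᵢ[ℝ] E3) (hL : ∀ w, ⟪u, L w⟫ = 0)
    {T : Set ℂ} (hT : MeasurableSet T) (hTb : Bornology.IsBounded T) {g f : ℂ → ℝ}
    (hg : Continuous g) (hf : Continuous f) (h0 : ∀ w, 0 ≤ g w) (hgf : ∀ w ∈ T, g w ≤ f w) :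
    volume (conePiece u L T g f) = ENNReal.ofReal ((∫ w in T, (f w ^ 3 - g w ^ 3)) / 3) := by
  have hu0 : u ≠ 0 := by
    rintro rfl
    rw [norm_zero] at hu
    exact zero_ne_one hu
  have h1 := Helper75.lintegral_slice_full hu0 (measurableSet_conePiece hu L hL hT hg hf h0)
  have hu1 : ‖u‖ₑ = 1 := by rw [← ofReal_norm, hu, ENNReal.ofReal_one]
  rw [hu1, one_mul, InnerProductSpace.euclideanHausdorffMeasure_eq_volume] at h1
  rw [← h1]
  simp_rw [slice_conePiece hu L hL T g f h0]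
  -- Fubini
  set B : Set (ℝ × ℂ) := {p | p.2 ∈ T ∧ g p.2 < p.1 ∧ p.1 ≤ f p.2} with hB
  have hBm : MeasurableSet B := by
    have e : B = (Prod.snd ⁻¹' T) ∩ ({p : ℝ × ℂ | g p.2 < p.1} ∩ {p : ℝ × ℂ | p.1 ≤ f p.2}) := rfl
    rw [e]
    exact (measurable_snd hT).inter ((measurableSet_lt (hg.measurable.comp measurable_snd)
      measurable_fst).inter (measurableSet_le measurable_fst (hf.measurable.comp measurable_snd)))
  set F : ℝ → ℂ → ℝ≥0∞ := fun s w => B.indicator (fun p => ENNReal.ofReal (p.1 ^ 2)) (s, w) with hF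
  have hFm : Measurable (Function.uncurry F) := by
    have : Measurable (B.indicator (fun p : ℝ × ℂ => ENNReal.ofReal (p.1 ^ 2))) :=
      (Measurable.ennreal_ofReal (measurable_fst.pow_const 2)).indicator hBm
    exact this
  have h2 : ∀ s : ℝ, ENNReal.ofReal (s ^ 2) * volume {w : ℂ | w ∈ T ∧ g w < s ∧ s ≤ f w} =
      ∫⁻ w, F s w := by
    intro s
    have hm : MeasurableSet {w : ℂ | w ∈ T ∧ g w < s ∧ s ≤ f w} :=
      hT.inter ((measurableSet_lt hg.measurable measurable_const).inter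
        (measurableSet_le measurable_const hf.measurable))
    have e : ∀ w, F s w = {w : ℂ | w ∈ T ∧ g w < s ∧ s ≤ f w}.indicator
        (fun _ => ENNReal.ofReal (s ^ 2)) w := by
      intro w
      by_cases hw : w ∈ {w : ℂ | w ∈ T ∧ g w < s ∧ s ≤ f w}
      · rw [indicator_of_mem hw]
        exact indicator_of_mem (show (s, w) ∈ B from hw) _
      · rw [indicator_of_notMem hw]
        exact indicator_of_notMem (show (s, w) ∉ B from hw) _
    simp_rw [e]
    rw [lintegral_indicator hm, setLIntegral_const]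
  simp_rw [h2]
  rw [lintegral_lintegral_swap hFm.aemeasurable]
  have h3 : ∀ w : ℂ, ∫⁻ s, F s w = T.indicator
      (fun w => ENNReal.ofReal ((f w ^ 3 - g w ^ 3) / 3)) w := by
    intro w
    by_cases hw : w ∈ T
    · rw [indicator_of_mem hw, ← lintegral_sq_Ioc (hgf w hw), ← lintegral_indicator measurableSet_Ioc]
      refine lintegral_congr fun s => ?_
      by_cases hs : s ∈ Ioc (g w) (f w)
      · rw [indicator_of_mem hs]
        exact indicator_of_mem (show (s, w) ∈ B from ⟨hw, hs.1, hs.2⟩) _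
      · rw [indicator_of_notMem hs]
        exact indicator_of_notMem (show (s, w) ∉ B from fun h => hs ⟨h.2.1, h.2.2⟩) _
    · rw [indicator_of_notMem hw]
      have : ∀ s, F s w = 0 := fun s => indicator_of_notMem (show (s, w) ∉ B from fun h => hw h.1) _
      simp_rw [this]
      exact lintegral_zero
  simp_rw [h3]
  rw [lintegral_indicator hT]
  have hc : Continuous fun w : ℂ => (f w ^ 3 - g w ^ 3) / 3 := by fun_prop
  have hint : IntegrableOn (fun w : ℂ => (f w ^ 3 - g w ^ 3) / 3) T := by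
    obtain ⟨r, hr⟩ := hTb.subset_closedBall 0
    exact (hc.continuousOn.integrableOn_compact (isCompact_closedBall (0 : ℂ) r)).mono_set hr
  rw [← ofReal_integral_eq_lintegral_ofReal hint, integral_div]
  rw [Filter.EventuallyLE, ae_restrict_iff' hT]
  refine Filter.Eventually.of_forall fun w hw => ?_
  have h4 : g w ^ 3 ≤ f w ^ 3 := pow_le_pow_left₀ (h0 w) (hgf w hw) 3
  show 0 ≤ (f w ^ 3 - g w ^ 3) / 3
  linarith

end Pool.Agent.Helper65.PK
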