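import Pool.Agent.Helper65.PK.Basic

/-!
# Project PK, piece A1

Only the fat faces matter. Suppose `x ∉ PP u h`, take `w` in the interior and the first point
`z = w + t (x - w)`, `t < 1`, of the segment on a hyperplane of a violated constraint. For generic
`w` (off finitely many planes) all the constraints tight at `z` have the same normal, so this
constraint is fat, and it is violated at `x`.
-/

namespace Pool.Agent.Helper65.PK

open MeasureTheory Module Set
open scoped ENNReal RealInnerProductSpace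

/-- The complement of a plane is open and dense. -/
lemma A1_dense (g : E3) (c : ℝ) (hg : g ≠ 0) :
    IsOpen {w : E3 | ⟪g, w⟫ ≠ c} ∧ Dense {w : E3 | ⟪g, w⟫ ≠ c} := by
  refine ⟨isOpen_ne_fun (by fun_prop) continuous_const, ?_⟩
  rw [Metric.dense_iff]
  intro w r hr
  by_cases h : ⟪g, w⟫ = c
  · have hg0 : 0 < ‖g‖ := norm_pos_iff.mpr hg
    refine ⟨w + (r / 2 / ‖g‖) • g, ?_, ?_⟩
    · rw [Metric.mem_ball, dist_eq_norm, add_sub_cancel_left, norm_smul, Real.norm_eq_abs,
        abs_of_pos (by positivity), div_mul_cancel₀ _ hg0.ne']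
      linarith
    · show ⟪g, w + (r / 2 / ‖g‖) • g⟫ ≠ c
      rw [inner_add_right, inner_smul_right, real_inner_self_eq_norm_sq, h]
      have : 0 < r / 2 / ‖g‖ * ‖g‖ ^ 2 := by positivity
      linarith
  · exact ⟨w, Metric.mem_ball_self hr, h⟩

/-- A1. Only the fat faces matter. -/
theorem mem_PP_of_fat {ι : Type} [Finite ι] {u : ι → E3} {h : ι → ℝ} (hu : ∀ i, ‖u i‖ = 1)
    (hb : Bornology.IsBounded (PP u h)) (hint : (interior (PP u h)).Nonempty) {x : E3}
    (hx : ∀ i, Fat u h i → ⟪u i, x⟫ ≤ h i) : x ∈ PP u h := by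
  classical
  have := Fintype.ofFinite ι
  by_contra hxP
  -- a generic interior point
  let a : ι → ℝ := fun i => ⟪u i, x⟫ - h i
  let S : ι × ι → Set E3 := fun p =>
    if 0 < a p.1 ∧ 0 < a p.2 ∧ u p.1 ≠ u p.2 then
      {w | ⟪a p.2 • u p.1 - a p.1 • u p.2, w⟫ ≠ a p.2 * h p.1 - a p.1 * h p.2} else univ
  have hS : ∀ p, IsOpen (S p) ∧ Dense (S p) := by
    intro p
    by_cases hp : 0 < a p.1 ∧ 0 < a p.2 ∧ u p.1 ≠ u p.2
    · simp only [S, if_pos hp]
      refine A1_dense _ _ ?_
      intro h0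
      have h1 : a p.2 • u p.1 = a p.1 • u p.2 := sub_eq_zero.mp h0
      have h2 : a p.2 = a p.1 := by
        have := congrArg norm h1
        rw [norm_smul, norm_smul, hu, hu, mul_one, mul_one, Real.norm_eq_abs, Real.norm_eq_abs,
          abs_of_pos hp.2.1, abs_of_pos hp.1] at this
        exact this
      rw [h2] at h1
      exact hp.2.2 (smul_right_injective _ hp.1.ne' h1)
    · simp only [S, if_neg hp]
      exact ⟨isOpen_univ, dense_univ⟩
  have hdense : Dense (⋂ p, S p) :=
    dense_iInter_of_isOpen (fun p => (hS p).1) (fun p => (hS p).2)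
  obtain ⟨w, hwP, hwS⟩ := hdense.inter_open_nonempty _ isOpen_interior hint
  have hw : ∀ i, ⟪u i, w⟫ < h i := fun i => lt_of_mem_interior hwP (hu i)
  have hgen : ∀ i j, 0 < a i → 0 < a j → u i ≠ u j →
      a j * (⟪u i, w⟫ - h i) ≠ a i * (⟪u j, w⟫ - h j) := by
    intro i j hi hj hij
    have h1 := mem_iInter.mp hwS (i, j)
    simp only [S, if_pos (show 0 < a i ∧ 0 < a j ∧ u i ≠ u j from ⟨hi, hj, hij⟩), mem_setOf_eq,
      inner_sub_left, real_inner_smul_left] at h1
    intro h2
    apply h1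
    linarith
  -- the violated constraint met first
  let V : Finset ι := Finset.univ.filter fun i => 0 < a i
  have hV : V.Nonempty := by
    have h1 : ∃ i, ¬ ⟪u i, x⟫ ≤ h i := by
      by_contra hc
      push Not at hc
      exact hxP hc
    obtain ⟨i, hi⟩ := h1
    refine ⟨i, ?_⟩
    simp only [V, Finset.mem_filter, Finset.mem_univ, true_and, a]
    linarith
  obtain ⟨i, hiV, hmin⟩ := V.exists_min_image
    (fun i => (h i - ⟪u i, w⟫) / (⟪u i, x⟫ - ⟪u i, w⟫)) hV
  have hai : 0 < a i := (Finset.mem_filter.mp hiV).2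
  set t : ℝ := (h i - ⟪u i, w⟫) / (⟪u i, x⟫ - ⟪u i, w⟫) with ht
  have hwi := hw i
  have hden : 0 < ⟪u i, x⟫ - ⟪u i, w⟫ := by
    have : 0 < ⟪u i, x⟫ - h i := hai
    linarith
  have ht0 : 0 < t := div_pos (by linarith) hden
  have ht1 : t < 1 := by
    rw [ht, div_lt_one hden]
    have : 0 < ⟪u i, x⟫ - h i := hai
    linarith
  set z : E3 := w + t • (x - w) with hz
  have hzj : ∀ j, ⟪u j, z⟫ = ⟪u j, w⟫ + t * (⟪u j, x⟫ - ⟪u j, w⟫) := by
    intro j
    rw [hz, inner_add_right, inner_smul_right, inner_sub_right]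
  have hzi : ⟪u i, z⟫ = h i := by
    rw [hzj, ht, div_mul_cancel₀ _ hden.ne']
    ring
  have hcase : ∀ j, ⟪u j, z⟫ < h j ∨ (u j = u i ∧ h j = h i) := by
    intro j
    have hwj := hw j
    by_cases haj : 0 < a j
    · have haj' : 0 < ⟪u j, x⟫ - h j := haj
      have hden' : 0 < ⟪u j, x⟫ - ⟪u j, w⟫ := by linarith
      have h1 := hmin j (by simp [V, haj])
      have h2 : t ≤ (h j - ⟪u j, w⟫) / (⟪u j, x⟫ - ⟪u j, w⟫) := h1
      rw [le_div_iff₀ hden'] at h2
      rcases lt_or_eq_of_le h2 with h3 | h3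
      · left
        rw [hzj]
        linarith
      · right
        have hzj' : ⟪u j, z⟫ = h j := by
          rw [hzj]
          linarith
        have huu : u j = u i := by
          by_contra hne
          apply hgen j i haj hai hne
          have e1 : h j - ⟪u j, w⟫ = t * (⟪u j, x⟫ - ⟪u j, w⟫) := by linarith
          have e2 : h i - ⟪u i, w⟫ = t * (⟪u i, x⟫ - ⟪u i, w⟫) := by
            rw [ht, div_mul_cancel₀ _ hden.ne']
          have e3 : (1 - t) * (⟪u j, w⟫ - h j) = - (t * a j) := by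
            show (1 - t) * (⟪u j, w⟫ - h j) = - (t * (⟪u j, x⟫ - h j))
            linarith
          have e4 : (1 - t) * (⟪u i, w⟫ - h i) = - (t * a i) := by
            show (1 - t) * (⟪u i, w⟫ - h i) = - (t * (⟪u i, x⟫ - h i))
            linarith
          have h1t : (1 - t) ≠ 0 := by linarith
          apply mul_left_cancel₀ h1t
          calc (1 - t) * (a i * (⟪u j, w⟫ - h j)) = a i * ((1 - t) * (⟪u j, w⟫ - h j)) := by ring
            _ = a j * ((1 - t) * (⟪u i, w⟫ - h i)) := by
              rw [e3, e4]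
              ring
            _ = (1 - t) * (a j * (⟪u i, w⟫ - h i)) := by ring
        refine ⟨huu, ?_⟩
        rw [← hzj', huu, hzi]
    · left
      have haj' : ⟪u j, x⟫ - h j ≤ 0 := not_lt.mp haj
      rw [hzj]
      nlinarith
  -- the constraint is fat
  have hfat : Fat u h i := by
    have hopen : IsOpen {y : E3 | ∀ j, (u j = u i ∧ h j = h i) ∨ ⟪u j, y⟫ < h j} := by
      have : {y : E3 | ∀ j, (u j = u i ∧ h j = h i) ∨ ⟪u j, y⟫ < h j} =
          ⋂ j, {y : E3 | (u j = u i ∧ h j = h i) ∨ ⟪u j, y⟫ < h j} := by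
        ext y
        simp
      rw [this]
      refine isOpen_iInter_of_finite fun j => ?_
      by_cases hj : u j = u i ∧ h j = h i
      · simp [hj]
      · simp only [hj, false_or]
        exact isOpen_lt (by fun_prop) continuous_const
    obtain ⟨ε, hε, hball⟩ := Metric.isOpen_iff.mp hopen z (fun j => (hcase j).symm)
    refine ⟨z, ε, hε, hzi, fun y hy hyz j => ?_⟩
    have h1 := hball (show y ∈ Metric.ball z ε by rwa [Metric.mem_ball, dist_eq_norm]) j
    rcases h1 with h1 | h1
    · rw [h1.1, h1.2, hy]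
    · exact h1.le
  have := hx i hfat
  have h0 : 0 < ⟪u i, x⟫ - h i := hai
  linarith

end Pool.Agent.Helper65.PK
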