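import Pool.Agent.Helper65.PK.P.D6
import Pool.Agent.Helper65.PK.P.A1

/-!
# Project PK, piece G7

From D6 and A1. Let `ι = Fin 6 ⊕ (Fin 3 × Bool)` with the six half-spaces `⟪u i, x⟫ ≤ 1` and the box
`|x_k| ≤ 2` (unit normals `± e_k`, `h = 2`): bounded, the origin is interior. `G` = the `i : Fin 6`
such that the index `Sum.inl i` is fat. For `‖x‖ ≤ √3 < 2` the box constraints are strict, so by A1
(applied to the point `x`) the second claim holds. First claim: for `i ∉ G` the convex set of the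
`w : ℂ` has empty interior (an interior point would give a disc in the face `i`, `‖w‖ ≤ √2` and
`‖u i + L w‖² = 1 + ‖w‖²`), so it is null (`Convex.addHaar_frontier`). Third claim: if `#G ≥ 3`
D6 gives `Σ_{i ∈ G} nb ≤ 6 #G - 12 ≤ 24`; the sets in the statement are contained in
`F_i ∩ F_j`. If `#G ≤ 2` each term is at most `1`.
-/

namespace Pool.Agent.Helper65.PK

open MeasureTheory Module Set
open scoped ENNReal RealInnerProductSpace

namespace G7

/-- the normals: the six given ones and those of a box -/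
noncomputable def U (u : Fin 6 → E3) : Fin 6 ⊕ (Fin 3 × Bool) → E3
  | Sum.inl i => u i
  | Sum.inr (k, b) => if b then EuclideanSpace.single k 1 else -EuclideanSpace.single k 1

/-- the right hand sides -/
noncomputable def H : Fin 6 ⊕ (Fin 3 × Bool) → ℝ
  | Sum.inl _ => 1
  | Sum.inr _ => 2

theorem U_unit {u : Fin 6 → E3} (hu : ∀ i, ‖u i‖ = 1) (i : Fin 6 ⊕ (Fin 3 × Bool)) :
    ‖U u i‖ = 1 := by
  rcases i with i | ⟨k, b⟩
  · exact hu i
  · cases b <;> simp [U]

theorem U_bdd {u : Fin 6 → E3} : Bornology.IsBounded (PP (U u) H) := by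
  rw [isBounded_iff_forall_norm_le]
  refine ⟨√12, fun x hx => ?_⟩
  have hk : ∀ k, x k ^ 2 ≤ 4 := by
    intro k
    have h1 := hx (Sum.inr (k, true))
    have h2 := hx (Sum.inr (k, false))
    simp only [U, H, if_true, EuclideanSpace.inner_single_left, map_one, one_mul] at h1
    simp only [U, H, Bool.false_eq_true, if_false, inner_neg_left,
      EuclideanSpace.inner_single_left, map_one, one_mul] at h2
    nlinarith
  rw [EuclideanSpace.norm_eq]
  apply Real.sqrt_le_sqrt
  rw [Fin.sum_univ_three]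
  simp only [Real.norm_eq_abs, sq_abs]
  have := hk 0
  have := hk 1
  have := hk 2
  linarith

theorem inner_le_norm {v x : E3} (hv : ‖v‖ = 1) : ⟪v, x⟫ ≤ ‖x‖ := by
  have := real_inner_le_norm v x
  rwa [hv, one_mul] at this

theorem U_int {u : Fin 6 → E3} (hu : ∀ i, ‖u i‖ = 1) :
    (interior (PP (U u) H)).Nonempty := by
  refine ⟨0, ?_⟩
  rw [mem_interior_iff_mem_nhds, Metric.mem_nhds_iff]
  refine ⟨1, one_pos, fun x hx i => ?_⟩
  rw [Metric.mem_ball, dist_zero_right] at hx
  have h1 := inner_le_norm (x := x) (U_unit hu i)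
  rcases i with i | k
  · simp only [H]; linarith
  · simp only [H]; linarith

theorem mem_of_good {u : Fin 6 → E3} (hu : ∀ i, ‖u i‖ = 1) {x : E3} (hx : ‖x‖ ≤ √3)
    (h : ∀ i, Fat (U u) H (Sum.inl i) → ⟪u i, x⟫ ≤ 1) : x ∈ PP (U u) H := by
  apply mem_PP_of_fat (U_unit hu) U_bdd (U_int hu)
  intro i hi
  rcases i with i | k
  · exact h i hi
  · have h1 := inner_le_norm (x := x) (U_unit hu (Sum.inr k))
    have h2 : √3 < 2 := by
      rw [Real.sqrt_lt' (by norm_num)]; norm_num
    simp only [H]; linarith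

theorem exists_preimage {v : E3} (hv : ‖v‖ = 1) (L : ℂ →ₗᵢ[ℝ] E3) (hL : ∀ w, ⟪v, L w⟫ = 0)
    {y : E3} (hy : ⟪v, y⟫ = 0) : ∃ w, L w = y := by
  have hv0 : v ≠ 0 := by
    intro h; rw [h, norm_zero] at hv; exact zero_ne_one hv
  have hle : LinearMap.range L.toLinearMap ≤ (ℝ ∙ v)ᗮ := by
    rintro _ ⟨w, rfl⟩
    rw [Submodule.mem_orthogonal_singleton_iff_inner_right]
    exact hL w
  have hfin : finrank ℝ (LinearMap.range L.toLinearMap) = finrank ℝ (ℝ ∙ v)ᗮ := by
    rw [LinearMap.finrank_range_of_inj L.injective, Complex.finrank_real_complex]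
    have : Fact (finrank ℝ E3 = 2 + 1) := ⟨by simp⟩
    rw [Submodule.finrank_orthogonal_span_singleton (n := 2) hv0]
  have heq := Submodule.eq_of_le_of_finrank_eq hle hfin
  have hy' : y ∈ (ℝ ∙ v)ᗮ := by
    rw [Submodule.mem_orthogonal_singleton_iff_inner_right]
    exact hy
  rw [← heq] at hy'
  obtain ⟨w, hw⟩ := hy'
  exact ⟨w, hw⟩

end G7

open Classical in
/-- G7. The planarity count for six planes at distance one. -/
theorem six_planar {u : Fin 6 → E3} (hu : ∀ i, ‖u i‖ = 1) (hinj : Function.Injective u) :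
    ∃ G : Finset (Fin 6),
      (∀ i, i ∉ G → ∀ L : ℂ →ₗᵢ[ℝ] E3, (∀ w, ⟪u i, L w⟫ = 0) →
        volume {w : ℂ | ‖w‖ ≤ √2 ∧ ∀ j ∈ G, ⟪u j, u i + L w⟫ ≤ 1} = 0) ∧
      (∀ x : E3, ‖x‖ ≤ √3 → (∀ i ∈ G, ⟪u i, x⟫ ≤ 1) → ∀ i, ⟪u i, x⟫ ≤ 1) ∧
      ∑ i ∈ G, (G.filter fun j => j ≠ i ∧ {x : E3 | ‖x‖ ≤ √3 ∧ (∀ k ∈ G, ⟪u k, x⟫ ≤ 1) ∧
        ⟪u i, x⟫ = 1 ∧ ⟪u j, x⟫ = 1}.Nontrivial).card ≤ 24 := by
  set G : Finset (Fin 6) := Finset.univ.filter fun i => Fat (G7.U u) G7.H (Sum.inl i) with hG
  have hmem : ∀ x : E3, ‖x‖ ≤ √3 → (∀ i ∈ G, ⟪u i, x⟫ ≤ 1) → x ∈ PP (G7.U u) G7.H := by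
    intro x hx h
    apply G7.mem_of_good hu hx
    intro i hi
    exact h i (by rw [hG, Finset.mem_filter]; exact ⟨Finset.mem_univ _, hi⟩)
  refine ⟨G, ?_, ?_, ?_⟩
  · intro i hi L hL
    set W : Set ℂ := {w : ℂ | ‖w‖ ≤ √2 ∧ ∀ j ∈ G, ⟪u j, u i + L w⟫ ≤ 1} with hW
    have hnorm : ∀ w : ℂ, ‖u i + L w‖ ^ 2 = 1 + ‖w‖ ^ 2 := by
      intro w
      rw [norm_add_sq_real, hL w, hu i, L.norm_map]
      ring
    have hWmem : ∀ w ∈ W, u i + L w ∈ PP (G7.U u) G7.H := by
      intro w hw
      apply hmem _ _ hw.2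
      apply Real.le_sqrt_of_sq_le
      rw [hnorm]
      have h1 : ‖w‖ ^ 2 ≤ 2 := by
        calc ‖w‖ ^ 2 ≤ √2 ^ 2 := pow_le_pow_left₀ (norm_nonneg _) hw.1 2
          _ = 2 := Real.sq_sqrt (by norm_num)
      linarith
    have hconv : Convex ℝ W := by
      intro a ha b hb s t hs ht hst
      refine ⟨?_, ?_⟩
      · calc ‖s • a + t • b‖ ≤ ‖s • a‖ + ‖t • b‖ := norm_add_le _ _
          _ = s * ‖a‖ + t * ‖b‖ := by
            rw [norm_smul, norm_smul, Real.norm_of_nonneg hs, Real.norm_of_nonneg ht]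
          _ ≤ s * √2 + t * √2 := by
            have := mul_le_mul_of_nonneg_left ha.1 hs
            have := mul_le_mul_of_nonneg_left hb.1 ht
            linarith
          _ = √2 := by rw [← add_mul, hst, one_mul]
      · intro j hj
        have h1 := mul_le_mul_of_nonneg_left (ha.2 j hj) hs
        have h2 := mul_le_mul_of_nonneg_left (hb.2 j hj) ht
        have h3 : u i + L (s • a + t • b) = s • (u i + L a) + t • (u i + L b) := by
          rw [map_add, map_smul, map_smul, smul_add, smul_add, add_add_add_comm, ← add_smul, hst,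
            one_smul]
        rw [h3, inner_add_right, inner_smul_right, inner_smul_right]
        linarith
    have hint : interior W = ∅ := by
      by_contra hne
      obtain ⟨w0, hw0⟩ := Set.nonempty_iff_ne_empty.mpr hne
      rw [mem_interior_iff_mem_nhds, Metric.mem_nhds_iff] at hw0
      obtain ⟨ε, hε, hball⟩ := hw0
      apply hi
      rw [hG, Finset.mem_filter]
      refine ⟨Finset.mem_univ _, u i + L w0, ε, hε, ?_, ?_⟩
      · simp only [G7.U, G7.H]
        rw [inner_add_right, hL w0, real_inner_self_eq_norm_sq, hu i]; norm_num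
      · intro y hy hyε
        simp only [G7.U, G7.H] at hy
        obtain ⟨w, hw⟩ := G7.exists_preimage (hu i) L hL (y := y - u i) (by
          rw [inner_sub_right, hy, real_inner_self_eq_norm_sq, hu i]; norm_num)
        have hyw : y = u i + L w := by rw [hw]; abel
        rw [hyw]
        apply hWmem
        apply hball
        rw [Metric.mem_ball, dist_eq_norm, ← L.norm_map, map_sub]
        rw [hyw] at hyε
        have : u i + L w - (u i + L w0) = L w - L w0 := by abel
        rwa [this] at hyε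
    have hfr : W ⊆ frontier W := by
      intro w hw
      rw [frontier, hint, sdiff_empty]
      exact subset_closure hw
    exact measure_mono_null hfr (hconv.addHaar_frontier volume)
  · intro x hx h i
    exact hmem x hx h (Sum.inl i)
  · by_cases h3 : 3 ≤ G.card
    · set I : Finset (Fin 6 ⊕ (Fin 3 × Bool)) := G.map ⟨Sum.inl, Sum.inl_injective⟩ with hI
      have hcard : I.card = G.card := Finset.card_map _
      have h6 : G.card ≤ 6 := by
        have := Finset.card_le_univ G
        simpa using this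
      have hpl := planar (u := G7.U u) (h := G7.H) (G7.U_unit hu) G7.U_bdd (G7.U_int hu) I
        (by
          intro a ha b hb hab
          rw [hI, Finset.coe_map] at ha hb
          obtain ⟨a', -, rfl⟩ := ha
          obtain ⟨b', -, rfl⟩ := hb
          exact congrArg Sum.inl (hinj hab))
        (by
          intro a ha
          rw [hI, Finset.mem_map] at ha
          obtain ⟨a', ha', rfl⟩ := ha
          rw [hG, Finset.mem_filter] at ha'
          exact ha'.2)
        (by rw [hcard]; exact h3)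
      rw [hcard, hI, Finset.sum_map] at hpl
      have hle : ∑ i ∈ G, (G.filter fun j => j ≠ i ∧ {x : E3 | ‖x‖ ≤ √3 ∧
          (∀ k ∈ G, ⟪u k, x⟫ ≤ 1) ∧ ⟪u i, x⟫ = 1 ∧ ⟪u j, x⟫ = 1}.Nontrivial).card ≤
          ∑ i ∈ G, nb (G7.U u) G7.H (G.map ⟨Sum.inl, Sum.inl_injective⟩) (Sum.inl i) := by
        apply Finset.sum_le_sum
        intro i _
        unfold nb
        refine Finset.card_le_card_of_injOn Sum.inl ?_ Sum.inl_injective.injOn
        intro j hj
        simp only [Finset.mem_coe, Finset.mem_filter] at hj ⊢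
        refine ⟨Finset.mem_map.mpr ⟨j, hj.1, rfl⟩, fun h => hj.2.1 (Sum.inl_injective h),
          hj.2.2.mono ?_⟩
        intro x hx
        have hxP := hmem x hx.1 hx.2.1
        exact ⟨⟨hxP, hx.2.2.1⟩, ⟨hxP, hx.2.2.2⟩⟩
      simp only [Function.Embedding.coeFn_mk] at hpl
      omega
    · push Not at h3
      calc _ ≤ ∑ i ∈ G, G.card := Finset.sum_le_sum fun i _ =>
            Finset.card_le_card (Finset.filter_subset _ _)
        _ = G.card * G.card := by rw [Finset.sum_const, smul_eq_mul]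
        _ ≤ 24 := by nlinarith

end Pool.Agent.Helper65.PK
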