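import Pool.Agent.Helper65.PK.P.G4b
import Pool.Agent.Helper65.PK.P.G5
import Pool.Agent.Helper65.PK.P.G7

/-!
# Project PK, piece G6

From G4b, G5, G7. `K = {‖x‖ ≤ √3, ⟪u i, x⟫ ≤ 1 ∀ i}`, `G` from G7 (so `K` is given by `G`). For
`i ∈ G` let `L_i` be a linear isometry of `ℂ` onto `(u i)ᗮ` and
`T_i = {w | ‖w‖ ≤ √2, ⟪u j, u i + L_i w⟫ ≤ 1 ∀ j ∈ G, j ≠ i}`; `⟪u j, u i + L_i w⟫ ≤ 1` reads
`Re (conj (c j) w) ≤ b j` with `c j` = adjoint of `L_i` at `u j`, `b j = 1 - ⟪u i, u j⟫ > 0`.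
(1) `closedBall 0 √3 \ K ⊆ ⋃ i ∈ G, conePiece (u i) L_i T_i 1 (√3 / √(1+‖w‖²))`: for `x` in it let
`i ∈ G` maximise `s = ⟪u i, x⟫ > 1`, `w` with `x / s = u i + L_i w`. (2) The pieces
`conePiece (u i) L_i T_i 0 (1/√(1+‖w‖²))` lie in `closedBall 0 1` and are almost disjoint (a common
point `x` has `⟪u i, x⟫ = ⟪u j, x⟫`: a plane). By G5: `3 vol K ≥ 4π·3√3 - Σ ∫_{T_i} (3√3
(1+‖w‖²)^(-3/2) - 1)` and `Σ ∫_{T_i} (1+‖w‖²)^(-3/2) ≤ 4π`; so
`3 vol K ≥ 4π lam - Σ_{i ∈ G} ∫_{T_i} (lam (1+‖w‖²)^(-3/2) - 1) ≥ 4π lam - Σ_{i ∈ G} (2π c1 + 2 c0 n_i)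
≥ 4π lam - 12 π c1 - 48 c0 = 24` (`Σ n_i ≤ 24`, `#G ≤ 6`).
-/

namespace Pool.Agent.Helper65.PK

open MeasureTheory Module Set
open scoped ENNReal RealInnerProductSpace

/-- An isometry of `ℂ` onto the orthogonal complement of a unit vector. -/
theorem g6_exists_iso {v : E3} (hv : ‖v‖ = 1) : ∃ L : ℂ →ₗᵢ[ℝ] E3, (∀ w, ⟪v, L w⟫ = 0) ∧
    ∀ y, ⟪v, y⟫ = 0 → ∃ w, L w = y := by
  have hv0 : v ≠ 0 := by
    intro h
    rw [h, norm_zero] at hv
    exact zero_ne_one hv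
  haveI : Fact (finrank ℝ E3 = 2 + 1) := ⟨by simp⟩
  let e := (OrthonormalBasis.fromOrthogonalSpanSingleton (𝕜 := ℝ) 2 hv0).repr
  let f : ℂ ≃ₗᵢ[ℝ] (ℝ ∙ v)ᗮ := Complex.orthonormalBasisOneI.repr.trans e.symm
  refine ⟨(ℝ ∙ v)ᗮ.subtypeₗᵢ.comp f.toLinearIsometry, fun w => ?_, fun y hy => ?_⟩
  · exact Submodule.mem_orthogonal_singleton_iff_inner_right.mp (f w).2
  · have hy' : y ∈ (ℝ ∙ v)ᗮ := Submodule.mem_orthogonal_singleton_iff_inner_right.mpr hy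
    refine ⟨f.symm ⟨y, hy'⟩, ?_⟩
    show ((f (f.symm ⟨y, hy'⟩) : (ℝ ∙ v)ᗮ) : E3) = y
    rw [f.apply_symm_apply]

theorem g6_norm {v : E3} (hv : ‖v‖ = 1) {L : ℂ →ₗᵢ[ℝ] E3} (hL : ∀ w, ⟪v, L w⟫ = 0) (w : ℂ) :
    ‖v + L w‖ = √(1 + ‖w‖ ^ 2) := by
  have h : ‖v + L w‖ ^ 2 = 1 + ‖w‖ ^ 2 := by
    rw [norm_add_sq_real, hL, hv, L.norm_map]
    ring
  rw [← h, Real.sqrt_sq (norm_nonneg _)]

theorem g6_inner {v : E3} (hv : ‖v‖ = 1) {L : ℂ →ₗᵢ[ℝ] E3} (hL : ∀ w, ⟪v, L w⟫ = 0) (w : ℂ)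
    (s : ℝ) : ⟪v, s • (v + L w)⟫ = s := by
  rw [inner_smul_right, inner_add_right, hL, real_inner_self_eq_norm_sq, hv]
  ring

theorem g6_dec {v : E3} (hv : ‖v‖ = 1) {L : ℂ →ₗᵢ[ℝ] E3}
    (hs : ∀ y, ⟪v, y⟫ = 0 → ∃ w, L w = y) {x : E3} (hx : 0 < ⟪v, x⟫) :
    ∃ w, x = ⟪v, x⟫ • (v + L w) := by
  obtain ⟨w, hw⟩ := hs ((⟪v, x⟫)⁻¹ • x - v) (by
    rw [inner_sub_right, inner_smul_right, real_inner_self_eq_norm_sq, hv,
      inv_mul_cancel₀ hx.ne']
    norm_num)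
  refine ⟨w, ?_⟩
  rw [hw, add_sub_cancel, smul_smul, mul_inv_cancel₀ hx.ne', one_smul]

theorem g6_rpow {a : ℝ} (ha : 0 < a) : (1 / √a) ^ 3 = a ^ (-(3 / 2) : ℝ) := by
  have h : (√a) ^ 3 = a ^ (3 / 2 : ℝ) := by
    rw [Real.sqrt_eq_rpow, ← Real.rpow_natCast, ← Real.rpow_mul ha.le]
    norm_num
  rw [one_div, inv_pow, h, Real.rpow_neg ha.le]

theorem g6_sqrt3 : (√3 : ℝ) ^ 3 = 3 * √3 := by
  have h : (√3 : ℝ) ^ 2 = 3 := Real.sq_sqrt (by norm_num)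
  calc (√3 : ℝ) ^ 3 = √3 ^ 2 * √3 := by ring
    _ = 3 * √3 := by rw [h]

theorem g6_rpow' {a : ℝ} (ha : 0 < a) : (√3 / √a) ^ 3 = 3 * √3 * a ^ (-(3 / 2) : ℝ) := by
  rw [← g6_rpow ha, ← g6_sqrt3]
  ring

theorem g6_c0 : 0 ≤ c0 := by
  have h1 : (√3 : ℝ) < 1.7321 := by
    rw [Real.sqrt_lt' (by norm_num)]
    norm_num
  have h2 := Real.pi_gt_d4
  unfold c0
  have h3 : (0 : ℝ) < Real.pi := Real.pi_pos
  nlinarith

theorem g6_c1 : 0 ≤ c1 := by
  have h1 : (1.5 : ℝ) ≤ √3 := by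
    apply Real.le_sqrt_of_sq_le
    norm_num
  unfold c1
  linarith

/-- The measurable form of the inner pieces. -/
theorem g6_piece_eq {u : Fin 6 → E3} (G : Finset (Fin 6)) {v : E3} (hv : ‖v‖ = 1)
    {L : ℂ →ₗᵢ[ℝ] E3} (hL : ∀ w, ⟪v, L w⟫ = 0) (hs : ∀ y, ⟪v, y⟫ = 0 → ∃ w, L w = y) :
    conePiece v L {w : ℂ | ‖w‖ ≤ √2 ∧ ∀ j ∈ G, ⟪u j, v + L w⟫ ≤ 1} (fun _ => 0)
      (fun w => 1 / √(1 + ‖w‖ ^ 2)) =
    {x : E3 | 0 < ⟪v, x⟫ ∧ ‖x‖ ≤ 1 ∧ ‖x‖ ^ 2 ≤ 3 * ⟪v, x⟫ ^ 2 ∧ ∀ j ∈ G, ⟪u j, x⟫ ≤ ⟪v, x⟫} := by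
  have h2 : (√2 : ℝ) ^ 2 = 2 := Real.sq_sqrt (by norm_num)
  ext x
  constructor
  · rintro ⟨w, ⟨hw1, hw2⟩, s, hs0, hs1, rfl⟩
    have hs0' : (0 : ℝ) < s := hs0
    have hpos : 0 < √(1 + ‖w‖ ^ 2) := Real.sqrt_pos.mpr (by positivity)
    have hn : ‖s • (v + L w)‖ = s * √(1 + ‖w‖ ^ 2) := by
      rw [norm_smul, g6_norm hv hL, Real.norm_eq_abs, abs_of_pos hs0']
    refine ⟨?_, ?_, ?_, ?_⟩
    · rw [g6_inner hv hL]
      exact hs0'
    · rw [hn]
      have hs1' : s ≤ 1 / √(1 + ‖w‖ ^ 2) := hs1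
      rwa [le_div_iff₀ hpos] at hs1'
    · rw [hn, g6_inner hv hL, mul_pow, Real.sq_sqrt (by positivity)]
      have h3 : ‖w‖ ^ 2 ≤ 2 := by
        rw [← h2]
        exact pow_le_pow_left₀ (norm_nonneg _) hw1 2
      have h4 : s ^ 2 * (1 + ‖w‖ ^ 2) ≤ s ^ 2 * 3 :=
        mul_le_mul_of_nonneg_left (by linarith) (sq_nonneg s)
      linarith
    · intro j hj
      rw [g6_inner hv hL, inner_smul_right]
      calc s * ⟪u j, v + L w⟫ ≤ s * 1 := mul_le_mul_of_nonneg_left (hw2 j hj) hs0'.le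
        _ = s := mul_one s
  · rintro ⟨hx0, hx1, hx2, hx3⟩
    obtain ⟨w, hw⟩ := g6_dec hv hs hx0
    have hpos : 0 < √(1 + ‖w‖ ^ 2) := Real.sqrt_pos.mpr (by positivity)
    have hn : ‖x‖ = ⟪v, x⟫ * √(1 + ‖w‖ ^ 2) := by
      calc ‖x‖ = ‖⟪v, x⟫ • (v + L w)‖ := by rw [← hw]
        _ = ⟪v, x⟫ * √(1 + ‖w‖ ^ 2) := by
          rw [norm_smul, g6_norm hv hL, Real.norm_eq_abs, abs_of_pos hx0]
    have hn2 : ‖x‖ ^ 2 = ⟪v, x⟫ ^ 2 * (1 + ‖w‖ ^ 2) := by
      rw [hn, mul_pow, Real.sq_sqrt (by positivity)]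
    have hpos2 : 0 < ⟪v, x⟫ ^ 2 := by positivity
    refine ⟨w, ⟨?_, ?_⟩, ⟪v, x⟫, hx0, ?_, hw⟩
    · apply Real.le_sqrt_of_sq_le
      rw [hn2] at hx2
      have h5 : ⟪v, x⟫ ^ 2 * (1 + ‖w‖ ^ 2) ≤ ⟪v, x⟫ ^ 2 * 3 := by linarith
      have h6 := le_of_mul_le_mul_left h5 hpos2
      linarith
    · intro j hj
      have h7 := hx3 j hj
      have h8 : ⟪u j, x⟫ = ⟪v, x⟫ * ⟪u j, v + L w⟫ := by
        calc ⟪u j, x⟫ = ⟪u j, ⟪v, x⟫ • (v + L w)⟫ := by rw [← hw]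
          _ = ⟪v, x⟫ * ⟪u j, v + L w⟫ := by rw [inner_smul_right]
      rw [h8] at h7
      have h9 : ⟪v, x⟫ * ⟪u j, v + L w⟫ ≤ ⟪v, x⟫ * 1 := by linarith
      exact le_of_mul_le_mul_left h9 hx0
    · show ⟪v, x⟫ ≤ 1 / √(1 + ‖w‖ ^ 2)
      rw [le_div_iff₀ hpos, ← hn]
      exact hx1

theorem g6_null {v v' : E3} (h : v ≠ v') : volume {x : E3 | ⟪v, x⟫ = ⟪v', x⟫} = 0 := by
  have h1 : {x : E3 | ⟪v, x⟫ = ⟪v', x⟫} = ((ℝ ∙ (v - v'))ᗮ : Submodule ℝ E3) := by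
    ext x
    rw [mem_setOf_eq, SetLike.mem_coe, Submodule.mem_orthogonal_singleton_iff_inner_right,
      inner_sub_left, sub_eq_zero]
  rw [h1]
  apply Measure.addHaar_submodule
  intro htop
  have h2 : v - v' ∈ (ℝ ∙ (v - v'))ᗮ := by rw [htop]; exact Submodule.mem_top
  rw [Submodule.mem_orthogonal_singleton_iff_inner_right, inner_self_eq_zero] at h2
  exact h (sub_eq_zero.mp h2)

/-- G6. The polytope (with the ball of radius `√3`) of six planes at distance one has volume at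
least 8. -/
theorem six_caps {u : Fin 6 → E3} (hu : ∀ i, ‖u i‖ = 1) (hinj : Function.Injective u) :
    8 ≤ (volume {x : E3 | ‖x‖ ≤ √3 ∧ ∀ i, ⟪u i, x⟫ ≤ 1}).toReal := by
  classical
  obtain ⟨G, -, hG2, hG3⟩ := six_planar hu hinj
  choose L hL hsurj using fun i => g6_exists_iso (hu i)
  set K : Set E3 := {x : E3 | ‖x‖ ≤ √3 ∧ ∀ i, ⟪u i, x⟫ ≤ 1} with hK
  set T : Fin 6 → Set ℂ := fun i => {w : ℂ | ‖w‖ ≤ √2 ∧ ∀ j ∈ G, ⟪u j, u i + L i w⟫ ≤ 1} with hT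
  set φ : ℂ → ℝ := fun w => (1 + ‖w‖ ^ 2) ^ (-(3 / 2) : ℝ) with hφ
  have hφc : Continuous φ := by
    apply Continuous.rpow_const (by fun_prop)
    intro w
    left
    positivity
  have hφ0 : ∀ w, 0 ≤ φ w := fun w => Real.rpow_nonneg (by positivity) _
  have h2 : (√2 : ℝ) ^ 2 = 2 := Real.sq_sqrt (by norm_num)
  have h3 : (√3 : ℝ) ^ 2 = 3 := Real.sq_sqrt (by norm_num)
  have hclosed : ∀ i, IsClosed (T i) := by
    intro i
    have : T i = {w : ℂ | ‖w‖ ≤ √2} ∩ ⋂ j ∈ G, {w : ℂ | ⟪u j, u i + L i w⟫ ≤ 1} := by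
      ext w
      simp [hT]
    rw [this]
    refine (isClosed_le continuous_norm continuous_const).inter ?_
    refine isClosed_biInter fun j _ => isClosed_le ?_ continuous_const
    exact continuous_const.inner (continuous_const.add (L i).continuous)
  have hbdd : ∀ i, Bornology.IsBounded (T i) := by
    intro i
    refine (Metric.isBounded_closedBall (x := (0 : ℂ)) (r := √2)).subset fun w hw => ?_
    rw [mem_closedBall_zero_iff]
    exact hw.1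
  have hcomp : ∀ i, IsCompact (T i) := fun i =>
    Metric.isCompact_of_isClosed_isBounded (hclosed i) (hbdd i)
  have hmeas : ∀ i, MeasurableSet (T i) := fun i => (hclosed i).measurableSet
  have hint : ∀ i, IntegrableOn φ (T i) := fun i =>
    hφc.continuousOn.integrableOn_compact (hcomp i)
  have hint1 : ∀ i, IntegrableOn (fun w => lam * φ w - 1) (T i) := fun i =>
    Continuous.continuousOn (by fun_prop) |>.integrableOn_compact (hcomp i)
  -- the integrals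
  set I : Fin 6 → ℝ := fun i => ∫ w in T i, φ w with hI
  set D : Fin 6 → ℝ := fun i => ∫ w in T i, (lam * φ w - 1) with hD
  set n : Fin 6 → ℕ := fun i => (G.filter fun j => j ≠ i ∧ {x : E3 | ‖x‖ ≤ √3 ∧
    (∀ k ∈ G, ⟪u k, x⟫ ≤ 1) ∧ ⟪u i, x⟫ = 1 ∧ ⟪u j, x⟫ = 1}.Nontrivial).card with hn
  have hI0 : ∀ i, 0 ≤ I i := fun i => setIntegral_nonneg (hmeas i) fun w _ => hφ0 w
  -- the disc lemma
  have hDle : ∀ i, D i ≤ 2 * Real.pi * c1 + 2 * c0 * (n i : ℝ) := by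
    intro i
    set c : Fin 6 → ℂ := fun j => ⟨⟪u j, L i 1⟫, ⟪u j, L i Complex.I⟫⟩ with hc
    set b : Fin 6 → ℝ := fun j => 1 - ⟪u j, u i⟫ with hb
    have hcw : ∀ (j : Fin 6) (w : ℂ), (star (c j) * w).re = ⟪u j, L i w⟫ := by
      intro j w
      have hw : w = (w.re) • (1 : ℂ) + (w.im) • Complex.I := by
        rw [Complex.real_smul, Complex.real_smul, mul_one]
        exact (Complex.re_add_im w).symm
      calc (star (c j) * w).re = ⟪u j, L i 1⟫ * w.re + ⟪u j, L i Complex.I⟫ * w.im := by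
            rw [Complex.mul_re]
            simp [hc]
        _ = ⟪u j, L i ((w.re) • (1 : ℂ) + (w.im) • Complex.I)⟫ := by
            rw [map_add, map_smul, map_smul, inner_add_right, inner_smul_right, inner_smul_right]
            ring
        _ = ⟪u j, L i w⟫ := by rw [← hw]
    have hiff : ∀ (j : Fin 6) (w : ℂ), (star (c j) * w).re ≤ b j ↔ ⟪u j, u i + L i w⟫ ≤ 1 := by
      intro j w
      rw [hcw, inner_add_right]
      simp only [hb]
      constructor <;> intro h <;> linarith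
    have hself : ∀ w : ℂ, ⟪u i, u i + L i w⟫ = 1 := by
      intro w
      have := g6_inner (hu i) (hL i) w 1
      rwa [one_smul] at this
    have hset : {w : ℂ | ‖w‖ ≤ √2 ∧ ∀ j ∈ G.erase i, (star (c j) * w).re ≤ b j} = T i := by
      ext w
      simp only [hT, mem_setOf_eq]
      constructor
      · rintro ⟨hw1, hw2⟩
        refine ⟨hw1, fun j hj => ?_⟩
        by_cases hji : j = i
        · rw [hji, hself w]
        · exact (hiff j w).mp (hw2 j (Finset.mem_erase.mpr ⟨hji, hj⟩))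
      · rintro ⟨hw1, hw2⟩
        exact ⟨hw1, fun j hj => (hiff j w).mpr (hw2 j (Finset.mem_erase.mp hj).2)⟩
    have hbpos : ∀ j ∈ G.erase i, 0 < b j := by
      intro j hj
      have hji : j ≠ i := (Finset.mem_erase.mp hj).1
      have hne : u j ≠ u i := fun h => hji (hinj h)
      have := inner_lt_one_iff_real_of_norm_eq_one (hu j) (hu i)
      have h1 : ⟪u j, u i⟫ < 1 := this.mpr hne
      simp only [hb]
      linarith
    have key := disc_lemma (G.erase i) c b hbpos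
      (G.filter fun j => j ≠ i ∧ {x : E3 | ‖x‖ ≤ √3 ∧
        (∀ k ∈ G, ⟪u k, x⟫ ≤ 1) ∧ ⟪u i, x⟫ = 1 ∧ ⟪u j, x⟫ = 1}.Nontrivial) (by
        intro j hj hnt
        rw [Finset.mem_filter]
        refine ⟨(Finset.mem_erase.mp hj).2, (Finset.mem_erase.mp hj).1, ?_⟩
        obtain ⟨w, hw, w', hw', hne⟩ := hnt
        have hmem : ∀ z : ℂ, z ∈ {w : ℂ | ‖w‖ ≤ √2 ∧ (∀ k ∈ G.erase i, (star (c k) * w).re ≤ b k) ∧
            (star (c j) * w).re = b j} → u i + L i z ∈ {x : E3 | ‖x‖ ≤ √3 ∧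
            (∀ k ∈ G, ⟪u k, x⟫ ≤ 1) ∧ ⟪u i, x⟫ = 1 ∧ ⟪u j, x⟫ = 1} := by
          rintro z ⟨hz1, hz2, hz3⟩
          refine ⟨?_, ?_, hself z, ?_⟩
          · rw [g6_norm (hu i) (hL i)]
            apply Real.sqrt_le_sqrt
            have : ‖z‖ ^ 2 ≤ 2 := by
              rw [← h2]
              exact pow_le_pow_left₀ (norm_nonneg _) hz1 2
            linarith
          · intro k hk
            by_cases hki : k = i
            · rw [hki, hself z]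
            · exact (hiff k z).mp (hz2 k (Finset.mem_erase.mpr ⟨hki, hk⟩))
          · rw [hcw] at hz3
            rw [inner_add_right, hz3]
            simp only [hb]
            ring
        refine ⟨u i + L i w, hmem w hw, u i + L i w', hmem w' hw', fun heq => hne ?_⟩
        exact (L i).injective (add_left_cancel heq))
    rw [hset] at key
    exact key
  -- the inner pieces
  have hsumI : ∑ i ∈ G, I i ≤ 4 * Real.pi := by
    set P : Fin 6 → Set E3 := fun i => conePiece (u i) (L i) (T i) (fun _ => 0)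
      (fun w => 1 / √(1 + ‖w‖ ^ 2)) with hP
    have hPeq : ∀ i, P i = {x : E3 | 0 < ⟪u i, x⟫ ∧ ‖x‖ ≤ 1 ∧ ‖x‖ ^ 2 ≤ 3 * ⟪u i, x⟫ ^ 2 ∧
        ∀ j ∈ G, ⟪u j, x⟫ ≤ ⟪u i, x⟫} := fun i => g6_piece_eq G (hu i) (hL i) (hsurj i)
    have hPvol : ∀ i, volume (P i) = ENNReal.ofReal (I i / 3) := by
      intro i
      have := volume_conePiece (hu i) (L i) (hL i) (hmeas i) (hbdd i)
        (g := fun _ => 0) (f := fun w => 1 / √(1 + ‖w‖ ^ 2)) continuous_const (by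
          apply Continuous.div continuous_const (by fun_prop)
          intro w
          exact (Real.sqrt_pos.mpr (by positivity)).ne') (fun _ => le_rfl)
        (fun w _ => by positivity)
      rw [hP]
      simp only
      rw [this]
      congr 2
      apply setIntegral_congr_fun (hmeas i)
      intro w _
      show (1 / √(1 + ‖w‖ ^ 2)) ^ 3 - (0 : ℝ) ^ 3 = (1 + ‖w‖ ^ 2) ^ (-(3 / 2) : ℝ)
      rw [g6_rpow (by positivity)]
      norm_num
    have hPmeas : ∀ i, MeasurableSet (P i) := by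
      intro i
      rw [hPeq i]
      have e : {x : E3 | 0 < ⟪u i, x⟫ ∧ ‖x‖ ≤ 1 ∧ ‖x‖ ^ 2 ≤ 3 * ⟪u i, x⟫ ^ 2 ∧
          ∀ j ∈ G, ⟪u j, x⟫ ≤ ⟪u i, x⟫} = {x : E3 | 0 < ⟪u i, x⟫} ∩ ({x : E3 | ‖x‖ ≤ 1} ∩
          ({x : E3 | ‖x‖ ^ 2 ≤ 3 * ⟪u i, x⟫ ^ 2} ∩ ⋂ j ∈ G, {x : E3 | ⟪u j, x⟫ ≤ ⟪u i, x⟫})) := by
        ext x
        simp
      rw [e]
      refine (isOpen_lt continuous_const (by fun_prop)).measurableSet.inter
        (IsClosed.measurableSet ?_)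
      refine (isClosed_le (by fun_prop) continuous_const).inter
        ((isClosed_le (by fun_prop) (by fun_prop)).inter ?_)
      exact isClosed_biInter fun j _ => isClosed_le (by fun_prop) (by fun_prop)
    have hdisj : (G : Set (Fin 6)).Pairwise (Function.onFun (AEDisjoint volume) P) := by
      intro i hi j hj hij
      have hne : u i ≠ u j := fun h => hij (hinj h)
      refine measure_mono_null ?_ (g6_null hne)
      rintro x ⟨hx1, hx2⟩
      rw [hPeq] at hx1 hx2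
      exact le_antisymm (hx2.2.2.2 i hi) (hx1.2.2.2 j hj)
    have hsum : ∑ i ∈ G, volume (P i) ≤ volume (Metric.closedBall (0 : E3) 1) := by
      rw [← measure_biUnion_finset₀ hdisj fun i _ => (hPmeas i).nullMeasurableSet]
      apply measure_mono
      intro x hx
      simp only [mem_iUnion] at hx
      obtain ⟨i, -, hx⟩ := hx
      rw [hPeq] at hx
      rw [mem_closedBall_zero_iff]
      exact hx.2.1
    rw [EuclideanSpace.volume_closedBall_fin_three] at hsum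
    simp only [hPvol] at hsum
    rw [← ENNReal.ofReal_sum_of_nonneg (fun i _ => div_nonneg (hI0 i) (by norm_num)),
      ENNReal.ofReal_one, one_pow, one_mul, ENNReal.ofReal_le_ofReal_iff (by positivity),
      ← Finset.sum_div] at hsum
    linarith
  -- the outer pieces
  set Q : Fin 6 → Set E3 := fun i => conePiece (u i) (L i) (T i) (fun _ => 1)
      (fun w => √3 / √(1 + ‖w‖ ^ 2)) with hQ
  have hge : ∀ i, ∀ w ∈ T i, 1 ≤ √3 / √(1 + ‖w‖ ^ 2) := by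
    intro i w hw
    have hpos : 0 < √(1 + ‖w‖ ^ 2) := Real.sqrt_pos.mpr (by positivity)
    rw [le_div_iff₀ hpos, one_mul]
    apply Real.sqrt_le_sqrt
    have : ‖w‖ ^ 2 ≤ 2 := by
      rw [← h2]
      exact pow_le_pow_left₀ (norm_nonneg _) hw.1 2
    linarith
  have hJ : ∀ i, ∫ w in T i, ((√3 / √(1 + ‖w‖ ^ 2)) ^ 3 - (1 : ℝ) ^ 3) = D i + √3 * I i := by
    intro i
    have e : ∀ w ∈ T i, (√3 / √(1 + ‖w‖ ^ 2)) ^ 3 - (1 : ℝ) ^ 3 =
        (lam * φ w - 1) + √3 * φ w := by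
      intro w _
      rw [g6_rpow' (by positivity)]
      simp only [hφ, lam]
      ring
    rw [setIntegral_congr_fun (hmeas i) e, integral_add (hint1 i) ((hint i).const_mul _),
      integral_const_mul]
  have hJ0 : ∀ i, 0 ≤ D i + √3 * I i := by
    intro i
    rw [← hJ i]
    apply setIntegral_nonneg (hmeas i)
    intro w hw
    have h4 := pow_le_pow_left₀ (by norm_num) (hge i w hw) 3
    linarith
  have hQvol : ∀ i, volume (Q i) = ENNReal.ofReal ((D i + √3 * I i) / 3) := by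
    intro i
    have := volume_conePiece (hu i) (L i) (hL i) (hmeas i) (hbdd i)
      (g := fun _ => 1) (f := fun w => √3 / √(1 + ‖w‖ ^ 2)) continuous_const (by
        apply Continuous.div continuous_const (by fun_prop)
        intro w
        exact (Real.sqrt_pos.mpr (by positivity)).ne') (fun _ => zero_le_one) (hge i)
    rw [hQ]
    simp only
    rw [this, hJ i]
  have hcover : Metric.closedBall (0 : E3) √3 ⊆ K ∪ ⋃ i ∈ G, Q i := by
    intro x hx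
    rw [mem_closedBall_zero_iff] at hx
    by_cases hxK : x ∈ K
    · exact Or.inl hxK
    right
    have hex : ∃ i ∈ G, 1 < ⟪u i, x⟫ := by
      by_contra hcon
      push Not at hcon
      exact hxK ⟨hx, hG2 x hx hcon⟩
    obtain ⟨i0, hi0, hi0'⟩ := hex
    obtain ⟨i, hi, hmax⟩ := Finset.exists_max_image G (fun i => ⟪u i, x⟫) ⟨i0, hi0⟩
    have hs1 : 1 < ⟪u i, x⟫ := hi0'.trans_le (hmax i0 hi0)
    have hs0 : 0 < ⟪u i, x⟫ := by linarith
    obtain ⟨w, hw⟩ := g6_dec (hu i) (hsurj i) hs0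
    have hpos : 0 < √(1 + ‖w‖ ^ 2) := Real.sqrt_pos.mpr (by positivity)
    have hnx : ‖x‖ = ⟪u i, x⟫ * √(1 + ‖w‖ ^ 2) := by
      calc ‖x‖ = ‖⟪u i, x⟫ • (u i + L i w)‖ := by rw [← hw]
        _ = ⟪u i, x⟫ * √(1 + ‖w‖ ^ 2) := by
          rw [norm_smul, g6_norm (hu i) (hL i), Real.norm_eq_abs, abs_of_pos hs0]
    simp only [mem_iUnion]
    refine ⟨i, hi, w, ⟨?_, ?_⟩, ⟪u i, x⟫, hs1, ?_, hw⟩
    · apply Real.le_sqrt_of_sq_le
      have h5 : √(1 + ‖w‖ ^ 2) ≤ √3 := by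
        calc √(1 + ‖w‖ ^ 2) = 1 * √(1 + ‖w‖ ^ 2) := (one_mul _).symm
          _ ≤ ⟪u i, x⟫ * √(1 + ‖w‖ ^ 2) := mul_le_mul_of_nonneg_right hs1.le hpos.le
          _ = ‖x‖ := hnx.symm
          _ ≤ √3 := hx
      have h6 := (Real.sqrt_le_sqrt_iff (by norm_num)).mp h5
      linarith
    · intro j hj
      have h7 := hmax j hj
      have h8 : ⟪u j, x⟫ = ⟪u i, x⟫ * ⟪u j, u i + L i w⟫ := by
        calc ⟪u j, x⟫ = ⟪u j, ⟪u i, x⟫ • (u i + L i w)⟫ := by rw [← hw]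
          _ = ⟪u i, x⟫ * ⟪u j, u i + L i w⟫ := by rw [inner_smul_right]
      have h9 : ⟪u i, x⟫ * ⟪u j, u i + L i w⟫ ≤ ⟪u i, x⟫ * 1 := by
        rw [← h8, mul_one]
        exact h7
      exact le_of_mul_le_mul_left h9 hs0
    · show ⟪u i, x⟫ ≤ √3 / √(1 + ‖w‖ ^ 2)
      rw [le_div_iff₀ hpos, ← hnx]
      exact hx
  have hKfin : volume K ≠ ∞ := by
    have hsub : K ⊆ Metric.closedBall (0 : E3) √3 := by
      intro x hx
      rw [mem_closedBall_zero_iff]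
      exact hx.1
    exact ((measure_mono hsub).trans_lt measure_closedBall_lt_top).ne
  have hvol : volume (Metric.closedBall (0 : E3) √3) ≤
      volume K + ENNReal.ofReal (∑ i ∈ G, (D i + √3 * I i) / 3) := by
    calc volume (Metric.closedBall (0 : E3) √3) ≤ volume (K ∪ ⋃ i ∈ G, Q i) :=
          measure_mono hcover
      _ ≤ volume K + volume (⋃ i ∈ G, Q i) := measure_union_le _ _
      _ ≤ volume K + ∑ i ∈ G, volume (Q i) := by
          gcongr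
          exact measure_biUnion_finset_le G Q
      _ = volume K + ENNReal.ofReal (∑ i ∈ G, (D i + √3 * I i) / 3) := by
          rw [ENNReal.ofReal_sum_of_nonneg (fun i _ => div_nonneg (hJ0 i) (by norm_num))]
          simp only [hQvol]
  rw [EuclideanSpace.volume_closedBall_fin_three, ← ENNReal.ofReal_pow (Real.sqrt_nonneg 3),
    ← ENNReal.ofReal_mul (by positivity), g6_sqrt3] at hvol
  have hreal : 3 * √3 * (Real.pi * 4 / 3) ≤
      (volume K).toReal + ∑ i ∈ G, (D i + √3 * I i) / 3 := by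
    have h10 := ENNReal.toReal_mono (by finiteness) hvol
    rw [ENNReal.toReal_ofReal (by positivity), ENNReal.toReal_add hKfin ENNReal.ofReal_ne_top,
      ENNReal.toReal_ofReal (Finset.sum_nonneg fun i _ => div_nonneg (hJ0 i) (by norm_num))]
      at h10
    exact h10
  rw [← Finset.sum_div, Finset.sum_add_distrib, ← Finset.mul_sum] at hreal
  have hDsum : ∑ i ∈ G, D i ≤ 6 * (2 * Real.pi * c1) + 2 * c0 * 24 := by
    have hcard : (G.card : ℝ) ≤ 6 := by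
      have := Finset.card_le_univ G
      rw [Fintype.card_fin] at this
      exact_mod_cast this
    have hc1 : 0 ≤ 2 * Real.pi * c1 := by
      have := g6_c1
      positivity
    have hn24 : ((∑ i ∈ G, n i : ℕ) : ℝ) ≤ 24 := by exact_mod_cast hG3
    calc ∑ i ∈ G, D i ≤ ∑ i ∈ G, (2 * Real.pi * c1 + 2 * c0 * (n i : ℝ)) :=
          Finset.sum_le_sum fun i _ => hDle i
      _ = G.card * (2 * Real.pi * c1) + 2 * c0 * ((∑ i ∈ G, n i : ℕ) : ℝ) := by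
          rw [Finset.sum_add_distrib, Finset.sum_const, nsmul_eq_mul, ← Finset.mul_sum]
          push_cast
          ring
      _ ≤ 6 * (2 * Real.pi * c1) + 2 * c0 * 24 := by
          have h0 := g6_c0
          exact add_le_add (mul_le_mul_of_nonneg_right hcard hc1)
            (mul_le_mul_of_nonneg_left hn24 (by linarith))
  have h11 : √3 * ∑ i ∈ G, I i ≤ √3 * (4 * Real.pi) :=
    mul_le_mul_of_nonneg_left hsumI (Real.sqrt_nonneg 3)
  unfold c0 c1 at hDsum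
  nlinarith

end Pool.Agent.Helper65.PK
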