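import Pool.Agent.Helper65.PK.P.A1

/-!
# Project PK, piece A2

From A1. Take the finite set of `(‖c.1‖⁻¹ • c.1, ‖c.1‖⁻¹ * c.2)` for `c ∈ I` with `c.1 ≠ 0` (a
constraint with `c.1 = 0` holds everywhere since `poly I` is nonempty) as a family `(u, h)` over a
finite type of DISTINCT pairs, then keep only the fat indices; `u` is injective on fat indices:
if `u i = u j` and `h i ≤ h j`, then a point of the face `j` (nonempty, fat) has
`⟪u i, x⟫ = h j ≤ h i`. Fatness with respect to the subfamily: the polyhedra are equal by A1.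
Reindex by `Fin n` (`Fintype.equivFin`).
-/

namespace Pool.Agent.Helper65.PK

open MeasureTheory Module Set
open scoped ENNReal RealInnerProductSpace

theorem PP_comp {ι κ : Type} (e : κ ≃ ι) (u : ι → E3) (h : ι → ℝ) :
    PP (fun k => u (e k)) (fun k => h (e k)) = PP u h := by
  ext x
  constructor
  · intro hx i
    have := hx (e.symm i)
    simpa using this
  · intro hx k
    exact hx (e k)

theorem Rep.comp {ι κ : Type} (e : κ ≃ ι) {u : ι → E3} {h : ι → ℝ} (hr : Rep u h) :
    Rep (fun k => u (e k)) (fun k => h (e k)) where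
  unit k := hr.unit (e k)
  inj := hr.inj.comp e.injective
  bdd := by rw [PP_comp]; exact hr.bdd
  int := by rw [PP_comp]; exact hr.int
  fat k := by
    obtain ⟨x, ε, hε, hx, hy⟩ := hr.fat (e k)
    exact ⟨x, ε, hε, hx, by rw [PP_comp]; exact hy⟩

open Classical in
/-- A representation of a polytope by finitely many distinct half-spaces with unit normals. -/
theorem exists_unit_family {I : Finset (E3 × ℝ)} (hne : (Helper75.poly I).Nonempty) :
    ∃ J : Finset (E3 × ℝ), (∀ c ∈ J, ‖c.1‖ = 1) ∧
      PP (fun c : J => c.1.1) (fun c : J => c.1.2) = Helper75.poly I := by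
  obtain ⟨x0, hx0⟩ := hne
  refine ⟨(I.filter fun c => c.1 ≠ 0).image fun c => (‖c.1‖⁻¹ • c.1, ‖c.1‖⁻¹ * c.2), ?_, ?_⟩
  · intro c hc
    rw [Finset.mem_image] at hc
    obtain ⟨a, ha, rfl⟩ := hc
    have ha0 : a.1 ≠ 0 := (Finset.mem_filter.mp ha).2
    rw [norm_smul, norm_inv, norm_norm]
    exact inv_mul_cancel₀ (norm_ne_zero_iff.mpr ha0)
  · ext x
    constructor
    · intro hx c hc
      by_cases h0 : c.1 = 0
      · have h1 := hx0 c hc
        rw [h0, inner_zero_left] at h1 ⊢
        exact h1
      · have hmem : (‖c.1‖⁻¹ • c.1, ‖c.1‖⁻¹ * c.2) ∈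
            (I.filter fun c => c.1 ≠ 0).image fun c => (‖c.1‖⁻¹ • c.1, ‖c.1‖⁻¹ * c.2) :=
          Finset.mem_image.mpr ⟨c, Finset.mem_filter.mpr ⟨hc, h0⟩, rfl⟩
        have h1 := hx ⟨_, hmem⟩
        simp only [inner_smul_left, RCLike.conj_to_real] at h1
        have hpos : 0 < ‖c.1‖⁻¹ := inv_pos.mpr (norm_pos_iff.mpr h0)
        exact le_of_mul_le_mul_left h1 hpos
    · rintro hx ⟨c, hc⟩
      rw [Finset.mem_image] at hc
      obtain ⟨a, ha, rfl⟩ := hc
      have h1 := hx a (Finset.mem_filter.mp ha).1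
      simp only [inner_smul_left, RCLike.conj_to_real]
      exact mul_le_mul_of_nonneg_left h1 (inv_nonneg.mpr (norm_nonneg _))

/-- A2. Every polytope has an irredundant representation. -/
theorem exists_rep {I : Finset (E3 × ℝ)} (hb : Bornology.IsBounded (Helper75.poly I))
    (hint : (interior (Helper75.poly I)).Nonempty) :
    ∃ (n : ℕ) (u : Fin n → E3) (h : Fin n → ℝ), Rep u h ∧ PP u h = Helper75.poly I := by
  classical
  obtain ⟨J, hJ1, hJ2⟩ := exists_unit_family (hint.mono interior_subset)
  set u : J → E3 := fun c => c.1.1 with hu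
  set h : J → ℝ := fun c => c.1.2 with hh
  have hunit : ∀ i, ‖u i‖ = 1 := fun i => hJ1 i.1 i.2
  have hPPb : Bornology.IsBounded (PP u h) := by rw [hJ2]; exact hb
  have hPPi : (interior (PP u h)).Nonempty := by rw [hJ2]; exact hint
  -- the subfamily of the fat indices
  have hsub : PP (fun i : {i : J // Fat u h i} => u i.1) (fun i => h i.1) = PP u h := by
    ext x
    constructor
    · intro hx
      exact mem_PP_of_fat hunit hPPb hPPi fun i hi => hx ⟨i, hi⟩
    · intro hx i
      exact hx i.1
  have key : ∀ i j : {i : J // Fat u h i}, u i.1 = u j.1 → h j.1 ≤ h i.1 := by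
    intro i j hij
    obtain ⟨x, ε, hε, hx, hy⟩ := j.2
    have h1 : x ∈ PP u h := hy x hx (by simpa using hε)
    have h2 := h1 i.1
    rw [hij, hx] at h2
    exact h2
  have hrep : Rep (fun i : {i : J // Fat u h i} => u i.1) (fun i => h i.1) :=
    { unit := fun i => hunit i.1
      inj := by
        intro i j hij
        have hij' : u i.1 = u j.1 := hij
        have h1 := key i j hij'
        have h2 := key j i hij'.symm
        have h3 : h i.1 = h j.1 := le_antisymm h2 h1
        exact Subtype.ext (Subtype.ext (Prod.ext hij' h3))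
      bdd := by rw [hsub]; exact hPPb
      int := by rw [hsub]; exact hPPi
      fat := by
        intro i
        obtain ⟨x, ε, hε, hx, hy⟩ := i.2
        exact ⟨x, ε, hε, hx, by rw [hsub]; exact hy⟩ }
  have e : {i : J // Fat u h i} ≃ Fin (Fintype.card {i : J // Fat u h i}) := Fintype.equivFin _
  refine ⟨_, _, _, hrep.comp e.symm, ?_⟩
  rw [PP_comp e.symm (fun i : {i : J // Fat u h i} => u i.1) (fun i => h i.1), hsub, hJ2]

end Pool.Agent.Helper65.PK
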