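import Mathlib
import Pool.Agent.Helper65.PK.Basic
import Pool.Agent.Helper75.Zeta

/-!
# Project PK, piece A3

The 2-faces (`Helper75.kfaces 2`) of `P = PP u h = poly _` (`PP_eq_poly`) are exactly the sets
`FF u h i`, without repetition. `FF u h i` is the minimal face of `P` at the centre of a disc in it
(`A3_mface`), its vectorSpan is `(u i)ᗮ` (`A3_span`), dimension 2. Conversely a face
`G = mface P x` with `finrank (vectorSpan G) = 2` has a tight constraint `i` (else the vectorSpan is
everything), so the spans agree and `G = FF u h i` (`mface_eq_inter`). Distinct: equal spans give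
`u j = u i` or `u j = - u i`; `R.inj` and `ne_neg_of_mem`.
Then `tsum` over the range of an injective map = `Finset` sum (`tsum_fintype`, `Equiv.tsum_eq`).
-/

namespace Pool.Agent.Helper65.PK

open MeasureTheory Module Set
open scoped ENNReal RealInnerProductSpace

/-- The minimal face at the centre of a disc in the facet `i` is the facet. -/
lemma A3_mface {ι : Type} {u : ι → E3} {h : ι → ℝ} {i : ι} {z : E3} {ε : ℝ} (hε : 0 < ε)
    (hz : ⟪u i, z⟫ = h i) (hball : ∀ y, ⟪u i, y⟫ = h i → ‖y - z‖ < ε → y ∈ PP u h) :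
    Helper75.mface (PP u h) z = FF u h i := by
  ext y
  constructor
  · rintro ⟨hy, δ, hδ, h1⟩
    refine ⟨hy, le_antisymm (hy i) ?_⟩
    have h2 := h1 i
    rw [inner_add_right, inner_smul_right, inner_sub_right, hz] at h2
    nlinarith
  · rintro ⟨hy, hyi⟩
    refine ⟨hy, ε / (2 * (‖z - y‖ + 1)), by positivity, hball _ ?_ ?_⟩
    · rw [inner_add_right, inner_smul_right, inner_sub_right, hz, hyi]
      ring
    · rw [add_sub_cancel_left, norm_smul, Real.norm_eq_abs, abs_of_pos (by positivity)]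
      have h0 : 0 ≤ ‖z - y‖ := norm_nonneg _
      calc ε / (2 * (‖z - y‖ + 1)) * ‖z - y‖ = ε * (‖z - y‖ / (2 * (‖z - y‖ + 1))) := by ring
        _ < ε * 1 := by
          refine mul_lt_mul_of_pos_left ?_ hε
          rw [div_lt_one (by positivity)]
          linarith
        _ = ε := mul_one ε

/-- The direction of the facet `i`. -/
lemma A3_span {ι : Type} {u : ι → E3} {h : ι → ℝ} {i : ι} {z : E3} {ε : ℝ} (hε : 0 < ε)
    (hz : ⟪u i, z⟫ = h i) (hball : ∀ y, ⟪u i, y⟫ = h i → ‖y - z‖ < ε → y ∈ PP u h) :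
    vectorSpan ℝ (FF u h i) = (ℝ ∙ u i)ᗮ := by
  have hzP : z ∈ PP u h := hball z hz (by simpa using hε)
  rw [← A3_mface hε hz hball]
  ext v
  rw [Helper75.mem_vectorSpan_mface (convex_PP u h) hzP,
    Submodule.mem_orthogonal_singleton_iff_inner_right]
  constructor
  · rintro ⟨δ, hδ, h1, h2⟩
    have h1 := h1 i
    have h2 := h2 i
    rw [inner_add_right, inner_smul_right, hz] at h1
    rw [inner_sub_right, inner_smul_right, hz] at h2
    have h3 : δ * ⟪u i, v⟫ = 0 := by linarith
    rcases mul_eq_zero.mp h3 with h4 | h4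
    · exact absurd h4 hδ.ne'
    · exact h4
  · intro hv
    have h0 : 0 ≤ ‖v‖ := norm_nonneg _
    have hδ : ‖(ε / (2 * (‖v‖ + 1))) • v‖ < ε := by
      rw [norm_smul, Real.norm_eq_abs, abs_of_pos (by positivity)]
      calc ε / (2 * (‖v‖ + 1)) * ‖v‖ = ε * (‖v‖ / (2 * (‖v‖ + 1))) := by ring
        _ < ε * 1 := by
          refine mul_lt_mul_of_pos_left ?_ hε
          rw [div_lt_one (by positivity)]
          linarith
        _ = ε := mul_one ε
    refine ⟨ε / (2 * (‖v‖ + 1)), by positivity, hball _ ?_ ?_, hball _ ?_ ?_⟩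
    · rw [inner_add_right, inner_smul_right, hv, hz, mul_zero, add_zero]
    · rwa [add_sub_cancel_left]
    · rw [inner_sub_right, inner_smul_right, hv, hz, mul_zero, sub_zero]
    · rwa [sub_sub_cancel_left, norm_neg]

lemma A3_finrank {a : E3} (ha : ‖a‖ = 1) : finrank ℝ ((ℝ ∙ a)ᗮ : Submodule ℝ E3) = 2 := by
  have : Fact (finrank ℝ E3 = 2 + 1) := ⟨by simp⟩
  refine Submodule.finrank_orthogonal_span_singleton ?_
  rintro rfl
  simp at ha

/-- The facets are 2-faces. -/
lemma A3_mem {ι : Type} {u : ι → E3} {h : ι → ℝ} (R : Rep u h) (i : ι) :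
    FF u h i ∈ Helper75.kfaces 2 (PP u h) := by
  obtain ⟨z, ε, hε, hz, hball⟩ := R.fat i
  refine ⟨⟨z, hball z hz (by simpa using hε), (A3_mface hε hz hball).symm⟩, ?_⟩
  rw [A3_span hε hz hball]
  exact A3_finrank (R.unit i)

/-- The 2-faces are facets. -/
lemma A3_surj {ι : Type} [Fintype ι] {u : ι → E3} {h : ι → ℝ} (R : Rep u h) {G : Set E3}
    (hG : G ∈ Helper75.kfaces 2 (PP u h)) : ∃ i, FF u h i = G := by
  classical
  obtain ⟨⟨x, hx, rfl⟩, hk⟩ := hG
  by_cases htight : ∃ i, ⟪u i, x⟫ = h i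
  · obtain ⟨i, hi⟩ := htight
    refine ⟨i, ?_⟩
    have hle : vectorSpan ℝ (Helper75.mface (PP u h) x) ≤ (ℝ ∙ u i)ᗮ := by
      intro v hv
      rw [Helper75.mem_vectorSpan_mface (convex_PP u h) hx] at hv
      obtain ⟨δ, hδ, h1, h2⟩ := hv
      rw [Submodule.mem_orthogonal_singleton_iff_inner_right]
      have h1 := h1 i
      have h2 := h2 i
      rw [inner_add_right, inner_smul_right, hi] at h1
      rw [inner_sub_right, inner_smul_right, hi] at h2
      have h3 : δ * ⟪u i, v⟫ = 0 := by linarith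
      rcases mul_eq_zero.mp h3 with h4 | h4
      · exact absurd h4 hδ.ne'
      · exact h4
    have heq : vectorSpan ℝ (Helper75.mface (PP u h) x) = (ℝ ∙ u i)ᗮ :=
      Submodule.eq_of_le_of_finrank_eq hle (by rw [hk, A3_finrank (R.unit i)])
    rw [Helper75.mface_eq_inter (convex_PP u h) hx, heq]
    ext y
    constructor
    · rintro ⟨hy, hyi⟩
      refine ⟨hy, ?_⟩
      show y - x ∈ (ℝ ∙ u i)ᗮ
      rw [Submodule.mem_orthogonal_singleton_iff_inner_right, inner_sub_right, hyi, hi, sub_self]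
    · rintro ⟨hy, hyi⟩
      refine ⟨hy, ?_⟩
      have hyi : y - x ∈ (ℝ ∙ u i)ᗮ := hyi
      rw [Submodule.mem_orthogonal_singleton_iff_inner_right, inner_sub_right, hi] at hyi
      linarith
  · exfalso
    have htop : vectorSpan ℝ (Helper75.mface (PP u h) x) = ⊤ := by
      rw [eq_top_iff]
      intro v _
      have hx' := hx
      rw [PP_eq_poly] at hx' ⊢
      rw [Helper75.mem_vectorSpan_mface_poly hx']
      intro c hc hact
      simp only [Finset.mem_image, Finset.mem_univ, true_and] at hc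
      obtain ⟨i, rfl⟩ := hc
      exact absurd ⟨i, hact⟩ htight
    rw [htop, finrank_top] at hk
    simp at hk

/-- Different indices give different facets. -/
lemma A3_inj {ι : Type} {u : ι → E3} {h : ι → ℝ} (R : Rep u h) {i j : ι}
    (hij : FF u h i = FF u h j) : i = j := by
  obtain ⟨z, ε, hε, hz, hball⟩ := R.fat i
  obtain ⟨z', ε', hε', hz', hball'⟩ := R.fat j
  have h1 := A3_span hε hz hball
  have h2 := A3_span hε' hz' hball'
  have hspan : (ℝ ∙ u i) = (ℝ ∙ u j) := by
    have h3 : (ℝ ∙ u i)ᗮ = (ℝ ∙ u j)ᗮ := by rw [← h1, ← h2, hij]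
    have h4 := congrArg Submodule.orthogonal h3
    rwa [Submodule.orthogonal_orthogonal, Submodule.orthogonal_orthogonal] at h4
  have hmem : u j ∈ (ℝ ∙ u i) := by
    rw [hspan]
    exact Submodule.mem_span_singleton_self _
  obtain ⟨c, hc⟩ := Submodule.mem_span_singleton.mp hmem
  have hzF : z ∈ FF u h i := ⟨hball z hz (by simpa using hε), hz⟩
  have hcn : |c| = 1 := by
    have h5 := congrArg norm hc
    rwa [norm_smul, R.unit, R.unit, mul_one, Real.norm_eq_abs] at h5
  rcases (abs_eq (zero_le_one)).mp hcn with h5 | h5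
  · rw [h5, one_smul] at hc
    exact R.inj hc
  · rw [h5, neg_smul, one_smul] at hc
    exact absurd hc.symm (ne_neg_of_mem R.unit R.int hzF (hij ▸ hzF))

/-- A3. The surface area. -/
theorem zeta_two {ι : Type} [Fintype ι] {u : ι → E3} {h : ι → ℝ} (R : Rep u h) :
    Helper75.zeta 2 (PP u h) = ∑ i, μHE[2] (FF u h i) := by
  let e : ι ≃ Helper75.kfaces 2 (PP u h) :=
    Equiv.ofBijective (fun i => ⟨FF u h i, A3_mem R i⟩)
      ⟨fun i j hij => A3_inj R (congrArg Subtype.val hij), fun G => by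
        obtain ⟨i, hi⟩ := A3_surj R G.2
        exact ⟨i, Subtype.ext hi⟩⟩
  unfold Helper75.zeta
  rw [← e.tsum_eq, tsum_fintype]
  rfl

end Pool.Agent.Helper65.PK
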