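import Mathlib
import Pool.Agent.Helper65.PK.P.A2
import Pool.Agent.Helper65.PK.P.A3
import Pool.Agent.Helper75.Shadow

/-!
# Project PK, piece M1

Monotonicity of the surface area. By A2 take representations of both polytopes `P ⊆ Q`. For a facet
`F_i` of `P` let `F_i° = F_i \ ⋃_{j ≠ i} F_j` (same `μHE[2]`: the intersections lie in lines,
`Helper75.measure_flat_eq_zero`) and
`Y_i = {y ∈ frontier Q | ∃ x ∈ F_i°, ∃ t ≥ 0, y = x + t u_i}`. The orthogonal projection to the plane of
`F_i` is 1-Lipschitz and maps `Y_i` onto `F_i°` (the ray from `x ∈ P ⊆ Q` leaves the bounded `Q`), so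
`μHE[2] F_i ≤ μHE[2] Y_i` (`Helper75.measure_image_le_of_lipschitz`). The `Y_i` are disjoint: if
`x + t u_i = y = x' + t' u_j` with `x ∈ F_i`, `x' ∈ F_j` then
`⟪y - x, x' - x⟫ = t ⟪u_i, x' - x⟫ ≤ 0` and `⟪y - x', x - x'⟫ ≤ 0`, so `‖x - x'‖² ≤ 0` and
`x = x' ∈ F_i ∩ F_j`. Measurability of `Y_i`: e.g. it is the set of `y ∈ frontier Q` whose
projection lies in `F_i°` and with `⟪u_i, y⟫ ≥ h_i` (Borel). `frontier Q ⊆ ⋃ facets of Q`.
-/

namespace Pool.Agent.Helper65.PK

open MeasureTheory Module Set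
open scoped ENNReal RealInnerProductSpace

namespace M1

/-- Two different facets meet in a set of measure zero. -/
lemma inter_zero {ι : Type} [Finite ι] {u : ι → E3} {h : ι → ℝ} (R : Rep u h) {i j : ι}
    (hij : i ≠ j) : μHE[2] (FF u h i ∩ FF u h j) = 0 := by
  rcases Set.eq_empty_or_nonempty (FF u h i ∩ FF u h j) with he | hne
  · rw [he, measure_empty]
  have hneg : u j ≠ -u i := ne_neg_of_nonempty R.unit R.int hne
  have hne' : u j ≠ u i := fun e => hij (R.inj e).symm
  have hi0 : u i ≠ 0 := by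
    intro e
    have := R.unit i
    rw [e, norm_zero] at this
    exact zero_ne_one this
  have hli : LinearIndependent ℝ ![u i, u j] := by
    rw [LinearIndependent.pair_iff' hi0]
    intro c hc
    have h1 : |c| = 1 := by
      have := congrArg norm hc
      rwa [norm_smul, R.unit, R.unit, mul_one, Real.norm_eq_abs] at this
    rcases (abs_eq zero_le_one).1 h1 with h2 | h2
    · rw [h2, one_smul] at hc
      exact hne' hc.symm
    · rw [h2, neg_one_smul] at hc
      exact hneg hc.symm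
  set K : Submodule ℝ E3 := Submodule.span ℝ (Set.range ![u i, u j]) with hK
  have hKf : finrank ℝ K = 2 := by
    rw [hK, finrank_span_eq_card hli, Fintype.card_fin]
  have hsum := Submodule.finrank_add_finrank_orthogonal K
  have hE : finrank ℝ E3 = 3 := by simp
  have horth : vectorSpan ℝ (FF u h i ∩ FF u h j) ≤ Kᗮ := by
    rw [vectorSpan_def, Submodule.span_le]
    rintro w ⟨x, hx, y, hy, rfl⟩
    rw [SetLike.mem_coe, Submodule.mem_orthogonal]
    intro z hz
    show ⟪z, x - y⟫ = 0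
    induction hz using Submodule.span_induction with
    | mem z hz =>
      obtain ⟨k, rfl⟩ := hz
      fin_cases k
      · show ⟪u i, x - y⟫ = 0
        rw [inner_sub_right, hx.1.2, hy.1.2, sub_self]
      · show ⟪u j, x - y⟫ = 0
        rw [inner_sub_right, hx.2.2, hy.2.2, sub_self]
    | zero => exact inner_zero_left _
    | add a b _ _ ha hb => rw [inner_add_left, ha, hb, add_zero]
    | smul c a _ ha => rw [inner_smul_left, ha, mul_zero]
  have hfin : finrank ℝ (vectorSpan ℝ (FF u h i ∩ FF u h j)) < 2 := by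
    have := Submodule.finrank_mono horth
    omega
  obtain ⟨D, hD⟩ := Metric.isBounded_iff.1 R.bdd
  refine Helper75.measure_flat_eq_zero rfl hfin (D := D) fun x hx y hy => ?_
  rw [← dist_eq_norm]
  exact hD hx.1.1 hy.1.1

/-- the facet without the others -/
def FO {ι : Type} (u : ι → E3) (h : ι → ℝ) (i : ι) : Set E3 :=
  FF u h i \ ⋃ j : {j : ι // j ≠ i}, FF u h j

lemma FO_meas {ι : Type} [Finite ι] (u : ι → E3) (h : ι → ℝ) (i : ι) :
    MeasurableSet (FO u h i) :=
  (isClosed_FF u h i).measurableSet.diff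
    (MeasurableSet.iUnion fun j => (isClosed_FF u h j).measurableSet)

lemma measure_FF_le {ι : Type} [Finite ι] {u : ι → E3} {h : ι → ℝ} (R : Rep u h) (i : ι) :
    μHE[2] (FF u h i) ≤ μHE[2] (FO u h i) := by
  have h0 : μHE[2] (⋃ j : {j : ι // j ≠ i}, FF u h i ∩ FF u h j) = 0 :=
    measure_iUnion_null fun j => inter_zero R j.2.symm
  have hsub : FF u h i ⊆ FO u h i ∪ ⋃ j : {j : ι // j ≠ i}, FF u h i ∩ FF u h j := by
    intro x hx
    by_cases hx' : x ∈ ⋃ j : {j : ι // j ≠ i}, FF u h j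
    · right
      rw [Set.mem_iUnion] at hx' ⊢
      obtain ⟨j, hj⟩ := hx'
      exact ⟨j, hx, hj⟩
    · exact Or.inl ⟨hx, hx'⟩
  calc μHE[2] (FF u h i) ≤ _ := measure_mono hsub
    _ ≤ μHE[2] (FO u h i) + μHE[2] (⋃ j : {j : ι // j ≠ i}, FF u h i ∩ FF u h j) :=
        measure_union_le _ _
    _ = _ := by rw [h0, add_zero]

/-- projection to a plane -/
noncomputable def pr (u : E3) (c : ℝ) (y : E3) : E3 := y + (c - ⟪u, y⟫) • u

lemma pr_lip {u : E3} (hu : ‖u‖ = 1) (c : ℝ) : LipschitzWith 1 (pr u c) := by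
  apply LipschitzWith.of_dist_le_mul
  intro y z
  rw [NNReal.coe_one, one_mul, dist_eq_norm, dist_eq_norm]
  have e : pr u c y - pr u c z = (y - z) - ⟪u, y - z⟫ • u := by
    unfold pr
    rw [inner_sub_right]
    module
  rw [e]
  have h2 : ‖(y - z) - ⟪u, y - z⟫ • u‖ ^ 2 = ‖y - z‖ ^ 2 - ⟪u, y - z⟫ ^ 2 := by
    rw [norm_sub_sq_real, inner_smul_right, real_inner_comm, norm_smul, hu, mul_one,
      Real.norm_eq_abs, sq_abs]
    ring
  apply le_of_sq_le_sq _ (norm_nonneg _)
  rw [h2]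
  nlinarith [sq_nonneg ⟪u, y - z⟫]

lemma pr_cont (u : E3) (c : ℝ) : Continuous (pr u c) := by
  unfold pr
  fun_prop

/-- the part of the frontier above the facet -/
def YY {ι : Type} (u : ι → E3) (h : ι → ℝ) (Q : Set E3) (i : ι) : Set E3 :=
  frontier Q ∩ (pr (u i) (h i) ⁻¹' FO u h i ∩ {y | h i ≤ ⟪u i, y⟫})

lemma YY_meas {ι : Type} [Finite ι] (u : ι → E3) (h : ι → ℝ) (Q : Set E3) (i : ι) :
    MeasurableSet (YY u h Q i) := by
  refine isClosed_frontier.measurableSet.inter
    (((pr_cont _ _).measurable (FO_meas u h i)).inter ?_)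
  exact (isClosed_le continuous_const (by fun_prop)).measurableSet

lemma YY_disj {ι : Type} (u : ι → E3) (h : ι → ℝ) (Q : Set E3) :
    Pairwise (Function.onFun Disjoint (YY u h Q)) := by
  intro i j hij
  rw [Function.onFun, Set.disjoint_left]
  rintro y ⟨-, h1, h2⟩ ⟨-, h3, h4⟩
  rw [Set.mem_preimage] at h1 h3
  rw [Set.mem_setOf_eq] at h2 h4
  have e1 : y - pr (u i) (h i) y = (⟪u i, y⟫ - h i) • u i := by
    unfold pr; module
  have e2 : y - pr (u j) (h j) y = (⟪u j, y⟫ - h j) • u j := by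
    unfold pr; module
  generalize pr (u i) (h i) y = x at h1 e1
  generalize pr (u j) (h j) y = x' at h3 e2
  have a1 : ⟪y - x, x' - x⟫ ≤ 0 := by
    rw [e1, inner_smul_left, inner_sub_right, h1.1.2]
    have h5 := h3.1.1 i
    have : (starRingEnd ℝ) (⟪u i, y⟫ - h i) = ⟪u i, y⟫ - h i := rfl
    rw [this]
    exact mul_nonpos_of_nonneg_of_nonpos (by linarith) (by linarith)
  have a2 : ⟪y - x', x - x'⟫ ≤ 0 := by
    rw [e2, inner_smul_left, inner_sub_right, h3.1.2]
    have h5 := h1.1.1 j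
    have : (starRingEnd ℝ) (⟪u j, y⟫ - h j) = ⟪u j, y⟫ - h j := rfl
    rw [this]
    exact mul_nonpos_of_nonneg_of_nonpos (by linarith) (by linarith)
  have a3 : ⟪y - x, x' - x⟫ + ⟪y - x', x - x'⟫ = ‖x' - x‖ ^ 2 := by
    have e3 : x - x' = -(x' - x) := by abel
    rw [e3, inner_neg_right, ← sub_eq_add_neg, ← inner_sub_left,
      show y - x - (y - x') = x' - x by abel, real_inner_self_eq_norm_sq]
  have a4 : ‖x' - x‖ = 0 := by
    have : ‖x' - x‖ ^ 2 ≤ 0 := by linarith
    exact pow_eq_zero_iff (two_ne_zero) |>.1 (le_antisymm this (sq_nonneg _))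
  have a5 : x' = x := by
    rw [norm_eq_zero, sub_eq_zero] at a4
    exact a4
  apply h1.2
  rw [Set.mem_iUnion]
  refine ⟨⟨j, hij.symm⟩, ?_⟩
  rw [← a5]
  exact h3.1

lemma image_YY {ι : Type} {u : ι → E3} {h : ι → ℝ} (hu : ∀ i, ‖u i‖ = 1) {Q : Set E3}
    (hQ : IsClosed Q) (hb : Bornology.IsBounded Q) (hsub : PP u h ⊆ Q) (i : ι) :
    FO u h i ⊆ pr (u i) (h i) '' YY u h Q i := by
  intro x hx
  have hxQ : x ∈ Q := hsub hx.1.1
  obtain ⟨C, hC⟩ := hb.exists_norm_le
  let T : Set ℝ := {t | 0 ≤ t ∧ x + t • u i ∈ Q}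
  have hTc : IsClosed T := by
    apply IsClosed.inter
    · exact isClosed_Ici
    · exact hQ.preimage (by fun_prop)
  have hTb : Bornology.IsBounded T := by
    refine (Metric.isBounded_Icc (0 : ℝ) (2 * C)).subset ?_
    rintro t ⟨ht0, ht⟩
    refine ⟨ht0, ?_⟩
    have h1 := hC _ ht
    have h2 := hC _ hxQ
    have h3 : t = ‖t • u i‖ := by rw [norm_smul, hu, mul_one, Real.norm_of_nonneg ht0]
    have h4 : ‖t • u i‖ ≤ ‖x + t • u i‖ + ‖x‖ := by
      calc ‖t • u i‖ = ‖(x + t • u i) - x‖ := by rw [add_sub_cancel_left]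
        _ ≤ _ := norm_sub_le _ _
    linarith
  have hTcomp : IsCompact T := Metric.isCompact_of_isClosed_isBounded hTc hTb
  have hTne : T.Nonempty := ⟨0, le_refl _, by rw [zero_smul, add_zero]; exact hxQ⟩
  obtain ⟨t, ⟨ht0, htQ⟩, htmax⟩ := hTcomp.exists_isGreatest hTne
  have hin : ⟪u i, x + t • u i⟫ = h i + t := by
    rw [inner_add_right, inner_smul_right, real_inner_self_eq_norm_sq, hu, hx.1.2]
    ring
  refine ⟨x + t • u i, ⟨?_, ?_, ?_⟩, ?_⟩
  · rw [hQ.frontier_eq]
    refine ⟨htQ, fun hint => ?_⟩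
    rw [mem_interior_iff_mem_nhds, Metric.mem_nhds_iff] at hint
    obtain ⟨ε, hε, hball⟩ := hint
    have h1 : x + (t + ε / 2) • u i ∈ Q := by
      apply hball
      rw [Metric.mem_ball, dist_eq_norm,
        show x + (t + ε / 2) • u i - (x + t • u i) = (ε / 2) • u i by module, norm_smul, hu,
        mul_one, Real.norm_of_nonneg (by positivity)]
      linarith
    have h2 := htmax (show t + ε / 2 ∈ T from ⟨by positivity, h1⟩)
    linarith
  · rw [Set.mem_preimage]
    have : pr (u i) (h i) (x + t • u i) = x := by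
      unfold pr
      rw [hin]
      module
    rw [this]
    exact hx
  · rw [Set.mem_setOf_eq, hin]
    linarith
  · unfold pr
    rw [hin]
    module

lemma frontier_sub {ι : Type} [Finite ι] (v : ι → E3) (g : ι → ℝ) :
    frontier (PP v g) ⊆ ⋃ j, FF v g j := by
  intro y hy
  rw [(isClosed_PP v g).frontier_eq] at hy
  rw [Set.mem_iUnion]
  by_contra hcon
  push Not at hcon
  apply hy.2
  have hopen : IsOpen {z : E3 | ∀ j, ⟪v j, z⟫ < g j} := by
    have : {z : E3 | ∀ j, ⟪v j, z⟫ < g j} = ⋂ j, {z | ⟪v j, z⟫ < g j} := by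
      ext z; simp
    rw [this]
    exact isOpen_iInter_of_finite fun j => isOpen_lt (by fun_prop) continuous_const
  refine mem_interior.2 ⟨_, ?_, hopen, ?_⟩
  · intro z hz j
    exact (hz j).le
  · intro j
    exact lt_of_le_of_ne (hy.1 j) fun e => hcon j ⟨hy.1, e⟩

end M1

open M1 in
/-- M1. The surface area is monotone. -/
theorem zeta_two_mono {I J : Finset (E3 × ℝ)} (hI : (interior (Helper75.poly I)).Nonempty)
    (hJ : Bornology.IsBounded (Helper75.poly J)) (hsub : Helper75.poly I ⊆ Helper75.poly J) :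
    Helper75.zeta 2 (Helper75.poly I) ≤ Helper75.zeta 2 (Helper75.poly J) := by
  obtain ⟨n, u, h, R, hP⟩ := exists_rep (hJ.subset hsub) hI
  obtain ⟨m, v, g, S, hQ⟩ := exists_rep hJ (hI.mono (interior_mono hsub))
  rw [← hP, ← hQ] at hsub ⊢
  rw [zeta_two R, zeta_two S]
  calc ∑ i, μHE[2] (FF u h i) ≤ ∑ i, μHE[2] (YY u h (PP v g) i) := by
        refine Finset.sum_le_sum fun i _ => ?_
        calc μHE[2] (FF u h i) ≤ μHE[2] (FO u h i) := measure_FF_le R i
          _ ≤ μHE[2] (pr (u i) (h i) '' YY u h (PP v g) i) :=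
              measure_mono (image_YY R.unit (isClosed_PP v g) S.bdd hsub i)
          _ ≤ _ := Helper75.measure_image_le_of_lipschitz (pr_lip (R.unit i) (h i)) 2 _
    _ = μHE[2] (⋃ i, YY u h (PP v g) i) := by
        rw [measure_iUnion (YY_disj u h _) (YY_meas u h _), tsum_fintype]
    _ ≤ μHE[2] (⋃ j, FF v g j) := by
        refine measure_mono (Set.iUnion_subset fun i => ?_)
        exact Set.inter_subset_left.trans (frontier_sub v g)
    _ ≤ ∑' j, μHE[2] (FF v g j) := measure_iUnion_le _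
    _ = _ := tsum_fintype _

end Pool.Agent.Helper65.PK
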