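import Mathlib
import Pool.Agent.Helper65.PK.Defs
import Pool.Agent.Helper75.Near

/-!
# Project PK, piece M2

`homothety c t x = c + t (x - c)`. The ball of radius `(1 - t) r` around it lies in `A` (convexity:
`t x + (1 - t) y'`, `y' ∈ closedBall c r`), so each of its points is `δ`-close to `B`, and
`Helper75.mem_of_ball_near` applies (`δ < (1 - t) r`).
-/

namespace Pool.Agent.Helper65.PK

open MeasureTheory Module Set
open scoped ENNReal RealInnerProductSpace

/-- M2. A slightly shrunk copy of a convex set is contained in a nearby one. -/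
theorem homothety_subset {A B : Set E3} (hA : Convex ℝ A) (hB : Convex ℝ B) (hBc : IsClosed B)
    {c : E3} {r δ t : ℝ} (hc : Metric.closedBall c r ⊆ A) (h0 : 0 ≤ t) (h1 : t < 1)
    (hδ : δ < (1 - t) * r) (hnear : ∀ x ∈ A, ∃ b ∈ B, ‖x - b‖ ≤ δ) :
    AffineMap.homothety c t '' A ⊆ B := by
  rintro _ ⟨x, hx, rfl⟩
  have h1t : 0 < 1 - t := by linarith
  have hδ0 : 0 ≤ δ := by
    obtain ⟨b, _, hb⟩ := hnear x hx
    exact (norm_nonneg _).trans hb
  refine Helper75.mem_of_ball_near hB hBc (lt_of_le_of_lt hδ0 hδ) hδ ?_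
  intro y hy
  apply hnear
  set p : E3 := AffineMap.homothety c t x with hp
  have hp' : p = c + t • (x - c) := by
    rw [hp, AffineMap.homothety_apply, vsub_eq_sub, vadd_eq_add, add_comm]
  have h2 : c + (1 - t)⁻¹ • (y - p) ∈ A := by
    apply hc
    rw [Metric.mem_closedBall, dist_eq_norm, add_sub_cancel_left, norm_smul, norm_inv,
      Real.norm_eq_abs, abs_of_pos h1t, inv_mul_le_iff₀ h1t]
    exact hy
  have h3 := hA hx h2 h0 h1t.le (by ring)
  have h4 : t • x + (1 - t) • (c + (1 - t)⁻¹ • (y - p)) = y := by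
    rw [smul_add, smul_smul, mul_inv_cancel₀ h1t.ne', one_smul, hp']
    module
  rwa [h4] at h3

end Pool.Agent.Helper65.PK
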