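import Mathlib
import Pool.Agent.Helper65.PK.Prism
import Pool.Agent.Helper65.PK.Basic
import Pool.Agent.Helper75.Box

/-!
# Project PK, piece P1a

`PP cuU cuH` is the set of `x` with `0 ≤ x k ≤ 1` (`k = 0, 1, 2`; `Fin.forall_fin_succ`,
`EuclideanSpace.inner_eq_star_dotProduct` or `simp [PiLp.inner_apply, Fin.sum_univ_three]`).
Volume: `Helper75.volume_box'`. Fatness: center of each facet, `ε = 1/2` (`|y k - x k| ≤ ‖y - x‖`:
`EuclideanSpace.norm_eq`/`PiLp.norm_apply_le`). Interior: a small ball around the center.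
-/

namespace Pool.Agent.Helper65.PK

open MeasureTheory Module Set
open scoped ENNReal RealInnerProductSpace

theorem inner_three (a b c : ℝ) (x : E3) : ⟪(!₂[a, b, c] : E3), x⟫ = a * x 0 + b * x 1 + c * x 2 := by
  simp [PiLp.inner_apply, Fin.sum_univ_three, mul_comm]

theorem inner_cube (i : Fin 6) (x : E3) :
    ⟪cuU i, x⟫ = (![x 0, x 1, x 2, -x 0, -x 1, -x 2] : Fin 6 → ℝ) i := by
  fin_cases i <;> simp [cuU, inner_three]

theorem PP_cube : PP cuU cuH = {x : E3 | ∀ k : Fin 3, (fun _ => 0 : Fin 3 → ℝ) k ≤ x k ∧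
    x k ≤ (fun _ => 1 : Fin 3 → ℝ) k} := by
  ext x
  rw [mem_PP]
  constructor
  · intro h k
    have h0 := h 0
    have h1 := h 1
    have h2 := h 2
    have h3 := h 3
    have h4 := h 4
    have h5 := h 5
    simp only [inner_cube] at h0 h1 h2 h3 h4 h5
    simp [cuH] at h0 h1 h2 h3 h4 h5
    fin_cases k
    · exact ⟨h3, h0⟩
    · exact ⟨h4, h1⟩
    · exact ⟨h5, h2⟩
  · intro h i
    have h0 := h 0
    have h1 := h 1
    have h2 := h 2
    simp only at h0 h1 h2
    rw [inner_cube]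
    fin_cases i <;> simp [cuH]
    · exact h0.2
    · exact h1.2
    · exact h2.2
    · exact h0.1
    · exact h1.1
    · exact h2.1

/-- The centers of the facets. -/
noncomputable def cuC : Fin 6 → E3 :=
  ![!₂[1, 1 / 2, 1 / 2], !₂[1 / 2, 1, 1 / 2], !₂[1 / 2, 1 / 2, 1], !₂[0, 1 / 2, 1 / 2],
    !₂[1 / 2, 0, 1 / 2], !₂[1 / 2, 1 / 2, 0]]

theorem volume_cube : volume (PP cuU cuH) = 1 := by
  rw [PP_cube, Helper75.volume_box']
  simp

theorem coord_lt {x y : E3} (h : ‖y - x‖ < 1 / 2) (k : Fin 3) : |y k - x k| < 1 / 2 := by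
  refine lt_of_le_of_lt ?_ h
  have := PiLp.norm_apply_le (y - x) k
  rwa [Real.norm_eq_abs] at this

theorem rep_cube : Rep cuU cuH := by
  refine ⟨?_, ?_, ?_, ?_, ?_⟩
  · intro i
    fin_cases i <;> simp [cuU, EuclideanSpace.norm_eq, Fin.sum_univ_three]
  · intro i j hij
    have h0 := congrArg (fun x : E3 => x 0) hij
    have h1 := congrArg (fun x : E3 => x 1) hij
    have h2 := congrArg (fun x : E3 => x 2) hij
    revert h0 h1 h2
    fin_cases i <;> fin_cases j <;> simp [cuU] <;> norm_num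
  · rw [PP_cube]
    refine (Metric.isBounded_closedBall (x := (0 : E3)) (r := 3)).subset fun x hx => ?_
    have h0 := hx 0
    have h1 := hx 1
    have h2 := hx 2
    simp only at h0 h1 h2
    rw [Metric.mem_closedBall, dist_zero_right, EuclideanSpace.norm_eq, Fin.sum_univ_three,
      Real.norm_eq_abs, Real.norm_eq_abs, Real.norm_eq_abs, sq_abs, sq_abs, sq_abs]
    refine Real.sqrt_le_iff.2 ⟨by norm_num, ?_⟩
    nlinarith
  · rw [PP_cube]
    refine ⟨!₂[1 / 2, 1 / 2, 1 / 2], ?_⟩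
    rw [mem_interior_iff_mem_nhds, Metric.mem_nhds_iff]
    refine ⟨1 / 2, by norm_num, fun y hy k => ?_⟩
    rw [Metric.mem_ball, dist_eq_norm] at hy
    have h := abs_lt.1 (coord_lt hy k)
    have hk : (!₂[1 / 2, 1 / 2, 1 / 2] : E3) k = 1 / 2 := by
      fin_cases k <;> simp
    rw [hk] at h
    simp only
    constructor <;> linarith
  · intro i
    refine ⟨cuC i, 1 / 2, by norm_num, ?_, ?_⟩
    · rw [inner_cube]
      fin_cases i <;> simp [cuC, cuH]
    · intro y hy hd
      rw [PP_cube]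
      intro k
      have h0 := abs_lt.1 (coord_lt hd 0)
      have h1 := abs_lt.1 (coord_lt hd 1)
      have h2 := abs_lt.1 (coord_lt hd 2)
      rw [inner_cube] at hy
      fin_cases i <;> fin_cases k <;> simp [cuC, cuH] at hy h0 h1 h2 ⊢ <;> constructor <;> linarith

end Pool.Agent.Helper65.PK
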