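import Mathlib
import Pool.Agent.Helper65.PK.Prism
import Pool.Agent.Helper65.PK.Basic
import Pool.Agent.Helper75.Box

/-!
# Project PK, piece P1b

Each face `FF cuU cuH i` is the image of the unit square
`{v : E2 | 0 ≤ v 0 ≤ 1, 0 ≤ v 1 ≤ 1}` (area 1 by `Helper75.volume_box'`) under an isometry
`E2 → E3` (`Isometry.euclideanHausdorffMeasure_image`; `μHE[2] = volume` on `E2`). For the edges:
`FF i ∩ FF j` is empty for opposite faces and contained in a segment of length 1 otherwise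
(image of `[0,1]` under an isometry `ℝ → E3`, or `slice`), 24 ordered pairs.
-/

namespace Pool.Agent.Helper65.PK

open MeasureTheory Module Set
open scoped ENNReal RealInnerProductSpace

/-- the cube with side 1 -/
def ubox (n : ℕ) : Set (EuclideanSpace ℝ (Fin n)) := {v | ∀ j, 0 ≤ v j ∧ v j ≤ 1}

/-- the isometry that inserts the coordinate `c` at `k` -/
noncomputable def insC {n : ℕ} (k : Fin (n + 1)) (c : ℝ) (v : EuclideanSpace ℝ (Fin n)) :
    EuclideanSpace ℝ (Fin (n + 1)) := WithLp.toLp 2 (k.insertNth c (fun j => v j))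

theorem insC_same {n : ℕ} (k : Fin (n + 1)) (c : ℝ) (v : EuclideanSpace ℝ (Fin n)) :
    insC k c v k = c := by
  simp [insC]

theorem insC_succAbove {n : ℕ} (k : Fin (n + 1)) (c : ℝ) (v : EuclideanSpace ℝ (Fin n))
    (j : Fin n) : insC k c v (k.succAbove j) = v j := by
  simp [insC]

theorem isometry_insC {n : ℕ} (k : Fin (n + 1)) (c : ℝ) :
    Isometry (insC k c : EuclideanSpace ℝ (Fin n) → EuclideanSpace ℝ (Fin (n + 1))) := by
  refine Isometry.of_dist_eq fun v w => ?_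
  rw [EuclideanSpace.dist_eq, EuclideanSpace.dist_eq, Fin.sum_univ_succAbove _ k, insC_same,
    insC_same, dist_self]
  simp only [insC_succAbove]
  congr 1
  ring

theorem image_insC {n : ℕ} (k : Fin (n + 1)) {c : ℝ} (hc : 0 ≤ c ∧ c ≤ 1)
    (Q : EuclideanSpace ℝ (Fin (n + 1)) → Prop) :
    {x | x ∈ ubox (n + 1) ∧ x k = c ∧ Q x} = insC k c '' {v | v ∈ ubox n ∧ Q (insC k c v)} := by
  ext x
  constructor
  · rintro ⟨h1, h2, h3⟩
    have h4 : insC k c (WithLp.toLp 2 fun j => x (k.succAbove j)) = x := by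
      ext j
      rcases Fin.eq_self_or_eq_succAbove k j with h | ⟨l, h⟩
      · rw [h, insC_same, h2]
      · rw [h, insC_succAbove]
    refine ⟨WithLp.toLp 2 fun j => x (k.succAbove j), ⟨fun j => h1 _, ?_⟩, h4⟩
    rw [h4]
    exact h3
  · rintro ⟨v, ⟨h1, h2⟩, rfl⟩
    refine ⟨fun j => ?_, insC_same k c v, h2⟩
    rcases Fin.eq_self_or_eq_succAbove k j with h | ⟨l, h⟩
    · rw [h, insC_same]
      exact hc
    · rw [h, insC_succAbove]
      exact h1 l

theorem meas_ubox (n : ℕ) : μHE[n] (ubox n) = 1 := by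
  rw [EuclideanSpace.euclideanHausdorffMeasure_eq_volume]
  have h := Helper75.volume_box' (d := n) (fun _ => 0) (fun _ => 1)
  have h2 : ubox n = {x : EuclideanSpace ℝ (Fin n) | ∀ i, (fun _ => (0 : ℝ)) i ≤ x i ∧
      x i ≤ (fun _ => (1 : ℝ)) i} := rfl
  rw [h2, h]
  simp

/-- the coordinate orthogonal to the face -/
def kk : Fin 6 → Fin 3 := ![0, 1, 2, 0, 1, 2]

theorem inner_cu (i : Fin 6) (x : E3) :
    ⟪cuU i, x⟫ = (![x 0, x 1, x 2, -x 0, -x 1, -x 2] : Fin 6 → ℝ) i := by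
  fin_cases i <;> simp [cuU, PiLp.inner_apply, Fin.sum_univ_three]

theorem mem_cube (x : E3) : x ∈ PP cuU cuH ↔ x ∈ ubox 3 := by
  rw [mem_PP]
  simp only [inner_cu]
  constructor
  · intro h
    have h0 := h 0
    have h1 := h 1
    have h2 := h 2
    have h3 := h 3
    have h4 := h 4
    have h5 := h 5
    simp [cuH] at h0 h1 h2 h3 h4 h5
    intro j
    fin_cases j
    · exact ⟨h3, h0⟩
    · exact ⟨h4, h1⟩
    · exact ⟨h5, h2⟩
  · intro h i
    have h0 := h 0
    have h1 := h 1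
    have h2 := h 2
    fin_cases i <;> simp [cuH] <;> linarith [h0.1, h0.2, h1.1, h1.2, h2.1, h2.2]

theorem cuH_mem (i : Fin 6) : 0 ≤ cuH i ∧ cuH i ≤ 1 := by
  fin_cases i <;> simp [cuH]

theorem mem_face (i : Fin 6) (x : E3) :
    x ∈ FF cuU cuH i ↔ x ∈ ubox 3 ∧ x (kk i) = cuH i := by
  rw [mem_FF, mem_cube, inner_cu]
  refine and_congr_right fun _ => ?_
  fin_cases i <;> simp [cuH, kk]

theorem area_cube (i : Fin 6) : μHE[2] (FF cuU cuH i) = 1 := by
  have h1 : FF cuU cuH i = {x | x ∈ ubox 3 ∧ x (kk i) = cuH i ∧ True} := by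
    ext x
    rw [mem_face]
    simp
  rw [h1, image_insC (kk i) (cuH_mem i), (isometry_insC _ _).euclideanHausdorffMeasure_image]
  have h2 : {v | v ∈ ubox 2 ∧ True} = ubox 2 := by
    ext v
    simp
  rw [h2, meas_ubox]

theorem edge_le (i j : Fin 6) (hij : i ≠ j) :
    μHE[1] (FF cuU cuH i ∩ FF cuU cuH j) ≤ if kk i = kk j then 0 else 1 := by
  split_ifs with hk
  · have h : FF cuU cuH i ∩ FF cuU cuH j = ∅ := by
      ext x
      simp only [mem_inter_iff, mem_face, mem_empty_iff_false, iff_false]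
      rintro ⟨⟨-, h1⟩, -, h2⟩
      rw [hk, h2] at h1
      revert hij hk h1
      fin_cases i <;> fin_cases j <;> simp [kk, cuH]
    rw [h, measure_empty]
  · obtain ⟨m, hm⟩ := Fin.exists_succAbove_eq (Ne.symm hk)
    have h1 : FF cuU cuH i ∩ FF cuU cuH j =
        {x | x ∈ ubox 3 ∧ x (kk i) = cuH i ∧ x (kk j) = cuH j} := by
      ext x
      simp only [mem_inter_iff, mem_face]
      constructor
      · rintro ⟨⟨h1, h2⟩, -, h3⟩
        exact ⟨h1, h2, h3⟩
      · rintro ⟨h1, h2, h3⟩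
        exact ⟨⟨h1, h2⟩, h1, h3⟩
    have h2 : {v : E2 | v ∈ ubox 2 ∧ insC (kk i) (cuH i) v (kk j) = cuH j} =
        {v | v ∈ ubox 2 ∧ v m = cuH j ∧ True} := by
      ext v
      rw [← hm]
      simp only [insC_succAbove, mem_ofPred_eq, and_true]
    have h3 : {v | v ∈ ubox 1 ∧ True} = ubox 1 := by
      ext v
      simp
    rw [h1, image_insC (kk i) (cuH_mem i), (isometry_insC _ _).euclideanHausdorffMeasure_image,
      h2, image_insC m (cuH_mem j), (isometry_insC _ _).euclideanHausdorffMeasure_image, h3,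
      meas_ubox]

theorem edges_cube : ∑ i, ∑ j ∈ Finset.univ.erase i, μHE[1] (FF cuU cuH i ∩ FF cuU cuH j) ≤ 24 := by
  have h1 : ∑ i, ∑ j ∈ Finset.univ.erase i, μHE[1] (FF cuU cuH i ∩ FF cuU cuH j) ≤
      ∑ i, ∑ j ∈ Finset.univ.erase i, if kk i = kk j then (0 : ℝ≥0∞) else 1 :=
    Finset.sum_le_sum fun i _ => Finset.sum_le_sum fun j hj =>
      edge_le i j (Finset.ne_of_mem_erase hj).symm
  refine h1.trans (le_of_eq ?_)
  have h2 : (∑ i, ∑ j ∈ Finset.univ.erase i, if kk i = kk j then 0 else 1 : ℕ) = 24 := by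
    decide
  have h3 := congrArg (fun n : ℕ => (n : ℝ≥0∞)) h2
  push_cast at h3
  exact h3

end Pool.Agent.Helper65.PK
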