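import Pool.Agent.Helper65.PK.Prism

/-!
# Project PK, piece P2a

`PP prU prH` in coordinates: `0 ≤ x 1`, `35 x 0 - 12 x 1 ≤ 3080`, `3 x 0 + 4 x 1 ≤ 1144`,
`-3 x 0 + 4 x 1 ≤ 1144`, `-35 x 0 - 12 x 1 ≤ 3080`, `0 ≤ x 2 ≤ 220`. Bounded: `|x 0| ≤ 148`,
`0 ≤ x 1 ≤ 286` (linarith). Interior: a small ball around `(0, 100, 110)`. Fatness: midpoints of
the faces, `ε = 1`: `(0,0,110)`, `(118, 87.5, 110)`, `(74, 230.5, 110)`, `(-74, 230.5, 110)`,
`(-118, 87.5, 110)`, `(0,100,0)`, `(0,100,220)`.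
-/

namespace Pool.Agent.Helper65.PK

open MeasureTheory Module Set
open scoped ENNReal RealInnerProductSpace

private theorem inner_vec (a b c : ℝ) (x : E3) :
    ⟪(!₂[a, b, c] : E3), x⟫ = a * x 0 + b * x 1 + c * x 2 := by
  simp [PiLp.inner_apply, Fin.sum_univ_three]
  ring

private theorem norm_vec (a b c : ℝ) (h : a ^ 2 + b ^ 2 + c ^ 2 = 1) :
    ‖(!₂[a, b, c] : E3)‖ = 1 := by
  rw [EuclideanSpace.norm_eq, Real.sqrt_eq_one, Fin.sum_univ_three]
  simpa using h

private theorem coord_lt (x y : E3) (h : ‖y - x‖ < 1) (i : Fin 3) : |y i - x i| < 1 := by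
  have h1 := PiLp.norm_apply_le (y - x) i
  rw [PiLp.sub_apply, Real.norm_eq_abs] at h1
  linarith

private theorem mem_prism (x : E3) : x ∈ PP prU prH ↔
    (0 ≤ x 1 ∧ 35 * x 0 - 12 * x 1 ≤ 3080 ∧ 3 * x 0 + 4 * x 1 ≤ 1144 ∧
      -3 * x 0 + 4 * x 1 ≤ 1144 ∧ -35 * x 0 - 12 * x 1 ≤ 3080 ∧ 0 ≤ x 2 ∧ x 2 ≤ 220) := by
  constructor
  · intro hx
    have h0 := hx 0
    have h1 := hx 1
    have h2 := hx 2
    have h3 := hx 3
    have h4 := hx 4
    have h5 := hx 5
    have h6 := hx 6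
    simp only [prU, prH, Matrix.cons_val, inner_vec] at h0 h1 h2 h3 h4 h5 h6
    refine ⟨?_, ?_, ?_, ?_, ?_, ?_, ?_⟩ <;> linarith
  · rintro ⟨h0, h1, h2, h3, h4, h5, h6⟩ i
    fin_cases i <;> simp only [prU, prH, inner_vec, Fin.reduceFinMk, Fin.zero_eta, Fin.mk_one,
      Matrix.cons_val] <;> linarith

private theorem fat_of (i : Fin 7) (a b c : ℝ) (h : ⟪prU i, (!₂[a, b, c] : E3)⟫ = prH i)
    (h2 : ∀ y : E3, ⟪prU i, y⟫ = prH i → |y 0 - a| < 1 → |y 1 - b| < 1 → |y 2 - c| < 1 →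
      y ∈ PP prU prH) : Fat prU prH i := by
  refine ⟨!₂[a, b, c], 1, one_pos, h, fun y hy hyn => h2 y hy ?_ ?_ ?_⟩
  · simpa using coord_lt _ _ hyn 0
  · simpa using coord_lt _ _ hyn 1
  · simpa using coord_lt _ _ hyn 2

theorem rep_prism : Rep prU prH := by
  refine ⟨?_, ?_, ?_, ?_, ?_⟩
  · intro i
    fin_cases i <;> simp only [prU, Fin.reduceFinMk, Fin.zero_eta, Fin.mk_one,
      Matrix.cons_val] <;> apply norm_vec <;> norm_num
  · intro i j hij
    have h0 := congrArg (fun v : E3 => v 0) hij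
    have h1 := congrArg (fun v : E3 => v 1) hij
    have h2 := congrArg (fun v : E3 => v 2) hij
    fin_cases i <;> fin_cases j <;> first
      | rfl
      | (exfalso; simp [prU] at h0; done)
      | (exfalso; simp [prU] at h1; done)
      | (exfalso; simp [prU] at h2; done)
      | (exfalso; simp [prU] at h0; norm_num at h0; done)
      | (exfalso; simp [prU] at h1; norm_num at h1; done)
      | (exfalso; simp [prU] at h2; norm_num at h2; done)
  · rw [Metric.isBounded_iff_subset_closedBall 0]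
    refine ⟨1000, fun x hx => ?_⟩
    rw [mem_prism] at hx
    obtain ⟨h0, h1, h2, h3, h4, h5, h6⟩ := hx
    rw [mem_closedBall_zero_iff, EuclideanSpace.norm_eq, Real.sqrt_le_left (by norm_num),
      Fin.sum_univ_three]
    simp only [Real.norm_eq_abs, sq_abs]
    have a0 : x 0 ≤ 148 := by linarith
    have a1 : -148 ≤ x 0 := by linarith
    have a2 : x 1 ≤ 286 := by linarith
    nlinarith
  · refine ⟨!₂[0, 100, 110], ?_⟩
    rw [mem_interior_iff_mem_nhds, Metric.mem_nhds_iff]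
    refine ⟨1, one_pos, fun y hy => ?_⟩
    rw [Metric.mem_ball, dist_eq_norm] at hy
    have c0 := coord_lt _ _ hy 0
    have c1 := coord_lt _ _ hy 1
    have c2 := coord_lt _ _ hy 2
    simp at c0 c1 c2
    rw [abs_lt] at c0 c1 c2
    rw [mem_prism]
    refine ⟨?_, ?_, ?_, ?_, ?_, ?_, ?_⟩ <;> linarith [c0.1, c0.2, c1.1, c1.2, c2.1, c2.2]
  · intro i
    fin_cases i
    · apply fat_of _ 0 0 110
      · simp [prU, prH, inner_vec]
      · intro y hy c0 c1 c2
        simp only [prU, prH, inner_vec, Fin.zero_eta, Matrix.cons_val] at hy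
        rw [abs_lt] at c0 c1 c2
        rw [mem_prism]
        refine ⟨?_, ?_, ?_, ?_, ?_, ?_, ?_⟩ <;> linarith [c0.1, c0.2, c1.1, c1.2, c2.1, c2.2]
    · apply fat_of _ 118 (175 / 2) 110
      · simp [prU, prH, inner_vec]; norm_num
      · intro y hy c0 c1 c2
        simp only [prU, prH, inner_vec, Fin.mk_one, Matrix.cons_val] at hy
        rw [abs_lt] at c0 c1 c2
        rw [mem_prism]
        refine ⟨?_, ?_, ?_, ?_, ?_, ?_, ?_⟩ <;> linarith [c0.1, c0.2, c1.1, c1.2, c2.1, c2.2]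
    · apply fat_of _ 74 (461 / 2) 110
      · simp [prU, prH, inner_vec]; norm_num
      · intro y hy c0 c1 c2
        simp only [prU, prH, inner_vec, Fin.reduceFinMk, Matrix.cons_val] at hy
        rw [abs_lt] at c0 c1 c2
        rw [mem_prism]
        refine ⟨?_, ?_, ?_, ?_, ?_, ?_, ?_⟩ <;> linarith [c0.1, c0.2, c1.1, c1.2, c2.1, c2.2]
    · apply fat_of _ (-74) (461 / 2) 110
      · simp [prU, prH, inner_vec]; norm_num
      · intro y hy c0 c1 c2
        simp only [prU, prH, inner_vec, Fin.reduceFinMk, Matrix.cons_val] at hy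
        rw [abs_lt] at c0 c1 c2
        rw [mem_prism]
        refine ⟨?_, ?_, ?_, ?_, ?_, ?_, ?_⟩ <;> linarith [c0.1, c0.2, c1.1, c1.2, c2.1, c2.2]
    · apply fat_of _ (-118) (175 / 2) 110
      · simp [prU, prH, inner_vec]; norm_num
      · intro y hy c0 c1 c2
        simp only [prU, prH, inner_vec, Fin.reduceFinMk, Matrix.cons_val] at hy
        rw [abs_lt] at c0 c1 c2
        rw [mem_prism]
        refine ⟨?_, ?_, ?_, ?_, ?_, ?_, ?_⟩ <;> linarith [c0.1, c0.2, c1.1, c1.2, c2.1, c2.2]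
    · apply fat_of _ 0 100 0
      · simp [prU, prH, inner_vec]
      · intro y hy c0 c1 c2
        simp only [prU, prH, inner_vec, Fin.reduceFinMk, Matrix.cons_val] at hy
        rw [abs_lt] at c0 c1 c2
        rw [mem_prism]
        refine ⟨?_, ?_, ?_, ?_, ?_, ?_, ?_⟩ <;> linarith [c0.1, c0.2, c1.1, c1.2, c2.1, c2.2]
    · apply fat_of _ 0 100 220
      · simp [prU, prH, inner_vec]
      · intro y hy c0 c1 c2
        simp only [prU, prH, inner_vec, Fin.reduceFinMk, Matrix.cons_val] at hy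
        rw [abs_lt] at c0 c1 c2
        rw [mem_prism]
        refine ⟨?_, ?_, ?_, ?_, ?_, ?_, ?_⟩ <;> linarith [c0.1, c0.2, c1.1, c1.2, c2.1, c2.2]

end Pool.Agent.Helper65.PK
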