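import Mathlib
import Pool.Agent.Helper65.PK.Prism
import Pool.Agent.Helper65.PK.Basic
import Pool.Agent.Helper75.Box

/-!
# Project PK, piece P2b

The five lateral faces are rectangles `176 × 220` and `185 × 220`: e.g. face 1 is the image of
`{v : E2 | 0 ≤ v 0 ≤ 185, 0 ≤ v 1 ≤ 220}` under the isometry
`v ↦ (88 + 12/37 v 0, 35/37 v 0, v 1)`; face 2: `v ↦ (148 - 4/5 v 0, 175 + 3/5 v 0, v 1)`; face 3:
`v ↦ (-4/5 v 0, 286 - 3/5 v 0, v 1)`; face 4: `v ↦ (-88 - 12/37 v 0, 35/37 v 0, v 1)`; face 0: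
`v ↦ (-88 + v 0, 0, v 1)`. `Helper75.volume_box'`, `Isometry.euclideanHausdorffMeasure_image`.
-/

namespace Pool.Agent.Helper65.PK

open MeasureTheory Module Set
open scoped ENNReal RealInnerProductSpace

theorem inner_three_b (a b c : ℝ) (x : E3) : ⟪(!₂[a, b, c] : E3), x⟫ = a * x 0 + b * x 1 + c * x 2 := by
  simp [PiLp.inner_apply, Fin.sum_univ_three, mul_comm]

theorem mem_PP_pr (x : E3) : x ∈ PP prU prH ↔ 0 ≤ x 1 ∧ 35 * x 0 - 12 * x 1 ≤ 3080 ∧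
    3 * x 0 + 4 * x 1 ≤ 1144 ∧ -3 * x 0 + 4 * x 1 ≤ 1144 ∧ -35 * x 0 - 12 * x 1 ≤ 3080 ∧
    0 ≤ x 2 ∧ x 2 ≤ 220 := by
  have h : x ∈ PP prU prH ↔ ⟪(!₂[0, -1, 0] : E3), x⟫ ≤ 0 ∧
      ⟪(!₂[35 / 37, -12 / 37, 0] : E3), x⟫ ≤ 3080 / 37 ∧
      ⟪(!₂[3 / 5, 4 / 5, 0] : E3), x⟫ ≤ 1144 / 5 ∧ ⟪(!₂[-3 / 5, 4 / 5, 0] : E3), x⟫ ≤ 1144 / 5 ∧
      ⟪(!₂[-35 / 37, -12 / 37, 0] : E3), x⟫ ≤ 3080 / 37 ∧ ⟪(!₂[0, 0, -1] : E3), x⟫ ≤ 0 ∧
      ⟪(!₂[0, 0, 1] : E3), x⟫ ≤ 220 := by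
    constructor
    · intro h
      exact ⟨h 0, h 1, h 2, h 3, h 4, h 5, h 6⟩
    · rintro ⟨h0, h1, h2, h3, h4, h5, h6⟩ i
      fin_cases i
      · exact h0
      · exact h1
      · exact h2
      · exact h3
      · exact h4
      · exact h5
      · exact h6
  rw [h]
  simp only [inner_three_b]
  constructor
  · rintro ⟨h0, h1, h2, h3, h4, h5, h6⟩
    refine ⟨?_, ?_, ?_, ?_, ?_, ?_, ?_⟩ <;> linarith
  · rintro ⟨h0, h1, h2, h3, h4, h5, h6⟩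
    refine ⟨?_, ?_, ?_, ?_, ?_, ?_, ?_⟩ <;> linarith

/-- The isometry onto the plane of a lateral face. -/
noncomputable def latMap (a b c s : ℝ) (v : E2) : E3 := !₂[a + c * v 0, b + s * v 0, v 1]

theorem isometry_latMap (a b c s : ℝ) (hcs : c ^ 2 + s ^ 2 = 1) : Isometry (latMap a b c s) := by
  refine Isometry.of_dist_eq fun v w => ?_
  rw [EuclideanSpace.dist_eq, EuclideanSpace.dist_eq]
  congr 1
  rw [Fin.sum_univ_three, Fin.sum_univ_two]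
  simp only [latMap, Real.dist_eq, sq_abs]
  simp
  linear_combination (v.ofLp 0 - w.ofLp 0) ^ 2 * hcs

theorem area_rect (a b c s w : ℝ) (hcs : c ^ 2 + s ^ 2 = 1) (S : Set E3)
    (hS : ∀ x : E3, x ∈ S ↔ ∃ u : ℝ, 0 ≤ u ∧ u ≤ w ∧ 0 ≤ x 2 ∧ x 2 ≤ 220 ∧ x 0 = a + c * u ∧
      x 1 = b + s * u) :
    μHE[2] S = ENNReal.ofReal w * ENNReal.ofReal 220 := by
  have h1 : S = latMap a b c s '' {v : E2 | ∀ i, (![0, 0] : Fin 2 → ℝ) i ≤ v i ∧
      v i ≤ (![w, 220] : Fin 2 → ℝ) i} := by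
    ext x
    rw [hS]
    constructor
    · rintro ⟨u, h0, h1, h2, h3, h4, h5⟩
      refine ⟨!₂[u, x 2], ?_, ?_⟩
      · intro i
        fin_cases i
        · exact ⟨h0, h1⟩
        · exact ⟨h2, h3⟩
      · ext i
        fin_cases i
        · simp [latMap, h4]
        · simp [latMap, h5]
        · simp [latMap]
    · rintro ⟨v, hv, rfl⟩
      have hv0 := hv 0
      have hv1 := hv 1
      simp only [Matrix.cons_val_zero, Matrix.cons_val_one] at hv0 hv1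
      exact ⟨v 0, hv0.1, hv0.2, hv1.1, hv1.2, rfl, rfl⟩
  rw [h1, (isometry_latMap a b c s hcs).euclideanHausdorffMeasure_image,
    EuclideanSpace.euclideanHausdorffMeasure_eq_volume, Helper75.volume_box', Fin.prod_univ_two]
  simp

theorem area_lateral_zero : μHE[2] (FF prU prH 0) = 38720 := by
  rw [area_rect (-88) 0 1 0 176 (by norm_num)]
  · rw [← ENNReal.ofReal_mul (by norm_num)]
    norm_num
  · intro x
    rw [mem_FF, mem_PP_pr]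
    have h : ⟪prU 0, x⟫ = prH 0 ↔ -x 1 = 0 := by
      have h1 : ⟪prU 0, x⟫ = ⟪(!₂[0, -1, 0] : E3), x⟫ := rfl
      rw [h1, inner_three_b]
      have h2 : prH 0 = 0 := rfl
      rw [h2]
      constructor <;> intro h <;> linarith
    rw [h]
    constructor
    · rintro ⟨⟨h0, h1, h2, h3, h4, h5, h6⟩, h7⟩
      refine ⟨x 0 + 88, ?_, ?_, h5, h6, ?_, ?_⟩ <;> linarith
    · rintro ⟨u, h0, h1, h2, h3, h4, h5⟩
      refine ⟨⟨?_, ?_, ?_, ?_, ?_, ?_, ?_⟩, ?_⟩ <;> linarith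

theorem area_lateral (i : Fin 7) (hi : i = 1 ∨ i = 2 ∨ i = 3 ∨ i = 4) :
    μHE[2] (FF prU prH i) = 40700 := by
  rcases hi with rfl | rfl | rfl | rfl
  · rw [area_rect 88 0 (12 / 37) (35 / 37) 185 (by norm_num)]
    · rw [← ENNReal.ofReal_mul (by norm_num)]
      norm_num
    · intro x
      rw [mem_FF, mem_PP_pr]
      have h : ⟪prU 1, x⟫ = prH 1 ↔ 35 * x 0 - 12 * x 1 = 3080 := by
        have h1 : ⟪prU 1, x⟫ = ⟪(!₂[35 / 37, -12 / 37, 0] : E3), x⟫ := rfl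
        rw [h1, inner_three_b]
        have h2 : prH 1 = 3080 / 37 := rfl
        rw [h2]
        constructor <;> intro h <;> linarith
      rw [h]
      constructor
      · rintro ⟨⟨h0, h1, h2, h3, h4, h5, h6⟩, h7⟩
        refine ⟨37 / 35 * x 1, ?_, ?_, h5, h6, ?_, ?_⟩ <;> linarith
      · rintro ⟨u, h0, h1, h2, h3, h4, h5⟩
        refine ⟨⟨?_, ?_, ?_, ?_, ?_, ?_, ?_⟩, ?_⟩ <;> linarith
  · rw [area_rect 148 175 (-4 / 5) (3 / 5) 185 (by norm_num)]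
    · rw [← ENNReal.ofReal_mul (by norm_num)]
      norm_num
    · intro x
      rw [mem_FF, mem_PP_pr]
      have h : ⟪prU 2, x⟫ = prH 2 ↔ 3 * x 0 + 4 * x 1 = 1144 := by
        have h1 : ⟪prU 2, x⟫ = ⟪(!₂[3 / 5, 4 / 5, 0] : E3), x⟫ := rfl
        rw [h1, inner_three_b]
        have h2 : prH 2 = 1144 / 5 := rfl
        rw [h2]
        constructor <;> intro h <;> linarith
      rw [h]
      constructor
      · rintro ⟨⟨h0, h1, h2, h3, h4, h5, h6⟩, h7⟩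
        refine ⟨5 / 3 * (x 1 - 175), ?_, ?_, h5, h6, ?_, ?_⟩ <;> linarith
      · rintro ⟨u, h0, h1, h2, h3, h4, h5⟩
        refine ⟨⟨?_, ?_, ?_, ?_, ?_, ?_, ?_⟩, ?_⟩ <;> linarith
  · rw [area_rect 0 286 (-4 / 5) (-3 / 5) 185 (by norm_num)]
    · rw [← ENNReal.ofReal_mul (by norm_num)]
      norm_num
    · intro x
      rw [mem_FF, mem_PP_pr]
      have h : ⟪prU 3, x⟫ = prH 3 ↔ -3 * x 0 + 4 * x 1 = 1144 := by
        have h1 : ⟪prU 3, x⟫ = ⟪(!₂[-3 / 5, 4 / 5, 0] : E3), x⟫ := rfl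
        rw [h1, inner_three_b]
        have h2 : prH 3 = 1144 / 5 := rfl
        rw [h2]
        constructor <;> intro h <;> linarith
      rw [h]
      constructor
      · rintro ⟨⟨h0, h1, h2, h3, h4, h5, h6⟩, h7⟩
        refine ⟨5 / 3 * (286 - x 1), ?_, ?_, h5, h6, ?_, ?_⟩ <;> linarith
      · rintro ⟨u, h0, h1, h2, h3, h4, h5⟩
        refine ⟨⟨?_, ?_, ?_, ?_, ?_, ?_, ?_⟩, ?_⟩ <;> linarith
  · rw [area_rect (-88) 0 (-12 / 37) (35 / 37) 185 (by norm_num)]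
    · rw [← ENNReal.ofReal_mul (by norm_num)]
      norm_num
    · intro x
      rw [mem_FF, mem_PP_pr]
      have h : ⟪prU 4, x⟫ = prH 4 ↔ -35 * x 0 - 12 * x 1 = 3080 := by
        have h1 : ⟪prU 4, x⟫ = ⟪(!₂[-35 / 37, -12 / 37, 0] : E3), x⟫ := rfl
        rw [h1, inner_three_b]
        have h2 : prH 4 = 3080 / 37 := rfl
        rw [h2]
        constructor <;> intro h <;> linarith
      rw [h]
      constructor
      · rintro ⟨⟨h0, h1, h2, h3, h4, h5, h6⟩, h7⟩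
        refine ⟨37 / 35 * x 1, ?_, ?_, h5, h6, ?_, ?_⟩ <;> linarith
      · rintro ⟨u, h0, h1, h2, h3, h4, h5⟩
        refine ⟨⟨?_, ?_, ?_, ?_, ?_, ?_, ?_⟩, ?_⟩ <;> linarith

end Pool.Agent.Helper65.PK
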