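import Mathlib
import Pool.Agent.Helper65.PK.Prism
import Pool.Agent.Helper65.PK.Basic

/-!
# Project PK, piece P2c

The two bases are isometric to the pentagon `{v : E2 | 0 ≤ v 1, 35 |v 0| ≤ 3080 + 12 v 1,
3 |v 0| + 4 v 1 ≤ 1144}`. Area: `∫_0^175 2 (3080 + 12 y)/35 dy + ∫_175^286 2 (1144 - 4 y)/3 dy
= 41300 + 16428 = 57728`. E.g. transfer `E2` to `ℝ × ℝ` and use
`volume_regionBetween_eq_integral` in each of the two strips, or `Helper75.lintegral_slice_full`.
-/

namespace Pool.Agent.Helper65.PK

open MeasureTheory Module Set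
open scoped ENNReal RealInnerProductSpace

namespace P2c

/-- The pentagon in the coordinates `(y, x)`. -/
def pent : Set (ℝ × ℝ) :=
  {p | 0 ≤ p.1 ∧ 35 * |p.2| ≤ 3080 + 12 * p.1 ∧ 3 * |p.2| + 4 * p.1 ≤ 1144}

theorem isClosed_pent : IsClosed pent := by
  have : pent = {p : ℝ × ℝ | 0 ≤ p.1} ∩ ({p | 35 * |p.2| ≤ 3080 + 12 * p.1} ∩
    {p | 3 * |p.2| + 4 * p.1 ≤ 1144}) := rfl
  rw [this]
  exact (isClosed_le (by fun_prop) (by fun_prop)).inter
    ((isClosed_le (by fun_prop) (by fun_prop)).inter (isClosed_le (by fun_prop) (by fun_prop)))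

theorem pent_section (y : ℝ) : volume (Prod.mk y ⁻¹' pent) =
    (Icc (0 : ℝ) 175).indicator (fun y => ENNReal.ofReal (2 * (3080 + 12 * y) / 35)) y +
    (Ioc (175 : ℝ) 286).indicator (fun y => ENNReal.ofReal (2 * (1144 - 4 * y) / 3)) y := by
  by_cases h1 : y ∈ Icc (0 : ℝ) 175
  · have h2 : y ∉ Ioc (175 : ℝ) 286 := fun h => absurd h.1 (not_lt.2 h1.2)
    have h3 : Prod.mk y ⁻¹' pent = Icc (-((3080 + 12 * y) / 35)) ((3080 + 12 * y) / 35) := by
      ext x
      rw [mem_Icc, ← abs_le]
      constructor
      · rintro ⟨-, h, -⟩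
        simp only at h
        linarith
      · intro h
        refine ⟨h1.1, ?_, ?_⟩
        · simp only; linarith
        · simp only
          have := h1.2
          linarith
    rw [indicator_of_mem h1, indicator_of_notMem h2, h3, Real.volume_Icc, add_zero]
    congr 1
    ring
  · by_cases h2 : y ∈ Ioc (175 : ℝ) 286
    · have h3 : Prod.mk y ⁻¹' pent = Icc (-((1144 - 4 * y) / 3)) ((1144 - 4 * y) / 3) := by
        ext x
        rw [mem_Icc, ← abs_le]
        constructor
        · rintro ⟨-, -, h⟩
          simp only at h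
          linarith
        · intro h
          have := h2.1
          refine ⟨by simp only; linarith, ?_, ?_⟩
          · simp only; linarith
          · simp only; linarith
      rw [indicator_of_notMem h1, indicator_of_mem h2, h3, Real.volume_Icc, zero_add]
      congr 1
      ring
    · have h3 : Prod.mk y ⁻¹' pent = ∅ := by
        rw [eq_empty_iff_forall_notMem]
        rintro x ⟨h, h', h''⟩
        simp only at h h' h''
        have hx := abs_nonneg x
        rcases lt_or_ge 175 y with h4 | h4
        · exact h2 ⟨h4, by linarith⟩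
        · exact h1 ⟨h, h4⟩
      rw [indicator_of_notMem h1, indicator_of_notMem h2, h3, measure_empty, add_zero]

theorem volume_pent : volume pent = 57728 := by
  rw [Measure.volume_eq_prod, Measure.prod_apply isClosed_pent.measurableSet]
  simp_rw [pent_section]
  rw [lintegral_add_left (by
      refine Measurable.indicator ?_ measurableSet_Icc
      fun_prop), lintegral_indicator measurableSet_Icc, lintegral_indicator measurableSet_Ioc]
  have e1 : ∫⁻ y in Icc (0 : ℝ) 175, ENNReal.ofReal (2 * (3080 + 12 * y) / 35) = 41300 := by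
    rw [← ofReal_integral_eq_lintegral_ofReal]
    · rw [integral_Icc_eq_integral_Ioc, ← intervalIntegral.integral_of_le (by norm_num)]
      have : ∫ y in (0 : ℝ)..175, 2 * (3080 + 12 * y) / 35 = 41300 := by
        have h : ∀ y : ℝ, 2 * (3080 + 12 * y) / 35 = 176 + 24 / 35 * y := fun y => by ring
        simp_rw [h]
        rw [intervalIntegral.integral_add (by simp) (by
          apply Continuous.intervalIntegrable; fun_prop), intervalIntegral.integral_const_mul,
          integral_id, intervalIntegral.integral_const]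
        norm_num
      rw [this]
      norm_num
    · exact (Continuous.integrableOn_Icc (by fun_prop))
    · filter_upwards [ae_restrict_mem measurableSet_Icc] with y hy
      have := hy.1
      simp only [Pi.zero_apply]
      positivity
  have e2 : ∫⁻ y in Ioc (175 : ℝ) 286, ENNReal.ofReal (2 * (1144 - 4 * y) / 3) = 16428 := by
    rw [← ofReal_integral_eq_lintegral_ofReal]
    · rw [← intervalIntegral.integral_of_le (by norm_num)]
      have : ∫ y in (175 : ℝ)..286, 2 * (1144 - 4 * y) / 3 = 16428 := by
        have h : ∀ y : ℝ, 2 * (1144 - 4 * y) / 3 = 2288 / 3 + -8 / 3 * y := fun y => by ring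
        simp_rw [h]
        rw [intervalIntegral.integral_add (by simp) (by
          apply Continuous.intervalIntegrable; fun_prop), intervalIntegral.integral_const_mul,
          integral_id, intervalIntegral.integral_const]
        norm_num
      rw [this]
      norm_num
    · exact (Continuous.integrableOn_Icc (by fun_prop)).mono_set Ioc_subset_Icc_self
    · filter_upwards [ae_restrict_mem measurableSet_Ioc] with y hy
      have := hy.2
      simp only [Pi.zero_apply]
      apply div_nonneg _ (by norm_num)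
      linarith
  rw [e1, e2]
  norm_num

/-- The pentagon in `E2`. -/
def pentE : Set E2 := {v | (v 0, v 1) ∈ pent}

theorem volume_pentE : μHE[2] pentE = 57728 := by
  have h1 : (μHE[2] : Measure E2) = volume := EuclideanSpace.euclideanHausdorffMeasure_eq_volume 2
  rw [h1, ← volume_pent]
  have h2 := ((volume_preserving_finTwoArrow ℝ).comp
    (PiLp.volume_preserving_ofLp (Fin 2))).measure_preimage
      isClosed_pent.measurableSet.nullMeasurableSet
  rw [← h2]
  rfl

/-- The embedding of the plane at height `c`. -/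
noncomputable def emb (c : ℝ) (v : E2) : E3 := !₂[v 1, v 0, c]

theorem isometry_emb (c : ℝ) : Isometry (emb c) := by
  refine Isometry.of_dist_eq fun a b => ?_
  rw [EuclideanSpace.dist_eq, EuclideanSpace.dist_eq]
  simp [emb, Fin.sum_univ_three, Fin.sum_univ_two, add_comm]

end P2c

open P2c in
theorem area_base (i : Fin 7) (hi : i = 5 ∨ i = 6) : μHE[2] (FF prU prH i) = 57728 := by
  have key : ∃ c : ℝ, emb c '' pentE = FF prU prH i := by
    refine ⟨if i = 5 then 0 else 220, ?_⟩
    ext x
    have hPP : x ∈ PP prU prH ↔ (0 ≤ x 1 ∧ 35 * |x 0| ≤ 3080 + 12 * x 1 ∧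
        3 * |x 0| + 4 * x 1 ≤ 1144) ∧ 0 ≤ x 2 ∧ x 2 ≤ 220 := by
      rw [mem_PP]
      simp only [Fin.forall_fin_succ, prU, prH, PiLp.inner_apply, Fin.sum_univ_three]
      simp
      constructor
      · rintro ⟨h0, h1, h2, h3, h4, h5, h6⟩
        refine ⟨⟨h0, ?_, ?_⟩, h5, h6⟩
        · rcases abs_cases (x 0) with ⟨h, -⟩ | ⟨h, -⟩ <;> rw [h] <;> linarith
        · rcases abs_cases (x 0) with ⟨h, -⟩ | ⟨h, -⟩ <;> rw [h] <;> linarith
      · rintro ⟨⟨h0, h1, h2⟩, h5, h6⟩
        have ha := le_abs_self (x 0)
        have hb := neg_abs_le (x 0)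
        refine ⟨h0, ?_, ?_, ?_, ?_, h5, h6⟩ <;> linarith
    have hF : x ∈ FF prU prH i ↔ x ∈ PP prU prH ∧ x 2 = if i = 5 then 0 else 220 := by
      rw [mem_FF]
      rcases hi with rfl | rfl
      · simp [prU, prH, PiLp.inner_apply, Fin.sum_univ_three]
      · simp [prU, prH, PiLp.inner_apply, Fin.sum_univ_three]
    rw [hF, hPP]
    constructor
    · rintro ⟨v, hv, rfl⟩
      have hv' : 0 ≤ v 0 ∧ 35 * |v 1| ≤ 3080 + 12 * v 0 ∧ 3 * |v 1| + 4 * v 0 ≤ 1144 := hv
      refine ⟨⟨by simpa [emb] using hv', ?_⟩, by simp [emb]⟩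
      rcases hi with rfl | rfl <;> simp [emb]
    · rintro ⟨⟨h1, -⟩, h2⟩
      refine ⟨!₂[x 1, x 0], by simpa [pentE, pent] using h1, ?_⟩
      ext j
      fin_cases j
      · simp [emb]
      · simp [emb]
      · simp [emb, h2]
  obtain ⟨c, hc⟩ := key
  rw [← hc, (isometry_emb c).euclideanHausdorffMeasure_image, volume_pentE]

end Pool.Agent.Helper65.PK
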