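import Pool.Agent.Helper65.PK.Prism

/-!
# Project PK, piece P2d

`FF i ∩ FF j` is contained in a segment: base edges (faces `{0..4}` with `{5, 6}`) of length 176 or
185, vertical edges (consecutive lateral faces, 5 of them: (0,1), (1,2), (2,3), (3,4), (4,0)) of
length 220, all other intersections are empty. Total over unordered pairs
`2 (176 + 4·185) + 5·220 = 2932`.
-/

namespace Pool.Agent.Helper65.PK

open MeasureTheory Module Set
open scoped ENNReal RealInnerProductSpace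

/-- A subset of a segment. -/
lemma P2d_seg {S : Set E3} (a b z c d e : ℝ) (L : ℕ) (hv : c ^ 2 + d ^ 2 + e ^ 2 = 1)
    (hS : ∀ x ∈ S, ∃ t : ℝ, 0 ≤ t ∧ t ≤ L ∧ x 0 = a + t * c ∧ x 1 = b + t * d ∧
      x 2 = z + t * e) : μHE[1] S ≤ (L : ℝ≥0∞) := by
  set p : E3 := !₂[a, b, z] with hp
  set v : E3 := !₂[c, d, e] with hv'
  have hvn : ‖v‖ = 1 := by
    rw [EuclideanSpace.norm_eq, Fin.sum_univ_three]
    simp only [hv', Real.norm_eq_abs, sq_abs, PiLp.toLp_apply, Matrix.cons_val]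
    rw [hv, Real.sqrt_one]
  have hiso : Isometry (fun t : ℝ => p + t • v) := by
    refine Isometry.of_dist_eq fun s t => ?_
    rw [dist_eq_norm, dist_eq_norm, show p + s • v - (p + t • v) = (s - t) • v by
      rw [sub_smul]
      abel, norm_smul, hvn, mul_one]
  have hsub : S ⊆ (fun t : ℝ => p + t • v) '' Icc 0 (L : ℝ) := by
    intro x hx
    obtain ⟨t, ht0, htL, h0, h1, h2⟩ := hS x hx
    refine ⟨t, ⟨ht0, htL⟩, ?_⟩
    ext k
    fin_cases k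
    · simp [hp, hv', h0]
    · simp [hp, hv', h1]
    · simp [hp, hv', h2]
  refine (measure_mono hsub).trans ?_
  rw [hiso.euclideanHausdorffMeasure_image]
  have h1 : (μHE[1] : Measure ℝ) = volume := by
    have := InnerProductSpace.euclideanHausdorffMeasure_eq_volume (V := ℝ)
    rwa [Module.finrank_self] at this
  rw [h1, Real.volume_Icc, sub_zero, ENNReal.ofReal_natCast]

/-- The inequalities of the prism. -/
lemma P2d_mem {x : E3} (hx : x ∈ PP prU prH) :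
    0 ≤ x 1 ∧ 35 * x 0 - 12 * x 1 ≤ 3080 ∧ 3 * x 0 + 4 * x 1 ≤ 1144 ∧
      -3 * x 0 + 4 * x 1 ≤ 1144 ∧ -35 * x 0 - 12 * x 1 ≤ 3080 ∧ 0 ≤ x 2 ∧ x 2 ≤ 220 := by
  have e0 := hx 0
  have e1 := hx 1
  have e2 := hx 2
  have e3 := hx 3
  have e4 := hx 4
  have e5 := hx 5
  have e6 := hx 6
  simp [prU, prH, PiLp.inner_apply, Fin.sum_univ_three] at e0 e1 e2 e3 e4 e5 e6
  refine ⟨?_, ?_, ?_, ?_, ?_, ?_, ?_⟩ <;> linarith

lemma P2d_f0 {x : E3} (hx : x ∈ FF prU prH 0) : x 1 = 0 := by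
  have h := hx.2
  simp [prU, prH, PiLp.inner_apply, Fin.sum_univ_three] at h
  exact h

lemma P2d_f1 {x : E3} (hx : x ∈ FF prU prH 1) : 35 * x 0 - 12 * x 1 = 3080 := by
  have h := hx.2
  simp [prU, prH, PiLp.inner_apply, Fin.sum_univ_three] at h
  linarith

lemma P2d_f2 {x : E3} (hx : x ∈ FF prU prH 2) : 3 * x 0 + 4 * x 1 = 1144 := by
  have h := hx.2
  simp [prU, prH, PiLp.inner_apply, Fin.sum_univ_three] at h
  linarith

lemma P2d_f3 {x : E3} (hx : x ∈ FF prU prH 3) : -3 * x 0 + 4 * x 1 = 1144 := by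
  have h := hx.2
  simp [prU, prH, PiLp.inner_apply, Fin.sum_univ_three] at h
  linarith

lemma P2d_f4 {x : E3} (hx : x ∈ FF prU prH 4) : -35 * x 0 - 12 * x 1 = 3080 := by
  have h := hx.2
  simp [prU, prH, PiLp.inner_apply, Fin.sum_univ_three] at h
  linarith

lemma P2d_f5 {x : E3} (hx : x ∈ FF prU prH 5) : x 2 = 0 := by
  have h := hx.2
  simp [prU, prH, PiLp.inner_apply, Fin.sum_univ_three] at h
  exact h

lemma P2d_f6 {x : E3} (hx : x ∈ FF prU prH 6) : x 2 = 220 := by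
  have h := hx.2
  simp [prU, prH, PiLp.inner_apply, Fin.sum_univ_three] at h
  exact h

/-- Vertical edges. -/
lemma P2d_vert {i j : Fin 7} (a b : ℝ)
    (h : ∀ x, x ∈ FF prU prH i → x ∈ FF prU prH j → x 0 = a ∧ x 1 = b) :
    μHE[1] (FF prU prH i ∩ FF prU prH j) ≤ ((220 : ℕ) : ℝ≥0∞) := by
  refine P2d_seg a b 0 0 0 1 220 (by norm_num) fun x hx => ?_
  obtain ⟨h0, h1⟩ := h x hx.1 hx.2
  obtain ⟨-, -, -, -, -, h5, h6⟩ := P2d_mem hx.1.1
  refine ⟨x 2, h5, by exact_mod_cast h6, ?_, ?_, ?_⟩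
  · rw [h0]
    ring
  · rw [h1]
    ring
  · ring

/-- Empty intersections. -/
lemma P2d_empty {i j : Fin 7} (h : ∀ x, x ∈ FF prU prH i → x ∈ FF prU prH j → False) :
    μHE[1] (FF prU prH i ∩ FF prU prH j) ≤ ((0 : ℕ) : ℝ≥0∞) := by
  have : FF prU prH i ∩ FF prU prH j = ∅ := by
    ext x
    constructor
    · rintro ⟨h1, h2⟩
      exact h x h1 h2
    · intro h1
      exact absurd h1 (by simp)
  rw [this, measure_empty]
  simp

/-- Base edges. -/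
lemma P2d_base0 {j : Fin 7} (z : ℝ) (h : ∀ x, x ∈ FF prU prH j → x 2 = z) :
    μHE[1] (FF prU prH 0 ∩ FF prU prH j) ≤ ((176 : ℕ) : ℝ≥0∞) := by
  refine P2d_seg (-88) 0 z 1 0 0 176 (by norm_num) fun x hx => ?_
  have h1 := P2d_f0 hx.1
  have h2 := h x hx.2
  obtain ⟨e0, e1, e2, e3, e4, -, -⟩ := P2d_mem hx.1.1
  refine ⟨x 0 + 88, by linarith, ?_, by ring, by rw [h1]; ring, by rw [h2]; ring⟩
  push_cast
  linarith

lemma P2d_base1 {j : Fin 7} (z : ℝ) (h : ∀ x, x ∈ FF prU prH j → x 2 = z) :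
    μHE[1] (FF prU prH 1 ∩ FF prU prH j) ≤ ((185 : ℕ) : ℝ≥0∞) := by
  refine P2d_seg 88 0 z (12 / 37) (35 / 37) 0 185 (by norm_num) fun x hx => ?_
  have h1 := P2d_f1 hx.1
  have h2 := h x hx.2
  obtain ⟨e0, e1, e2, e3, e4, -, -⟩ := P2d_mem hx.1.1
  refine ⟨37 / 35 * x 1, by linarith, ?_, by linarith, by ring, by rw [h2]; ring⟩
  push_cast
  linarith

lemma P2d_base2 {j : Fin 7} (z : ℝ) (h : ∀ x, x ∈ FF prU prH j → x 2 = z) :
    μHE[1] (FF prU prH 2 ∩ FF prU prH j) ≤ ((185 : ℕ) : ℝ≥0∞) := by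
  refine P2d_seg 148 175 z (-4 / 5) (3 / 5) 0 185 (by norm_num) fun x hx => ?_
  have h1 := P2d_f2 hx.1
  have h2 := h x hx.2
  obtain ⟨e0, e1, e2, e3, e4, -, -⟩ := P2d_mem hx.1.1
  refine ⟨5 / 3 * (x 1 - 175), by linarith, ?_, by linarith, by ring, by rw [h2]; ring⟩
  push_cast
  linarith

lemma P2d_base3 {j : Fin 7} (z : ℝ) (h : ∀ x, x ∈ FF prU prH j → x 2 = z) :
    μHE[1] (FF prU prH 3 ∩ FF prU prH j) ≤ ((185 : ℕ) : ℝ≥0∞) := by
  refine P2d_seg (-148) 175 z (4 / 5) (3 / 5) 0 185 (by norm_num) fun x hx => ?_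
  have h1 := P2d_f3 hx.1
  have h2 := h x hx.2
  obtain ⟨e0, e1, e2, e3, e4, -, -⟩ := P2d_mem hx.1.1
  refine ⟨5 / 3 * (x 1 - 175), by linarith, ?_, by linarith, by ring, by rw [h2]; ring⟩
  push_cast
  linarith

lemma P2d_base4 {j : Fin 7} (z : ℝ) (h : ∀ x, x ∈ FF prU prH j → x 2 = z) :
    μHE[1] (FF prU prH 4 ∩ FF prU prH j) ≤ ((185 : ℕ) : ℝ≥0∞) := by
  refine P2d_seg (-88) 0 z (-12 / 37) (35 / 37) 0 185 (by norm_num) fun x hx => ?_
  have h1 := P2d_f4 hx.1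
  have h2 := h x hx.2
  obtain ⟨e0, e1, e2, e3, e4, -, -⟩ := P2d_mem hx.1.1
  refine ⟨37 / 35 * x 1, by linarith, ?_, by linarith, by ring, by rw [h2]; ring⟩
  push_cast
  linarith

/-- The lengths of the edges. -/
def P2d_B : Fin 7 → Fin 7 → ℕ :=
  ![![0, 220, 0, 0, 220, 176, 176],
    ![220, 0, 220, 0, 0, 185, 185],
    ![0, 220, 0, 220, 0, 185, 185],
    ![0, 0, 220, 0, 220, 185, 185],
    ![220, 0, 0, 220, 0, 185, 185],
    ![176, 185, 185, 185, 185, 0, 0],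
    ![176, 185, 185, 185, 185, 0, 0]]

lemma P2d_lt (i j : Fin 7) (hij : i < j) :
    μHE[1] (FF prU prH i ∩ FF prU prH j) ≤ ((P2d_B i j : ℕ) : ℝ≥0∞) := by
  have b01 : μHE[1] (FF prU prH 0 ∩ FF prU prH 1) ≤ ((220 : ℕ) : ℝ≥0∞) :=
    P2d_vert 88 0 fun x h1 h2 => by
      have e1 := P2d_f0 h1
      have e2 := P2d_f1 h2
      constructor <;> linarith
  have b12 : μHE[1] (FF prU prH 1 ∩ FF prU prH 2) ≤ ((220 : ℕ) : ℝ≥0∞) :=
    P2d_vert 148 175 fun x h1 h2 => by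
      have e1 := P2d_f1 h1
      have e2 := P2d_f2 h2
      constructor <;> linarith
  have b23 : μHE[1] (FF prU prH 2 ∩ FF prU prH 3) ≤ ((220 : ℕ) : ℝ≥0∞) :=
    P2d_vert 0 286 fun x h1 h2 => by
      have e1 := P2d_f2 h1
      have e2 := P2d_f3 h2
      constructor <;> linarith
  have b34 : μHE[1] (FF prU prH 3 ∩ FF prU prH 4) ≤ ((220 : ℕ) : ℝ≥0∞) :=
    P2d_vert (-148) 175 fun x h1 h2 => by
      have e1 := P2d_f3 h1
      have e2 := P2d_f4 h2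
      constructor <;> linarith
  have b04 : μHE[1] (FF prU prH 0 ∩ FF prU prH 4) ≤ ((220 : ℕ) : ℝ≥0∞) :=
    P2d_vert (-88) 0 fun x h1 h2 => by
      have e1 := P2d_f0 h1
      have e2 := P2d_f4 h2
      constructor <;> linarith
  have b02 : μHE[1] (FF prU prH 0 ∩ FF prU prH 2) ≤ ((0 : ℕ) : ℝ≥0∞) :=
    P2d_empty fun x h1 h2 => by
      obtain ⟨e0, e1, e2, e3, e4, -, -⟩ := P2d_mem h1.1
      have e5 := P2d_f0 h1
      have e6 := P2d_f2 h2
      linarith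
  have b03 : μHE[1] (FF prU prH 0 ∩ FF prU prH 3) ≤ ((0 : ℕ) : ℝ≥0∞) :=
    P2d_empty fun x h1 h2 => by
      obtain ⟨e0, e1, e2, e3, e4, -, -⟩ := P2d_mem h1.1
      have e5 := P2d_f0 h1
      have e6 := P2d_f3 h2
      linarith
  have b13 : μHE[1] (FF prU prH 1 ∩ FF prU prH 3) ≤ ((0 : ℕ) : ℝ≥0∞) :=
    P2d_empty fun x h1 h2 => by
      obtain ⟨e0, e1, e2, e3, e4, -, -⟩ := P2d_mem h1.1
      have e5 := P2d_f1 h1
      have e6 := P2d_f3 h2
      linarith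
  have b14 : μHE[1] (FF prU prH 1 ∩ FF prU prH 4) ≤ ((0 : ℕ) : ℝ≥0∞) :=
    P2d_empty fun x h1 h2 => by
      obtain ⟨e0, e1, e2, e3, e4, -, -⟩ := P2d_mem h1.1
      have e5 := P2d_f1 h1
      have e6 := P2d_f4 h2
      linarith
  have b24 : μHE[1] (FF prU prH 2 ∩ FF prU prH 4) ≤ ((0 : ℕ) : ℝ≥0∞) :=
    P2d_empty fun x h1 h2 => by
      obtain ⟨e0, e1, e2, e3, e4, -, -⟩ := P2d_mem h1.1
      have e5 := P2d_f2 h1
      have e6 := P2d_f4 h2
      linarith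
  have b56 : μHE[1] (FF prU prH 5 ∩ FF prU prH 6) ≤ ((0 : ℕ) : ℝ≥0∞) :=
    P2d_empty fun x h1 h2 => by
      have e5 := P2d_f5 h1
      have e6 := P2d_f6 h2
      linarith
  have b05 := P2d_base0 0 fun x h => P2d_f5 h
  have b06 := P2d_base0 220 fun x h => P2d_f6 h
  have b15 := P2d_base1 0 fun x h => P2d_f5 h
  have b16 := P2d_base1 220 fun x h => P2d_f6 h
  have b25 := P2d_base2 0 fun x h => P2d_f5 h
  have b26 := P2d_base2 220 fun x h => P2d_f6 h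
  have b35 := P2d_base3 0 fun x h => P2d_f5 h
  have b36 := P2d_base3 220 fun x h => P2d_f6 h
  have b45 := P2d_base4 0 fun x h => P2d_f5 h
  have b46 := P2d_base4 220 fun x h => P2d_f6 h
  have key : ∀ p : Fin 7 × Fin 7, p ∈ [((0, 1) : Fin 7 × Fin 7), (0, 2), (0, 3), (0, 4), (0, 5),
      (0, 6), (1, 2), (1, 3), (1, 4), (1, 5), (1, 6), (2, 3), (2, 4), (2, 5), (2, 6), (3, 4),
      (3, 5), (3, 6), (4, 5), (4, 6), (5, 6)] →
      μHE[1] (FF prU prH p.1 ∩ FF prU prH p.2) ≤ ((P2d_B p.1 p.2 : ℕ) : ℝ≥0∞) := by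
    simp only [List.forall_mem_cons]
    exact ⟨b01, b02, b03, b04, b05, b06, b12, b13, b14, b15, b16, b23, b24, b25, b26, b34, b35,
      b36, b45, b46, b56, by simp⟩
  have hmem : ∀ i j : Fin 7, i < j → (i, j) ∈ [((0, 1) : Fin 7 × Fin 7), (0, 2), (0, 3), (0, 4),
      (0, 5), (0, 6), (1, 2), (1, 3), (1, 4), (1, 5), (1, 6), (2, 3), (2, 4), (2, 5), (2, 6),
      (3, 4), (3, 5), (3, 6), (4, 5), (4, 6), (5, 6)] := by
    decide
  exact key (i, j) (hmem i j hij)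

theorem edges_prism : ∑ i, ∑ j ∈ Finset.univ.erase i, μHE[1] (FF prU prH i ∩ FF prU prH j) ≤
    5864 := by
  have hB : ∀ i j : Fin 7, P2d_B i j = P2d_B j i := by decide
  have h1 : ∀ i j : Fin 7, j ≠ i →
      μHE[1] (FF prU prH i ∩ FF prU prH j) ≤ ((P2d_B i j : ℕ) : ℝ≥0∞) := by
    intro i j hij
    rcases lt_or_gt_of_ne hij with h | h
    · rw [inter_comm, hB]
      exact P2d_lt j i h
    · exact P2d_lt i j h
  have h2 : ∑ i, ∑ j ∈ Finset.univ.erase i, μHE[1] (FF prU prH i ∩ FF prU prH j) ≤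
      ∑ i : Fin 7, ∑ j ∈ Finset.univ.erase i, ((P2d_B i j : ℕ) : ℝ≥0∞) :=
    Finset.sum_le_sum fun i _ => Finset.sum_le_sum fun j hj =>
      h1 i j (Finset.mem_erase.mp hj).1
  refine h2.trans ?_
  have h3 : ∑ i : Fin 7, ∑ j ∈ Finset.univ.erase i, P2d_B i j = 5864 := by decide
  have h4 : ∑ i : Fin 7, ∑ j ∈ Finset.univ.erase i, ((P2d_B i j : ℕ) : ℝ≥0∞) =
      ((∑ i : Fin 7, ∑ j ∈ Finset.univ.erase i, P2d_B i j : ℕ) : ℝ≥0∞) := by
    push_cast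
    rfl
  rw [h4, h3]
  norm_num

end Pool.Agent.Helper65.PK
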