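import Mathlib
import Pool.Agent.Helper65.PK.P.P2c
import Pool.Agent.Helper75.Prism

/-!
# Project PK, piece P2e

The prism `PP prU prH` is `Helper75.prism` over its lower base `FF prU prH 5` with height `220`:
`220 * 57728 = 12700160`.
-/

namespace Pool.Agent.Helper65.PK

open MeasureTheory Module Set
open scoped ENNReal RealInnerProductSpace

/-- The prism in coordinates. -/
lemma P2e_mem (x : E3) : x ∈ PP prU prH ↔
    0 ≤ x 1 ∧ 35 * x 0 - 12 * x 1 ≤ 3080 ∧ 3 * x 0 + 4 * x 1 ≤ 1144 ∧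
      -3 * x 0 + 4 * x 1 ≤ 1144 ∧ -35 * x 0 - 12 * x 1 ≤ 3080 ∧ 0 ≤ x 2 ∧ x 2 ≤ 220 := by
  have h0 : ⟪prU 0, x⟫ = - x 1 := by
    simp [prU, PiLp.inner_apply, Fin.sum_univ_three]
  have h1 : ⟪prU 1, x⟫ = 35 / 37 * x 0 - 12 / 37 * x 1 := by
    simp [prU, PiLp.inner_apply, Fin.sum_univ_three]
    ring
  have h2 : ⟪prU 2, x⟫ = 3 / 5 * x 0 + 4 / 5 * x 1 := by
    simp [prU, PiLp.inner_apply, Fin.sum_univ_three]
    ring
  have h3 : ⟪prU 3, x⟫ = - (3 / 5 * x 0) + 4 / 5 * x 1 := by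
    simp [prU, PiLp.inner_apply, Fin.sum_univ_three]
    ring
  have h4 : ⟪prU 4, x⟫ = - (35 / 37 * x 0) - 12 / 37 * x 1 := by
    simp [prU, PiLp.inner_apply, Fin.sum_univ_three]
    ring
  have h5 : ⟪prU 5, x⟫ = - x 2 := by
    simp [prU, PiLp.inner_apply, Fin.sum_univ_three]
  have h6 : ⟪prU 6, x⟫ = x 2 := by
    simp [prU, PiLp.inner_apply, Fin.sum_univ_three]
  rw [mem_PP]
  constructor
  · intro h
    have e0 := h 0
    have e1 := h 1
    have e2 := h 2
    have e3 := h 3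
    have e4 := h 4
    have e5 := h 5
    have e6 := h 6
    rw [h0] at e0
    rw [h1] at e1
    rw [h2] at e2
    rw [h3] at e3
    rw [h4] at e4
    rw [h5] at e5
    rw [h6] at e6
    simp only [prH, Matrix.cons_val] at e0 e1 e2 e3 e4 e5 e6
    refine ⟨?_, ?_, ?_, ?_, ?_, ?_, ?_⟩ <;> linarith
  · rintro ⟨e0, e1, e2, e3, e4, e5, e6⟩ i
    fin_cases i
    · show ⟪prU 0, x⟫ ≤ prH 0
      rw [h0]
      simp only [prH, Matrix.cons_val]
      linarith
    · show ⟪prU 1, x⟫ ≤ prH 1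
      rw [h1]
      simp only [prH, Matrix.cons_val]
      linarith
    · show ⟪prU 2, x⟫ ≤ prH 2
      rw [h2]
      simp only [prH, Matrix.cons_val]
      linarith
    · show ⟪prU 3, x⟫ ≤ prH 3
      rw [h3]
      simp only [prH, Matrix.cons_val]
      linarith
    · show ⟪prU 4, x⟫ ≤ prH 4
      rw [h4]
      simp only [prH, Matrix.cons_val]
      linarith
    · show ⟪prU 5, x⟫ ≤ prH 5
      rw [h5]
      simp only [prH, Matrix.cons_val]
      linarith
    · show ⟪prU 6, x⟫ ≤ prH 6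
      rw [h6]
      simp only [prH, Matrix.cons_val]
      linarith

lemma P2e_bdd : Bornology.IsBounded (PP prU prH) := by
  refine (Metric.isBounded_closedBall (x := (0 : E3)) (r := 1000)).subset ?_
  intro x hx
  obtain ⟨e0, e1, e2, e3, e4, e5, e6⟩ := (P2e_mem x).mp hx
  have a1 : x 1 ≤ 286 := by linarith
  have a2 : |x 0| ≤ 148 := by
    rw [abs_le]
    constructor <;> linarith
  rw [Metric.mem_closedBall, dist_zero_right, EuclideanSpace.norm_eq]
  refine Real.sqrt_le_iff.mpr ⟨by norm_num, ?_⟩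
  rw [Fin.sum_univ_three]
  simp only [Real.norm_eq_abs, sq_abs]
  have b0 : x 0 ^ 2 ≤ 148 ^ 2 := by
    rw [← sq_abs]
    exact pow_le_pow_left₀ (abs_nonneg _) a2 2
  have b1 : x 1 ^ 2 ≤ 286 ^ 2 := pow_le_pow_left₀ e0 a1 2
  have b2 : x 2 ^ 2 ≤ 220 ^ 2 := pow_le_pow_left₀ e5 e6 2
  linarith

theorem volume_prism : volume (PP prU prH) = 12700160 := by
  set e : E3 := !₂[0, 0, 1] with he
  have h5 : ∀ x : E3, ⟪prU 5, x⟫ = - x 2 := by
    intro x
    simp [prU, PiLp.inner_apply, Fin.sum_univ_three]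
  have h6 : ∀ x : E3, ⟪e, x⟫ = x 2 := by
    intro x
    simp [he, PiLp.inner_apply, Fin.sum_univ_three]
  have hH5 : prH 5 = 0 := by
    simp [prH]
  have he0 : e 0 = 0 := by simp [he]
  have he1 : e 1 = 0 := by simp [he]
  have he2 : e 2 = 1 := by simp [he]
  have hen : ‖e‖ = 1 := by
    rw [EuclideanSpace.norm_eq, Fin.sum_univ_three, he0, he1, he2]
    simp
  have hs : ∀ y ∈ FF prU prH 5, ⟪e, y⟫ = 0 := by
    intro y hy
    have h1 := hy.2
    rw [h5, hH5] at h1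
    rw [h6]
    linarith
  have hprism : PP prU prH = Helper75.prism (FF prU prH 5) e 0 220 := by
    ext x
    rw [Helper75.mem_prism]
    constructor
    · intro hx
      obtain ⟨e0, e1, e2, e3, e4, e5, e6⟩ := (P2e_mem x).mp hx
      refine ⟨x - x 2 • e, ⟨?_, ?_⟩, x 2, ⟨e5, e6⟩, by simp⟩
      · rw [P2e_mem]
        simp only [PiLp.sub_apply, PiLp.smul_apply, smul_eq_mul, he0, he1, he2]
        refine ⟨?_, ?_, ?_, ?_, ?_, ?_, ?_⟩ <;> linarith
      · rw [h5, hH5]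
        simp only [PiLp.sub_apply, PiLp.smul_apply, smul_eq_mul, he2]
        ring
    · rintro ⟨y, hy, t, ht, rfl⟩
      obtain ⟨e0, e1, e2, e3, e4, e5, e6⟩ := (P2e_mem y).mp hy.1
      have h1 := hs y hy
      rw [h6] at h1
      rw [P2e_mem]
      simp only [PiLp.add_apply, PiLp.smul_apply, smul_eq_mul, he0, he1, he2]
      have h2 := ht.1
      have h3 := ht.2
      refine ⟨?_, ?_, ?_, ?_, ?_, ?_, ?_⟩ <;> linarith
  have hm := Helper75.measure_prism (isCompact_FF P2e_bdd 5) hen hs 0 220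
  have hf : finrank ℝ E3 = 3 := by simp
  rw [← hprism, hf, area_base 5 (Or.inl rfl)] at hm
  have hv : (μHE[3] : Measure E3) = volume := EuclideanSpace.euclideanHausdorffMeasure_eq_volume 3
  rw [← hv, hm, sub_zero, ENNReal.ofReal_ofNat]
  norm_num

end Pool.Agent.Helper65.PK
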