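import Pool.Agent.Helper65.PK.Basic

/-!
# Project PK, piece A4

Three facets cannot share a segment. Let `x ≠ y` be in the three faces, `d = y - x`; then
`u i, u j, u k ⟂ d`. By fatness there is `p_i` in the face `i` with `⟪u j, p_i⟫ < h j`,
`⟪u k, p_i⟫ < h k` (center of the disc: if `⟪u j, p_i⟫ = h j`, moving in the disc in the direction
of the component of `u j` orthogonal to `u i`, nonzero because `u j ≠ ± u i` (`R.inj`,
`ne_neg_of_mem`), violates the constraint). With `a_i = p_i - x`: `⟪u i, a_i⟫ = 0`,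
`⟪u j, a_i⟫ < 0`, `⟪u k, a_i⟫ < 0`. In the plane `dᗮ` (area form
`ω v w = ⟪d, v ×₃ w⟫` or coordinates): `u j` and `u k` lie strictly on the same side of the line of
`u i`, so `ω(i,j) ω(i,k) > 0`; likewise `ω(j,i) ω(j,k) > 0` and `ω(k,i) ω(k,j) > 0`. The product of
the three is `- (ω(i,j) ω(i,k) ω(j,k))² > 0`, a contradiction.
-/

namespace Pool.Agent.Helper65.PK

open MeasureTheory Module Set
open scoped ENNReal RealInnerProductSpace

/-- the center of the disc in a fat face satisfies the other constraints strictly -/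
private theorem center_lt {ι : Type} {u : ι → E3} {h : ι → ℝ} (hu : ∀ i, ‖u i‖ = 1) {i j : ι}
    (hne : u j ≠ u i) (hneg : u j ≠ -u i) {c : E3} {ε : ℝ} (hε : 0 < ε) (hc : ⟪u i, c⟫ = h i)
    (hball : ∀ y, ⟪u i, y⟫ = h i → ‖y - c‖ < ε → y ∈ PP u h) : ⟪u j, c⟫ < h j := by
  have hcP : c ∈ PP u h := hball c hc (by simpa using hε)
  refine lt_of_le_of_ne (hcP j) fun heq => ?_
  set t : ℝ := ⟪u i, u j⟫ with ht
  set w : E3 := u j - t • u i with hw
  have h1 : ⟪u i, w⟫ = 0 := by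
    rw [hw, inner_sub_right, inner_smul_right, real_inner_self_eq_norm_sq, hu i, ← ht]
    ring
  have h2 : ⟪u j, w⟫ = 1 - t ^ 2 := by
    rw [hw, inner_sub_right, inner_smul_right, real_inner_self_eq_norm_sq, hu j,
      real_inner_comm (u i) (u j), ← ht]
    ring
  have h3 : t ^ 2 < 1 := by
    have a1 : t ≠ 1 := by
      intro h
      apply hne
      exact ((inner_eq_one_iff_of_norm_eq_one (𝕜 := ℝ) (hu i) (hu j)).1 (ht ▸ h)).symm
    have a2 : t ≠ -1 := by
      intro h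
      apply hneg
      have a3 : ⟪u i, -u j⟫ = 1 := by
        rw [inner_neg_right, ← ht, h]
        norm_num
      have a4 := (inner_eq_one_iff_of_norm_eq_one (𝕜 := ℝ) (hu i)
        (by rw [norm_neg]; exact hu j)).1 a3
      rw [a4, neg_neg]
    have a5 : |t| ≤ 1 := by
      have := abs_real_inner_le_norm (u i) (u j)
      rwa [hu i, hu j, mul_one] at this
    have a6 := abs_le.1 a5
    have a7 : t < 1 := lt_of_le_of_ne a6.2 a1
    have a8 : -1 < t := lt_of_le_of_ne a6.1 (Ne.symm a2)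
    nlinarith
  have hpos : 0 < 1 + ‖w‖ := by positivity
  set s : ℝ := ε / (1 + ‖w‖) with hs
  have hs0 : 0 < s := by positivity
  have h4 : c + s • w ∈ PP u h := by
    apply hball
    · rw [inner_add_right, inner_smul_right, h1, hc]
      ring
    · rw [add_sub_cancel_left, norm_smul, Real.norm_eq_abs, abs_of_pos hs0, hs, div_mul_eq_mul_div,
        div_lt_iff₀ hpos]
      nlinarith [norm_nonneg w]
  have h5 := h4 j
  rw [inner_add_right, inner_smul_right, h2, heq] at h5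
  nlinarith

private theorem no_three {a b c p q r s t v : ℝ} (hp : p < 0) (hq : q < 0) (hr : r < 0)
    (hs : s < 0) (ht : t < 0) (hv : v < 0) (h1 : b * p + c * q = 0) (h2 : a * r + c * s = 0)
    (h3 : a * t + b * v = 0) : a = 0 ∧ b = 0 ∧ c = 0 := by
  have key : ∀ x y m n : ℝ, m < 0 → n < 0 → x * m + y * n = 0 →
      (x = 0 → y = 0) ∧ (y = 0 → x = 0) ∧ x * y ≤ 0 := by
    intro x y m n hm hn h
    refine ⟨fun hx => ?_, fun hy => ?_, ?_⟩
    · rw [hx, zero_mul, zero_add] at h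
      exact (mul_eq_zero.1 h).resolve_right hn.ne
    · rw [hy, zero_mul, add_zero] at h
      exact (mul_eq_zero.1 h).resolve_right hm.ne
    · have e : x * y * m = -(y ^ 2 * n) := by linear_combination y * h
      by_contra hcon
      push Not at hcon
      have e1 : x * y * m < 0 := mul_neg_of_pos_of_neg hcon hm
      have e2 : y ^ 2 * n ≤ 0 := mul_nonpos_of_nonneg_of_nonpos (sq_nonneg y) hn.le
      linarith
  obtain ⟨k1, k2, k3⟩ := key b c p q hp hq h1
  obtain ⟨l1, l2, l3⟩ := key a c r s hr hs h2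
  obtain ⟨m1, m2, m3⟩ := key a b t v ht hv h3
  by_cases ha : a = 0
  · exact ⟨ha, m1 ha, l1 ha⟩
  · exfalso
    have hb : b ≠ 0 := fun h => ha (m2 h)
    have hc : c ≠ 0 := fun h => ha (l2 h)
    have n1 : a * b < 0 := lt_of_le_of_ne m3 (mul_ne_zero ha hb)
    have n2 : a * c < 0 := lt_of_le_of_ne l3 (mul_ne_zero ha hc)
    have n3 : b * c < 0 := lt_of_le_of_ne k3 (mul_ne_zero hb hc)
    have n4 : 0 < a * b * (a * c) := mul_pos_of_neg_of_neg n1 n2
    have n5 : a * b * (a * c) = a ^ 2 * (b * c) := by ring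
    have n6 : a ^ 2 * (b * c) ≤ 0 := mul_nonpos_of_nonneg_of_nonpos (sq_nonneg a) n3.le
    linarith

/-- A4. Three facets cannot share a segment. -/
theorem three_facets {ι : Type} [Finite ι] {u : ι → E3} {h : ι → ℝ} (R : Rep u h) {i j k : ι}
    (hij : i ≠ j) (hik : i ≠ k) (hjk : j ≠ k) :
    (FF u h i ∩ FF u h j ∩ FF u h k).Subsingleton := by
  intro x hx y hy
  by_contra hxy
  obtain ⟨⟨hxi, hxj⟩, hxk⟩ := hx
  obtain ⟨⟨hyi, hyj⟩, hyk⟩ := hy
  have hd : y - x ≠ 0 := sub_ne_zero.2 (Ne.symm hxy)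
  have hperp : ∀ l, x ∈ FF u h l → y ∈ FF u h l → u l ∈ (ℝ ∙ (y - x))ᗮ := by
    intro l h1 h2
    rw [Submodule.mem_orthogonal_singleton_iff_inner_left, inner_sub_right, h1.2, h2.2, sub_self]
  haveI : Fact (finrank ℝ E3 = 2 + 1) := ⟨by simp⟩
  have hfin : finrank ℝ (ℝ ∙ (y - x))ᗮ = 2 := Submodule.finrank_orthogonal_span_singleton hd
  let v : Fin 3 → (ℝ ∙ (y - x))ᗮ :=
    ![⟨u i, hperp i hxi hyi⟩, ⟨u j, hperp j hxj hyj⟩, ⟨u k, hperp k hxk hyk⟩]
  have hdep : ¬ LinearIndependent ℝ v := by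
    intro hli
    have := hli.fintype_card_le_finrank
    rw [hfin, Fintype.card_fin] at this
    omega
  obtain ⟨g, hg, l, hl⟩ := Fintype.not_linearIndependent_iff.1 hdep
  have hsum : g 0 • u i + g 1 • u j + g 2 • u k = 0 := by
    have := congrArg (Subtype.val) hg
    rw [Fin.sum_univ_three] at this
    simpa [v] using this
  -- the centers of the discs
  have hcen : ∀ l, ∃ c : E3, ⟪u l, c⟫ = h l ∧ ∀ m, u m ≠ u l → u m ≠ -u l → ⟪u m, c⟫ < h m := by
    intro l
    obtain ⟨c, ε, hε, hc, hball⟩ := R.fat l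
    exact ⟨c, hc, fun m h1 h2 => center_lt R.unit h1 h2 hε hc hball⟩
  have hneg : ∀ l m, x ∈ FF u h l → x ∈ FF u h m → u m ≠ -u l := fun l m h1 h2 =>
    ne_neg_of_mem R.unit R.int h1 h2
  obtain ⟨ci, hci, hci'⟩ := hcen i
  obtain ⟨cj, hcj, hcj'⟩ := hcen j
  obtain ⟨ck, hck, hck'⟩ := hcen k
  have hin : ∀ (c : E3), g 0 * (⟪u i, c⟫ - h i) + g 1 * (⟪u j, c⟫ - h j) +
      g 2 * (⟪u k, c⟫ - h k) = 0 := by
    intro c
    have h1 : ⟪g 0 • u i + g 1 • u j + g 2 • u k, c - x⟫ = 0 := by rw [hsum, inner_zero_left]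
    rw [inner_add_left, inner_add_left, inner_smul_left, inner_smul_left, inner_smul_left,
      inner_sub_right, inner_sub_right, inner_sub_right, hxi.2, hxj.2, hxk.2] at h1
    simpa using h1
  have e1 := hin ci
  have e2 := hin cj
  have e3 := hin ck
  rw [hci, sub_self, mul_zero, zero_add] at e1
  rw [hcj, sub_self, mul_zero, add_zero] at e2
  rw [hck, sub_self, mul_zero, add_zero] at e3
  have f1 := hci' j (fun h => hij (R.inj h).symm) (hneg i j hxi hxj)
  have f2 := hci' k (fun h => hik (R.inj h).symm) (hneg i k hxi hxk)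
  have f3 := hcj' i (fun h => hij (R.inj h)) (hneg j i hxj hxi)
  have f4 := hcj' k (fun h => hjk (R.inj h).symm) (hneg j k hxj hxk)
  have f5 := hck' i (fun h => hik (R.inj h)) (hneg k i hxk hxi)
  have f6 := hck' j (fun h => hjk (R.inj h)) (hneg k j hxk hxj)
  obtain ⟨g0, g1, g2⟩ := no_three (sub_neg.2 f1) (sub_neg.2 f2) (sub_neg.2 f3) (sub_neg.2 f4)
    (sub_neg.2 f5) (sub_neg.2 f6) e1 e2 e3
  apply hl
  fin_cases l
  · exact g0
  · exact g1
  · exact g2

end Pool.Agent.Helper65.PK
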