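import Mathlib
import Pool.Agent.Helper65.PK.P.A4
import Pool.Agent.Helper75.Zeta

/-!
# Project PK, piece A5

From A4. Only the pairs with `μHE[1] (F_i ∩ F_j) ≠ 0` matter; such an intersection has at least two
points (a subsingleton has `μHE[1] = 0`), it is a face of `poly _` (exposed by `u i + u j`,
`Helper75.exposed_mem_faces`) and its vectorSpan has dimension exactly 1: it is orthogonal to
`u i` and `u j`, which are linearly independent (`R.inj`, `ne_neg_of_nonempty`). So it is in
`Helper75.kfaces 1`. By A4 the map `{i, j} ↦ F_i ∩ F_j` is injective on these unordered pairs (two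
different pairs contain three different indices), so the sum over ordered pairs is at most
`2 * ∑' F : kfaces 1 P, μHE[1] F` (each 1-face comes from at most two ordered pairs).
-/

namespace Pool.Agent.Helper65.PK

open MeasureTheory Module Set
open scoped ENNReal RealInnerProductSpace

/-- The measure of a subsingleton. -/
lemma measure_subsingleton_zero {s : Set E3} (hs : s.Subsingleton) : μHE[1] s = 0 := by
  have h1 : μH[((1 : ℕ) : ℝ)] s = 0 := by
    have h2 : NullSingletonClass (μH[((1 : ℕ) : ℝ)] : Measure E3) :=
      Measure.nullSingletonClass_hausdorff E3 (by norm_num)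
    exact hs.measure_zero _
  rw [Measure.euclideanHausdorffMeasure_def]
  simp only [Measure.smul_apply, h1, smul_zero]

/-- Two unit vectors which are neither equal nor opposite are independent. -/
lemma pair_independent {a b : E3} (ha : ‖a‖ = 1) (hb : ‖b‖ = 1) (h1 : a ≠ b) (h2 : b ≠ -a) :
    LinearIndependent ℝ ![a, b] := by
  rw [LinearIndependent.pair_iff' (by intro h; rw [h, norm_zero] at ha; norm_num at ha)]
  intro r hr
  have h3 : |r| = 1 := by
    have := congrArg norm hr
    rwa [norm_smul, ha, hb, mul_one, Real.norm_eq_abs] at this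
  rcases (abs_eq zero_le_one).1 h3 with h | h
  · apply h1
    rw [← hr, h, one_smul]
  · apply h2
    rw [← hr, h, neg_one_smul]

/-- Nontrivial intersections of two facets are edges. -/
lemma inter_mem_kfaces {ι : Type} [Fintype ι] {u : ι → E3} {h : ι → ℝ} (R : Rep u h) {i j : ι}
    (hij : i ≠ j) (hn : (FF u h i ∩ FF u h j).Nontrivial) :
    FF u h i ∩ FF u h j ∈ Helper75.kfaces 1 (PP u h) := by
  classical
  have hne : (FF u h i ∩ FF u h j).Nonempty := hn.nonempty
  obtain ⟨z, hzi, hzj⟩ := hne
  constructor
  · rw [PP_eq_poly]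
    refine Helper75.exposed_mem_faces (a := u i + u j) ?_ hn.nonempty
    rw [← PP_eq_poly]
    ext x
    constructor
    · rintro ⟨hxi, hxj⟩
      refine ⟨hxi.1, fun y hy => ?_⟩
      rw [inner_add_left, inner_add_left, hxi.2, hxj.2]
      exact add_le_add (hy i) (hy j)
    · rintro ⟨hx, hmax⟩
      have h1 := hmax z hzi.1
      rw [inner_add_left, inner_add_left, hzi.2, hzj.2] at h1
      have h2 := hx i
      have h3 := hx j
      exact ⟨⟨hx, by linarith⟩, ⟨hx, by linarith⟩⟩
  · have hli : LinearIndependent ℝ ![u i, u j] :=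
      pair_independent (R.unit i) (R.unit j) (fun h => hij (R.inj h))
        (ne_neg_of_nonempty R.unit R.int hn.nonempty)
    have h2 : finrank ℝ (Submodule.span ℝ (range ![u i, u j])) = 2 := by
      rw [finrank_span_eq_card hli]
      rfl
    have h3 := Submodule.finrank_add_finrank_orthogonal (Submodule.span ℝ (range ![u i, u j]))
    rw [h2, finrank_euclideanSpace_fin] at h3
    have hle : vectorSpan ℝ (FF u h i ∩ FF u h j) ≤ (Submodule.span ℝ (range ![u i, u j]))ᗮ := by
      rw [vectorSpan_def, Submodule.span_le]
      rintro v ⟨x, hx, y, hy, rfl⟩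
      rw [SetLike.mem_coe, Submodule.mem_orthogonal]
      intro w hw
      induction hw using Submodule.span_induction with
      | mem w hw =>
        obtain ⟨k, rfl⟩ := hw
        fin_cases k
        · simp only [Fin.zero_eta, Matrix.cons_val_zero, vsub_eq_sub, inner_sub_right, hx.1.2,
            hy.1.2, sub_self]
        · simp only [Fin.mk_one, Matrix.cons_val_one, Matrix.cons_val_fin_one, vsub_eq_sub,
            inner_sub_right, hx.2.2, hy.2.2, sub_self]
      | zero => exact inner_zero_left _
      | add a b _ _ ha hb => rw [inner_add_left, ha, hb, add_zero]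
      | smul c a _ ha => rw [inner_smul_left, ha, mul_zero]
    have h4 := Submodule.finrank_mono hle
    have h5 : 0 < finrank ℝ (vectorSpan ℝ (FF u h i ∩ FF u h j)) := by
      rw [Module.finrank_pos_iff_exists_ne_zero]
      obtain ⟨x, hx, y, hy, hxy⟩ := hn
      refine ⟨⟨x -ᵥ y, vsub_mem_vectorSpan ℝ hx hy⟩, ?_⟩
      intro h0
      have h6 := congrArg Subtype.val h0
      simp only [vsub_eq_sub, ZeroMemClass.coe_zero] at h6
      exact hxy (sub_eq_zero.1 h6)
    omega

/-- A5. The edge length is at least the sum over the pairs of facets. -/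
theorem zeta_one_ge {ι : Type} [Fintype ι] [DecidableEq ι] {u : ι → E3} {h : ι → ℝ}
    (R : Rep u h) :
    ∑ i, ∑ j ∈ Finset.univ.erase i, μHE[1] (FF u h i ∩ FF u h j) ≤
      2 * Helper75.zeta 1 (PP u h) := by
  classical
  have hfin : (Helper75.kfaces 1 (PP u h)).Finite := by
    rw [PP_eq_poly]
    exact Helper75.finite_kfaces_poly 1 _
  -- the sum over the edges
  have hz : Helper75.zeta 1 (PP u h) = ∑ F ∈ hfin.toFinset, μHE[1] F := by
    have h1 := Finset.tsum_subtype' hfin.toFinset (fun F : Set E3 => μHE[1] F)
    rw [hfin.coe_toFinset] at h1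
    exact h1
  let S : Finset (ι × ι) := (Finset.univ : Finset (ι × ι)).filter fun p =>
    p.1 ≠ p.2 ∧ (FF u h p.1 ∩ FF u h p.2).Nontrivial
  have h1 : ∑ i, ∑ j ∈ Finset.univ.erase i, μHE[1] (FF u h i ∩ FF u h j) =
      ∑ p ∈ S, μHE[1] (FF u h p.1 ∩ FF u h p.2) := by
    rw [Finset.sum_filter, Fintype.sum_prod_type]
    refine Finset.sum_congr rfl fun i _ => ?_
    rw [← Finset.filter_ne, Finset.sum_filter]
    refine Finset.sum_congr rfl fun j _ => ?_
    by_cases hij : i = j
    · simp [hij]
    · by_cases hn : (FF u h i ∩ FF u h j).Nontrivial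
      · rw [if_pos hij, if_pos ⟨hij, hn⟩]
      · rw [if_pos hij, if_neg fun h => hn h.2,
          measure_subsingleton_zero (Set.not_nontrivial_iff.1 hn)]
  rw [h1, hz, ← Finset.sum_fiberwise_of_maps_to
    (t := hfin.toFinset) (g := fun p : ι × ι => FF u h p.1 ∩ FF u h p.2), Finset.mul_sum]
  · refine Finset.sum_le_sum fun F hF => ?_
    rw [Finset.sum_congr rfl (g := fun _ => μHE[1] F) fun p hp => by
      rw [(Finset.mem_filter.1 hp).2], Finset.sum_const, nsmul_eq_mul]
    refine mul_le_mul_left ?_ _
    have hcard : (S.filter fun p => FF u h p.1 ∩ FF u h p.2 = F).card ≤ 2 := by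
      by_cases he : (S.filter fun p => FF u h p.1 ∩ FF u h p.2 = F) = ∅
      · rw [he]
        simp
      · obtain ⟨⟨i, j⟩, hp⟩ := Finset.nonempty_of_ne_empty he
        have hp1 := Finset.mem_filter.1 hp
        have hp2 := (Finset.mem_filter.1 hp1.1).2
        have hp3 : FF u h i ∩ FF u h j = F := hp1.2
        refine (Finset.card_le_card (t := {(i, j), (j, i)}) ?_).trans Finset.card_le_two
        rintro ⟨k, l⟩ hq
        have hq1 := Finset.mem_filter.1 hq
        have hq2 := (Finset.mem_filter.1 hq1.1).2
        have hq3 : FF u h k ∩ FF u h l = F := hq1.2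
        have hij : i ≠ j := hp2.1
        have hkl : k ≠ l := hq2.1
        have hnt : F.Nontrivial := by
          rw [← hp3]
          exact hp2.2
        have hthree : ∀ m : ι, F ⊆ FF u h m → m = i ∨ m = j := by
          intro m hm
          by_contra hcon
          push Not at hcon
          have h2 := three_facets R hij hcon.1.symm hcon.2.symm
          rw [hp3, Set.inter_eq_left.2 hm] at h2
          exact (Set.not_subsingleton_iff.2 hnt) h2
        have hk := hthree k (by rw [← hq3]; exact Set.inter_subset_left)
        have hl := hthree l (by rw [← hq3]; exact Set.inter_subset_right)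
        rw [Finset.mem_insert, Finset.mem_singleton]
        rcases hk with rfl | rfl <;> rcases hl with rfl | rfl
        · exact absurd rfl hkl
        · exact Or.inl rfl
        · exact Or.inr rfl
        · exact absurd rfl hkl
    exact_mod_cast hcard
  · intro p hp
    rw [hfin.mem_toFinset]
    have hp2 := (Finset.mem_filter.1 hp).2
    exact inter_mem_kfaces R hp2.1 hp2.2

end Pool.Agent.Helper65.PK
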