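import Pool.Agent.Helper65.PK.P.B3

/-!
# Project PK, piece C1

From B3 with `m = 1`. Let `L : E2 → E3` be an affine isometry onto the plane
`{x | ⟪u i, x⟫ = h i}` (`L v = h i • u i + e v` with a linear isometry `e` of `E2` onto `(u i)ᗮ`;
`finrank = 2`, `stdOrthonormalBasis`/`LinearIsometryEquiv`). For `j ≠ i` with `u j ≠ - u i` the
projection of `u j` to `(u i)ᗮ` is nonzero (`R.inj`, norms one) and `ν j` is its pullback,
normalised: `⟪u j, L v⟫ ≤ h j ↔ ⟪ν j, v⟫ ≤ t j`, with equality iff equality. For `u j = - u i`: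
`F_i ∩ F_j = ∅` (`ne_neg_of_nonempty`), take any unit vector. So `F_i = L '' Q`,
`Q = PP ν' t'` over the subtype of the good `j`, `F_i ∩ F_j = L '' (FF ν' t' j)`, and isometries
preserve `μHE` (`Isometry.euclideanHausdorffMeasure_image`), `volume = μHE[2]` on `E2`.
Apply B3 to `Q` (bounded, nonempty by `R.fat i`) and `K`.
-/

namespace Pool.Agent.Helper65.PK

open MeasureTheory Module Set
open scoped ENNReal RealInnerProductSpace

/-- a linear isometry of the plane onto the orthogonal complement of a unit vector -/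
private theorem exists_plane (w : E3) (hw : ‖w‖ = 1) :
    ∃ e : E2 →ₗᵢ[ℝ] E3, (∀ v, ⟪w, e v⟫ = 0) ∧ ∀ x : E3, ⟪w, x⟫ = 0 → ∃ v, e v = x := by
  have hw0 : w ≠ 0 := by
    intro h
    rw [h, norm_zero] at hw
    exact zero_ne_one hw
  have : Fact (finrank ℝ E3 = 2 + 1) := ⟨by simp [finrank_euclideanSpace]⟩
  let B := OrthonormalBasis.fromOrthogonalSpanSingleton (𝕜 := ℝ) 2 hw0
  refine ⟨(ℝ ∙ w)ᗮ.subtypeₗᵢ.comp B.repr.symm.toLinearIsometry, ?_, ?_⟩
  · intro v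
    have h1 : ((B.repr.symm v : (ℝ ∙ w)ᗮ) : E3) ∈ (ℝ ∙ w)ᗮ := (B.repr.symm v).2
    exact Submodule.mem_orthogonal_singleton_iff_inner_right.1 h1
  · intro x hx
    have h1 : x ∈ (ℝ ∙ w)ᗮ := Submodule.mem_orthogonal_singleton_iff_inner_right.2 hx
    refine ⟨B.repr ⟨x, h1⟩, ?_⟩
    change ((B.repr.symm (B.repr ⟨x, h1⟩) : (ℝ ∙ w)ᗮ) : E3) = x
    rw [LinearIsometryEquiv.symm_apply_apply]

/-- two unit vectors, the second is orthogonal to the plane orthogonal to the first -/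
private theorem eq_or_neg {a b : E3} (ha : ‖a‖ = 1) (hb : ‖b‖ = 1)
    (h : ∀ x, ⟪a, x⟫ = 0 → ⟪b, x⟫ = 0) : b = a ∨ b = -a := by
  have haa : ⟪a, a⟫ = 1 := by rw [real_inner_self_eq_norm_sq, ha]; norm_num
  have hbb : ⟪b, b⟫ = 1 := by rw [real_inner_self_eq_norm_sq, hb]; norm_num
  have h0 := h (b - ⟪a, b⟫ • a) (by
    rw [inner_sub_right, inner_smul_right, haa, mul_one, sub_self])
  rw [inner_sub_right, inner_smul_right, hbb, real_inner_comm a b] at h0
  have h1 : (⟪a, b⟫ - 1) * (⟪a, b⟫ + 1) = 0 := by linarith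
  rcases mul_eq_zero.1 h1 with h2 | h2
  · left
    exact ((inner_eq_one_iff_of_norm_eq_one (𝕜 := ℝ) ha hb).1 (by linarith)).symm
  · right
    have h3 : ⟪-a, b⟫ = 1 := by rw [inner_neg_left]; linarith
    exact ((inner_eq_one_iff_of_norm_eq_one (𝕜 := ℝ) (by rw [norm_neg, ha]) hb).1 h3).symm

/-- C1. Minkowski's inequality in the plane of a facet. -/
theorem facet_minkowski {ι : Type} [Fintype ι] [DecidableEq ι] {u : ι → E3} {h : ι → ℝ}
    (R : Rep u h) (i : ι) : ∃ ν : ι → E2, (∀ j, ‖ν j‖ = 1) ∧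
      ∀ (w : ι → ℝ) (K : Set E2), (∀ j, 0 ≤ w j) → IsCompact K → K.Nonempty →
        (∀ j, j ≠ i → ∀ x ∈ K, ⟪ν j, x⟫ ≤ w j) →
        4 * ar 2 (FF u h i) * (volume K).toReal ≤
          (∑ j ∈ Finset.univ.erase i, w j * ar 1 (FF u h i ∩ FF u h j)) ^ 2 := by
  classical
  obtain ⟨e, he0, he1⟩ := exists_plane (u i) (R.unit i)
  -- the pullback of `u j`
  let p : ι → E2 := fun j => (e.toContinuousLinearMap.adjoint) (u j)
  have hp : ∀ j v, ⟪p j, v⟫ = ⟪u j, e v⟫ := fun j v =>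
    ContinuousLinearMap.adjoint_inner_left e.toContinuousLinearMap v (u j)
  have hp0 : ∀ j, j ≠ i → u j ≠ -u i → p j ≠ 0 := by
    intro j hj hj' h0
    rcases eq_or_neg (R.unit i) (R.unit j) (fun x hx => by
      obtain ⟨v, rfl⟩ := he1 x hx
      rw [← hp, h0, inner_zero_left]) with h1 | h1
    · exact hj (R.inj h1)
    · exact hj' h1
  let ν : ι → E2 := fun j => if j ≠ i ∧ u j ≠ -u i then (‖p j‖)⁻¹ • p j
    else EuclideanSpace.single 0 1
  let t : ι → ℝ := fun j => (h j - h i * ⟪u j, u i⟫) / ‖p j‖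
  have hν : ∀ j, ‖ν j‖ = 1 := by
    intro j
    by_cases hg : j ≠ i ∧ u j ≠ -u i
    · have h1 : ν j = (‖p j‖)⁻¹ • p j := if_pos hg
      have h2 : ‖p j‖ ≠ 0 := norm_ne_zero_iff.2 (hp0 j hg.1 hg.2)
      rw [h1, norm_smul, norm_inv, norm_norm, inv_mul_cancel₀ h2]
    · have h1 : ν j = EuclideanSpace.single 0 1 := if_neg hg
      rw [h1, EuclideanSpace.norm_single, norm_one]
  refine ⟨ν, hν, ?_⟩
  intro w K hw hK hK0 hKw
  -- the affine isometry
  let L : E2 → E3 := fun v => h i • u i + e v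
  have hL : Isometry L := by
    refine Isometry.of_dist_eq fun a b => ?_
    change dist (h i • u i + e a) (h i • u i + e b) = dist a b
    rw [dist_add_left, e.dist_map]
  have huu : ⟪u i, u i⟫ = 1 := by rw [real_inner_self_eq_norm_sq, R.unit i]; norm_num
  have hLi : ∀ v, ⟪u i, L v⟫ = h i := by
    intro v
    change ⟪u i, h i • u i + e v⟫ = h i
    rw [inner_add_right, inner_smul_right, huu, he0, mul_one, add_zero]
  have hLj : ∀ j v, ⟪u j, L v⟫ = h i * ⟪u j, u i⟫ + ⟪p j, v⟫ := by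
    intro j v
    change ⟪u j, h i • u i + e v⟫ = _
    rw [inner_add_right, inner_smul_right, hp]
  have hsurj : ∀ x, ⟪u i, x⟫ = h i → ∃ v, L v = x := by
    intro x hx
    obtain ⟨v, hv⟩ := he1 (x - h i • u i) (by
      rw [inner_sub_right, inner_smul_right, huu, hx, mul_one, sub_self])
    refine ⟨v, ?_⟩
    change h i • u i + e v = x
    rw [hv]
    abel
  -- good indices
  let G : Type := {j : ι // j ≠ i ∧ u j ≠ -u i}
  let ν' : G → E2 := fun j => ν j.1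
  let t' : G → ℝ := fun j => t j.1
  have hνg : ∀ (j : G) v, ⟪ν' j, v⟫ = ⟪p j.1, v⟫ / ‖p j.1‖ := by
    intro j v
    have h1 : ν' j = (‖p j.1‖)⁻¹ • p j.1 := if_pos j.2
    rw [h1, inner_smul_left, div_eq_inv_mul]
    rfl
  have hpos : ∀ j : G, 0 < ‖p j.1‖ := fun j => norm_pos_iff.2 (hp0 j.1 j.2.1 j.2.2)
  have hle : ∀ (j : G) v, ⟪ν' j, v⟫ ≤ t' j ↔ ⟪u j.1, L v⟫ ≤ h j.1 := by
    intro j v
    rw [hνg, hLj]
    change ⟪p j.1, v⟫ / ‖p j.1‖ ≤ (h j.1 - h i * ⟪u j.1, u i⟫) / ‖p j.1‖ ↔ _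
    rw [div_le_div_iff_of_pos_right (hpos j)]
    constructor <;> intro h1 <;> linarith
  have heq : ∀ (j : G) v, ⟪ν' j, v⟫ = t' j ↔ ⟪u j.1, L v⟫ = h j.1 := by
    intro j v
    rw [hνg, hLj]
    change ⟪p j.1, v⟫ / ‖p j.1‖ = (h j.1 - h i * ⟪u j.1, u i⟫) / ‖p j.1‖ ↔ _
    rw [div_left_inj' (hpos j).ne']
    constructor <;> intro h1 <;> linarith
  have hneg : ∀ j, u j = -u i → 0 ≤ h i + h j := by
    intro j hj
    obtain ⟨z, hz⟩ := R.int
    have h1 := interior_subset hz i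
    have h2 := interior_subset hz j
    rw [hj, inner_neg_left] at h2
    linarith
  have hPP : ∀ v, v ∈ PP ν' t' ↔ L v ∈ PP u h := by
    intro v
    constructor
    · intro hv j
      by_cases hg : j ≠ i ∧ u j ≠ -u i
      · exact (hle ⟨j, hg⟩ v).1 (hv ⟨j, hg⟩)
      · by_cases hji : j = i
        · rw [hji, hLi]
        · have h1 : u j = -u i := by
            by_contra h2
            exact hg ⟨hji, h2⟩
          rw [h1, inner_neg_left, hLi]
          linarith [hneg j h1]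
    · intro hv j
      exact (hle j v).2 (hv j.1)
  have hF : FF u h i = L '' PP ν' t' := by
    ext x
    constructor
    · rintro ⟨hx, hx'⟩
      obtain ⟨v, rfl⟩ := hsurj x hx'
      exact ⟨v, (hPP v).2 hx, rfl⟩
    · rintro ⟨v, hv, rfl⟩
      exact ⟨(hPP v).1 hv, hLi v⟩
  have hFj : ∀ j : G, FF u h i ∩ FF u h j.1 = L '' FF ν' t' j := by
    intro j
    ext x
    constructor
    · rintro ⟨⟨hx, hx'⟩, _, hx''⟩
      obtain ⟨v, rfl⟩ := hsurj x hx'
      exact ⟨v, ⟨(hPP v).2 hx, (heq j v).2 hx''⟩, rfl⟩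
    · rintro ⟨v, ⟨hv, hv'⟩, rfl⟩
      exact ⟨⟨(hPP v).1 hv, hLi v⟩, (hPP v).1 hv, (heq j v).1 hv'⟩
  have ha2 : ar 2 (FF u h i) = (volume (PP ν' t')).toReal := by
    unfold ar
    rw [hF, hL.euclideanHausdorffMeasure_image,
      EuclideanSpace.euclideanHausdorffMeasure_eq_volume]
  have ha1 : ∀ j : G, ar 1 (FF u h i ∩ FF u h j.1) = ar 1 (FF ν' t' j) := by
    intro j
    unfold ar
    rw [hFj j, hL.euclideanHausdorffMeasure_image]
  have hb : Bornology.IsBounded (PP ν' t') := by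
    have h1 : L '' PP ν' t' ⊆ PP u h := by
      rintro _ ⟨v, hv, rfl⟩
      exact (hPP v).1 hv
    have h2 := R.bdd.subset h1
    rw [Metric.isBounded_iff] at h2 ⊢
    obtain ⟨C, hC⟩ := h2
    refine ⟨C, fun a ha b hb => ?_⟩
    rw [← hL.dist_eq]
    exact hC ⟨a, ha, rfl⟩ ⟨b, hb, rfl⟩
  have hne : (PP ν' t').Nonempty := by
    obtain ⟨x, ε, hε, hx, hx'⟩ := R.fat i
    obtain ⟨v, rfl⟩ := hsurj x hx
    exact ⟨v, (hPP v).2 (hx' (L v) hx (by rwa [sub_self, norm_zero]))⟩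
  have key := minkowski (m := 1) (ι := G) (u := ν') (h := t') (k := fun j => w j.1)
    (fun j => hν j.1) hb hne (fun j => hw j.1) hK hK0 (fun x hx j => hKw j.1 j.2.1 x hx)
  have hsum : (∑ j : G, w j.1 * ar 1 (FF ν' t' j)) ≤
      ∑ j ∈ Finset.univ.erase i, w j * ar 1 (FF u h i ∩ FF u h j) := by
    have h1 : (∑ j : G, w j.1 * ar 1 (FF ν' t' j)) =
        ∑ j ∈ Finset.univ.filter (fun j => j ≠ i ∧ u j ≠ -u i),
          w j * ar 1 (FF u h i ∩ FF u h j) := by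
      rw [Finset.sum_subtype (Finset.univ.filter (fun j => j ≠ i ∧ u j ≠ -u i))
        (p := fun j => j ≠ i ∧ u j ≠ -u i) (fun j => by simp)]
      refine Finset.sum_congr rfl fun j _ => ?_
      rw [ha1 j]
    rw [h1]
    refine Finset.sum_le_sum_of_subset_of_nonneg ?_ ?_
    · intro j hj
      rw [Finset.mem_filter] at hj
      exact Finset.mem_erase.2 ⟨hj.2.1, Finset.mem_univ j⟩
    · intro j _ _
      exact mul_nonneg (hw j) (ar_nonneg 1 _)
  have hs0 : 0 ≤ ∑ j : G, w j.1 * ar 1 (FF ν' t' j) :=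
    Finset.sum_nonneg fun j _ => mul_nonneg (hw j.1) (ar_nonneg 1 _)
  rw [ha2]
  have key2 : 4 * (volume (PP ν' t')).toReal * (volume K).toReal ≤
      (∑ j : G, w j.1 * ar 1 (FF ν' t' j)) ^ 2 := by
    have e1 : ((1 : ℕ) : ℝ) + 1 = 2 := by norm_num
    rw [e1] at key
    norm_num at key
    exact key
  exact key2.trans (pow_le_pow_left₀ hs0 hsum 2)

end Pool.Agent.Helper65.PK
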