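import Pool.Agent.Helper65.PK.P.C2

/-!
# Project PK, piece C3

From C2. `closedBall 0 r` has area `π r²` (`EuclideanSpace.volume_closedBall_fin_two` or
`InnerProductSpace.volume_closedBall`), subtract the `#N` segments
`{‖v‖ ≤ r ∧ 1/2 < ⟪ν j, v⟫}` (with `r cos θ = 1/2`).
-/

namespace Pool.Agent.Helper65.PK

open MeasureTheory Module Set
open scoped ENNReal RealInnerProductSpace

/-- C3. The area of a truncated disc. -/
theorem disc_trunc {ι : Type} (ν : ι → E2) (hν : ∀ j, ‖ν j‖ = 1) (N : Finset ι) {r θ : ℝ}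
    (hr : 0 < r) (h0 : 0 < θ) (h1 : θ < Real.pi / 2) (hrθ : r * Real.cos θ = 1 / 2) :
    Real.pi * r ^ 2 - N.card * (r ^ 2 * (θ - Real.sin θ * Real.cos θ)) ≤
      (volume {v : E2 | ‖v‖ ≤ r ∧ ∀ j ∈ N, ⟪ν j, v⟫ ≤ 1 / 2}).toReal := by
  classical
  set A : ℝ := r ^ 2 * (θ - Real.sin θ * Real.cos θ) with hA
  have hA0 : 0 ≤ A := by
    have hs : 0 ≤ Real.sin θ := (Real.sin_pos_of_pos_of_lt_pi h0 (by linarith [Real.pi_pos])).le
    have h2 : Real.sin θ * Real.cos θ ≤ θ :=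
      calc Real.sin θ * Real.cos θ ≤ Real.sin θ * 1 :=
            mul_le_mul_of_nonneg_left (Real.cos_le_one θ) hs
        _ = Real.sin θ := mul_one _
        _ ≤ θ := Real.sin_le h0.le
    exact mul_nonneg (sq_nonneg r) (by linarith)
  set T : Set E2 := {v : E2 | ‖v‖ ≤ r ∧ ∀ j ∈ N, ⟪ν j, v⟫ ≤ 1 / 2} with hT
  have hsub : Metric.closedBall (0 : E2) r ⊆
      T ∪ ⋃ j ∈ N, {v : E2 | ‖v‖ ≤ r ∧ r * Real.cos θ < ⟪ν j, v⟫} := by
    intro v hv
    have hvr : ‖v‖ ≤ r := by simpa using hv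
    by_cases hvT : ∀ j ∈ N, ⟪ν j, v⟫ ≤ 1 / 2
    · exact Or.inl ⟨hvr, hvT⟩
    · push Not at hvT
      obtain ⟨j, hj, hlt⟩ := hvT
      refine Or.inr ?_
      simp only [mem_iUnion]
      exact ⟨j, hj, hvr, by rw [hrθ]; exact hlt⟩
  have hTfin : volume T ≠ ⊤ := by
    refine ne_top_of_le_ne_top (measure_closedBall_lt_top (x := (0 : E2)) (r := r)).ne
      (measure_mono fun v hv => ?_)
    simpa using hv.1
  have h2 : ENNReal.ofReal (Real.pi * r ^ 2) ≤ volume T + N.card * ENNReal.ofReal A := by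
    calc ENNReal.ofReal (Real.pi * r ^ 2) = volume (Metric.closedBall (0 : E2) r) := by
          rw [EuclideanSpace.volume_closedBall_fin_two, mul_comm,
            ENNReal.ofReal_mul (sq_nonneg r), ENNReal.ofReal_pow hr.le]
      _ ≤ volume (T ∪ ⋃ j ∈ N, {v : E2 | ‖v‖ ≤ r ∧ r * Real.cos θ < ⟪ν j, v⟫}) :=
          measure_mono hsub
      _ ≤ volume T + volume (⋃ j ∈ N, {v : E2 | ‖v‖ ≤ r ∧ r * Real.cos θ < ⟪ν j, v⟫}) :=
          measure_union_le _ _
      _ ≤ volume T + ∑ j ∈ N, volume {v : E2 | ‖v‖ ≤ r ∧ r * Real.cos θ < ⟪ν j, v⟫} := by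
          gcongr
          exact measure_biUnion_finset_le _ _
      _ ≤ volume T + ∑ j ∈ N, ENNReal.ofReal A := by
          gcongr with j hj
          exact segment_area (hν j) hr h0 h1
      _ = volume T + N.card * ENNReal.ofReal A := by
          rw [Finset.sum_const, nsmul_eq_mul]
  have h3 : Real.pi * r ^ 2 ≤ (volume T).toReal + N.card * A := by
    have h4 : volume T + N.card * ENNReal.ofReal A =
        ENNReal.ofReal ((volume T).toReal + N.card * A) := by
      rw [ENNReal.ofReal_add ENNReal.toReal_nonneg (by positivity), ENNReal.ofReal_toReal hTfin,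
        ENNReal.ofReal_mul (Nat.cast_nonneg _), ENNReal.ofReal_natCast]
    rw [h4] at h2
    exact (ENNReal.ofReal_le_ofReal_iff (by positivity)).1 h2
  linarith

end Pool.Agent.Helper65.PK
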