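import Mathlib
import Pool.Agent.Helper65.PK.P.C1
import Pool.Agent.Helper65.PK.P.C3
import Pool.Agent.Helper65.PK.LP

/-!
# Project PK, piece C4

From C1, C3. For `facet_SK` use `K = {‖v‖ ≤ r, ⟪ν j, v⟫ ≤ 1/2 for j ∈ N}` (compact, contains 0),
`w j = 1/2` on `N` and `w j = √2/2 ≥ r` off `N`, and for `#N = k`: `k ≤ 4`: `r = √2/2`, `θ = π/4`
(`4 |K| ≥ 2π - k (π/2 - 1)`, at `k = 4` this is `4`); `k = 5`: `θ = π/5`, `r = 1/(2 cos θ)`
(`4 |K| ≥ 5 tan (π/5)`; `Real.cos_pi_div_five : cos (π/5) = (1 + √5)/4`); `k = 6, 7, 8`: `θ = π/6`,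
`r = 1/√3` (`4 |K| ≥ 4π/3 - k (2π/9 - √3/3)`); `k ≥ 9`: `K` = the ball of radius `1/2`
(`4 |K| = π`). In each case `SK k ^ 2 ≤ 4 |K|`; needed: `3.14159 < π < 3.1416` (`Real.pi_gt_d6`...)
and bounds of `√3`, `√5`, `√(10 - 2√5)`; the values: `SK 0 = 2.5066`, `SK 1 = 2.39`,
`SK 2 = 2.2675`, `SK 3 = 2.1379`, `SK 4 = 2`, `SK 5 = 1.9059`, `SK 6 = 1.8612`, `SK 7 = 1.828`,
`SK 8 = 1.795`, `SK k = 1.7724` for `k ≥ 9` (the definitions are `SKn`, `SK` in `LP.lean`).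
For `facet_J`: `K` = ball of radius `w = 1 - √2/2`; `4 a π w² ≤ (Σ w ℓ)²` and
`1.038 ≤ 2 (1 - √2/2) √π`.
-/

namespace Pool.Agent.Helper65.PK

open MeasureTheory Module Set
open scoped ENNReal RealInnerProductSpace

private theorem le_of_sq_le_sq {a b : ℝ} (h : a ^ 2 ≤ b ^ 2) (hb : 0 ≤ b) : a ≤ b :=
  abs_le_of_sq_le_sq' h hb |>.2

theorem inner_le_half_of_norm_le {ν x : E2} (hν : ‖ν‖ = 1) {r : ℝ} (hx : ‖x‖ ≤ r) :
    ⟪ν, x⟫ ≤ r := by
  have h1 := real_inner_le_norm ν x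
  rw [hν, one_mul] at h1
  exact h1.trans hx

theorem exists_K_aux {ι : Type} (ν : ι → E2) (hν : ∀ j, ‖ν j‖ = 1) (N : Finset ι) {r θ : ℝ}
    (hr : 0 < r) (hr2 : r ≤ √2 / 2) (h0 : 0 < θ) (h1 : θ < Real.pi / 2)
    (hrθ : r * Real.cos θ = 1 / 2)
    (hS : SK N.card ^ 2 ≤
      4 * (Real.pi * r ^ 2 - N.card * (r ^ 2 * (θ - Real.sin θ * Real.cos θ)))) :
    ∃ K : Set E2, IsCompact K ∧ K.Nonempty ∧ (∀ x ∈ K, ‖x‖ ≤ √2 / 2) ∧
      (∀ j ∈ N, ∀ x ∈ K, ⟪ν j, x⟫ ≤ 1 / 2) ∧ SK N.card ^ 2 ≤ 4 * (volume K).toReal := by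
  refine ⟨{v : E2 | ‖v‖ ≤ r ∧ ∀ j ∈ N, ⟪ν j, v⟫ ≤ 1 / 2}, ?_, ?_, ?_, ?_, ?_⟩
  · have hclosed : IsClosed {v : E2 | ‖v‖ ≤ r ∧ ∀ j ∈ N, ⟪ν j, v⟫ ≤ 1 / 2} := by
      have e : {v : E2 | ‖v‖ ≤ r ∧ ∀ j ∈ N, ⟪ν j, v⟫ ≤ 1 / 2} =
          {v : E2 | ‖v‖ ≤ r} ∩ ⋂ j ∈ N, {v : E2 | ⟪ν j, v⟫ ≤ 1 / 2} := by
        ext v
        simp
      rw [e]
      refine (isClosed_le continuous_norm continuous_const).inter ?_
      exact isClosed_biInter fun j _ => isClosed_le (by fun_prop) continuous_const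
    refine Metric.isCompact_of_isClosed_isBounded hclosed ?_
    refine (Metric.isBounded_closedBall (x := (0 : E2)) (r := r)).subset fun v hv => ?_
    simpa using hv.1
  · exact ⟨0, by simpa using hr.le, fun j _ => by rw [inner_zero_right]; norm_num⟩
  · exact fun x hx => hx.1.trans hr2
  · exact fun j hj x hx => hx.2 j hj
  · refine hS.trans ?_
    have := disc_trunc ν hν N hr h0 h1 hrθ
    linarith

theorem area_ball {r : ℝ} (hr : 0 ≤ r) :
    (volume (Metric.closedBall (0 : E2) r)).toReal = Real.pi * r ^ 2 := by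
  rw [EuclideanSpace.volume_closedBall_fin_two, ENNReal.toReal_mul, ENNReal.toReal_pow,
    ENNReal.toReal_ofReal hr, mul_comm]
  rw [ENNReal.toReal_ofReal Real.pi_pos.le]

theorem exists_K {ι : Type} (ν : ι → E2) (hν : ∀ j, ‖ν j‖ = 1) (N : Finset ι) :
    ∃ K : Set E2, IsCompact K ∧ K.Nonempty ∧ (∀ x ∈ K, ‖x‖ ≤ √2 / 2) ∧
      (∀ j ∈ N, ∀ x ∈ K, ⟪ν j, x⟫ ≤ 1 / 2) ∧ SK N.card ^ 2 ≤ 4 * (volume K).toReal := by
  have hpi1 := Real.pi_gt_d6
  have hpi2 := Real.pi_lt_d6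
  have hs2 : √2 ^ 2 = (2 : ℝ) := Real.sq_sqrt (by norm_num)
  have hs3 : √3 ^ 2 = (3 : ℝ) := Real.sq_sqrt (by norm_num)
  have hs5 : √5 ^ 2 = (5 : ℝ) := Real.sq_sqrt (by norm_num)
  have h2p : (0 : ℝ) < √2 := Real.sqrt_pos.2 (by norm_num)
  have h3p : (0 : ℝ) < √3 := Real.sqrt_pos.2 (by norm_num)
  have h5p : (0 : ℝ) < √5 := Real.sqrt_pos.2 (by norm_num)
  have h2l : (1.414 : ℝ) < √2 := Real.lt_sqrt_of_sq_lt (by norm_num)
  have h3l : (1.73205 : ℝ) < √3 := Real.lt_sqrt_of_sq_lt (by norm_num)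
  have h5u : √5 < (2.2361 : ℝ) := by
    rw [Real.sqrt_lt' (by norm_num)]
    norm_num
  have h5l : (2.236 : ℝ) < √5 := Real.lt_sqrt_of_sq_lt (by norm_num)
  rcases Nat.lt_or_ge N.card 5 with h5 | h5
  · -- `θ = π / 4`, `r = √2 / 2`
    refine exists_K_aux ν hν N (r := √2 / 2) (θ := Real.pi / 4) (by positivity) le_rfl
      (by positivity) (by linarith only [hpi1, h5u, h5l]) ?_ ?_
    · rw [Real.cos_pi_div_four]
      linarith only [hs2]
    · rw [Real.cos_pi_div_four, Real.sin_pi_div_four]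
      have e1 : (√2 / 2) ^ 2 = (1 : ℝ) / 2 := by rw [div_pow, hs2]; norm_num
      have e2 : √2 / 2 * (√2 / 2) = (1 : ℝ) / 2 := by rw [← sq, e1]
      rw [e1, e2]
      have hcases : N.card = 0 ∨ N.card = 1 ∨ N.card = 2 ∨ N.card = 3 ∨ N.card = 4 := by omega
      rcases hcases with h | h | h | h | h <;> rw [h] <;> simp only [SK, SKn] <;> push_cast <;>
        linarith only [hpi1, h5u, h5l]
  rcases Nat.lt_or_ge N.card 6 with h6 | h6
  · -- `θ = π / 5`
    have hc : Real.cos (Real.pi / 5) = (1 + √5) / 4 := Real.cos_pi_div_five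
    have hcp : 0 < Real.cos (Real.pi / 5) := by rw [hc]; positivity
    have hsp : 0 < Real.sin (Real.pi / 5) :=
      Real.sin_pos_of_pos_of_lt_pi (by positivity) (by linarith only [hpi1, h5u, h5l])
    have hsc := Real.sin_sq_add_cos_sq (Real.pi / 5)
    have hcard : N.card = 5 := by omega
    refine exists_K_aux ν hν N (r := 1 / (2 * Real.cos (Real.pi / 5))) (θ := Real.pi / 5)
      (by positivity) ?_ (by positivity) (by linarith only [hpi1, h5u, h5l]) ?_ ?_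
    · rw [div_le_iff₀ (by positivity), hc]
      nlinarith only [hpi1, h2l, h5u, h5l, hpi2, h2p]
    · field_simp
    · set c := Real.cos (Real.pi / 5) with hcdef
      set s := Real.sin (Real.pi / 5) with hsdef
      have hc2 : c ^ 2 = (3 + √5) / 8 := by
        rw [hc]
        linarith only [hs5]
      have e1 : 4 * (Real.pi * (1 / (2 * c)) ^ 2 - (N.card : ℝ) *
          ((1 / (2 * c)) ^ 2 * (Real.pi / 5 - s * c))) = 5 * (s / c) := by
        rw [hcard]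
        push_cast
        field_simp
        ring
      rw [e1, hcard]
      simp only [SK, SKn]
      push_cast
      have hpos : 0 < s / c := div_pos hsp hcp
      have hsq : (s / c) ^ 2 = 5 - 2 * √5 := by
        rw [div_pow, div_eq_iff (by positivity)]
        have : s ^ 2 = 1 - c ^ 2 := by linarith only [hsc]
        rw [this, hc2]
        linarith only [hs5]
      have hge : (19059 / 10000 : ℝ) ^ 2 / 5 ≤ s / c := by
        refine le_of_sq_le_sq ?_ hpos.le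
        rw [hsq]
        norm_num
        linarith only [h5u, h5l]
      linarith only [hge]
  rcases Nat.lt_or_ge N.card 9 with h9 | h9
  · -- `θ = π / 6`, `r = 1 / √3`
    refine exists_K_aux ν hν N (r := 1 / √3) (θ := Real.pi / 6) (by positivity) ?_
      (by positivity) (by linarith) ?_ ?_
    · rw [div_le_iff₀ h3p]
      nlinarith only [hpi1, h2l, h5u, h5l, hpi2, h2p, h3l]
    · rw [Real.cos_pi_div_six]
      field_simp
    · rw [Real.cos_pi_div_six, Real.sin_pi_div_six]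
      have e1 : (1 / √3) ^ 2 = (1 : ℝ) / 3 := by rw [div_pow, hs3, one_pow]
      rw [e1]
      have hcases : N.card = 6 ∨ N.card = 7 ∨ N.card = 8 := by omega
      rcases hcases with h | h | h <;> rw [h] <;> simp only [SK, SKn] <;> push_cast <;>
        linarith only [h3l, h5u, h5l, hpi2]
  · -- the ball of radius `1 / 2`
    refine ⟨Metric.closedBall 0 (1 / 2), isCompact_closedBall _ _, ⟨0, by simp⟩, ?_, ?_, ?_⟩
    · intro x hx
      have h1 : ‖x‖ ≤ 1 / 2 := by simpa using hx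
      linarith only [h2l, h5u, h5l, h1]
    · intro j _ x hx
      exact inner_le_half_of_norm_le (hν j) (by simpa using hx)
    · rw [area_ball (by norm_num)]
      obtain ⟨m, hm⟩ := Nat.exists_eq_add_of_le' h9
      have e1 : SK N.card = 17724 / 10000 := by
        rw [hm]
        simp only [SK, SKn]
        norm_num
      rw [e1]
      linarith only [hpi1, h5u, h5l]

/-- C4. The inequality of a large facet. -/
theorem facet_SK {ι : Type} [Fintype ι] [DecidableEq ι] {u : ι → E3} {h : ι → ℝ}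
    (R : Rep u h) (i : ι) (N : Finset ι) (hN : i ∉ N) :
    SK N.card * √(ar 2 (FF u h i)) ≤
      ∑ j ∈ N, 1 / 2 * ar 1 (FF u h i ∩ FF u h j) +
      ∑ j ∈ (Finset.univ.erase i) \ N, √2 / 2 * ar 1 (FF u h i ∩ FF u h j) := by
  obtain ⟨ν, hν, H⟩ := facet_minkowski R i
  obtain ⟨K, hK, hK0, hK1, hK2, hKS⟩ := exists_K ν hν N
  have key := H (fun j => if j ∈ N then 1 / 2 else √2 / 2) K
    (fun j => by split_ifs <;> positivity) hK hK0 (by
      intro j _ x hx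
      by_cases hj : j ∈ N
      · rw [if_pos hj]
        exact hK2 j hj x hx
      · rw [if_neg hj]
        exact inner_le_half_of_norm_le (hν j) (hK1 x hx))
  have hsub : N ⊆ Finset.univ.erase i := fun j hj =>
    Finset.mem_erase.2 ⟨fun e => hN (e ▸ hj), Finset.mem_univ j⟩
  have hsum : ∑ j ∈ Finset.univ.erase i, (if j ∈ N then 1 / 2 else √2 / 2) *
      ar 1 (FF u h i ∩ FF u h j) = ∑ j ∈ N, 1 / 2 * ar 1 (FF u h i ∩ FF u h j) +
      ∑ j ∈ (Finset.univ.erase i) \ N, √2 / 2 * ar 1 (FF u h i ∩ FF u h j) := by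
    rw [← Finset.sum_sdiff hsub, add_comm]
    congr 1
    · exact Finset.sum_congr rfl fun j hj => by rw [if_pos hj]
    · exact Finset.sum_congr rfl fun j hj => by rw [if_neg (Finset.mem_sdiff.1 hj).2]
  rw [hsum] at key
  have hA : 0 ≤ ar 2 (FF u h i) := ar_nonneg 2 _
  have hT : 0 ≤ ∑ j ∈ N, 1 / 2 * ar 1 (FF u h i ∩ FF u h j) +
      ∑ j ∈ (Finset.univ.erase i) \ N, √2 / 2 * ar 1 (FF u h i ∩ FF u h j) :=
    add_nonneg (Finset.sum_nonneg fun j _ => mul_nonneg (by norm_num) (ar_nonneg 1 _))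
      (Finset.sum_nonneg fun j _ => mul_nonneg (by positivity) (ar_nonneg 1 _))
  refine le_of_sq_le_sq ?_ hT
  rw [mul_pow, Real.sq_sqrt hA]
  refine le_trans ?_ key
  calc SK N.card ^ 2 * ar 2 (FF u h i) ≤ 4 * (volume K).toReal * ar 2 (FF u h i) :=
        mul_le_mul_of_nonneg_right hKS hA
    _ = 4 * ar 2 (FF u h i) * (volume K).toReal := by ring

/-- C4. The inequality of a small facet. -/
theorem facet_J {ι : Type} [Fintype ι] [DecidableEq ι] {u : ι → E3} {h : ι → ℝ}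
    (R : Rep u h) (i : ι) :
    1.038 * √(ar 2 (FF u h i)) ≤
      ∑ j ∈ Finset.univ.erase i, (1 - √2 / 2) * ar 1 (FF u h i ∩ FF u h j) := by
  have hpi1 := Real.pi_gt_d6
  have hs2 : √2 ^ 2 = (2 : ℝ) := Real.sq_sqrt (by norm_num)
  have h2l : (1.414 : ℝ) < √2 := Real.lt_sqrt_of_sq_lt (by norm_num)
  have h2u : √2 < (1.41422 : ℝ) := by
    rw [Real.sqrt_lt' (by norm_num)]
    norm_num
  have hw : 0 ≤ 1 - √2 / 2 := by linarith only [h2l, h2u]
  obtain ⟨ν, hν, H⟩ := facet_minkowski R i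
  have key := H (fun _ => 1 - √2 / 2) (Metric.closedBall 0 (1 - √2 / 2)) (fun _ => hw)
    (isCompact_closedBall _ _) ⟨0, by simpa using hw⟩ (by
      intro j _ x hx
      exact inner_le_half_of_norm_le (hν j) (by simpa using hx))
  rw [area_ball hw] at key
  have hA : 0 ≤ ar 2 (FF u h i) := ar_nonneg 2 _
  have hT : 0 ≤ ∑ j ∈ Finset.univ.erase i, (1 - √2 / 2) * ar 1 (FF u h i ∩ FF u h j) :=
    Finset.sum_nonneg fun j _ => mul_nonneg hw (ar_nonneg 1 _)
  refine le_of_sq_le_sq ?_ hT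
  rw [mul_pow, Real.sq_sqrt hA]
  refine le_trans ?_ key
  have e : (1.038 : ℝ) ^ 2 ≤ 4 * (Real.pi * (1 - √2 / 2) ^ 2) := by
    have e1 : (1 - √2 / 2) ^ 2 = 3 / 2 - √2 := by linarith only [hs2]
    rw [e1]
    nlinarith only [h2l, h2u, hpi1, hs2]
  calc (1.038 : ℝ) ^ 2 * ar 2 (FF u h i) ≤
        4 * (Real.pi * (1 - √2 / 2) ^ 2) * ar 2 (FF u h i) :=
        mul_le_mul_of_nonneg_right e hA
    _ = 4 * ar 2 (FF u h i) * (Real.pi * (1 - √2 / 2) ^ 2) := by ring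

end Pool.Agent.Helper65.PK
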