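import Mathlib
import Pool.Agent.Helper65.PK.P.C4
import Pool.Agent.Helper65.PK.P.A5
import Pool.Agent.Helper75.Prism

/-!
# Project PK, piece C5

From C4 and A5. For `i ∈ I` let `N_i = {j ∈ I | j ≠ i, F_i ∩ F_j nontrivial}` (`nb u h I i` is its
cardinality); for `j ∈ I` outside `N_i`, `F_i ∩ F_j` is a subsingleton, so its length is 0. So
`SK (nb i) √a_i ≤ Σ_j w_ij ℓ_ij` with `w_ij = 1/2` for `j ∈ I` and `√2/2` for `j ∉ I`; for `i ∉ I`:
`1.038 √a_i ≤ Σ_j (1 - √2/2) ℓ_ij ≤ Σ_j w_ij ℓ_ij` with `w_ij = 1 - √2/2` for `j ∈ I` and `1/2` for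
`j ∉ I` (`1 - √2/2 ≤ 1/2`). `w_ij + w_ji = 1` and `ℓ_ij = ℓ_ji`, so the double sum of `w_ij ℓ_ij` is
half of the double sum of `ℓ_ij`, which is at most `zeta 1` by A5 (finite: `Helper75.zeta_lt_top`,
boundedness).
-/

namespace Pool.Agent.Helper65.PK

open MeasureTheory Module Set
open scoped ENNReal RealInnerProductSpace

/-- A subsingleton has length zero. -/
theorem ar_one_subsingleton {F : Set E3} (hF : F.Subsingleton) : ar 1 F = 0 := by
  have h1 : μHE[1] F = 0 := by
    rw [MeasureTheory.Measure.euclideanHausdorffMeasure_def, Measure.smul_apply]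
    have : (μH[((1 : ℕ) : ℝ)] : Measure E3) F = 0 := by
      have := Measure.nullSingletonClass_hausdorff E3 (d := ((1 : ℕ) : ℝ)) (by norm_num)
      exact hF.measure_zero _
    rw [this, smul_zero]
  rw [ar, h1, ENNReal.toReal_zero]

theorem two_sum_le {ι : Type} [Fintype ι] [DecidableEq ι] {u : ι → E3} {h : ι → ℝ}
    (R : Rep u h) :
    ∑ i, ∑ j ∈ Finset.univ.erase i, ar 1 (FF u h i ∩ FF u h j) ≤
      2 * (Helper75.zeta 1 (PP u h)).toReal := by
  classical
  have hz : Helper75.zeta 1 (PP u h) < ⊤ := by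
    obtain ⟨C, hC⟩ := Metric.isBounded_iff.1 R.bdd
    rw [PP_eq_poly] at hC ⊢
    exact Helper75.zeta_lt_top _ 1 (D := C) fun x hx y hy => by
      rw [← dist_eq_norm]
      exact hC hx hy
  have h1 := zeta_one_ge R
  have h2 : (2 * Helper75.zeta 1 (PP u h)) ≠ ⊤ := ENNReal.mul_ne_top (by norm_num) hz.ne
  have h3 := ENNReal.toReal_mono h2 h1
  have hfin : ∀ i, ∀ j ∈ Finset.univ.erase i, μHE[1] (FF u h i ∩ FF u h j) ≠ ⊤ := by
    have h4 := (lt_of_le_of_lt h1 h2.lt_top)
    intro i j hj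
    have h5 := (ENNReal.sum_lt_top.1 h4) i (Finset.mem_univ i)
    exact ((ENNReal.sum_lt_top.1 h5) j hj).ne
  rw [ENNReal.toReal_sum, ENNReal.toReal_mul] at h3
  · refine le_trans (le_of_eq ?_) h3
    refine Finset.sum_congr rfl fun i _ => ?_
    rw [ENNReal.toReal_sum (hfin i)]
    rfl
  · intro i _
    exact ENNReal.sum_ne_top.2 (hfin i)

/-- C5. The bound of the edge length. -/
theorem edge_bound {ι : Type} [Fintype ι] [DecidableEq ι] {u : ι → E3} {h : ι → ℝ}
    (R : Rep u h) (I : Finset ι) :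
    ∑ i ∈ I, SK (nb u h I i) * √(ar 2 (FF u h i)) + 1.038 * ∑ i ∈ Iᶜ, √(ar 2 (FF u h i)) ≤
      (Helper75.zeta 1 (PP u h)).toReal := by
  classical
  set l : ι → ι → ℝ := fun i j => ar 1 (FF u h i ∩ FF u h j) with hl
  have hl0 : ∀ i j, 0 ≤ l i j := fun i j => ar_nonneg _ _
  have hsymm : ∀ i j, l i j = l j i := fun i j => by
    simp only [hl, Set.inter_comm (FF u h i) (FF u h j)]
  have hs2 : √2 ^ 2 = (2 : ℝ) := Real.sq_sqrt (by norm_num)
  have hs2a : (1 : ℝ) ≤ √2 := by
    rw [Real.le_sqrt (by norm_num) (by norm_num)]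
    norm_num
  have hs2b : √2 ≤ (2 : ℝ) := by
    rw [Real.sqrt_le_left (by norm_num)]
    norm_num
  -- the weights
  set W : ι → ι → ℝ := fun i j =>
    if i ∈ I then (if j ∈ I then 1 / 2 else √2 / 2) else (if j ∈ I then 1 - √2 / 2 else 1 / 2)
    with hW
  have hWW : ∀ i j, W i j + W j i = 1 := by
    intro i j
    by_cases hi : i ∈ I <;> by_cases hj : j ∈ I <;> simp only [hW, hi, hj, if_true, if_false] <;>
      ring
  have hA : ∀ i ∈ I, SK (nb u h I i) * √(ar 2 (FF u h i)) ≤
      ∑ j ∈ Finset.univ.erase i, W i j * l i j := by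
    intro i hi
    set N : Finset ι := I.filter fun j => j ≠ i ∧ (FF u h i ∩ FF u h j).Nontrivial with hN
    have hiN : i ∉ N := by simp [hN]
    have h1 := facet_SK R i N hiN
    have hcard : N.card = nb u h I i := by
      unfold nb
      rw [hN]
      congr!
    rw [hcard] at h1
    refine h1.trans (le_of_eq ?_)
    have hNsub : N ⊆ Finset.univ.erase i := by
      intro j hj
      rw [hN, Finset.mem_filter] at hj
      exact Finset.mem_erase.2 ⟨hj.2.1, Finset.mem_univ j⟩
    rw [← Finset.sum_sdiff hNsub, add_comm]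
    congr 1
    · refine Finset.sum_congr rfl fun j hj => ?_
      rw [Finset.mem_sdiff, Finset.mem_erase] at hj
      by_cases hjI : j ∈ I
      · have hsub : (FF u h i ∩ FF u h j).Subsingleton := by
          rw [← Set.not_nontrivial_iff]
          intro hnt
          exact hj.2 (Finset.mem_filter.2 ⟨hjI, hj.1.1, hnt⟩)
        have h0 : l i j = 0 := ar_one_subsingleton hsub
        change √2 / 2 * l i j = W i j * l i j
        rw [h0, mul_zero, mul_zero]
      · simp only [hW, hi, hjI, if_true, if_false, hl]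
    · refine Finset.sum_congr rfl fun j hj => ?_
      have hjI : j ∈ I := (Finset.mem_filter.1 hj).1
      simp only [hW, hi, hjI, if_true, hl]
  have hB : ∀ i ∈ Iᶜ, 1.038 * √(ar 2 (FF u h i)) ≤
      ∑ j ∈ Finset.univ.erase i, W i j * l i j := by
    intro i hi
    rw [Finset.mem_compl] at hi
    refine (facet_J R i).trans (Finset.sum_le_sum fun j _ => ?_)
    refine mul_le_mul_of_nonneg_right ?_ (hl0 i j)
    by_cases hj : j ∈ I
    · simp only [hW, hi, hj, if_true, if_false, le_refl]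
    · simp only [hW, hi, hj, if_false]
      linarith
  have hT : ∑ i ∈ I, SK (nb u h I i) * √(ar 2 (FF u h i)) + 1.038 * ∑ i ∈ Iᶜ, √(ar 2 (FF u h i)) ≤
      ∑ i, ∑ j ∈ Finset.univ.erase i, W i j * l i j := by
    rw [Finset.mul_sum, ← Finset.sum_add_sum_compl I (fun i => ∑ j ∈ Finset.univ.erase i, W i j * l i j)]
    exact add_le_add (Finset.sum_le_sum hA) (Finset.sum_le_sum hB)
  -- symmetrisation
  have herase : ∀ f : ι → ι → ℝ, ∑ i, ∑ j ∈ Finset.univ.erase i, f i j =
      ∑ i, ∑ j, if j = i then 0 else f i j := by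
    intro f
    refine Finset.sum_congr rfl fun i _ => ?_
    rw [← Finset.filter_ne' Finset.univ i, Finset.sum_filter]
    refine Finset.sum_congr rfl fun j _ => ?_
    by_cases hj : j = i <;> simp [hj]
  have hswap : ∑ i, ∑ j ∈ Finset.univ.erase i, W i j * l i j =
      ∑ i, ∑ j ∈ Finset.univ.erase i, W j i * l i j := by
    rw [herase, herase, Finset.sum_comm]
    refine Finset.sum_congr rfl fun i _ => Finset.sum_congr rfl fun j _ => ?_
    by_cases hj : j = i
    · simp [hj]
    · rw [if_neg hj, if_neg (Ne.symm hj), hsymm j i]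
  have h2T : 2 * ∑ i, ∑ j ∈ Finset.univ.erase i, W i j * l i j =
      ∑ i, ∑ j ∈ Finset.univ.erase i, l i j := by
    rw [two_mul]
    nth_rw 2 [hswap]
    rw [← Finset.sum_add_distrib]
    refine Finset.sum_congr rfl fun i _ => ?_
    rw [← Finset.sum_add_distrib]
    refine Finset.sum_congr rfl fun j _ => ?_
    rw [← add_mul, hWW, one_mul]
  have h3 := two_sum_le R
  change ∑ i, ∑ j ∈ Finset.univ.erase i, l i j ≤ _ at h3
  linarith

end Pool.Agent.Helper65.PK
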