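import Mathlib
import Pool.Agent.Helper65.PK.Defs

/-!
# Project PK, piece B0

If `PP u h'` is unbounded (closed convex, finite dimensional) there is a direction `v ≠ 0` with
`⟪u i, v⟫ ≤ 0` for all `i` (limit of `x_n / ‖x_n‖`: compactness of the sphere,
`⟪u i, x_n / ‖x_n‖⟫ ≤ h' i / ‖x_n‖`). Then `x + t v ∈ PP u h` for all `t ≥ 0`: contradiction.
-/

namespace Pool.Agent.Helper65.PK

open MeasureTheory Module Set
open scoped ENNReal RealInnerProductSpace

/-- B0. Boundedness does not depend on the right-hand sides. -/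
theorem isBounded_PP {E : Type*} [NormedAddCommGroup E] [InnerProductSpace ℝ E]
    [FiniteDimensional ℝ E] {ι : Type} [Finite ι] {u : ι → E} {h : ι → ℝ}
    (hb : Bornology.IsBounded (PP u h)) (hne : (PP u h).Nonempty) (h' : ι → ℝ) :
    Bornology.IsBounded (PP u h') := by
  by_contra hub
  have hproper : ProperSpace E := FiniteDimensional.proper ℝ E
  -- points of large norm
  have h1 : ∀ n : ℕ, ∃ x ∈ PP u h', (n : ℝ) + 1 < ‖x‖ := by
    intro n
    by_contra hcon
    push Not at hcon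
    exact hub ((Metric.isBounded_iff_subset_closedBall (0 : E)).2
      ⟨(n : ℝ) + 1, fun x hx => by simpa using hcon x hx⟩)
  choose x hx hxn using h1
  have hxpos : ∀ n, 0 < ‖x n‖ := fun n => lt_of_le_of_lt (by positivity) (hxn n)
  -- a limit direction
  have hv : ∀ n, ‖x n‖⁻¹ • x n ∈ Metric.sphere (0 : E) 1 := by
    intro n
    rw [mem_sphere_zero_iff_norm, norm_smul, norm_inv, norm_norm,
      inv_mul_cancel₀ (hxpos n).ne']
  obtain ⟨v, hvs, φ, hφ, hlim⟩ := (isCompact_sphere (0 : E) 1).tendsto_subseq hv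
  have hv1 : ‖v‖ = 1 := mem_sphere_zero_iff_norm.1 hvs
  have hi : ∀ i, ⟪u i, v⟫ ≤ 0 := by
    intro i
    have h2 : Filter.Tendsto (fun n => ⟪u i, ‖x (φ n)‖⁻¹ • x (φ n)⟫) Filter.atTop
        (nhds ⟪u i, v⟫) := tendsto_const_nhds.inner hlim
    have h3 : Filter.Tendsto (fun n : ℕ => |h' i| / ((n : ℝ) + 1)) Filter.atTop (nhds 0) :=
      tendsto_const_div_atTop_nhds_zero_nat |h' i| |>.comp (Filter.tendsto_add_atTop_nat 1)
        |>.congr (fun n => by simp)
    refine le_of_tendsto_of_tendsto' h2 h3 fun n => ?_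
    have h4 : ⟪u i, x (φ n)⟫ ≤ h' i := hx (φ n) i
    rw [inner_smul_right, inv_mul_eq_div]
    have hn1 : (0 : ℝ) < (n : ℝ) + 1 := by positivity
    have h5 : (n : ℝ) + 1 ≤ ‖x (φ n)‖ := by
      have h6 : n ≤ φ n := hφ.id_le n
      have h7 : (n : ℝ) ≤ (φ n : ℝ) := by exact_mod_cast h6
      linarith [hxn (φ n)]
    calc ⟪u i, x (φ n)⟫ / ‖x (φ n)‖ ≤ |h' i| / ‖x (φ n)‖ := by
          exact div_le_div_of_nonneg_right (h4.trans (le_abs_self _)) (hxpos _).le
      _ ≤ |h' i| / ((n : ℝ) + 1) := div_le_div_of_nonneg_left (abs_nonneg _) hn1 h5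
  -- contradiction
  obtain ⟨y, hy⟩ := hne
  obtain ⟨C, hC⟩ := (Metric.isBounded_iff_subset_closedBall (0 : E)).1 hb
  have hyt : ∀ t : ℝ, 0 ≤ t → y + t • v ∈ PP u h := by
    intro t ht i
    have h8 : ⟪u i, y⟫ ≤ h i := hy i
    change ⟪u i, y + t • v⟫ ≤ h i
    rw [inner_add_right, inner_smul_right]
    nlinarith [mul_nonneg ht (neg_nonneg.2 (hi i))]
  have hCn : 0 ≤ C := by
    have := hC hy
    rw [mem_closedBall_zero_iff] at this
    exact (norm_nonneg _).trans this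
  have h9 := hC (hyt (C + ‖y‖ + 1) (by positivity))
  rw [mem_closedBall_zero_iff] at h9
  have h10 : ‖(C + ‖y‖ + 1) • v‖ ≤ ‖y + (C + ‖y‖ + 1) • v‖ + ‖y‖ := by
    have := norm_sub_le (y + (C + ‖y‖ + 1) • v) y
    rwa [add_sub_cancel_left] at this
  rw [norm_smul, hv1, mul_one, Real.norm_of_nonneg (by positivity)] at h10
  linarith

end Pool.Agent.Helper65.PK
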