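import Mathlib
import Pool.Agent.Helper40.EV.PL

/-!
# Project PK, piece B1

From `Pool.H40.EV.brunn_minkowski_rpow` (sets in `Fin m → ℝ`, transfer with
`EuclideanSpace.volume_preserving_measurableEquiv` or `EuclideanSpace.volume_preserving_symm_measurableEquiv_toLp`):
with `α = vol(A)^(1/n)`, `β = vol(B)^(1/n)`; if one is zero translate (A + B contains a translate of
A, as B is nonempty). Otherwise `t = β / (α + β)`, `A' = (1 - t)⁻¹ • A`, `B' = t⁻¹ • B`, both have
volume `(α + β)^n` and `(1 - t) A' + t B' = A + B` (`Measure.addHaar_smul`).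
-/

namespace Pool.Agent.Helper65.PK

open MeasureTheory Module Set
open scoped ENNReal RealInnerProductSpace

open scoped Pointwise in
/-- The multiplicative form, transferred to the Euclidean space. -/
theorem bm_aux {n : ℕ} {A B : Set (EuclideanSpace ℝ (Fin n))} (hA : IsCompact A)
    (hB : IsCompact B) {t : ℝ} (ht0 : 0 < t) (ht1 : t < 1) :
    volume A ^ (1 - t) * volume B ^ t ≤ volume ((1 - t) • A + t • B) := by
  have hgm : MeasurePreserving (@WithLp.toLp 2 (Fin n → ℝ)) := PiLp.volume_preserving_toLp (Fin n)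
  have hC : IsCompact ((1 - t) • A + t • B) := (hA.smul _).add (hB.smul _)
  have h := Pool.H40.EV.brunn_minkowski_rpow n t ht0 ht1 (@WithLp.toLp 2 (Fin n → ℝ) ⁻¹' A)
    (@WithLp.toLp 2 (Fin n → ℝ) ⁻¹' B) (@WithLp.toLp 2 (Fin n → ℝ) ⁻¹' ((1 - t) • A + t • B))
    (hgm.measurable hA.measurableSet) (hgm.measurable hB.measurableSet)
    (hgm.measurable hC.measurableSet)
    (fun a ha b hb => Set.add_mem_add (Set.smul_mem_smul_set ha) (Set.smul_mem_smul_set hb))
  rwa [hgm.measure_preimage hA.measurableSet.nullMeasurableSet,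
    hgm.measure_preimage hB.measurableSet.nullMeasurableSet,
    hgm.measure_preimage hC.measurableSet.nullMeasurableSet] at h

open scoped Pointwise in
theorem bm_translate {n : ℕ} {A B : Set (EuclideanSpace ℝ (Fin n))}
    (hA : IsCompact A) (hB : IsCompact B) (hA0 : A.Nonempty) :
    (volume B).toReal ≤ (volume (A + B)).toReal := by
  obtain ⟨a, ha⟩ := hA0
  have h1 : (fun x => a + x) '' B ⊆ A + B := by
    rintro _ ⟨b, hb, rfl⟩
    exact Set.add_mem_add ha hb
  have h2 : volume ((fun x => a + x) '' B) = volume B := by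
    rw [Set.image_add_left]
    exact measure_preimage_add _ _ _
  refine ENNReal.toReal_mono (hA.add hB).measure_lt_top.ne ?_
  rw [← h2]
  exact measure_mono h1

open scoped Pointwise in
/-- B1. The Brunn–Minkowski inequality. -/
theorem brunn_minkowski {n : ℕ} (hn : n ≠ 0) {A B : Set (EuclideanSpace ℝ (Fin n))}
    (hA : IsCompact A) (hB : IsCompact B) (hA0 : A.Nonempty) (hB0 : B.Nonempty) :
    ((volume A).toReal ^ (1 / (n : ℝ)) + (volume B).toReal ^ (1 / (n : ℝ))) ^ n ≤
      (volume (A + B)).toReal := by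
  have hn' : (n : ℝ) ≠ 0 := Nat.cast_ne_zero.2 hn
  have hroot : ∀ x : ℝ, 0 ≤ x → (x ^ (1 / (n : ℝ))) ^ n = x := by
    intro x hx
    rw [← Real.rpow_natCast, ← Real.rpow_mul hx, one_div, inv_mul_cancel₀ hn', Real.rpow_one]
  have hα := hroot (volume A).toReal ENNReal.toReal_nonneg
  have hβ := hroot (volume B).toReal ENNReal.toReal_nonneg
  have hα0 : 0 ≤ (volume A).toReal ^ (1 / (n : ℝ)) := Real.rpow_nonneg ENNReal.toReal_nonneg _
  have hβ0 : 0 ≤ (volume B).toReal ^ (1 / (n : ℝ)) := Real.rpow_nonneg ENNReal.toReal_nonneg _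
  generalize (volume A).toReal ^ (1 / (n : ℝ)) = α at hα hα0 ⊢
  generalize (volume B).toReal ^ (1 / (n : ℝ)) = β at hβ hβ0 ⊢
  rcases hα0.eq_or_lt with rfl | hαp
  · rw [zero_add, hβ]
    exact bm_translate hA hB hA0
  rcases hβ0.eq_or_lt with rfl | hβp
  · rw [add_zero, hα, add_comm A B]
    exact bm_translate hB hA hB0
  have hs : 0 < α + β := add_pos hαp hβp
  set t : ℝ := β / (α + β) with ht
  have ht0 : 0 < t := div_pos hβp hs
  have h1t : 1 - t = α / (α + β) := by
    rw [ht]; field_simp; ring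
  have h1t0 : 0 < 1 - t := h1t ▸ div_pos hαp hs
  have ht1 : t < 1 := by linarith
  have key := bm_aux (hA.smul (1 - t)⁻¹) (hB.smul t⁻¹) ht0 ht1
  rw [smul_smul, smul_smul, mul_inv_cancel₀ h1t0.ne', mul_inv_cancel₀ ht0.ne', one_smul,
    one_smul, Measure.addHaar_smul_of_nonneg _ (inv_nonneg.2 h1t0.le),
    Measure.addHaar_smul_of_nonneg _ (inv_nonneg.2 ht0.le), finrank_euclideanSpace_fin] at key
  have hvA : volume A = ENNReal.ofReal (α ^ n) := by
    rw [hα, ENNReal.ofReal_toReal hA.measure_lt_top.ne]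
  have hvB : volume B = ENNReal.ofReal (β ^ n) := by
    rw [hβ, ENNReal.ofReal_toReal hB.measure_lt_top.ne]
  have hA' : ENNReal.ofReal ((1 - t)⁻¹ ^ n) * volume A = ENNReal.ofReal ((α + β) ^ n) := by
    rw [hvA, ← ENNReal.ofReal_mul (by positivity), ← mul_pow, h1t]
    congr 2
    field_simp
  have hB' : ENNReal.ofReal (t⁻¹ ^ n) * volume B = ENNReal.ofReal ((α + β) ^ n) := by
    rw [hvB, ← ENNReal.ofReal_mul (by positivity), ← mul_pow, ht]
    congr 2
    field_simp
  rw [hA', hB', ← ENNReal.rpow_add_of_nonneg _ _ h1t0.le ht0.le, sub_add_cancel,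
    ENNReal.rpow_one] at key
  exact (ENNReal.ofReal_le_iff_le_toReal (hA.add hB).measure_lt_top.ne).1 key

end Pool.Agent.Helper65.PK
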