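import Pool.Agent.Helper65.PK.P.B2a

/-!
# Project PK, piece B2

From B2a. `PP u (h + μ k) \ PP u h ⊆ ⋃ i, {x ∈ PP u (h + μ k) | h i < ⟪u i, x⟫}`; by
`Helper75.lintegral_slice_full` (with `v = u i`, norm one; `μHE[finrank]` is the volume,
see `Helper75` Shadow/Slice for the lemma `euclideanHausdorffMeasure_eq_volume` or similar) the
volume of the `i`-th set is `∫⁻ s in (h i, h i + μ k i]`, section at `s`
`≤ μ k i (μHE[m] (FF u h i) + ε')`. Everything is finite (boundedness; `Helper75.measure_flat_lt_top`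
or the comparison with B2a).
-/

namespace Pool.Agent.Helper65.PK

open MeasureTheory Module Set
open scoped ENNReal RealInnerProductSpace

theorem b2_ne_zero {E : Type*} [NormedAddCommGroup E] {v : E} (hv : ‖v‖ = 1) : v ≠ 0 := by
  intro e
  rw [e, norm_zero] at hv
  norm_num at hv

/-- the faces have finite measure. -/
theorem b2_finite {m : ℕ} {ι : Type}
    {u : ι → EuclideanSpace ℝ (Fin (m + 1))} {h : ι → ℝ} (hu : ∀ i, ‖u i‖ = 1)
    (hb : Bornology.IsBounded (PP u h)) (i : ι) : μHE[m] (FF u h i) < ⊤ := by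
  have hfr : finrank ℝ (EuclideanSpace ℝ (Fin (m + 1))) - 1 = m := by simp
  have h1 := Helper75.slice_eq_section (b2_ne_zero (hu i)) (PP u h) (h i)
  rw [hfr, ← FF_eq] at h1
  rw [h1]
  refine Bornology.IsBounded.measure_lt_top ?_
  obtain ⟨C, hC⟩ := hb.exists_norm_le
  rw [isBounded_iff_forall_norm_le]
  refine ⟨C + ‖(h i / ‖u i‖ ^ 2) • u i‖, fun w hw => ?_⟩
  have h2 := hC _ hw
  have h3 : ((w : EuclideanSpace ℝ (Fin (m + 1)))) =
      ((h i / ‖u i‖ ^ 2) • u i + (w : EuclideanSpace ℝ (Fin (m + 1)))) -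
        (h i / ‖u i‖ ^ 2) • u i := by abel
  calc ‖w‖ = ‖(w : EuclideanSpace ℝ (Fin (m + 1)))‖ := rfl
    _ ≤ _ := by
      rw [h3]
      exact (norm_sub_le _ _).trans (by linarith)

/-- the volume of a slab with small sections. -/
theorem b2_slab {m : ℕ} {ι : Type} {u : ι → EuclideanSpace ℝ (Fin (m + 1))} {h' : ι → ℝ}
    (hu : ∀ i, ‖u i‖ = 1) (i : ι) (a : ℝ) (M : ℝ≥0∞)
    (hM : ∀ s : ℝ, a ≤ s → s ≤ h' i → μHE[m] (PP u h' ∩ Helper75.hyp (u i) s) ≤ M) :
    volume {x | x ∈ PP u h' ∧ a < ⟪u i, x⟫} ≤ M * ENNReal.ofReal (h' i - a) := by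
  have hv := b2_ne_zero (hu i)
  have hfr : finrank ℝ (EuclideanSpace ℝ (Fin (m + 1))) - 1 = m := by simp
  have ht : MeasurableSet {x | x ∈ PP u h' ∧ a < ⟪u i, x⟫} := by
    have h1 : MeasurableSet {x : EuclideanSpace ℝ (Fin (m + 1)) | a < ⟪u i, x⟫} :=
      measurableSet_lt measurable_const (by fun_prop)
    exact (isClosed_PP u h').measurableSet.inter h1
  have h1 := Helper75.lintegral_slice_full hv ht
  rw [hfr, InnerProductSpace.euclideanHausdorffMeasure_eq_volume, ← ofReal_norm, hu i,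
    ENNReal.ofReal_one, one_mul] at h1
  rw [← h1]
  calc ∫⁻ s : ℝ, μHE[m] ({x | x ∈ PP u h' ∧ a < ⟪u i, x⟫} ∩ Helper75.hyp (u i) s) ≤
      ∫⁻ s : ℝ, (Ioc a (h' i)).indicator (fun _ => M) s := by
        refine lintegral_mono fun s => ?_
        by_cases hs : s ∈ Ioc a (h' i)
        · rw [indicator_of_mem hs]
          refine (measure_mono ?_).trans (hM s hs.1.le hs.2)
          exact inter_subset_inter_left _ fun x hx => hx.1
        · rw [indicator_of_notMem hs]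
          have : {x | x ∈ PP u h' ∧ a < ⟪u i, x⟫} ∩ Helper75.hyp (u i) s = ∅ := by
            rw [eq_empty_iff_forall_notMem]
            rintro x ⟨⟨hx1, hx2⟩, hx3⟩
            rw [Helper75.mem_hyp] at hx3
            exact hs ⟨by rw [← hx3]; exact hx2, by rw [← hx3]; exact hx1 i⟩
          rw [this, measure_empty]
    _ = M * ENNReal.ofReal (h' i - a) := by
        rw [lintegral_indicator_const measurableSet_Ioc, Real.volume_Ioc]

/-- B2. The volume of an outer parallel polytope. -/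
theorem outer_le {m : ℕ} {ι : Type} [Fintype ι]
    {u : ι → EuclideanSpace ℝ (Fin (m + 1))} {h k : ι → ℝ} (hu : ∀ i, ‖u i‖ = 1)
    (hb : Bornology.IsBounded (PP u h)) (hne : (PP u h).Nonempty) (hk : ∀ i, 0 ≤ k i)
    {ε : ℝ} (hε : 0 < ε) : ∃ μ₀ : ℝ, 0 < μ₀ ∧ ∀ μ : ℝ, 0 < μ → μ ≤ μ₀ →
      (volume (PP u fun j => h j + μ * k j)).toReal ≤
        (volume (PP u h)).toReal + μ * (∑ i, k i * ar m (FF u h i) + ε) := by
  have hK : 0 ≤ ∑ i, k i := Finset.sum_nonneg fun i _ => hk i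
  set ε' : ℝ := ε / (1 + ∑ i, k i) with hε'
  have hε'0 : 0 < ε' := by positivity
  have hsum : (∑ i, k i) * ε' ≤ ε := by
    rw [hε', mul_div_assoc', div_le_iff₀ (by positivity)]
    nlinarith
  choose μi hμi0 hμi using fun i => section_le hu hb hne hk i hε'0
  obtain ⟨μ₀, hμ₀, hle⟩ : ∃ μ₀ : ℝ, 0 < μ₀ ∧ ∀ i, μ₀ ≤ μi i := by
    rcases isEmpty_or_nonempty ι with hι | hι
    · exact ⟨1, one_pos, fun i => (hι.false i).elim⟩
    · refine ⟨Finset.univ.inf' Finset.univ_nonempty μi, ?_, fun i => ?_⟩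
      · rw [Finset.lt_inf'_iff]
        exact fun i _ => hμi0 i
      · exact Finset.inf'_le _ (Finset.mem_univ i)
  refine ⟨μ₀, hμ₀, fun μ hμ hμle => ?_⟩
  have hcov : PP u (fun j => h j + μ * k j) ⊆ PP u h ∪
      ⋃ i, {x | x ∈ PP u (fun j => h j + μ * k j) ∧ h i < ⟪u i, x⟫} := by
    intro x hx
    by_cases hxh : x ∈ PP u h
    · exact Or.inl hxh
    · right
      rw [mem_PP, not_forall] at hxh
      obtain ⟨i, hi⟩ := hxh
      exact mem_iUnion.2 ⟨i, hx, not_le.1 hi⟩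
  have hvol : volume (PP u fun j => h j + μ * k j) ≤ volume (PP u h) +
      ∑ i, (μHE[m] (FF u h i) + ENNReal.ofReal ε') * ENNReal.ofReal (μ * k i) := by
    refine (measure_mono hcov).trans ((measure_union_le _ _).trans (add_le_add le_rfl ?_))
    refine (measure_iUnion_fintype_le _ _).trans (Finset.sum_le_sum fun i _ => ?_)
    have h1 := b2_slab (h' := fun j => h j + μ * k j) hu i (h i)
      (μHE[m] (FF u h i) + ENNReal.ofReal ε')
      (fun s hs1 hs2 => hμi i μ hμ (hμle.trans (hle i)) s hs1 hs2)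
    simpa using h1
  have hfin1 : volume (PP u h) ≠ ⊤ := hb.measure_lt_top.ne
  have hfin2 : ∀ i, μHE[m] (FF u h i) ≠ ⊤ := fun i => (b2_finite hu hb i).ne
  have hterm : ∀ i, (μHE[m] (FF u h i) + ENNReal.ofReal ε') * ENNReal.ofReal (μ * k i) ≠ ⊤ :=
    fun i => ENNReal.mul_ne_top (ENNReal.add_ne_top.2 ⟨hfin2 i, ENNReal.ofReal_ne_top⟩)
      ENNReal.ofReal_ne_top
  have hsumfin : ∑ i, (μHE[m] (FF u h i) + ENNReal.ofReal ε') * ENNReal.ofReal (μ * k i) ≠ ⊤ :=
    (ENNReal.sum_lt_top.2 fun i _ => (hterm i).lt_top).ne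
  have h2 := ENNReal.toReal_mono (ENNReal.add_ne_top.2 ⟨hfin1, hsumfin⟩) hvol
  refine h2.trans ?_
  rw [ENNReal.toReal_add hfin1 hsumfin, ENNReal.toReal_sum fun i _ => hterm i]
  refine add_le_add le_rfl ?_
  have h3 : ∀ i, ((μHE[m] (FF u h i) + ENNReal.ofReal ε') * ENNReal.ofReal (μ * k i)).toReal =
      μ * (k i * ar m (FF u h i)) + μ * (k i * ε') := by
    intro i
    rw [ENNReal.toReal_mul, ENNReal.toReal_add (hfin2 i) ENNReal.ofReal_ne_top,
      ENNReal.toReal_ofReal hε'0.le, ENNReal.toReal_ofReal (mul_nonneg hμ.le (hk i))]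
    unfold ar
    ring
  simp_rw [h3]
  rw [Finset.sum_add_distrib, ← Finset.mul_sum, ← Finset.mul_sum, ← Finset.sum_mul, mul_add]
  exact add_le_add le_rfl (mul_le_mul_of_nonneg_left hsum hμ.le)

end Pool.Agent.Helper65.PK
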