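import Mathlib
import Pool.Agent.Helper65.PK.P.B0
import Pool.Agent.Helper65.PK.Basic
import Pool.Agent.Helper75.Slice

/-!
# Project PK, piece B2a

The sections `P_μ ∩ hyp (u i) s`, `s ∈ [h i, h i + μ k i]`, seen in `(ℝ ∙ u i)ᗮ`
(`Helper75.slice_eq_section`), lie in the compact sets
`G_μ = {w : (ℝ ∙ u i)ᗮ | ∃ s ∈ [h i, h i + μ k i], s • u i + w ∈ PP u (h + μ k)}`, which decrease
with `μ` and intersect in the section of `PP u h` at `h i`. So `volume (G_μ)` tends to the volume of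
that section (`tendsto_measure_iInter_atTop` along `μ = 1/n`, compactness, B0).
`finrank ℝ (EuclideanSpace ℝ (Fin (m+1))) - 1 = m` by simp.
-/

namespace Pool.Agent.Helper65.PK

open MeasureTheory Module Set
open scoped ENNReal RealInnerProductSpace

/-- B2a. The sections near a facet are not much larger than the facet. -/
theorem section_le {m : ℕ} {ι : Type} [Fintype ι]
    {u : ι → EuclideanSpace ℝ (Fin (m + 1))} {h k : ι → ℝ} (hu : ∀ i, ‖u i‖ = 1)
    (hb : Bornology.IsBounded (PP u h)) (hne : (PP u h).Nonempty) (hk : ∀ i, 0 ≤ k i) (i : ι)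
    {ε : ℝ} (hε : 0 < ε) : ∃ μ₀ : ℝ, 0 < μ₀ ∧ ∀ μ : ℝ, 0 < μ → μ ≤ μ₀ →
      ∀ s : ℝ, h i ≤ s → s ≤ h i + μ * k i →
        μHE[m] (PP u (fun j => h j + μ * k j) ∩ Helper75.hyp (u i) s) ≤
          μHE[m] (FF u h i) + ENNReal.ofReal ε := by
  classical
  have hv : u i ≠ 0 := by
    intro h0
    have := hu i
    rw [h0, norm_zero] at this
    exact zero_ne_one this
  have hfin : finrank ℝ (EuclideanSpace ℝ (Fin (m + 1))) - 1 = m := by simp
  have hslice : ∀ (t : Set (EuclideanSpace ℝ (Fin (m + 1)))) (s : ℝ),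
      μHE[m] (t ∩ Helper75.hyp (u i) s) =
        (volume : Measure (ℝ ∙ u i)ᗮ) {w | s • u i + (w : EuclideanSpace ℝ (Fin (m + 1))) ∈ t} := by
    intro t s
    have h1 := Helper75.slice_eq_section hv t s
    rw [hfin, hu i, one_pow, div_one] at h1
    exact h1
  have horth : ∀ w : (ℝ ∙ u i)ᗮ, ⟪u i, (w : EuclideanSpace ℝ (Fin (m + 1)))⟫ = 0 := fun w =>
    (Submodule.mem_orthogonal_singleton_iff_inner_right).1 w.2
  have hin : ∀ (s : ℝ) (w : (ℝ ∙ u i)ᗮ),
      ⟪u i, s • u i + (w : EuclideanSpace ℝ (Fin (m + 1)))⟫ = s := by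
    intro s w
    rw [inner_add_right, horth w, inner_smul_right, real_inner_self_eq_norm_sq, hu i]
    ring
  let KK : ℝ → Set (ℝ × (ℝ ∙ u i)ᗮ) := fun μ =>
    {q | h i ≤ q.1 ∧ q.1 • u i + (q.2 : EuclideanSpace ℝ (Fin (m + 1))) ∈
      PP u (fun j => h j + μ * k j)}
  have hmono : ∀ μ ν : ℝ, μ ≤ ν → KK μ ⊆ KK ν := by
    intro μ ν hμν q hq
    refine ⟨hq.1, fun j => (hq.2 j).trans ?_⟩
    have := mul_le_mul_of_nonneg_right hμν (hk j)
    linarith
  have hcomp : ∀ μ : ℝ, IsCompact (KK μ) := by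
    intro μ
    have hbμ := isBounded_PP hb hne (fun j => h j + μ * k j)
    obtain ⟨R, hR⟩ := hbμ.exists_norm_le
    refine Metric.isCompact_of_isClosed_isBounded ?_ ?_
    · have hc : Continuous fun q : ℝ × (ℝ ∙ u i)ᗮ =>
          q.1 • u i + (q.2 : EuclideanSpace ℝ (Fin (m + 1))) := by fun_prop
      exact (isClosed_le continuous_const continuous_fst).inter ((isClosed_PP u _).preimage hc)
    · refine (isBounded_iff_forall_norm_le).2 ⟨R, fun q hq => ?_⟩
      have h1 := hR _ hq.2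
      have h2 : ‖q.1 • u i + (q.2 : EuclideanSpace ℝ (Fin (m + 1)))‖ ^ 2 =
          q.1 ^ 2 + ‖q.2‖ ^ 2 := by
        rw [norm_add_sq_real, inner_smul_left, horth q.2, norm_smul, hu i, mul_pow,
          Real.norm_eq_abs, sq_abs]
        simp
      have h0 : 0 ≤ ‖q.1 • u i + (q.2 : EuclideanSpace ℝ (Fin (m + 1)))‖ := norm_nonneg _
      rw [Prod.norm_def]
      refine max_le ?_ ?_
      · rw [Real.norm_eq_abs]
        refine (abs_le_of_sq_le_sq ?_ h0).trans h1
        nlinarith [sq_nonneg ‖q.2‖]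
      · refine (abs_le_of_sq_le_sq' ?_ h0).2.trans h1
        nlinarith [sq_nonneg q.1]
  let G : ℕ → Set (ℝ ∙ u i)ᗮ := fun n => Prod.snd '' KK (1 / ((n : ℝ) + 1))
  have hstep : ∀ {a b : ℕ}, a ≤ b → (1 : ℝ) / ((b : ℝ) + 1) ≤ 1 / ((a : ℝ) + 1) := fun hab =>
    Nat.one_div_le_one_div hab
  have hGanti : Antitone G := fun a b hab => image_mono (hmono _ _ (hstep hab))
  have hGc : ∀ n, IsCompact (G n) := fun n => (hcomp _).image continuous_snd
  have hinter : (⋂ n, G n) ⊆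
      {w | h i • u i + (w : EuclideanSpace ℝ (Fin (m + 1))) ∈ PP u h} := by
    intro w hw
    have hw' : ∀ n, w ∈ G n := fun n => mem_iInter.1 hw n
    have hne' : (⋂ n : ℕ, KK (1 / ((n : ℝ) + 1)) ∩ (univ ×ˢ {w})).Nonempty := by
      refine IsCompact.nonempty_iInter_of_sequence_nonempty_isCompact_isClosed _ ?_ ?_ ?_ ?_
      · intro n
        exact inter_subset_inter_left _ (hmono _ _ (hstep n.le_succ))
      · intro n
        obtain ⟨q, hq, hqw⟩ := hw' n
        exact ⟨q, hq, mem_univ _, hqw⟩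
      · exact (hcomp _).inter_right (isClosed_univ.prod isClosed_singleton)
      · intro n
        exact ((hcomp _).isClosed).inter (isClosed_univ.prod isClosed_singleton)
    obtain ⟨q, hq⟩ := hne'
    have hq' : ∀ n : ℕ, q ∈ KK (1 / ((n : ℝ) + 1)) ∩ (univ ×ˢ {w}) := fun n => mem_iInter.1 hq n
    have hqw : q.2 = w := (hq' 0).2.2
    have hlim : q.1 • u i + (q.2 : EuclideanSpace ℝ (Fin (m + 1))) ∈ PP u h := by
      intro j
      have h1 : ∀ n : ℕ, ⟪u j, q.1 • u i + (q.2 : EuclideanSpace ℝ (Fin (m + 1)))⟫ ≤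
          h j + 1 / ((n : ℝ) + 1) * k j := fun n => (hq' n).1.2 j
      have h2 : Filter.Tendsto (fun n : ℕ => h j + 1 / ((n : ℝ) + 1) * k j) Filter.atTop
          (nhds (h j + 0 * k j)) :=
        (tendsto_one_div_add_atTop_nhds_zero_nat.mul_const (k j)).const_add (h j)
      have h3 := ge_of_tendsto' h2 h1
      linarith
    have hq1 : q.1 = h i := by
      refine le_antisymm ?_ (hq' 0).1.1
      have h1 := hlim i
      rwa [hin] at h1
    change h i • u i + (w : EuclideanSpace ℝ (Fin (m + 1))) ∈ PP u h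
    rw [← hq1, ← hqw]
    exact hlim
  have hfinite : (volume : Measure (ℝ ∙ u i)ᗮ) (⋂ n, G n) ≠ ∞ :=
    ne_top_of_le_ne_top (hGc 0).measure_ne_top (measure_mono (iInter_subset G 0))
  have htend := tendsto_measure_iInter_atTop (μ := (volume : Measure (ℝ ∙ u i)ᗮ)) (s := G)
    (fun n => (hGc n).measurableSet.nullMeasurableSet) hGanti ⟨0, (hGc 0).measure_ne_top⟩
  have hlt : (volume : Measure (ℝ ∙ u i)ᗮ) (⋂ n, G n) <
      (volume : Measure (ℝ ∙ u i)ᗮ) (⋂ n, G n) + ENNReal.ofReal ε :=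
    ENNReal.lt_add_right hfinite (by simpa using hε)
  obtain ⟨n, hn⟩ := (htend.eventually_lt_const hlt).exists
  refine ⟨1 / ((n : ℝ) + 1), by positivity, ?_⟩
  intro μ hμ hμn s hs _
  rw [hslice, FF_eq, hslice]
  refine le_trans (b := (volume : Measure (ℝ ∙ u i)ᗮ) (G n)) ?_ ?_
  · refine measure_mono fun w hw => ?_
    exact ⟨(s, w), hmono _ _ hμn ⟨hs, hw⟩, rfl⟩
  · refine hn.le.trans ?_
    gcongr

end Pool.Agent.Helper65.PK
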