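import Pool.Agent.Helper65.PK.P.B1
import Pool.Agent.Helper65.PK.P.B2

/-!
# Project PK, piece B3

From B1, B2, B0. `PP u h + μ • K ⊆ PP u (h + μ k)`, so with `α = vol(P)^(1/n)`, `β = vol(K)^(1/n)`,
`n = m + 1`: `(α + μ β)^n ≤ α^n + μ (Σ k_i A_i + ε)` for small `μ`, and
`(α + μ β)^n ≥ α^n + n μ α^(n-1) β`; so `n α^(n-1) β ≤ Σ k_i A_i + ε` for every `ε > 0`; take the
`n`-th power.
-/

namespace Pool.Agent.Helper65.PK

open MeasureTheory Module Set
open scoped ENNReal RealInnerProductSpace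

/-- The first two terms of the binomial formula. -/
theorem binom_two {a b : ℝ} (ha : 0 ≤ a) (hb : 0 ≤ b) (m : ℕ) :
    a ^ (m + 1) + ((m : ℝ) + 1) * a ^ m * b ≤ (a + b) ^ (m + 1) := by
  induction m with
  | zero => simp
  | succ m ih =>
    have h1 := mul_le_mul_of_nonneg_right ih (add_nonneg ha hb)
    rw [← pow_succ] at h1
    refine le_trans ?_ h1
    have h2 : 0 ≤ ((m : ℝ) + 1) * a ^ m * b * b := by positivity
    push_cast
    rw [pow_succ a (m + 1), pow_succ a m]
    nlinarith [h2]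

open scoped Pointwise in
/-- The Minkowski sum with a small multiple of a body is contained in the outer polytope. -/
theorem add_smul_subset {E : Type*} [NormedAddCommGroup E] [InnerProductSpace ℝ E] {ι : Type}
    {u : ι → E} {h k : ι → ℝ} {K : Set E} (hKk : K ⊆ PP u k) {μ : ℝ} (hμ : 0 < μ) :
    PP u h + μ • K ⊆ PP u (fun j => h j + μ * k j) := by
  intro x hx
  obtain ⟨a, ha, b, hb, rfl⟩ := Set.mem_add.mp hx
  obtain ⟨c, hc, rfl⟩ := Set.mem_smul_set.mp hb
  intro i
  rw [inner_add_right, inner_smul_right]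
  exact add_le_add (ha i) (mul_le_mul_of_nonneg_left (hKk hc i) hμ.le)

open scoped Pointwise in
/-- B3. Minkowski's first inequality for a polytope. -/
theorem minkowski {m : ℕ} {ι : Type} [Fintype ι]
    {u : ι → EuclideanSpace ℝ (Fin (m + 1))} {h k : ι → ℝ} (hu : ∀ i, ‖u i‖ = 1)
    (hb : Bornology.IsBounded (PP u h)) (hne : (PP u h).Nonempty) (hk : ∀ i, 0 ≤ k i)
    {K : Set (EuclideanSpace ℝ (Fin (m + 1)))} (hK : IsCompact K) (hK0 : K.Nonempty)
    (hKk : K ⊆ PP u k) :
    ((m : ℝ) + 1) ^ (m + 1) * (volume (PP u h)).toReal ^ m * (volume K).toReal ≤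
      (∑ i, k i * ar m (FF u h i)) ^ (m + 1) := by
  have hP : IsCompact (PP u h) := isCompact_PP hb
  set V : ℝ := (volume (PP u h)).toReal with hV
  set W : ℝ := (volume K).toReal with hW
  set D : ℝ := ∑ i, k i * ar m (FF u h i) with hD
  have hV0 : 0 ≤ V := ENNReal.toReal_nonneg
  have hW0 : 0 ≤ W := ENNReal.toReal_nonneg
  have hD0 : 0 ≤ D := Finset.sum_nonneg fun i _ => mul_nonneg (hk i) (ar_nonneg _ _)
  set e : ℝ := 1 / ((m + 1 : ℕ) : ℝ) with he
  have hmne : ((m + 1 : ℕ) : ℝ) ≠ 0 := by positivity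
  set α : ℝ := V ^ e with hα
  set β : ℝ := W ^ e with hβ
  have hα0 : 0 ≤ α := Real.rpow_nonneg hV0 _
  have hβ0 : 0 ≤ β := Real.rpow_nonneg hW0 _
  have hpow : ∀ y : ℝ, 0 ≤ y → (y ^ e) ^ (m + 1) = y := by
    intro y hy
    rw [he, one_div]
    exact Real.rpow_inv_natCast_pow hy (Nat.succ_ne_zero m)
  have hαn : α ^ (m + 1) = V := hpow V hV0
  have hβn : β ^ (m + 1) = W := hpow W hW0
  have key : ∀ ε : ℝ, 0 < ε → ((m : ℝ) + 1) * α ^ m * β ≤ D + ε := by
    intro ε hε
    obtain ⟨μ, hμ, hmu⟩ := outer_le (k := k) hu hb hne hk hε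
    have h1 := hmu μ hμ le_rfl
    have hμK : IsCompact (μ • K) := hK.smul μ
    have hμK0 : (μ • K).Nonempty := hK0.smul_set
    have h2 := brunn_minkowski (Nat.succ_ne_zero m) hP hμK hne hμK0
    have hvolμ : (volume (μ • K)).toReal = μ ^ (m + 1) * W := by
      rw [Measure.addHaar_smul, ENNReal.toReal_mul, finrank_euclideanSpace_fin,
        ENNReal.toReal_ofReal (abs_nonneg _), abs_of_pos (pow_pos hμ _)]
    have hroot : (volume (μ • K)).toReal ^ e = μ * β := by
      rw [hvolμ, Real.mul_rpow (pow_nonneg hμ.le _) hW0, he, one_div,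
        Real.pow_rpow_inv_natCast hμ.le (Nat.succ_ne_zero m), hβ, he, one_div]
    have h3 : (volume (PP u h + μ • K)).toReal ≤
        (volume (PP u fun j => h j + μ * k j)).toReal := by
      apply ENNReal.toReal_mono
      · have hbd := isBounded_PP hb hne (fun j => h j + μ * k j)
        exact hbd.measure_lt_top.ne
      · exact measure_mono (add_smul_subset hKk hμ)
    have h4 : (α + μ * β) ^ (m + 1) ≤ V + μ * (D + ε) := by
      have h2' : (α + μ * β) ^ (m + 1) ≤ (volume (PP u h + μ • K)).toReal := by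
        have := h2
        rw [← he, hroot] at this
        exact this
      exact h2'.trans (h3.trans h1)
    have h5 := binom_two hα0 (mul_nonneg hμ.le hβ0) m
    have h6 : μ * (((m : ℝ) + 1) * α ^ m * β) ≤ μ * (D + ε) := by
      have : α ^ (m + 1) + ((m : ℝ) + 1) * α ^ m * (μ * β) ≤ V + μ * (D + ε) := h5.trans h4
      rw [hαn] at this
      linarith [this]
    exact le_of_mul_le_mul_left h6 hμ
  have h7 : ((m : ℝ) + 1) * α ^ m * β ≤ D := le_of_forall_pos_le_add key
  have h8 : (((m : ℝ) + 1) * α ^ m * β) ^ (m + 1) ≤ D ^ (m + 1) :=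
    pow_le_pow_left₀ (by positivity) h7 _
  calc ((m : ℝ) + 1) ^ (m + 1) * V ^ m * W
      = (((m : ℝ) + 1) * α ^ m * β) ^ (m + 1) := by
        rw [mul_pow, mul_pow, hβn, ← pow_mul, mul_comm m (m + 1), pow_mul, hαn]
    _ ≤ D ^ (m + 1) := h8

end Pool.Agent.Helper65.PK
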