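import Mathlib
import Pool.Agent.Helper65.PK.Defs

/-!
# Project PK, piece C2

A circular segment. Rotate so that `ν = e_0` (a linear isometry of `E2` preserves volume), then
Fubini (`EuclideanSpace ℝ (Fin 2)` ≃ `ℝ × ℝ`, or `Helper75.lintegral_slice_full` with `v = ν`: the
slice at height `s` is a segment of length `2 √(r² - s²)`): the area is
`∫ s in r cos θ..r, 2 √(r² - s²)`, with primitive `s √(r² - s²) + r² arcsin (s / r)`, and
`arcsin (cos θ) = π/2 - θ`.
-/

namespace Pool.Agent.Helper65.PK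

open MeasureTheory Module Set
open scoped ENNReal RealInnerProductSpace

/-- the primitive of `2 √(r² - x²)` -/
theorem hasDerivAt_prim {r x : ℝ} (hr : 0 < r) (h1 : -r < x) (h2 : x < r) :
    HasDerivAt (fun x => x * √(r ^ 2 - x ^ 2) + r ^ 2 * Real.arcsin (x / r))
      (2 * √(r ^ 2 - x ^ 2)) x := by
  have hpos : 0 < r ^ 2 - x ^ 2 := by nlinarith
  have hs : 0 < √(r ^ 2 - x ^ 2) := Real.sqrt_pos.2 hpos
  have hsq : √(r ^ 2 - x ^ 2) ^ 2 = r ^ 2 - x ^ 2 := Real.sq_sqrt hpos.le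
  have d1 : HasDerivAt (fun x : ℝ => r ^ 2 - x ^ 2) (-(2 * x)) x := by
    have := (hasDerivAt_pow 2 x).const_sub (r ^ 2)
    simpa using this
  have d2 := d1.sqrt hpos.ne'
  have d3 := (hasDerivAt_id x).mul d2
  have d4 : HasDerivAt (fun x : ℝ => x / r) (1 / r) x := (hasDerivAt_id x).div_const r
  have hne1 : x / r ≠ -1 := by
    intro h
    rw [div_eq_iff hr.ne'] at h
    linarith
  have hne2 : x / r ≠ 1 := by
    intro h
    rw [div_eq_iff hr.ne'] at h
    linarith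
  have d5 := ((Real.hasDerivAt_arcsin hne1 hne2).comp x d4).const_mul (r ^ 2)
  have d6 := d3.add d5
  have e1 : √(1 - (x / r) ^ 2) = √(r ^ 2 - x ^ 2) / r := by
    rw [show 1 - (x / r) ^ 2 = (r ^ 2 - x ^ 2) / r ^ 2 by field_simp, Real.sqrt_div' _ (sq_nonneg r),
      Real.sqrt_sq hr.le]
  refine d6.congr_deriv ?_
  rw [e1]
  simp only [id]
  field_simp
  rw [hsq]
  ring

theorem integral_seg {r θ : ℝ} (hr : 0 < r) (h0 : 0 < θ) (h1 : θ < Real.pi / 2) :
    ∫ x in (r * Real.cos θ)..r, 2 * √(r ^ 2 - x ^ 2) =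
      r ^ 2 * (θ - Real.sin θ * Real.cos θ) := by
  have hc0 : 0 < Real.cos θ := Real.cos_pos_of_mem_Ioo ⟨by linarith [Real.pi_pos], h1⟩
  have hc1 : Real.cos θ ≤ 1 := Real.cos_le_one θ
  have hs0 : 0 < Real.sin θ := Real.sin_pos_of_pos_of_lt_pi h0 (by linarith [Real.pi_pos])
  have hle : r * Real.cos θ ≤ r := by nlinarith
  have hcont : Continuous (fun x : ℝ => x * √(r ^ 2 - x ^ 2) + r ^ 2 * Real.arcsin (x / r)) := by
    fun_prop
  have hint : IntervalIntegrable (fun x : ℝ => 2 * √(r ^ 2 - x ^ 2)) volume (r * Real.cos θ) r :=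
    Continuous.intervalIntegrable (by fun_prop) _ _
  have key := intervalIntegral.integral_eq_sub_of_hasDerivAt_of_le hle hcont.continuousOn
    (fun x hx => hasDerivAt_prim hr (by nlinarith [hx.1]) hx.2) hint
  rw [key]
  have e1 : √(r ^ 2 - r ^ 2) = 0 := by simp
  have e2 : r / r = 1 := div_self hr.ne'
  have e3 : √(r ^ 2 - (r * Real.cos θ) ^ 2) = r * Real.sin θ := by
    rw [show r ^ 2 - (r * Real.cos θ) ^ 2 = (r * Real.sin θ) ^ 2 by
      nlinarith [Real.sin_sq_add_cos_sq θ], Real.sqrt_sq (by positivity)]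
  have e4 : Real.arcsin (r * Real.cos θ / r) = Real.pi / 2 - θ := by
    rw [mul_div_cancel_left₀ _ hr.ne', ← Real.sin_pi_div_two_sub,
      Real.arcsin_sin (by linarith) (by linarith)]
  rw [e1, e2, e3, e4, Real.arcsin_one]
  ring

/-- the segment in `ℝ × ℝ` -/
theorem volume_seg_prod {r θ : ℝ} (hr : 0 < r) (h0 : 0 < θ) (h1 : θ < Real.pi / 2) :
    volume {q : ℝ × ℝ | q.1 ^ 2 + q.2 ^ 2 ≤ r ^ 2 ∧ r * Real.cos θ < q.1} ≤
      ENNReal.ofReal (r ^ 2 * (θ - Real.sin θ * Real.cos θ)) := by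
  have hc1 : Real.cos θ ≤ 1 := Real.cos_le_one θ
  have hle : r * Real.cos θ ≤ r := by nlinarith
  have hm : MeasurableSet {q : ℝ × ℝ | q.1 ^ 2 + q.2 ^ 2 ≤ r ^ 2 ∧ r * Real.cos θ < q.1} := by
    apply MeasurableSet.inter
    · exact measurableSet_le (f := fun q : ℝ × ℝ => q.1 ^ 2 + q.2 ^ 2) (g := fun _ => r ^ 2)
        (by fun_prop) (by fun_prop)
    · exact measurableSet_lt (f := fun _ : ℝ × ℝ => r * Real.cos θ) (g := fun q => q.1)
        (by fun_prop) (by fun_prop)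
  rw [Measure.volume_eq_prod, Measure.prod_apply hm]
  have hsl : ∀ x : ℝ, volume (Prod.mk x ⁻¹' {q : ℝ × ℝ | q.1 ^ 2 + q.2 ^ 2 ≤ r ^ 2 ∧
      r * Real.cos θ < q.1}) ≤
      (Ioc (r * Real.cos θ) r).indicator (fun x => ENNReal.ofReal (2 * √(r ^ 2 - x ^ 2))) x := by
    intro x
    by_cases hx : x ∈ Ioc (r * Real.cos θ) r
    · rw [indicator_of_mem hx]
      have hsub : (Prod.mk x ⁻¹' {q : ℝ × ℝ | q.1 ^ 2 + q.2 ^ 2 ≤ r ^ 2 ∧
          r * Real.cos θ < q.1}) ⊆ Icc (-√(r ^ 2 - x ^ 2)) (√(r ^ 2 - x ^ 2)) := by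
        rintro y ⟨hy, -⟩
        simp only at hy
        have h2 : |y| ≤ √(r ^ 2 - x ^ 2) := by
          apply Real.abs_le_sqrt
          linarith
        exact abs_le.1 h2
      refine (measure_mono hsub).trans ?_
      rw [Real.volume_Icc]
      apply ENNReal.ofReal_le_ofReal
      linarith
    · rw [indicator_of_notMem hx]
      have hemp : (Prod.mk x ⁻¹' {q : ℝ × ℝ | q.1 ^ 2 + q.2 ^ 2 ≤ r ^ 2 ∧
          r * Real.cos θ < q.1}) = ∅ := by
        ext y
        simp only [mem_preimage, mem_ofPred_eq, mem_empty_iff_false, iff_false]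
        rintro ⟨hy, hx'⟩
        apply hx
        refine ⟨hx', ?_⟩
        nlinarith [sq_nonneg y]
      rw [hemp, measure_empty]
  refine (lintegral_mono hsl).trans ?_
  rw [lintegral_indicator measurableSet_Ioc, ← integral_seg hr h0 h1,
    intervalIntegral.integral_of_le hle, ofReal_integral_eq_lintegral_ofReal]
  · have : IntervalIntegrable (fun x : ℝ => 2 * √(r ^ 2 - x ^ 2)) volume (r * Real.cos θ) r :=
      Continuous.intervalIntegrable (by fun_prop) _ _
    exact (intervalIntegrable_iff_integrableOn_Ioc_of_le hle).1 this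
  · exact Filter.Eventually.of_forall fun x => by positivity

/-- C2. The area of a circular segment. -/
theorem segment_area {ν : E2} (hν : ‖ν‖ = 1) {r θ : ℝ} (hr : 0 < r) (h0 : 0 < θ)
    (h1 : θ < Real.pi / 2) :
    volume {v : E2 | ‖v‖ ≤ r ∧ r * Real.cos θ < ⟪ν, v⟫} ≤
      ENNReal.ofReal (r ^ 2 * (θ - Real.sin θ * Real.cos θ)) := by
  obtain ⟨b, hb⟩ := Orthonormal.exists_orthonormalBasis_extension_of_card_eq
    (𝕜 := ℝ) (E := EuclideanSpace ℝ (Fin 2)) (ι := Fin 2) (by simp)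
    (v := fun _ => ν) (s := {0}) (by
      constructor
      · rintro ⟨i, hi⟩
        simpa using hν
      · rintro ⟨i, hi⟩ ⟨j, hj⟩ hij
        rw [mem_singleton_iff] at hi hj
        exact (hij (Subtype.ext (hi.trans hj.symm))).elim)
  have hb0 : b 0 = ν := hb 0 (by simp)
  -- the coordinates
  let f : EuclideanSpace ℝ (Fin 2) → ℝ × ℝ := fun v => (b.repr v 0, b.repr v 1)
  have hf : MeasurePreserving f volume volume := by
    have m1 := b.measurePreserving_repr
    have m2 := EuclideanSpace.volume_preserving_symm_measurableEquiv_toLp (Fin 2)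
    have m3 := volume_preserving_finTwoArrow ℝ
    exact m3.comp (m2.comp m1)
  have hset : {v : EuclideanSpace ℝ (Fin 2) | ‖v‖ ≤ r ∧ r * Real.cos θ < ⟪ν, v⟫} =
      f ⁻¹' {q : ℝ × ℝ | q.1 ^ 2 + q.2 ^ 2 ≤ r ^ 2 ∧ r * Real.cos θ < q.1} := by
    ext v
    simp only [mem_ofPred_eq, mem_preimage, f]
    have e1 : b.repr v 0 = ⟪ν, v⟫ := by rw [b.repr_apply_apply, hb0]
    have e2 : ‖v‖ ^ 2 = b.repr v 0 ^ 2 + b.repr v 1 ^ 2 := by
      rw [← b.repr.norm_map v, EuclideanSpace.norm_sq_eq]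
      simp [Fin.sum_univ_two]
    rw [← e2, e1]
    constructor
    · rintro ⟨ha, hb⟩
      exact ⟨pow_le_pow_left₀ (norm_nonneg v) ha 2, hb⟩
    · rintro ⟨ha, hb⟩
      exact ⟨le_of_sq_le_sq ha hr.le, hb⟩
  have hm : MeasurableSet {q : ℝ × ℝ | q.1 ^ 2 + q.2 ^ 2 ≤ r ^ 2 ∧ r * Real.cos θ < q.1} := by
    apply MeasurableSet.inter
    · exact measurableSet_le (f := fun q : ℝ × ℝ => q.1 ^ 2 + q.2 ^ 2) (g := fun _ => r ^ 2)
        (by fun_prop) (by fun_prop)
    · exact measurableSet_lt (f := fun _ : ℝ × ℝ => r * Real.cos θ) (g := fun q => q.1)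
        (by fun_prop) (by fun_prop)
  rw [hset, hf.measure_preimage hm.nullMeasurableSet]
  exact volume_seg_prod hr h0 h1

end Pool.Agent.Helper65.PK
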