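import Mathlib
import Pool.Agent.Helper65.PK.Defs

/-!
# Project PK, piece D1a

Pure combinatorics (definitions `Adj`, `NN` in `Defs.lean`). Insertion of `x`: a pair that is
adjacent in `insert x A` and does not contain `x` is adjacent in `A`; the pairs containing `x` are
at most two: `x` with its cyclic predecessor and successor (if `r x` is the largest value, the
successor is the smallest, etc.), at most `#A` of them. Removal of `x`: a new pair `(i, j)` has `x`
as the only element of the arc; it is (predecessor, successor) of `x`; and it is not new if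
`#A ≤ 3`.
-/

namespace Pool.Agent.Helper65.PK

open MeasureTheory Module Set
open scoped ENNReal RealInnerProductSpace

private theorem mem_NN' {ι : Type} [DecidableEq ι] {r : ι → ℕ} {A : Finset ι} {p : ι × ι} :
    p ∈ NN r A ↔ Adj r A p.1 p.2 := by
  classical
  simp only [NN, Finset.mem_filter, Finset.mem_product]
  exact ⟨fun h => h.2, fun h => ⟨⟨h.1, h.2.1⟩, h⟩⟩

/-- D1a. Adding an element creates at most `min 2 #A` new adjacent pairs. -/
theorem card_NN_insert {ι : Type} [DecidableEq ι] (r : ι → ℕ) (A : Finset ι) {x : ι} (hx : x ∉ A)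
    (hr : Set.InjOn r ↑(insert x A)) :
    (NN r (insert x A) \ NN r A).card ≤ min 2 A.card := by
  classical
  -- a new pair contains `x`
  have hnew : ∀ p ∈ NN r (insert x A) \ NN r A, Adj r (insert x A) p.1 p.2 ∧
      (p.1 = x ∨ p.2 = x) := by
    intro p hp
    rw [Finset.mem_sdiff, mem_NN', mem_NN'] at hp
    obtain ⟨h1, h2⟩ := hp
    refine ⟨h1, ?_⟩
    by_contra hcon
    push Not at hcon
    apply h2
    obtain ⟨a, b, c, d⟩ := h1
    refine ⟨(Finset.mem_insert.1 a).resolve_left hcon.1,
      (Finset.mem_insert.1 b).resolve_left hcon.2, c, ?_⟩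
    rcases d with d | d
    · exact Or.inl fun k hk => d k (Finset.mem_insert_of_mem hk)
    · exact Or.inr fun k hk => d k (Finset.mem_insert_of_mem hk)
  refine le_min ?_ ?_
  · -- at most two: cyclic successor and cyclic predecessor
    let F : ι × ι → Prop := fun p =>
      (p.1 = x ∧ ∀ k ∈ insert x A, ¬ (r x < r k ∧ r k < r p.2)) ∨
      (p.2 = x ∧ ∀ k ∈ insert x A, ¬ (r k < r p.1 ∨ r x < r k))
    have hcard : (NN r (insert x A) \ NN r A).card ≤ (Finset.univ : Finset Bool).card := by
      refine Finset.card_le_card_of_injOn (fun p => decide (F p)) (fun _ _ => Finset.mem_coe.2 (Finset.mem_univ _)) ?_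
      intro p hp q hq hpq
      have hF : F p ↔ F q := by simpa using hpq
      obtain ⟨⟨p1, p2, p3, p4⟩, hpx⟩ := hnew p hp
      obtain ⟨⟨q1, q2, q3, q4⟩, hqx⟩ := hnew q hq
      have inj1 : r p.1 = r q.1 → p.1 = q.1 := fun h => hr p1 q1 h
      have inj2 : r p.2 = r q.2 → p.2 = q.2 := fun h => hr p2 q2 h
      rcases hpx with hpx | hpx <;> rcases hqx with hqx | hqx
      · have hp2 : p.2 ≠ x := fun h => by rw [hpx, h] at p3; exact lt_irrefl _ p3
        have hq2 : q.2 ≠ x := fun h => by rw [hqx, h] at q3; exact lt_irrefl _ q3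
        refine Prod.ext (hpx.trans hqx.symm) (inj2 ?_)
        rw [hpx] at p3 p4
        rw [hqx] at q3 q4
        by_cases h : F p
        · have h' := hF.1 h
          rcases h with ⟨-, h⟩ | ⟨h, -⟩
          · rcases h' with ⟨-, h'⟩ | ⟨h', -⟩
            · have e1 := h _ q2
              have e2 := h' _ p2
              omega
            · exact (hq2 h').elim
          · exact (hp2 h).elim
        · have h' : ¬ F q := fun h' => h (hF.2 h')
          have c1 := p4.resolve_left fun c => h (Or.inl ⟨hpx, c⟩)
          have c2 := q4.resolve_left fun c => h' (Or.inl ⟨hqx, c⟩)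
          have e1 := c1 _ q2
          have e2 := c2 _ p2
          omega
      · exfalso
        have hp2 : p.2 ≠ x := fun h => by rw [hpx, h] at p3; exact lt_irrefl _ p3
        have hq1 : q.1 ≠ x := fun h => by rw [hqx, h] at q3; exact lt_irrefl _ q3
        rw [hpx] at p3 p4
        rw [hqx] at q3 q4
        by_cases h : F p
        · rcases hF.1 h with ⟨h', -⟩ | ⟨-, h'⟩
          · exact hq1 h'
          · have e1 := h' _ p2
            omega
        · have c1 := p4.resolve_left fun c => h (Or.inl ⟨hpx, c⟩)
          have e1 := c1 _ q1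
          omega
      · exfalso
        have hp1 : p.1 ≠ x := fun h => by rw [hpx, h] at p3; exact lt_irrefl _ p3
        have hq2 : q.2 ≠ x := fun h => by rw [hqx, h] at q3; exact lt_irrefl _ q3
        rw [hpx] at p3 p4
        rw [hqx] at q3 q4
        by_cases h : F q
        · rcases hF.2 h with ⟨h', -⟩ | ⟨-, h'⟩
          · exact hp1 h'
          · have e1 := h' _ q2
            omega
        · have c1 := q4.resolve_left fun c => h (Or.inl ⟨hqx, c⟩)
          have e1 := c1 _ p1
          omega
      · have hp1 : p.1 ≠ x := fun h => by rw [hpx, h] at p3; exact lt_irrefl _ p3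
        have hq1 : q.1 ≠ x := fun h => by rw [hqx, h] at q3; exact lt_irrefl _ q3
        refine Prod.ext (inj1 ?_) (hpx.trans hqx.symm)
        rw [hpx] at p3 p4
        rw [hqx] at q3 q4
        by_cases h : F p
        · have h' := hF.1 h
          rcases h with ⟨h, -⟩ | ⟨-, h⟩
          · exact (hp1 h).elim
          · rcases h' with ⟨h', -⟩ | ⟨-, h'⟩
            · exact (hq1 h').elim
            · have e1 := h _ q1
              have e2 := h' _ p1
              omega
        · have h' : ¬ F q := fun h' => h (hF.2 h')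
          have c1 := p4.resolve_right fun c => h (Or.inr ⟨hpx, c⟩)
          have c2 := q4.resolve_right fun c => h' (Or.inr ⟨hqx, c⟩)
          have e1 := c1 _ q1
          have e2 := c2 _ p1
          omega
    simpa using hcard
  · -- at most `#A`: the other element
    refine Finset.card_le_card_of_injOn (fun p => if p.1 = x then p.2 else p.1) ?_ ?_
    · intro p hp
      obtain ⟨⟨p1, p2, p3, -⟩, hpx⟩ := hnew p hp
      simp only [Finset.mem_coe]
      split_ifs with h
      · refine (Finset.mem_insert.1 p2).resolve_left fun h' => ?_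
        rw [h, h'] at p3
        exact lt_irrefl _ p3
      · exact (Finset.mem_insert.1 p1).resolve_left h
    · intro p hp q hq hpq
      obtain ⟨⟨-, -, p3, -⟩, hpx⟩ := hnew p hp
      obtain ⟨⟨-, -, q3, -⟩, hqx⟩ := hnew q hq
      simp only at hpq
      split_ifs at hpq with h1 h2 h2
      · exact Prod.ext (h1.trans h2.symm) hpq
      · have h3 := hqx.resolve_left h2
        rw [h1, hpq] at p3
        rw [h3] at q3
        omega
      · have h3 := hpx.resolve_left h1
        rw [h2, ← hpq] at q3
        rw [h3] at p3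
        omega
      · exact Prod.ext hpq ((hpx.resolve_left h1).trans (hqx.resolve_left h2).symm)

/-- D1a. Removing an element creates at most one new adjacent pair, and none if `#A ≤ 3`. -/
theorem card_NN_erase {ι : Type} [DecidableEq ι] (r : ι → ℕ) (A : Finset ι) {x : ι} (hx : x ∈ A)
    (hr : Set.InjOn r ↑A) :
    (NN r (A.erase x) \ NN r A).card ≤ if 4 ≤ A.card then 1 else 0 := by
  classical
  -- for a new pair, `x` is the only element of `A` on one of the two arcs
  have hnew : ∀ p ∈ NN r (A.erase x) \ NN r A, p.1 ∈ A.erase x ∧ p.2 ∈ A.erase x ∧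
      r p.1 < r p.2 ∧ ((∀ k ∈ A.erase x, ¬ (r p.1 < r k ∧ r k < r p.2)) ∧
        (r p.1 < r x ∧ r x < r p.2) ∧ (∃ k ∈ A.erase x, r k < r p.1 ∨ r p.2 < r k) ∨
      (∀ k ∈ A.erase x, ¬ (r k < r p.1 ∨ r p.2 < r k)) ∧ (r x < r p.1 ∨ r p.2 < r x) ∧
        ∃ k ∈ A.erase x, r p.1 < r k ∧ r k < r p.2) := by
    intro p hp
    rw [Finset.mem_sdiff, mem_NN', mem_NN'] at hp
    obtain ⟨⟨p1, p2, p3, p4⟩, h2⟩ := hp
    have h3 : ¬ ((∀ k ∈ A, ¬ (r p.1 < r k ∧ r k < r p.2)) ∨
        (∀ k ∈ A, ¬ (r k < r p.1 ∨ r p.2 < r k))) := fun h3 =>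
      h2 ⟨Finset.mem_of_mem_erase p1, Finset.mem_of_mem_erase p2, p3, h3⟩
    push Not at h3
    obtain ⟨⟨k, hk, hk1, hk2⟩, ⟨l, hl, hl1⟩⟩ := h3
    refine ⟨p1, p2, p3, ?_⟩
    rcases p4 with p4 | p4
    · left
      have hkx : k = x := by
        by_contra hne
        exact p4 k (Finset.mem_erase.2 ⟨hne, hk⟩) ⟨hk1, hk2⟩
      subst hkx
      refine ⟨p4, ⟨hk1, hk2⟩, l, Finset.mem_erase.2 ⟨?_, hl⟩, ?_⟩
      · rintro rfl
        have := hl1
        omega
      · by_cases h : r l < r p.1
        · exact Or.inl h
        · exact Or.inr (by have := hl1; omega)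
    · right
      have hlx : l = x := by
        by_contra hne
        apply p4 l (Finset.mem_erase.2 ⟨hne, hl⟩)
        by_cases h : r l < r p.1
        · exact Or.inl h
        · exact Or.inr (by have := hl1; omega)
      subst hlx
      refine ⟨p4, ?_, k, Finset.mem_erase.2 ⟨?_, hk⟩, hk1, hk2⟩
      · by_cases h : r l < r p.1
        · exact Or.inl h
        · exact Or.inr (by have := hl1; omega)
      · rintro rfl
        have := hl1
        omega
  split_ifs with h4
  · rw [Finset.card_le_one]
    intro p hp q hq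
    obtain ⟨p1, p2, p3, p4⟩ := hnew p hp
    obtain ⟨q1, q2, q3, q4⟩ := hnew q hq
    have inj1 : r p.1 = r q.1 → p.1 = q.1 := fun h =>
      hr (Finset.mem_of_mem_erase p1) (Finset.mem_of_mem_erase q1) h
    have inj2 : r p.2 = r q.2 → p.2 = q.2 := fun h =>
      hr (Finset.mem_of_mem_erase p2) (Finset.mem_of_mem_erase q2) h
    rcases p4 with ⟨p4, p5, -⟩ | ⟨p4, p5, -⟩ <;> rcases q4 with ⟨q4, q5, -⟩ | ⟨q4, q5, -⟩
    · have e1 := p4 _ q1
      have e2 := p4 _ q2
      have e3 := q4 _ p1
      have e4 := q4 _ p2
      exact Prod.ext (inj1 (by omega)) (inj2 (by omega))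
    · have e1 := q4 _ p1
      have e2 := q4 _ p2
      omega
    · have e1 := p4 _ q1
      have e2 := p4 _ q2
      omega
    · have e1 := p4 _ q1
      have e2 := p4 _ q2
      have e3 := q4 _ p1
      have e4 := q4 _ p2
      exact Prod.ext (inj1 (by omega)) (inj2 (by omega))
  · rw [Nat.le_zero, Finset.card_eq_zero, Finset.eq_empty_iff_forall_notMem]
    intro p hp
    obtain ⟨p1, p2, p3, p4⟩ := hnew p hp
    -- four elements of `A`
    obtain ⟨k, hk, hkp1, hkp2⟩ : ∃ k ∈ A.erase x, k ≠ p.1 ∧ k ≠ p.2 := by
      rcases p4 with ⟨-, -, k, hk, h⟩ | ⟨-, -, k, hk, h⟩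
      · refine ⟨k, hk, ?_, ?_⟩
        · rintro rfl; omega
        · rintro rfl; omega
      · refine ⟨k, hk, ?_, ?_⟩
        · rintro rfl; omega
        · rintro rfl; omega
    have h12 : p.1 ≠ p.2 := fun h => by rw [h] at p3; exact lt_irrefl _ p3
    have hsub : ({p.1, p.2, k, x} : Finset ι) ⊆ A := by
      intro y hy
      simp only [Finset.mem_insert, Finset.mem_singleton] at hy
      rcases hy with rfl | rfl | rfl | rfl
      · exact Finset.mem_of_mem_erase p1
      · exact Finset.mem_of_mem_erase p2
      · exact Finset.mem_of_mem_erase hk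
      · exact hx
    have hc : ({p.1, p.2, k, x} : Finset ι).card = 4 := by
      rw [Finset.card_insert_of_notMem, Finset.card_insert_of_notMem,
        Finset.card_insert_of_notMem, Finset.card_singleton]
      · simpa using Finset.ne_of_mem_erase hk
      · simp only [Finset.mem_insert, Finset.mem_singleton]
        rintro (h | h)
        · exact hkp2 h.symm
        · exact Finset.ne_of_mem_erase p2 h
      · simp only [Finset.mem_insert, Finset.mem_singleton]
        rintro (h | h | h)
        · exact h12 h
        · exact hkp1 h.symm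
        · exact Finset.ne_of_mem_erase p1 h
    exact h4 (hc ▸ Finset.card_le_card hsub)

end Pool.Agent.Helper65.PK
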