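import Pool.Agent.Helper65.PK.P.D1a

/-!
# Project PK, piece D1b

From D1a (definitions `state`, `Valid` in `Defs.lean`; the LATEST event is the head of the list).
Let `U` be a finite set of pairs such that each element is adjacent in the state of some suffix
`L' <:+ L`. By induction on `L` (from the empty list), with `p` = number of additions, `n` = size of
the current state and `U` = union of the `NN r (state L')` over all suffixes:
EITHER (phase 1: all states so far have size ≤ 2) `#U + 1 ≤ p` or (`p = 0` and `U = ∅`), and `n ≤ 2`,
`n ≤ p`; OR (phase 2) `3 ≤ p` and `#U + 3 + max n 3 ≤ 3 p`. Steps: phase 1, add: n = 0: no new pair;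
n = 1: one; n = 2 (then p ≥ 2): two new ones, new state of size 3, phase 2: #U + 2 + 6 ≤
(p - 1) + 8 ≤ 3 (p + 1). Phase 2, add: two new ones, `max n 3` grows by at most 1. Phase 2, remove:
at most one new, and only if `n ≥ 4`, when `max n 3` decreases by 1. Phase 1, remove: nothing new.
At the end `n = 0`: `#U + 6 ≤ 3 p` in phase 2; in phase 1 `#U + 1 ≤ p`, so `#U + 6 ≤ 3p` for `p ≥ 3`.
-/

namespace Pool.Agent.Helper65.PK

open MeasureTheory Module Set
open scoped ENNReal RealInnerProductSpace

/-- The union of the adjacent pairs over all suffixes. -/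
noncomputable def UU {ι : Type} [DecidableEq ι] (r : ι → ℕ) : List (ι × Bool) → Finset (ι × ι)
  | [] => NN r (state [])
  | e :: L => NN r (state (e :: L)) ∪ UU r L

theorem NN_subset_UU {ι : Type} [DecidableEq ι] (r : ι → ℕ) (L : List (ι × Bool)) :
    NN r (state L) ⊆ UU r L := by
  cases L with
  | nil => exact Finset.Subset.refl _
  | cons e L => exact Finset.subset_union_left

theorem mem_UU {ι : Type} [DecidableEq ι] (r : ι → ℕ) (L : List (ι × Bool)) {L' : List (ι × Bool)}
    (h : L' <:+ L) {p : ι × ι} (hp : Adj r (state L') p.1 p.2) : p ∈ UU r L := by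
  induction L with
  | nil =>
    have h' : L' = [] := List.suffix_nil.mp h
    subst h'
    exact absurd hp.1 (by simp [state])
  | cons e L ih =>
    rcases List.suffix_cons_iff.mp h with h1 | h1
    · subst h1
      refine Finset.mem_union_left _ ?_
      simp only [NN, Finset.mem_filter, Finset.mem_product]
      exact ⟨⟨hp.1, hp.2.1⟩, hp⟩
    · exact Finset.mem_union_right _ (ih h1)

theorem card_UU_cons {ι : Type} [DecidableEq ι] (r : ι → ℕ) (e : ι × Bool) (L : List (ι × Bool)) :
    (UU r (e :: L)).card ≤ (UU r L).card + (NN r (state (e :: L)) \ NN r (state L)).card := by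
  have h1 : UU r (e :: L) ⊆ UU r L ∪ (NN r (state (e :: L)) \ NN r (state L)) := by
    intro p hp
    rcases Finset.mem_union.mp hp with h | h
    · by_cases h2 : p ∈ NN r (state L)
      · exact Finset.mem_union_left _ (NN_subset_UU r L h2)
      · exact Finset.mem_union_right _ (Finset.mem_sdiff.mpr ⟨h, h2⟩)
    · exact Finset.mem_union_left _ h
  exact (Finset.card_le_card h1).trans (Finset.card_union_le _ _)

theorem inv_events {ι : Type} [DecidableEq ι] (r : ι → ℕ) (hr : Function.Injective r)
    (L : List (ι × Bool)) (hL : Valid L) :
    ((state L).card ≤ 2 ∧ (state L).card ≤ (L.filter fun e => e.2).length ∧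
      ((UU r L).card + 1 ≤ (L.filter fun e => e.2).length ∨
        ((L.filter fun e => e.2).length = 0 ∧ (UU r L).card = 0))) ∨
    (3 ≤ (L.filter fun e => e.2).length ∧
      (UU r L).card + 3 + max (state L).card 3 ≤ 3 * (L.filter fun e => e.2).length) := by
  induction L with
  | nil =>
    left
    refine ⟨by simp [state], by simp [state], Or.inr ⟨by simp, ?_⟩⟩
    rw [Finset.card_eq_zero]
    refine Finset.eq_empty_of_forall_notMem fun p hp => ?_
    simp only [UU, NN, Finset.mem_filter, Finset.mem_product] at hp
    exact absurd hp.1.1 (by simp [state])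
  | cons e L ih =>
    obtain ⟨i, b⟩ := e
    have hU := card_UU_cons r (i, b) L
    cases b with
    | true =>
      have hv : i ∉ state L ∧ Valid L := by simpa [Valid] using hL
      have hs : state ((i, true) :: L) = insert i (state L) := by simp [state]
      have hc : (state ((i, true) :: L)).card = (state L).card + 1 := by
        rw [hs, Finset.card_insert_of_notMem hv.1]
      have hf : (((i, true) :: L).filter fun e => e.2).length =
          (L.filter fun e => e.2).length + 1 := by simp
      have hn := card_NN_insert r (state L) hv.1 hr.injOn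
      rw [← hs] at hn
      have ih' := ih hv.2
      rw [hf, hc]
      omega
    | false =>
      have hv : i ∈ state L ∧ Valid L := by simpa [Valid] using hL
      have hs : state ((i, false) :: L) = (state L).erase i := by simp [state]
      have hc : (state ((i, false) :: L)).card = (state L).card - 1 := by
        rw [hs, Finset.card_erase_of_mem hv.1]
      have hf : (((i, false) :: L).filter fun e => e.2).length =
          (L.filter fun e => e.2).length := by simp
      have hn := card_NN_erase r (state L) hv.1 hr.injOn
      rw [← hs] at hn
      have ih' := ih hv.2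
      rw [hf, hc]
      split_ifs at hn <;> omega

/-- D1b. The count for a list of events. -/
theorem card_le_of_events {ι : Type} [DecidableEq ι] (r : ι → ℕ) (hr : Function.Injective r)
    (L : List (ι × Bool)) (hL : Valid L) (hend : state L = ∅)
    (hp : 3 ≤ (L.filter fun e => e.2).length) (U : Finset (ι × ι))
    (hU : ∀ p ∈ U, ∃ L', L' <:+ L ∧ Adj r (state L') p.1 p.2) :
    U.card + 6 ≤ 3 * (L.filter fun e => e.2).length := by
  have h1 : U ⊆ UU r L := by
    intro p hpU
    obtain ⟨L', h2, h3⟩ := hU p hpU
    exact mem_UU r L h2 h3
  have h2 := Finset.card_le_card h1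
  have h3 := inv_events r hr L hL
  rw [hend, Finset.card_empty] at h3
  omega

end Pool.Agent.Helper65.PK
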