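import Pool.Agent.Helper65.PK.P.D1b

/-!
# Project PK, piece D1c
-/

namespace Pool.Agent.Helper65.PK

open MeasureTheory Module Set
open scoped ENNReal RealInnerProductSpace

/-- A list of the elements of a finite set sorted by decreasing keys. -/
theorem exists_sorted_list {α K : Type*} [DecidableEq α] [LinearOrder K] (key : α → K)
    (hkey : Function.Injective key) (s : Finset α) :
    ∃ L : List α, (∀ x, x ∈ L ↔ x ∈ s) ∧ L.Pairwise (fun a b => key b < key a) := by
  induction s using Finset.induction_on_max_value key with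
  | empty => exact ⟨[], by simp, List.Pairwise.nil⟩
  | insert a s ha hmax ih =>
    obtain ⟨L, hL1, hL2⟩ := ih
    refine ⟨a :: L, ?_, ?_⟩
    · intro x
      rw [List.mem_cons, Finset.mem_insert, hL1]
    · rw [List.pairwise_cons]
      refine ⟨?_, hL2⟩
      intro x hx
      have hx' := (hL1 x).1 hx
      refine lt_of_le_of_ne (hmax x hx') ?_
      intro h
      have := hkey h
      rw [this] at hx'
      exact ha hx'

theorem filter_suffix {α K : Type*} [LinearOrder K] (key : α → K) (q : α → Bool) (L : List α)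
    (hL : L.Pairwise (fun a b => key b < key a))
    (hq : ∀ a b, q a = true → key b < key a → q b = true) : L.filter q <:+ L := by
  induction L with
  | nil => simp
  | cons e L ih =>
    rw [List.pairwise_cons] at hL
    by_cases he : q e = true
    · have h1 : (e :: L).filter q = e :: L := by
        rw [List.filter_eq_self]
        intro x hx
        rcases List.mem_cons.1 hx with rfl | hx
        · exact he
        · exact hq e x he (hL.1 x hx)
      rw [h1]
    · rw [List.filter_cons_of_neg he]
      exact (ih hL.2).trans (List.suffix_cons e L)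

theorem state_spec {ι : Type} [DecidableEq ι] {K : Type*} [LinearOrder K] (key : ι × Bool → K)
    (hlt : ∀ i, key (i, true) < key (i, false)) (L : List (ι × Bool))
    (hL : L.Pairwise (fun a b => key b < key a))
    (hd : ∀ i, (i, false) ∈ L → (i, true) ∈ L) :
    Valid L ∧ ∀ i, i ∈ state L ↔ (i, true) ∈ L ∧ (i, false) ∉ L := by
  induction L with
  | nil => exact ⟨trivial, by simp [state]⟩
  | cons e L ih =>
    rw [List.pairwise_cons] at hL
    obtain ⟨hL1, hL2⟩ := hL
    have hd' : ∀ i, (i, false) ∈ L → (i, true) ∈ L := by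
      intro i hi
      rcases List.mem_cons.1 (hd i (List.mem_cons_of_mem _ hi)) with h | h
      · have h1 := hL1 _ hi
        rw [← h] at h1
        exact absurd h1 (not_lt.2 (hlt i).le)
      · exact h
    obtain ⟨ih1, ih2⟩ := ih hL2 hd'
    have hnot : e ∉ L := fun h => lt_irrefl _ (hL1 e h)
    obtain ⟨j, b⟩ := e
    cases b with
    | true =>
      have h1 : (j, false) ∉ L := fun h => hnot (hd' j h)
      constructor
      · refine ⟨?_, ih1⟩
        simp only [if_true]
        rw [ih2 j]
        exact fun h => hnot h.1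
      · intro i
        simp only [state, if_true, Finset.mem_insert, List.mem_cons, Prod.mk.injEq, and_true,
          Bool.false_eq_true, and_false, false_or]
        rw [ih2 i]
        constructor
        · rintro (rfl | h)
          · exact ⟨Or.inl rfl, h1⟩
          · exact ⟨Or.inr h.1, h.2⟩
        · rintro ⟨rfl | h2, h3⟩
          · exact Or.inl rfl
          · exact Or.inr ⟨h2, h3⟩
    | false =>
      have h1 : (j, true) ∈ L := by
        rcases List.mem_cons.1 (hd j (List.mem_cons_self)) with h | h
        · simp at h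
        · exact h
      constructor
      · refine ⟨?_, ih1⟩
        simp only [Bool.false_eq_true, if_false]
        rw [ih2 j]
        exact ⟨h1, hnot⟩
      · intro i
        simp only [state, Bool.false_eq_true, if_false, Finset.mem_erase, List.mem_cons,
          Prod.mk.injEq, and_true, Bool.true_eq_false, and_false, false_or, not_or]
        rw [ih2 i]
        tauto

/-- The sweep lemma for a finite type. -/
theorem sweep_fintype {ι : Type} [DecidableEq ι] [Fintype ι] (lo hi θ : ι → ℝ)
    (hlt : ∀ i, lo i < hi i) (S : Finset (ι × ι))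
    (hS : ∀ p ∈ S, θ p.1 < θ p.2 ∧ ∃ z : ℝ,
      lo p.1 < z ∧ z < hi p.1 ∧ lo p.2 < z ∧ z < hi p.2 ∧
      ((∀ k, lo k < z → z < hi k → k ≠ p.1 → k ≠ p.2 → ¬ (θ p.1 ≤ θ k ∧ θ k ≤ θ p.2)) ∨
       (∀ k, lo k < z → z < hi k → k ≠ p.1 → k ≠ p.2 → ¬ (θ k ≤ θ p.1 ∨ θ p.2 ≤ θ k))))
    (h3 : 3 ≤ Fintype.card ι) : S.card + 6 ≤ 3 * Fintype.card ι := by
  classical
  -- the rank
  let e := Fintype.equivFin ι
  let kθ : ι → ℝ ×ₗ (Fin (Fintype.card ι)) := fun i => toLex (θ i, e i)
  let r : ι → ℕ := fun i => (Finset.univ.filter fun k => kθ k < kθ i).card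
  have hrlt : ∀ i k, kθ i < kθ k → r i < r k := by
    intro i k hik
    apply Finset.card_lt_card
    rw [Finset.ssubset_iff_of_subset]
    · exact ⟨i, by simp [hik], by simp⟩
    · intro l hl
      simp only [Finset.mem_filter, Finset.mem_univ, true_and] at hl ⊢
      exact hl.trans hik
  have hkinj : Function.Injective kθ := by
    intro i k hik
    have h1 : (θ i, e i) = (θ k, e k) := toLex.injective hik
    exact e.injective (Prod.mk.inj h1).2
  have hrinj : Function.Injective r := by
    intro i k hik
    rcases lt_trichotomy (kθ i) (kθ k) with h | h | h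
    · exact absurd hik (hrlt i k h).ne
    · exact hkinj h
    · exact absurd hik (hrlt k i h).ne'
  have hrθ : ∀ i k, r i < r k → θ i ≤ θ k := by
    intro i k hik
    by_contra hcon
    push Not at hcon
    have h1 : kθ k < kθ i := by
      rw [Prod.Lex.toLex_lt_toLex]
      exact Or.inl hcon
    exact absurd (hrlt k i h1) (by omega)
  have hθr : ∀ i k, θ i < θ k → r i < r k := by
    intro i k hik
    apply hrlt
    rw [Prod.Lex.toLex_lt_toLex]
    exact Or.inl hik
  -- the events
  let κ : ι × Bool → ℝ := fun p => if p.2 then lo p.1 else hi p.1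
  let key : ι × Bool → ℝ ×ₗ (Bool ×ₗ (Fin (Fintype.card ι))) := fun p =>
    toLex (κ p, toLex (p.2, e p.1))
  have hkey : Function.Injective key := by
    rintro ⟨i, b⟩ ⟨k, c⟩ h
    have h1 := (Prod.mk.inj (toLex.injective h)).2
    have h2 := Prod.mk.inj (toLex.injective h1)
    have h3 : b = c := h2.1
    have h4 : i = k := e.injective h2.2
    rw [h3, h4]
  have hkeylt : ∀ i, key (i, true) < key (i, false) := by
    intro i
    rw [Prod.Lex.toLex_lt_toLex]
    left
    simp only [κ, if_true, Bool.false_eq_true, if_false]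
    exact hlt i
  obtain ⟨L, hL1, hL2⟩ := exists_sorted_list key hkey (Finset.univ)
  have hmem : ∀ x, x ∈ L := fun x => (hL1 x).2 (Finset.mem_univ x)
  have hnodup : L.Nodup := by
    rw [List.nodup_iff_pairwise_ne]
    exact hL2.imp fun h => fun h' => (by rw [h'] at h; exact lt_irrefl _ h)
  obtain ⟨hV, hst⟩ := state_spec key hkeylt L hL2 (fun i _ => hmem _)
  have hend : state L = ∅ := by
    ext i
    rw [hst i]
    simp [hmem]
  have hadd : (L.filter fun e => e.2).length = Fintype.card ι := by
    have h1 : (L.filter fun e => e.2).Nodup := hnodup.filter _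
    rw [← List.toFinset_card_of_nodup h1]
    have h2 : (L.filter fun e => e.2).toFinset = Finset.univ.image fun i : ι => (i, true) := by
      ext ⟨i, b⟩
      simp only [List.mem_toFinset, List.mem_filter, hmem, true_and, Finset.mem_image,
        Finset.mem_univ, Prod.mk.injEq, exists_eq_left]
      exact ⟨fun h => h.symm, fun h => h.symm⟩
    rw [h2, Finset.card_image_of_injective, Finset.card_univ]
    intro i k h
    exact (Prod.mk.inj h).1
  have hA : ∀ z : ℝ, ∃ L', L' <:+ L ∧ ∀ i, i ∈ state L' ↔ lo i < z ∧ z < hi i := by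
    intro z
    let q : ι × Bool → Bool := fun p => decide (κ p < z ∨ (κ p = z ∧ p.2 = false))
    have hq : ∀ a b, q a = true → key b < key a → q b = true := by
      intro a b ha hab
      simp only [q, decide_eq_true_eq] at ha ⊢
      rw [Prod.Lex.toLex_lt_toLex] at hab
      rcases hab with hab | ⟨hab, hab2⟩
      · simp only at hab
        rcases ha with ha | ha
        · left; linarith
        · left; linarith [ha.1]
      · simp only at hab hab2
        rcases ha with ha | ha
        · left; linarith
        · right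
          refine ⟨hab.trans ha.1, ?_⟩
          rw [Prod.Lex.toLex_lt_toLex] at hab2
          rw [ha.2] at hab2
          rcases hab2 with h | h
          · exact absurd h (by simp)
          · exact h.1
    refine ⟨L.filter q, filter_suffix key q L hL2 hq, ?_⟩
    have hs := state_spec key hkeylt (L.filter q) (hL2.sublist List.filter_sublist) (by
      intro i hi
      rw [List.mem_filter] at hi ⊢
      exact ⟨hmem _, hq _ _ hi.2 (hkeylt i)⟩)
    intro i
    rw [hs.2 i]
    simp only [List.mem_filter, hmem, true_and, q, κ, if_true, Bool.false_eq_true, if_false,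
      decide_eq_true_eq, Bool.true_eq_false, and_false, or_false, and_true, not_or, not_lt]
    constructor
    · rintro ⟨h1, h2, h4⟩
      exact ⟨h1, lt_of_le_of_ne h2 (Ne.symm h4)⟩
    · rintro ⟨h1, h2⟩
      exact ⟨h1, h2.le, h2.ne'⟩
  have hfin := card_le_of_events r hrinj L hV hend (by rw [hadd]; exact h3) S (by
    intro p hp
    obtain ⟨hθ, z, h1, h2, h4, h5, h6⟩ := hS p hp
    obtain ⟨L', hL', hst'⟩ := hA z
    refine ⟨L', hL', (hst' _).2 ⟨h1, h2⟩, (hst' _).2 ⟨h4, h5⟩, hθr _ _ hθ, ?_⟩
    rcases h6 with h6 | h6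
    · left
      rintro k hk ⟨hk1, hk2⟩
      have hk' := (hst' k).1 hk
      refine h6 k hk'.1 hk'.2 ?_ ?_ ⟨hrθ _ _ hk1, hrθ _ _ hk2⟩
      · rintro rfl; exact lt_irrefl _ hk1
      · rintro rfl; exact lt_irrefl _ hk2
    · right
      rintro k hk hk1
      have hk' := (hst' k).1 hk
      refine h6 k hk'.1 hk'.2 ?_ ?_ ?_
      · rintro rfl
        rcases hk1 with hk1 | hk1
        · exact lt_irrefl _ hk1
        · exact absurd (hθr _ _ hθ) (by omega)
      · rintro rfl
        rcases hk1 with hk1 | hk1
        · exact absurd (hθr _ _ hθ) (by omega)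
        · exact lt_irrefl _ hk1
      · rcases hk1 with hk1 | hk1
        · exact Or.inl (hrθ _ _ hk1)
        · exact Or.inr (hrθ _ _ hk1))
  rw [hadd] at hfin
  exact hfin

/-- D1c. The sweep lemma: `lo`, `hi` are the heights where a segment appears and disappears, `θ` is
its direction; `S` is a set of pairs which are neighbours at some height. -/
theorem sweep {ι : Type} [DecidableEq ι] (I : Finset ι) (lo hi θ : ι → ℝ)
    (hlt : ∀ i ∈ I, lo i < hi i) (S : Finset (ι × ι))
    (hS : ∀ p ∈ S, p.1 ∈ I ∧ p.2 ∈ I ∧ θ p.1 < θ p.2 ∧ ∃ z : ℝ,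
      lo p.1 < z ∧ z < hi p.1 ∧ lo p.2 < z ∧ z < hi p.2 ∧
      ((∀ k ∈ I, lo k < z → z < hi k → k ≠ p.1 → k ≠ p.2 → ¬ (θ p.1 ≤ θ k ∧ θ k ≤ θ p.2)) ∨
       (∀ k ∈ I, lo k < z → z < hi k → k ≠ p.1 → k ≠ p.2 → ¬ (θ k ≤ θ p.1 ∨ θ p.2 ≤ θ k))))
    (h3 : 3 ≤ I.card) : S.card + 6 ≤ 3 * I.card := by
  classical
  let f : {i // i ∈ I} × {i // i ∈ I} → ι × ι := fun p => (p.1.1, p.2.1)
  have hf : Function.Injective f := by
    rintro ⟨a, b⟩ ⟨c, d⟩ h
    have h1 := Prod.mk.inj h
    exact Prod.ext (Subtype.ext h1.1) (Subtype.ext h1.2)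
  let T : Finset ({i // i ∈ I} × {i // i ∈ I}) := S.preimage f hf.injOn
  have hT : T.card = S.card := by
    have h1 : T.image f = S := by
      ext p
      rw [Finset.mem_image]
      constructor
      · rintro ⟨q, hq, rfl⟩
        exact Finset.mem_preimage.1 hq
      · intro hp
        obtain ⟨h2, h4, -⟩ := hS p hp
        exact ⟨(⟨p.1, h2⟩, ⟨p.2, h4⟩), Finset.mem_preimage.2 hp, rfl⟩
    rw [← h1, Finset.card_image_of_injective _ hf]
  have hc : Fintype.card {i // i ∈ I} = I.card := Fintype.card_coe I
  have := sweep_fintype (fun i : {i // i ∈ I} => lo i.1) (fun i => hi i.1) (fun i => θ i.1)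
    (fun i => hlt i.1 i.2) T (by
      intro p hp
      obtain ⟨-, -, h1, z, h2, h4, h5, h6, h7⟩ := hS _ (Finset.mem_preimage.1 hp)
      refine ⟨h1, z, h2, h4, h5, h6, ?_⟩
      rcases h7 with h7 | h7
      · left
        intro k hk1 hk2 hk3 hk4
        exact h7 k.1 k.2 hk1 hk2 (fun h => hk3 (Subtype.ext h)) (fun h => hk4 (Subtype.ext h))
      · right
        intro k hk1 hk2 hk3 hk4
        exact h7 k.1 k.2 hk1 hk2 (fun h => hk3 (Subtype.ext h)) (fun h => hk4 (Subtype.ext h)))
    (by rw [hc]; exact h3)
  rw [hc, hT] at this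
  exact this

end Pool.Agent.Helper65.PK
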