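import Mathlib
import Pool.Agent.Helper65.PK.Defs

/-!
# Project PK, piece D2

A finite union of proper subspaces is not everything (`Subspace.exists_notMem_of_forall_lt`,
`Subspace.biUnion_ne_univ_of_top_nmem` or similar: spans of two vectors have finrank ≤ 2 < 3);
normalise.
-/

namespace Pool.Agent.Helper65.PK

open MeasureTheory Module Set
open scoped ENNReal RealInnerProductSpace

theorem span_pair_ne_top (a b : E3) : Submodule.span ℝ {a, b} ≠ ⊤ := by
  classical
  intro h
  have h1 : finrank ℝ (Submodule.span ℝ (({a, b} : Finset E3) : Set E3)) ≤ 2 :=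
    (finrank_span_finset_le_card _).trans Finset.card_le_two
  rw [Finset.coe_insert, Finset.coe_singleton, h, finrank_top, finrank_euclideanSpace_fin] at h1
  omega

/-- D2. A generic direction. -/
theorem exists_generic {ι : Type} [Finite ι] (u : ι → E3) :
    ∃ ℓ : E3, ‖ℓ‖ = 1 ∧ ∀ i j, ℓ ∉ Submodule.span ℝ {u i, u j} := by
  classical
  have hcov : (⋃ k : Option (ι × ι), ((k.elim ⊥ fun k => Submodule.span ℝ {u k.1, u k.2} :
      Submodule ℝ E3) : Set E3)) ≠ Set.univ := by
    intro h
    obtain ⟨k, hk⟩ := Subspace.exists_eq_top_of_iUnion_eq_univ h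
    rcases k with _ | k
    · exact bot_ne_top hk
    · exact span_pair_ne_top _ _ hk
  obtain ⟨x, hx⟩ := (Set.ne_univ_iff_exists_notMem _).1 hcov
  rw [Set.mem_iUnion, not_exists] at hx
  have hx0 : x ≠ 0 := by
    rintro rfl
    exact hx none (Submodule.zero_mem _)
  have hn : ‖x‖ ≠ 0 := norm_ne_zero_iff.2 hx0
  refine ⟨‖x‖⁻¹ • x, by rw [norm_smul, norm_inv, norm_norm, inv_mul_cancel₀ hn], ?_⟩
  intro i j hij
  apply hx (some (i, j))
  have := Submodule.smul_mem _ ‖x‖ hij
  rw [smul_smul, mul_inv_cancel₀ hn, one_smul] at this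
  exact this

end Pool.Agent.Helper65.PK
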