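import Pool.Agent.Helper65.PK.Basic

/-!
# Project PK, piece D3

`facet_height`: the disc of `Fat u h i` has center `c`, radius `ε`; a vector `v ⟂ u i` with
`⟪ℓ, v⟫ > 0` exists since `ℓ ∉ ℝ u i` (the component of `ℓ` orthogonal to `u i`); take `c ± δ v`.
`section_two`: there is a unit `d ⟂ u i, ℓ` (dimension 3); `c ± δ d ∈ F_i` have the same height
`⟪ℓ, c⟫`; if `z = ⟪ℓ, c⟫` done; if `z > ⟪ℓ, c⟫` take `(1-t)(c ± δ d) + t q`, `0 < t < 1`, similarly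
with `p` if `z < ⟪ℓ, c⟫` (`convex_FF`).
-/

namespace Pool.Agent.Helper65.PK

open MeasureTheory Module Set
open scoped ENNReal RealInnerProductSpace

/-- Small displacements of the center in a direction of the face. -/
theorem fat_move {ι : Type} {u : ι → E3} {h : ι → ℝ} {i : ι} {c : E3} {ε : ℝ} (hε : 0 < ε)
    (hc : ⟪u i, c⟫ = h i) (hball : ∀ y, ⟪u i, y⟫ = h i → ‖y - c‖ < ε → y ∈ PP u h) {v : E3}
    (hv : v ≠ 0) (huv : ⟪u i, v⟫ = 0) :
    ∃ δ : ℝ, 0 < δ ∧ c + δ • v ∈ FF u h i ∧ c + (-δ) • v ∈ FF u h i := by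
  have hv0 : 0 < ‖v‖ := norm_pos_iff.2 hv
  refine ⟨ε / (2 * ‖v‖), by positivity, ?_⟩
  have key : ∀ s : ℝ, |s| = ε / (2 * ‖v‖) → c + s • v ∈ FF u h i := by
    intro s hs
    have h1 : ⟪u i, c + s • v⟫ = h i := by
      rw [inner_add_right, inner_smul_right, huv, mul_zero, add_zero, hc]
    refine ⟨hball _ h1 ?_, h1⟩
    rw [add_sub_cancel_left, norm_smul, Real.norm_eq_abs, hs]
    have h2 : ε / (2 * ‖v‖) * ‖v‖ = ε / 2 := by
      field_simp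
    rw [h2]
    linarith
  have hpos : 0 < ε / (2 * ‖v‖) := by positivity
  exact ⟨key _ (abs_of_pos hpos), key _ (by rw [abs_neg, abs_of_pos hpos])⟩

/-- D3. A fat face is not horizontal. -/
theorem facet_height {ι : Type} {u : ι → E3} {h : ι → ℝ} {i : ι} (hu : ‖u i‖ = 1)
    (hf : Fat u h i) {ℓ : E3} (hℓ : ℓ ∉ Submodule.span ℝ {u i}) :
    ∃ p ∈ FF u h i, ∃ q ∈ FF u h i, ⟪ℓ, p⟫ < ⟪ℓ, q⟫ := by
  obtain ⟨c, ε, hε, hc, hball⟩ := hf
  set v : E3 := ℓ - ⟪u i, ℓ⟫ • u i with hv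
  have hv0 : v ≠ 0 := by
    intro h0
    apply hℓ
    rw [sub_eq_zero.1 h0]
    exact Submodule.smul_mem _ _ (Submodule.mem_span_singleton_self _)
  have huv : ⟪u i, v⟫ = 0 := by
    rw [hv, inner_sub_right, inner_smul_right, real_inner_self_eq_norm_sq, hu]
    ring
  have hlv : ⟪ℓ, v⟫ = ‖v‖ ^ 2 := by
    have h1 : ℓ = v + ⟪u i, ℓ⟫ • u i := by
      rw [hv, sub_add_cancel]
    calc ⟪ℓ, v⟫ = ⟪v + ⟪u i, ℓ⟫ • u i, v⟫ := by rw [← h1]
      _ = ‖v‖ ^ 2 := by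
          rw [inner_add_left, inner_smul_left, huv, mul_zero, add_zero, real_inner_self_eq_norm_sq]
  have hvp : 0 < ‖v‖ ^ 2 := by
    have := norm_pos_iff.2 hv0
    positivity
  obtain ⟨δ, hδ, h1, h2⟩ := fat_move hε hc hball hv0 huv
  refine ⟨_, h2, _, h1, ?_⟩
  rw [inner_add_right, inner_add_right, inner_smul_right, inner_smul_right, hlv]
  nlinarith

/-- Two points of a convex set at the same height moved towards a third point. -/
theorem two_between {F : Set E3} (hF : Convex ℝ F) {ℓ x y q : E3} (hx : x ∈ F) (hy : y ∈ F)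
    (hq : q ∈ F) (hxy : x ≠ y) (hh : ⟪ℓ, x⟫ = ⟪ℓ, y⟫) {t : ℝ} (ht0 : 0 ≤ t) (ht1 : t < 1) {z : ℝ}
    (hz : (1 - t) * ⟪ℓ, x⟫ + t * ⟪ℓ, q⟫ = z) :
    ∃ x' ∈ F, ∃ y' ∈ F, x' ≠ y' ∧ ⟪ℓ, x'⟫ = z ∧ ⟪ℓ, y'⟫ = z := by
  refine ⟨(1 - t) • x + t • q, hF hx hq (by linarith) ht0 (by ring), (1 - t) • y + t • q,
    hF hy hq (by linarith) ht0 (by ring), ?_, ?_, ?_⟩
  · intro h1
    apply hxy
    have h2 : (1 - t) • x = (1 - t) • y := add_right_cancel h1
    have h3 : (1 - t) ≠ 0 := by linarith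
    exact smul_right_injective E3 h3 h2
  · rw [inner_add_right, inner_smul_right, inner_smul_right, hz]
  · rw [inner_add_right, inner_smul_right, inner_smul_right, ← hh, hz]

/-- D3. The section of a fat face at an intermediate height has at least two points. -/
theorem section_two {ι : Type} {u : ι → E3} {h : ι → ℝ} {i : ι} (hu : ‖u i‖ = 1)
    (hf : Fat u h i) {ℓ : E3} (hℓ : ℓ ∉ Submodule.span ℝ {u i}) {p q : E3} (hp : p ∈ FF u h i)
    (hq : q ∈ FF u h i) {z : ℝ} (hz1 : ⟪ℓ, p⟫ < z) (hz2 : z < ⟪ℓ, q⟫) :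
    ∃ x ∈ FF u h i, ∃ y ∈ FF u h i, x ≠ y ∧ ⟪ℓ, x⟫ = z ∧ ⟪ℓ, y⟫ = z := by
  obtain ⟨c, ε, hε, hc, hball⟩ := hf
  -- a common orthogonal direction
  obtain ⟨d, hd0, hud, hld⟩ : ∃ d : E3, d ≠ 0 ∧ ⟪u i, d⟫ = 0 ∧ ⟪ℓ, d⟫ = 0 := by
    let S : Submodule ℝ E3 := Submodule.span ℝ {u i, ℓ}
    have h1 : finrank ℝ S ≤ 2 := by
      have h2 := finrank_span_finset_le_card (R := ℝ) (M := E3) ({u i, ℓ} : Finset E3)
      have h3 : ((({u i, ℓ} : Finset E3) : Set E3)) = {u i, ℓ} := by simp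
      rw [Set.finrank, h3] at h2
      exact h2.trans Finset.card_le_two
    have h2 : finrank ℝ S + finrank ℝ Sᗮ = 3 := by
      rw [Submodule.finrank_add_finrank_orthogonal, finrank_euclideanSpace, Fintype.card_fin]
    have h3 : Sᗮ ≠ ⊥ := by
      intro h4
      rw [h4, finrank_bot] at h2
      omega
    obtain ⟨d, hd, hd0⟩ := Submodule.exists_mem_ne_zero_of_ne_bot h3
    refine ⟨d, hd0, ?_, ?_⟩
    · exact (Submodule.mem_orthogonal _ _).1 hd _ (Submodule.subset_span (by simp))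
    · exact (Submodule.mem_orthogonal _ _).1 hd _ (Submodule.subset_span (by simp))
  obtain ⟨δ, hδ, h1, h2⟩ := fat_move hε hc hball hd0 hud
  have e1 : ⟪ℓ, c + δ • d⟫ = ⟪ℓ, c⟫ := by
    rw [inner_add_right, inner_smul_right, hld, mul_zero, add_zero]
  have e2 : ⟪ℓ, c + (-δ) • d⟫ = ⟪ℓ, c⟫ := by
    rw [inner_add_right, inner_smul_right, hld, mul_zero, add_zero]
  have hne : c + δ • d ≠ c + (-δ) • d := by
    intro h3
    have h4 : δ • d = (-δ) • d := add_left_cancel h3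
    have h5 : δ = -δ := smul_left_injective ℝ hd0 h4
    linarith
  have hconv := convex_FF u h i
  rcases lt_trichotomy z ⟪ℓ, c⟫ with hz | hz | hz
  · have h3 : 0 < ⟪ℓ, c⟫ - ⟪ℓ, p⟫ := by linarith
    refine two_between hconv h1 h2 hp hne (e1.trans e2.symm)
      (t := (⟪ℓ, c⟫ - z) / (⟪ℓ, c⟫ - ⟪ℓ, p⟫)) (div_nonneg (by linarith) h3.le)
      ((div_lt_one h3).2 (by linarith)) ?_
    rw [e1]
    field_simp
    ring
  · exact ⟨_, h1, _, h2, hne, e1.trans hz.symm, e2.trans hz.symm⟩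
  · have h3 : 0 < ⟪ℓ, q⟫ - ⟪ℓ, c⟫ := by linarith
    refine two_between hconv h1 h2 hq hne (e1.trans e2.symm)
      (t := (z - ⟪ℓ, c⟫) / (⟪ℓ, q⟫ - ⟪ℓ, c⟫)) (div_nonneg (by linarith) h3.le)
      ((div_lt_one h3).2 (by linarith)) ?_
    rw [e1]
    field_simp
    ring

end Pool.Agent.Helper65.PK
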