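import Pool.Agent.Helper65.PK.Basic

/-!
# Project PK, piece D4

For `q = x` or `y` (a point of `P` at the height of `m`):
`⟪u k, q - m⟫ = α ⟪u i, q - m⟫ + β ⟪u j, q - m⟫ + γ 0`, `⟪u i, q - m⟫ = ⟪u i, q⟫ - h i ≤ 0` etc.,
and the left side is `h k - ⟪u k, m⟫ ≥ 0`. So all terms vanish: if `α > 0` then `x, y ∈ F_i`, if
`β > 0` then `x, y ∈ F_j`. The vector `v = y - x ≠ 0` is orthogonal to `ℓ` and `u k`, and to `u i` if
`α > 0`, to `u j` if `β > 0`. Genericity: for `a ≠ b` with `u a ≠ ± u b` (linearly independent) the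
three vectors `u a, u b, ℓ` are linearly independent, so no nonzero `v` is orthogonal to all three;
use (k, i) or (k, j) (`u k ≠ - u i` by `ne_neg_of_mem`, since `x ∈ F_i ∩ F_k`). If `α = β = 0` then
`u k = γ ℓ`, `ℓ ∈ span {u k, u k}`: contradiction.
-/

namespace Pool.Agent.Helper65.PK

open MeasureTheory Module Set
open scoped ENNReal RealInnerProductSpace

/-- A vector orthogonal to two different, not opposite unit vectors and to a vector outside their
span vanishes. -/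
private theorem D4_aux {a b l v : E3} (ha : ‖a‖ = 1) (hb : ‖b‖ = 1) (hab : a ≠ b) (hab' : b ≠ -a)
    (hl : l ∉ Submodule.span ℝ {a, b}) (hva : ⟪a, v⟫ = 0) (hvb : ⟪b, v⟫ = 0)
    (hvl : ⟪l, v⟫ = 0) : v = 0 := by
  have ha0 : a ≠ 0 := by
    intro e
    rw [e, norm_zero] at ha
    exact zero_ne_one ha
  have hli : LinearIndependent ℝ ![a, b] := by
    rw [LinearIndependent.pair_iff' ha0]
    intro c hc
    have h1 : |c| = 1 := by
      have := congrArg norm hc
      rwa [norm_smul, ha, hb, mul_one, Real.norm_eq_abs] at this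
    rcases (abs_eq zero_le_one).1 h1 with h2 | h2
    · rw [h2, one_smul] at hc
      exact hab hc
    · rw [h2, neg_one_smul] at hc
      exact hab' hc.symm
  set K : Submodule ℝ E3 := Submodule.span ℝ {a, b} with hK
  have hKf : finrank ℝ K = 2 := by
    have h1 : Set.range ![a, b] = {a, b} := by simp [Set.pair_comm]
    rw [hK, ← h1, finrank_span_eq_card hli, Fintype.card_fin]
  have hlt : K < K ⊔ Submodule.span ℝ {l} := by
    refine lt_of_le_of_ne le_sup_left fun e => hl ?_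
    rw [e]
    exact Submodule.mem_sup_right (Submodule.mem_span_singleton_self l)
  have h2 := Submodule.finrank_lt_finrank_of_lt hlt
  have hE : finrank ℝ E3 = 3 := by simp
  have h3 := Submodule.finrank_le (K ⊔ Submodule.span ℝ {l})
  have htop : K ⊔ Submodule.span ℝ {l} = ⊤ := by
    apply Submodule.eq_top_of_finrank_eq
    omega
  have hv : v ∈ K ⊔ Submodule.span ℝ {l} := by rw [htop]; exact Submodule.mem_top
  obtain ⟨y, hy, z, hz, hyz⟩ := Submodule.mem_sup.1 hv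
  obtain ⟨s, t, rfl⟩ := Submodule.mem_span_pair.1 hy
  obtain ⟨r, rfl⟩ := Submodule.mem_span_singleton.1 hz
  have h4 : ⟪v, v⟫ = 0 := by
    nth_rewrite 1 [← hyz]
    rw [inner_add_left, inner_add_left, inner_smul_left, inner_smul_left, inner_smul_left, hva,
      hvb, hvl]
    simp
  exact inner_self_eq_zero.1 h4

/-- D4. No active normal lies in the cone of two adjacent ones. -/
theorem no_between {ι : Type} {u : ι → E3} {h : ι → ℝ} (hu : ∀ i, ‖u i‖ = 1)
    (hint : (interior (PP u h)).Nonempty) {ℓ : E3}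
    (hℓ : ∀ i j, ℓ ∉ Submodule.span ℝ {u i, u j}) {i j k : ι} (hik : u i ≠ u k)
    (hjk : u j ≠ u k) {m x y : E3} (hmi : m ∈ FF u h i) (hmj : m ∈ FF u h j)
    (hx : x ∈ FF u h k) (hy : y ∈ FF u h k) (hxy : x ≠ y) (hlx : ⟪ℓ, x⟫ = ⟪ℓ, m⟫)
    (hly : ⟪ℓ, y⟫ = ⟪ℓ, m⟫) {α β γ : ℝ} (hα : 0 ≤ α) (hβ : 0 ≤ β)
    (hc : u k = α • u i + β • u j + γ • ℓ) : False := by
  have key : ∀ q : E3, q ∈ FF u h k → ⟪ℓ, q⟫ = ⟪ℓ, m⟫ →
      α * (⟪u i, q⟫ - h i) = 0 ∧ β * (⟪u j, q⟫ - h j) = 0 := by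
    intro q hq hlq
    have h1 : ⟪u k, q⟫ - ⟪u k, m⟫ = α * (⟪u i, q⟫ - h i) + β * (⟪u j, q⟫ - h j) := by
      rw [← hmi.2, ← hmj.2, hc]
      simp only [inner_add_left, inner_smul_left, RCLike.conj_to_real]
      rw [hlq]
      ring
    have h2 : 0 ≤ ⟪u k, q⟫ - ⟪u k, m⟫ := by
      rw [hq.2]
      exact sub_nonneg.2 (hmi.1 k)
    have h3 : α * (⟪u i, q⟫ - h i) ≤ 0 :=
      mul_nonpos_of_nonneg_of_nonpos hα (sub_nonpos.2 (hq.1 i))
    have h4 : β * (⟪u j, q⟫ - h j) ≤ 0 :=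
      mul_nonpos_of_nonneg_of_nonpos hβ (sub_nonpos.2 (hq.1 j))
    constructor <;> linarith
  have hv0 : y - x ≠ 0 := sub_ne_zero.2 hxy.symm
  have hvl : ⟪ℓ, y - x⟫ = 0 := by rw [inner_sub_right, hly, hlx, sub_self]
  have hvk : ⟪u k, y - x⟫ = 0 := by rw [inner_sub_right, hy.2, hx.2, sub_self]
  obtain ⟨hxi, hxj⟩ := key x hx hlx
  obtain ⟨hyi, hyj⟩ := key y hy hly
  rcases hα.eq_or_lt with hα0 | hα0
  · rcases hβ.eq_or_lt with hβ0 | hβ0
    · rw [← hα0, ← hβ0, zero_smul, zero_smul, zero_add, zero_add] at hc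
      have hγ : γ ≠ 0 := by
        intro e
        have h1 := hu k
        rw [hc, e, zero_smul, norm_zero] at h1
        exact zero_ne_one h1
      apply hℓ k k
      have h1 : ℓ = γ⁻¹ • u k := by rw [hc, smul_smul, inv_mul_cancel₀ hγ, one_smul]
      rw [h1]
      exact Submodule.smul_mem _ _ (Submodule.subset_span (by simp))
    · have h1 : ⟪u j, x⟫ = h j := by
        have := (mul_eq_zero.1 hxj).resolve_left hβ0.ne'
        linarith
      have h2 : ⟪u j, y⟫ = h j := by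
        have := (mul_eq_zero.1 hyj).resolve_left hβ0.ne'
        linarith
      have h3 : u k ≠ -u j := ne_neg_of_mem hu hint (x := x) ⟨hx.1, h1⟩ hx
      refine hv0 (D4_aux (hu j) (hu k) hjk h3 (hℓ j k) ?_ hvk hvl)
      rw [inner_sub_right, h2, h1, sub_self]
  · have h1 : ⟪u i, x⟫ = h i := by
      have := (mul_eq_zero.1 hxi).resolve_left hα0.ne'
      linarith
    have h2 : ⟪u i, y⟫ = h i := by
      have := (mul_eq_zero.1 hyi).resolve_left hα0.ne'
      linarith
    have h3 : u k ≠ -u i := ne_neg_of_mem hu hint (x := x) ⟨hx.1, h1⟩ hx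
    refine hv0 (D4_aux (hu i) (hu k) hik h3 (hℓ i k) ?_ hvk hvl)
    rw [inner_sub_right, h2, h1, sub_self]

end Pool.Agent.Helper65.PK
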