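import Mathlib

/-!
# Project PK, piece D5

Write `a = |a| e^{iA}` etc. (`Complex.norm_mul_exp_arg_mul_I`, `Complex.norm_mul_cos_add_sin_mul_I`).
`c = α a + β b` with `α = |c| sin (B - C) / (|a| sin (B - A))`,
`β = |c| sin (C - A) / (|b| sin (B - A))` (inner: `0 < B - A < π`, all sines nonnegative); outer:
`B - A > π`, `sin (B - A) < 0`, and for `C ≤ A`: `B - C ∈ (π, 2π)`, `C - A ∈ (-π, 0]`, both sines
`≤ 0` (`-π < A, C`, `B ≤ π`); for `C ≥ B` similarly.
-/

namespace Pool.Agent.Helper65.PK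

open MeasureTheory Module Set
open scoped ENNReal RealInnerProductSpace

/-- The decomposition of `c` along `a` and `b`. -/
private theorem cone_decomp {a b c : ℂ} (ha : a ≠ 0) (hb : b ≠ 0)
    (hs : Real.sin (b.arg - a.arg) ≠ 0) :
    c = ((‖c‖ * Real.sin (b.arg - c.arg) / (‖a‖ * Real.sin (b.arg - a.arg)) : ℝ) : ℂ) * a +
      ((‖c‖ * Real.sin (c.arg - a.arg) / (‖b‖ * Real.sin (b.arg - a.arg)) : ℝ) : ℂ) * b := by
  have ha' : ‖a‖ ≠ 0 := norm_ne_zero_iff.2 ha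
  have hb' : ‖b‖ ≠ 0 := norm_ne_zero_iff.2 hb
  have h1 : (‖c‖ * Real.sin (b.arg - c.arg) / (‖a‖ * Real.sin (b.arg - a.arg))) =
      ‖c‖ * Real.sin (b.arg - c.arg) / Real.sin (b.arg - a.arg) / ‖a‖ := by
    field_simp
  have h2 : (‖c‖ * Real.sin (c.arg - a.arg) / (‖b‖ * Real.sin (b.arg - a.arg))) =
      ‖c‖ * Real.sin (c.arg - a.arg) / Real.sin (b.arg - a.arg) / ‖b‖ := by
    field_simp
  rw [h1, h2]
  apply Complex.ext
  · rw [Complex.add_re, Complex.re_ofReal_mul, Complex.re_ofReal_mul,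
      ← Complex.norm_mul_cos_arg a, ← Complex.norm_mul_cos_arg b, ← Complex.norm_mul_cos_arg c,
      ← mul_assoc, ← mul_assoc, div_mul_cancel₀ _ ha', div_mul_cancel₀ _ hb']
    rw [div_mul_eq_mul_div, div_mul_eq_mul_div, ← add_div, eq_div_iff hs]
    rw [Real.sin_sub, Real.sin_sub, Real.sin_sub]
    ring
  · rw [Complex.add_im, Complex.im_ofReal_mul, Complex.im_ofReal_mul,
      ← Complex.norm_mul_sin_arg a, ← Complex.norm_mul_sin_arg b, ← Complex.norm_mul_sin_arg c,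
      ← mul_assoc, ← mul_assoc, div_mul_cancel₀ _ ha', div_mul_cancel₀ _ hb']
    rw [div_mul_eq_mul_div, div_mul_eq_mul_div, ← add_div, eq_div_iff hs]
    rw [Real.sin_sub, Real.sin_sub, Real.sin_sub]
    ring

/-- D5. -/
theorem cone_inner {a b c : ℂ} (ha : a ≠ 0) (hb : b ≠ 0) (h0 : a.arg < b.arg)
    (h1 : b.arg - a.arg < Real.pi) (h2 : a.arg ≤ c.arg) (h3 : c.arg ≤ b.arg) :
    ∃ α β : ℝ, 0 ≤ α ∧ 0 ≤ β ∧ c = α * a + β * b := by
  have hs : 0 < Real.sin (b.arg - a.arg) := Real.sin_pos_of_pos_of_lt_pi (by linarith) h1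
  have hs1 : 0 ≤ Real.sin (b.arg - c.arg) :=
    Real.sin_nonneg_of_nonneg_of_le_pi (by linarith) (by linarith)
  have hs2 : 0 ≤ Real.sin (c.arg - a.arg) :=
    Real.sin_nonneg_of_nonneg_of_le_pi (by linarith) (by linarith)
  refine ⟨_, _, ?_, ?_, cone_decomp ha hb hs.ne'⟩
  · positivity
  · positivity

private theorem sin_nonpos_of {x : ℝ} (h : Real.pi ≤ x) (h' : x ≤ 2 * Real.pi) :
    Real.sin x ≤ 0 := by
  have h1 : Real.sin (x - Real.pi) = -Real.sin x := Real.sin_sub_pi x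
  have h2 : 0 ≤ Real.sin (x - Real.pi) :=
    Real.sin_nonneg_of_nonneg_of_le_pi (by linarith) (by linarith)
  linarith

/-- D5. -/
theorem cone_outer {a b c : ℂ} (ha : a ≠ 0) (hb : b ≠ 0) (h1 : Real.pi < b.arg - a.arg)
    (h2 : c.arg ≤ a.arg ∨ b.arg ≤ c.arg) :
    ∃ α β : ℝ, 0 ≤ α ∧ 0 ≤ β ∧ c = α * a + β * b := by
  have hA := Complex.neg_pi_lt_arg a
  have hB := Complex.arg_le_pi b
  have hC := Complex.neg_pi_lt_arg c
  have hC' := Complex.arg_le_pi c
  have hs : Real.sin (b.arg - a.arg) < 0 := by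
    have h3 : Real.sin (b.arg - a.arg - Real.pi) = -Real.sin (b.arg - a.arg) :=
      Real.sin_sub_pi _
    have h4 : 0 < Real.sin (b.arg - a.arg - Real.pi) :=
      Real.sin_pos_of_pos_of_lt_pi (by linarith) (by linarith)
    linarith
  have hs12 : Real.sin (b.arg - c.arg) ≤ 0 ∧ Real.sin (c.arg - a.arg) ≤ 0 := by
    rcases h2 with h2 | h2
    · exact ⟨sin_nonpos_of (by linarith) (by linarith),
        Real.sin_nonpos_of_nonpos_of_neg_pi_le (by linarith) (by linarith)⟩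
    · exact ⟨Real.sin_nonpos_of_nonpos_of_neg_pi_le (by linarith) (by linarith),
        sin_nonpos_of (by linarith) (by linarith)⟩
  refine ⟨_, _, ?_, ?_, cone_decomp ha hb hs.ne⟩
  · exact div_nonneg_of_nonpos (mul_nonpos_of_nonneg_of_nonpos (norm_nonneg _) hs12.1)
      (mul_nonpos_of_nonneg_of_nonpos (norm_nonneg _) hs.le)
  · exact div_nonneg_of_nonpos (mul_nonpos_of_nonneg_of_nonpos (norm_nonneg _) hs12.2)
      (mul_nonpos_of_nonneg_of_nonpos (norm_nonneg _) hs.le)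

/-- D5. -/
theorem dep_of_arg_eq {a b : ℂ} (ha : a ≠ 0) (hb : b ≠ 0)
    (h : a.arg = b.arg ∨ b.arg - a.arg = Real.pi) : ∃ t : ℝ, b = t * a := by
  rcases h with h | h
  · refine ⟨‖b‖ / ‖a‖, ?_⟩
    have h1 := (Complex.arg_eq_arg_iff ha hb).1 h
    rw [Complex.ofReal_div]
    exact h1.symm
  · refine ⟨-(‖b‖ / ‖a‖), ?_⟩
    have ha' : ‖a‖ ≠ 0 := norm_ne_zero_iff.2 ha
    have hB : b.arg = a.arg + Real.pi := by linarith
    apply Complex.ext
    · rw [Complex.re_ofReal_mul, ← Complex.norm_mul_cos_arg a, ← Complex.norm_mul_cos_arg b, hB,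
        Real.cos_add_pi]
      field_simp
    · rw [Complex.im_ofReal_mul, ← Complex.norm_mul_sin_arg a, ← Complex.norm_mul_sin_arg b, hB,
        Real.sin_add_pi]
      field_simp

end Pool.Agent.Helper65.PK
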