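import Pool.Agent.Helper65.PK.P.D1c
import Pool.Agent.Helper65.PK.P.D2
import Pool.Agent.Helper65.PK.P.D3
import Pool.Agent.Helper65.PK.P.D4
import Pool.Agent.Helper65.PK.P.D5

/-!
# Project PK, piece D6

From D1c-D5. Take `ℓ` from D2, an orthonormal basis `e₁, e₂, ℓ`, `a i = ⟪e₁, u i⟫ + ⟪e₂, u i⟫ I`
(nonzero as `u i ∉ ℝ ℓ`), `θ i = arg (a i)`, `lo i = sInf`, `hi i = sSup` of `⟪ℓ, ·⟫` on `F_i`
(compact, nonempty; `lo i < hi i` by `facet_height`). `S` = pairs `(i, j)` in `I × I`, `i ≠ j`, with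
`F_i ∩ F_j` nontrivial and `θ i < θ j`. For such a pair let `x ≠ y ∈ F_i ∩ F_j`,
`⟪ℓ, x⟫ ≠ ⟪ℓ, y⟫` (else `y - x ⟂ u i, u j, ℓ`, which are independent), `m` the midpoint,
`z = ⟪ℓ, m⟫`. `a i`, `a j` are independent over `ℝ` (else `ℓ ∈ span {u i, u j}`; `u j ≠ ± u i`), so by
`dep_of_arg_eq` `θ i ≠ θ j` and `θ j - θ i ≠ π`: if `< π` use `cone_inner`, if `> π` `cone_outer`,
then `no_between` with `γ` from `u k - α u i - β u j ⟂ e₁, e₂`. An active `k` (`lo k < z < hi k`)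
has two points of `F_k` at height `z` by `section_two` (`exists_lt_of_csInf_lt`).
So `#S + 6 ≤ 3 #I`, and `Σ_{i ∈ I} nb u h I i = 2 #S` (each unordered pair once in `S`).
-/

namespace Pool.Agent.Helper65.PK

open MeasureTheory Module Set
open scoped ENNReal RealInnerProductSpace

namespace D6

/-- A linear map to the complex plane whose kernel is the line of `ℓ`. -/
lemma exists_proj {ℓ : E3} (hℓ : ℓ ≠ 0) :
    ∃ A : E3 →ₗ[ℝ] ℂ, ∀ v, A v = 0 → ∃ γ : ℝ, v = γ • ℓ := by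
  have : Fact (finrank ℝ E3 = 2 + 1) := ⟨by simp⟩
  have h2 : finrank ℝ (ℝ ∙ ℓ)ᗮ = finrank ℝ ℂ := by
    rw [Submodule.finrank_orthogonal_span_singleton (n := 2) hℓ, Complex.finrank_real_complex]
  let e : (ℝ ∙ ℓ)ᗮ ≃ₗ[ℝ] ℂ := LinearEquiv.ofFinrankEq _ _ h2
  refine ⟨e.toLinearMap ∘ₗ ((ℝ ∙ ℓ)ᗮ.orthogonalProjectionOnto).toLinearMap, ?_⟩
  intro v hv
  have h3 : (ℝ ∙ ℓ)ᗮ.orthogonalProjectionOnto v = 0 := by
    apply e.injective
    rw [map_zero]
    exact hv
  rw [Submodule.orthogonalProjectionOnto_eq_zero_iff, Submodule.orthogonal_orthogonal,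
    Submodule.mem_span_singleton] at h3
  obtain ⟨γ, hγ⟩ := h3
  exact ⟨γ, hγ.symm⟩

/-- Two unit vectors which are not equal or opposite are independent. -/
lemma smul_ne {a b : E3} (ha : ‖a‖ = 1) (hb : ‖b‖ = 1) (h1 : b ≠ a) (h2 : b ≠ -a) (t : ℝ) :
    t • a ≠ b := by
  intro h
  have h3 : |t| = 1 := by
    have := congrArg norm h
    rwa [norm_smul, ha, hb, mul_one, Real.norm_eq_abs] at this
  rcases eq_or_eq_neg_of_abs_eq h3 with h4 | h4
  · apply h1
    rw [← h, h4, one_smul]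
  · apply h2
    rw [← h, h4, neg_smul, one_smul]

/-- A vector orthogonal to three independent ones is zero. -/
lemma eq_zero_of_orth {a b l v : E3} (ha : ‖a‖ = 1) (hb : ‖b‖ = 1) (h1 : b ≠ a) (h2 : b ≠ -a)
    (hl : l ∉ Submodule.span ℝ {a, b}) (hva : ⟪a, v⟫ = 0) (hvb : ⟪b, v⟫ = 0)
    (hvl : ⟪l, v⟫ = 0) : v = 0 := by
  have ha0 : a ≠ 0 := by
    intro h0
    rw [h0, norm_zero] at ha
    exact zero_ne_one ha
  have hab : LinearIndependent ℝ ![a, b] :=
    (LinearIndependent.pair_iff' ha0).mpr (smul_ne ha hb h1 h2)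
  have h3 : LinearIndependent ℝ ![l, a, b] := by
    refine linearIndependent_finCons.mpr ⟨hab, ?_⟩
    rwa [Matrix.range_cons, Matrix.range_cons, Matrix.range_empty, union_empty,
      singleton_union]
  have h4 : Submodule.span ℝ (range ![l, a, b]) = ⊤ :=
    h3.span_eq_top_of_card_eq_finrank' (by simp)
  have h5 : ∀ w ∈ Submodule.span ℝ (range ![l, a, b]), ⟪w, v⟫ = 0 := by
    intro w hw
    induction hw using Submodule.span_induction with
    | mem x hx =>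
      obtain ⟨i, rfl⟩ := hx
      fin_cases i
      · exact hvl
      · exact hva
      · exact hvb
    | zero => exact inner_zero_left v
    | add x y _ _ hx hy => rw [inner_add_left, hx, hy, add_zero]
    | smul c x _ hx => rw [inner_smul_left, hx, mul_zero]
  have h6 := h5 v (by rw [h4]; trivial)
  rwa [inner_self_eq_zero] at h6

open Classical in
/-- The sum of the numbers of neighbours is the number of ordered pairs. -/
lemma sum_nb {ι : Type} (u : ι → E3) (h : ι → ℝ) (I : Finset ι) :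
    ∑ i ∈ I, nb u h I i =
      ((I ×ˢ I).filter fun p => p.2 ≠ p.1 ∧ (FF u h p.1 ∩ FF u h p.2).Nontrivial).card := by
  rw [Finset.card_filter, Finset.sum_product]
  refine Finset.sum_congr rfl fun i _ => ?_
  rw [nb, Finset.card_filter]

end D6

open D6 in
/-- D6. The planarity of the facet adjacency graph (restricted to the facets in `I`). -/
theorem planar {ι : Type} [Fintype ι] [DecidableEq ι] {u : ι → E3} {h : ι → ℝ}
    (hu : ∀ i, ‖u i‖ = 1) (hb : Bornology.IsBounded (PP u h))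
    (hint : (interior (PP u h)).Nonempty) (I : Finset ι) (hinj : Set.InjOn u ↑I)
    (hfat : ∀ i ∈ I, Fat u h i) (h3 : 3 ≤ I.card) :
    ∑ i ∈ I, nb u h I i + 12 ≤ 6 * I.card := by
  classical
  obtain ⟨ℓ, hℓ1, hℓ⟩ := exists_generic u
  have hℓ0 : ℓ ≠ 0 := by
    intro h0
    rw [h0, norm_zero] at hℓ1
    exact zero_ne_one hℓ1
  obtain ⟨A, hA⟩ := exists_proj hℓ0
  -- a combination which is a multiple of `ℓ`
  have hspan : ∀ i j : ι, ∀ s t γ : ℝ, s • u i + t • u j = γ • ℓ → γ = 0 := by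
    intro i j s t γ hst
    by_contra hγ
    apply hℓ i j
    have : ℓ = γ⁻¹ • (s • u i + t • u j) := by
      rw [hst, smul_smul, inv_mul_cancel₀ hγ, one_smul]
    rw [this]
    apply Submodule.smul_mem
    apply Submodule.add_mem
    · exact Submodule.smul_mem _ _ (Submodule.subset_span (by simp))
    · exact Submodule.smul_mem _ _ (Submodule.subset_span (by simp))
  have ha0 : ∀ i, A (u i) ≠ 0 := by
    intro i hi
    obtain ⟨γ, hγ⟩ := hA _ hi
    have h0 : γ = 0 := by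
      apply hspan i i 1 0 γ
      rw [one_smul, zero_smul, add_zero, hγ]
    rw [h0, zero_smul] at hγ
    have := hu i
    rw [hγ, norm_zero] at this
    exact zero_ne_one this
  set θ : ι → ℝ := fun i => (A (u i)).arg with hθ
  set T : ι → Set ℝ := fun i => (fun x => ⟪ℓ, x⟫) '' FF u h i with hT
  have hcont : Continuous fun x : E3 => ⟪ℓ, x⟫ := by fun_prop
  have hTc : ∀ i, IsCompact (T i) := fun i => (isCompact_FF hb i).image hcont
  have hlo : ∀ i, ∀ x ∈ FF u h i, sInf (T i) ≤ ⟪ℓ, x⟫ := fun i x hx =>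
    csInf_le (hTc i).bddBelow (mem_image_of_mem _ hx)
  have hhi : ∀ i, ∀ x ∈ FF u h i, ⟪ℓ, x⟫ ≤ sSup (T i) := fun i x hx =>
    le_csSup (hTc i).bddAbove (mem_image_of_mem _ hx)
  have hℓ' : ∀ i, ℓ ∉ Submodule.span ℝ {u i} := by
    intro i
    have := hℓ i i
    rwa [Set.pair_eq_singleton] at this
  have hlt : ∀ i ∈ I, sInf (T i) < sSup (T i) := by
    intro i hi
    obtain ⟨p, hp, q, hq, hpq⟩ := facet_height (hu i) (hfat i hi) (hℓ' i)
    exact lt_of_le_of_lt (hlo i p hp) (lt_of_lt_of_le hpq (hhi i q hq))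
  -- sections
  have hsec : ∀ k ∈ I, ∀ z : ℝ, sInf (T k) < z → z < sSup (T k) →
      ∃ x ∈ FF u h k, ∃ y ∈ FF u h k, x ≠ y ∧ ⟪ℓ, x⟫ = z ∧ ⟪ℓ, y⟫ = z := by
    intro k hk z h1 h2
    have hne : (T k).Nonempty := by
      obtain ⟨p, hp, -⟩ := facet_height (hu k) (hfat k hk) (hℓ' k)
      exact ⟨_, mem_image_of_mem _ hp⟩
    obtain ⟨_, ⟨p, hp, rfl⟩, hpz⟩ := exists_lt_of_csInf_lt hne h1
    obtain ⟨_, ⟨q, hq, rfl⟩, hqz⟩ := exists_lt_of_lt_csSup hne h2
    exact section_two (hu k) (hfat k hk) (hℓ' k) hp hq hpz hqz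
  -- independence of neighbours
  have hind : ∀ i ∈ I, ∀ j ∈ I, j ≠ i → (FF u h i ∩ FF u h j).Nonempty →
      ∀ t : ℝ, A (u j) ≠ t * A (u i) := by
    intro i hi j hj hji hne t ht
    have h1 : A (u j - t • u i) = 0 := by
      rw [map_sub, map_smul, ht, Complex.real_smul, sub_self]
    obtain ⟨γ, hγ⟩ := hA _ h1
    have h0 : γ = 0 := by
      apply hspan j i 1 (-t) γ
      rw [← hγ, one_smul, neg_smul]
      abel
    rw [h0, zero_smul, sub_eq_zero] at hγ
    refine smul_ne (hu i) (hu j) ?_ (ne_neg_of_nonempty hu hint hne) t hγ.symm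
    intro hij
    exact hji (hinj hj hi hij)
  set P := (I ×ˢ I).filter fun p => p.2 ≠ p.1 ∧ (FF u h p.1 ∩ FF u h p.2).Nontrivial with hP
  set S := P.filter fun p => θ p.1 < θ p.2 with hS
  have hmemP : ∀ p, p ∈ P ↔ (p.1 ∈ I ∧ p.2 ∈ I) ∧ p.2 ≠ p.1 ∧
      (FF u h p.1 ∩ FF u h p.2).Nontrivial := by
    intro p
    rw [hP, Finset.mem_filter, Finset.mem_product]
  have hθne : ∀ p ∈ P, θ p.1 ≠ θ p.2 := by
    intro p hp he
    obtain ⟨⟨h1, h2⟩, h4, h5⟩ := (hmemP p).mp hp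
    obtain ⟨t, ht⟩ := dep_of_arg_eq (ha0 p.1) (ha0 p.2) (Or.inl he)
    exact hind p.1 h1 p.2 h2 h4 h5.nonempty t ht
  -- the count of the pairs
  have hcount : P.card = 2 * S.card := by
    have h1 : (P.filter fun p => ¬ θ p.1 < θ p.2).card = S.card := by
      refine Finset.card_bij (fun p _ => (p.2, p.1)) ?_ ?_ ?_
      · intro p hp
        rw [Finset.mem_filter] at hp
        have h2 := hθne p hp.1
        obtain ⟨⟨h3, h4⟩, h5, h6⟩ := (hmemP p).mp hp.1
        rw [hS, Finset.mem_filter, hmemP]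
        refine ⟨⟨⟨h4, h3⟩, h5.symm, ?_⟩, ?_⟩
        · rwa [inter_comm] at h6
        · exact lt_of_le_of_ne (not_lt.mp hp.2) h2.symm
      · intro p _ q _ hpq
        rw [Prod.mk.injEq] at hpq
        exact Prod.ext hpq.2 hpq.1
      · intro p hp
        rw [hS, Finset.mem_filter] at hp
        obtain ⟨⟨h3, h4⟩, h5, h6⟩ := (hmemP p).mp hp.1
        refine ⟨(p.2, p.1), ?_, rfl⟩
        rw [Finset.mem_filter, hmemP]
        refine ⟨⟨⟨h4, h3⟩, h5.symm, ?_⟩, ?_⟩
        · rwa [inter_comm] at h6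
        · exact not_lt.mpr hp.2.le
    have h2 : S.card + (P.filter fun p => ¬ θ p.1 < θ p.2).card = P.card :=
      Finset.card_filter_add_card_filter_not (s := P) (fun p => θ p.1 < θ p.2)
    rw [h1] at h2
    omega
  -- the sweep
  have hsweep : S.card + 6 ≤ 3 * I.card := by
    refine sweep I (fun i => sInf (T i)) (fun i => sSup (T i)) θ hlt S ?_ h3
    intro p hp
    rw [hS, Finset.mem_filter] at hp
    obtain ⟨hpP, hθlt⟩ := hp
    obtain ⟨⟨hi, hj⟩, hji, x, hx, y, hy, hxy⟩ := (hmemP p).mp hpP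
    refine ⟨hi, hj, hθlt, ?_⟩
    have hne : (FF u h p.1 ∩ FF u h p.2).Nonempty := ⟨x, hx⟩
    have huji : u p.2 ≠ u p.1 := fun hij => hji (hinj hj hi hij)
    have hneg : u p.2 ≠ -u p.1 := ne_neg_of_nonempty hu hint hne
    have hlxy : ⟪ℓ, x⟫ ≠ ⟪ℓ, y⟫ := by
      intro he
      apply hxy
      have h0 : y - x = 0 := by
        refine eq_zero_of_orth (hu p.1) (hu p.2) huji hneg (hℓ p.1 p.2) ?_ ?_ ?_
        · rw [inner_sub_right, hx.1.2, hy.1.2, sub_self]
        · rw [inner_sub_right, hx.2.2, hy.2.2, sub_self]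
        · rw [inner_sub_right, he, sub_self]
      exact (sub_eq_zero.mp h0).symm
    set m : E3 := (1 / 2 : ℝ) • x + (1 / 2 : ℝ) • y with hm
    have hmi : m ∈ FF u h p.1 :=
      convex_FF u h p.1 hx.1 hy.1 (by norm_num) (by norm_num) (by norm_num)
    have hmj : m ∈ FF u h p.2 :=
      convex_FF u h p.2 hx.2 hy.2 (by norm_num) (by norm_num) (by norm_num)
    have hmz : ⟪ℓ, m⟫ = (⟪ℓ, x⟫ + ⟪ℓ, y⟫) / 2 := by
      rw [hm, inner_add_right, inner_smul_right, inner_smul_right]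
      ring
    have hlt1 : ∀ i, x ∈ FF u h i → y ∈ FF u h i →
        sInf (T i) < ⟪ℓ, m⟫ ∧ ⟪ℓ, m⟫ < sSup (T i) := by
      intro i hxi hyi
      have h1 := hlo i x hxi
      have h2 := hlo i y hyi
      have h4 := hhi i x hxi
      have h5 := hhi i y hyi
      rw [hmz]
      rcases lt_or_gt_of_ne hlxy with h6 | h6
      · constructor <;> linarith
      · constructor <;> linarith
    refine ⟨⟪ℓ, m⟫, (hlt1 p.1 hx.1 hy.1).1, (hlt1 p.1 hx.1 hy.1).2, (hlt1 p.2 hx.2 hy.2).1,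
      (hlt1 p.2 hx.2 hy.2).2, ?_⟩
    have hkey : ∀ k ∈ I, sInf (T k) < ⟪ℓ, m⟫ → ⟪ℓ, m⟫ < sSup (T k) → k ≠ p.1 → k ≠ p.2 →
        (∃ α β : ℝ, 0 ≤ α ∧ 0 ≤ β ∧ A (u k) = α * A (u p.1) + β * A (u p.2)) → False := by
      rintro k hk h1 h2 hk1 hk2 ⟨α, β, hα, hβ, hc⟩
      obtain ⟨x', hx', y', hy', hxy', hlx', hly'⟩ := hsec k hk _ h1 h2
      have h4 : A (u k - α • u p.1 - β • u p.2) = 0 := by
        rw [map_sub, map_sub, map_smul, map_smul, hc, Complex.real_smul, Complex.real_smul]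
        ring
      obtain ⟨γ, hγ⟩ := hA _ h4
      refine no_between hu hint hℓ (i := p.1) (j := p.2) (k := k) ?_ ?_ hmi hmj hx' hy' hxy'
        hlx' hly' hα hβ (γ := γ) ?_
      · intro he
        exact hk1 (hinj hk hi he.symm)
      · intro he
        exact hk2 (hinj hk hj he.symm)
      · rw [← hγ]
        abel
    have hpi : θ p.2 - θ p.1 ≠ Real.pi := by
      intro he
      obtain ⟨t, ht⟩ := dep_of_arg_eq (ha0 p.1) (ha0 p.2) (Or.inr he)
      exact hind p.1 hi p.2 hj hji hne t ht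
    rcases lt_or_gt_of_ne hpi with h6 | h6
    · left
      rintro k hk h1 h2 hk1 hk2 ⟨h7, h8⟩
      exact hkey k hk h1 h2 hk1 hk2 (cone_inner (ha0 p.1) (ha0 p.2) hθlt h6 h7 h8)
    · right
      intro k hk h1 h2 hk1 hk2 h7
      exact hkey k hk h1 h2 hk1 hk2 (cone_outer (ha0 p.1) (ha0 p.2) h6 h7)
  have hsum : ∑ i ∈ I, nb u h I i = P.card := by
    rw [sum_nb, hP]
    congr
  rw [hsum, hcount]
  omega

end Pool.Agent.Helper65.PK
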