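import Mathlib
import Pool.Agent.Helper65.PK.Defs

/-!
# Project PK, piece G1

A two-variable inequality with equality at `(π/4, π/6)`. Two proofs. (a) `f(x,y) = ½ (sin²x/sin²y - 1)
tan x` is convex on the square: with `T = tan x`, `W = cot y`: `f_yy = T³(1+3W²)(1+W²)/(1+T²) > 0`,
Hessian determinant `T⁴ (1+W²) · 2 (1 - T²W²)² / (1+T²)² ≥ 0`; apply the one-variable tangent
inequality on the segment from `(π/4, π/6)`; gradient there `(3, -2√3)`, value `1/2`.
(b) With `T, W`: `F(T,W) = ½ (T³(1+W²)/(1+T²) - T) - 3 arctan T + 2√3 (π/2 - arctan W) + c0 ≥ 0`. For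
fixed `T` it is minimal at the root `W` of `W (1+W²) T³ = 2√3 (1+T²)`; put `q = W T`, then
`T² = (q³ - 2√3)/(2√3 - q)`, `q ∈ ((2√3)^(1/3), 2√3)`, `T` increases with `q`, and along this curve
`dF/dT = ∂F/∂T = ½ ((1+W²)T²(3+T²) - (1+T²)(7+T²))/(1+T²)²` whose sign is the sign of
`√3 (w-1)(9w⁴+9w³-15w²-3w+4)`, `q = √3 w` (the quartic is positive for `w ≥ 0.8`); so the minimum is at
`T = 1, W = √3`, where it is `0`.
-/

namespace Pool.Agent.Helper65.PK

open MeasureTheory Module Set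
open scoped ENNReal RealInnerProductSpace

/-- first derivative along a segment -/
private theorem g1_d1 (x0 y0 a b t : ℝ) (hC : Real.cos (x0 + t * a) ≠ 0)
    (hP : Real.sin (y0 + t * b) ≠ 0) :
    HasDerivAt (fun t => 1 / 2 * (Real.sin (x0 + t * a) ^ 3 / Real.cos (x0 + t * a) /
        Real.sin (y0 + t * b) ^ 2 - Real.sin (x0 + t * a) / Real.cos (x0 + t * a)))
      (1 / 2 * ((2 * Real.sin (x0 + t * a) ^ 2 + Real.sin (x0 + t * a) ^ 2 /
        Real.cos (x0 + t * a) ^ 2) / Real.sin (y0 + t * b) ^ 2 * a -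
        2 * (Real.sin (x0 + t * a) ^ 3 / Real.cos (x0 + t * a)) * Real.cos (y0 + t * b) /
          Real.sin (y0 + t * b) ^ 3 * b - 1 / Real.cos (x0 + t * a) ^ 2 * a)) t := by
  have hX : HasDerivAt (fun t => x0 + t * a) a t := by
    simpa using ((hasDerivAt_id t).mul_const a).const_add x0
  have hY : HasDerivAt (fun t => y0 + t * b) b t := by
    simpa using ((hasDerivAt_id t).mul_const b).const_add y0
  have hs := hX.sin
  have hc := hX.cos
  have hp := hY.sin
  have h1 := (((hs.pow 3).div hc hC).div (hp.pow 2) (pow_ne_zero 2 hP)).sub (hs.div hc hC)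
  have h2 := h1.const_mul (1 / 2)
  refine h2.congr_deriv ?_
  have e := Real.sin_sq_add_cos_sq (x0 + t * a)
  simp only [Pi.pow_apply, Pi.div_apply]
  set S := Real.sin (x0 + t * a)
  set C := Real.cos (x0 + t * a)
  set P := Real.sin (y0 + t * b)
  set Q := Real.cos (y0 + t * b)
  field_simp
  push_cast
  linear_combination (a * P ^ 2 * S ^ 2 - a * P ^ 4) * e

/-- second derivative along a segment: a sum of squares -/
private theorem g1_d2 (x0 y0 a b t : ℝ) (hC : Real.cos (x0 + t * a) ≠ 0)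
    (hP : Real.sin (y0 + t * b) ≠ 0) :
    HasDerivAt (fun t => (1 / 2 * ((2 * Real.sin (x0 + t * a) ^ 2 + Real.sin (x0 + t * a) ^ 2 /
        Real.cos (x0 + t * a) ^ 2) / Real.sin (y0 + t * b) ^ 2 * a -
        2 * (Real.sin (x0 + t * a) ^ 3 / Real.cos (x0 + t * a)) * Real.cos (y0 + t * b) /
          Real.sin (y0 + t * b) ^ 3 * b - 1 / Real.cos (x0 + t * a) ^ 2 * a)))
      (Real.sin (x0 + t * a) / (Real.cos (x0 + t * a) ^ 3 * Real.sin (y0 + t * b) ^ 4) *
        (2 * (Real.cos (x0 + t * a) ^ 2 * (Real.sin (y0 + t * b) * a) -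
          Real.cos (y0 + t * b) * (Real.sin (x0 + t * a) * Real.cos (x0 + t * a) * b)) ^ 2 +
        (Real.cos (y0 + t * b) * (Real.sin (y0 + t * b) * a) -
          Real.sin (x0 + t * a) * Real.cos (x0 + t * a) * b) ^ 2)) t := by
  have hX : HasDerivAt (fun t => x0 + t * a) a t := by
    simpa using ((hasDerivAt_id t).mul_const a).const_add x0
  have hY : HasDerivAt (fun t => y0 + t * b) b t := by
    simpa using ((hasDerivAt_id t).mul_const b).const_add y0
  have hs := hX.sin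
  have hc := hX.cos
  have hp := hY.sin
  have hq := hY.cos
  have h1 := (((((hs.pow 2).const_mul 2).add ((hs.pow 2).div (hc.pow 2) (pow_ne_zero 2 hC))).div
    (hp.pow 2) (pow_ne_zero 2 hP)).mul_const a).sub
    ((((((hs.pow 3).div hc hC).const_mul 2).mul hq).div (hp.pow 3) (pow_ne_zero 3 hP)).mul_const b)
  have h3 := (((hasDerivAt_const t (1 : ℝ)).div (hc.pow 2) (pow_ne_zero 2 hC)).mul_const a)
  have h2 := (h1.sub h3).const_mul (1 / 2)
  refine h2.congr_deriv ?_
  have e := Real.sin_sq_add_cos_sq (x0 + t * a)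
  have e' := Real.sin_sq_add_cos_sq (y0 + t * b)
  simp only [Pi.pow_apply, Pi.div_apply, Pi.add_apply, Pi.mul_apply]
  set S := Real.sin (x0 + t * a)
  set C := Real.cos (x0 + t * a)
  set P := Real.sin (y0 + t * b)
  set Q := Real.cos (y0 + t * b)
  field_simp
  push_cast
  linear_combination (2 * C * S * P ^ 2 * (a ^ 2 * P ^ 2 - a * b * C * S * P * Q)) * e +
    (2 * C * S * P ^ 2 * (b ^ 2 * C ^ 2 * S ^ 2 - a ^ 2 * P ^ 2)) * e'

/-- G1. The tangent plane inequality. -/
theorem tangent_ineq {x y : ℝ} (hx0 : 0 < x) (hx1 : x < Real.pi / 2) (hy0 : 0 < y)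
    (hy1 : y < Real.pi / 2) :
    3 * x - 2 * √3 * y - c0 ≤
      1 / 2 * (Real.sin x ^ 2 / Real.sin y ^ 2 - 1) * Real.tan x := by
  have hpi := Real.pi_pos
  set a : ℝ := x - Real.pi / 4 with ha
  set b : ℝ := y - Real.pi / 6 with hb
  -- the segment stays in the square
  have hX : ∀ t ∈ Set.Icc (0 : ℝ) 1, 0 < Real.pi / 4 + t * a ∧ Real.pi / 4 + t * a < Real.pi / 2 := by
    rintro t ⟨h0, h1⟩
    constructor
    · have : Real.pi / 4 + t * a = (1 - t) * (Real.pi / 4) + t * x := by rw [ha]; ring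
      rw [this]
      rcases eq_or_lt_of_le h0 with h | h
      · subst h; simp; positivity
      · have h2 := mul_pos h hx0
        have h3 : 0 ≤ (1 - t) * (Real.pi / 4) := by
          apply mul_nonneg <;> linarith
        linarith
    · have h2 : t * a ≤ t * (x - Real.pi / 4) := le_of_eq rfl
      have : Real.pi / 4 + t * a = Real.pi / 2 - ((1 - t) * (Real.pi / 4) + t * (Real.pi / 2 - x)) := by
        rw [ha]; ring
      rw [this]
      rcases eq_or_lt_of_le h0 with h | h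
      · subst h; simp; positivity
      · have h2 : 0 < t * (Real.pi / 2 - x) := mul_pos h (by linarith)
        have h3 : 0 ≤ (1 - t) * (Real.pi / 4) := by
          apply mul_nonneg <;> linarith
        linarith
  have hY : ∀ t ∈ Set.Icc (0 : ℝ) 1, 0 < Real.pi / 6 + t * b ∧ Real.pi / 6 + t * b < Real.pi := by
    rintro t ⟨h0, h1⟩
    have e : Real.pi / 6 + t * b = (1 - t) * (Real.pi / 6) + t * y := by rw [hb]; ring
    rw [e]
    have h3 : 0 ≤ (1 - t) * (Real.pi / 6) := by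
      apply mul_nonneg <;> linarith
    constructor
    · rcases eq_or_lt_of_le h0 with h | h
      · subst h; simp; positivity
      · have h2 := mul_pos h hy0
        linarith
    · have h2 : t * y ≤ y := by nlinarith
      nlinarith
  have hS : ∀ t ∈ Set.Icc (0 : ℝ) 1, 0 < Real.sin (Real.pi / 4 + t * a) := fun t ht =>
    Real.sin_pos_of_pos_of_lt_pi (hX t ht).1 (by have := (hX t ht).2; linarith)
  have hC : ∀ t ∈ Set.Icc (0 : ℝ) 1, 0 < Real.cos (Real.pi / 4 + t * a) := fun t ht =>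
    Real.cos_pos_of_mem_Ioo ⟨by have := (hX t ht).1; linarith, (hX t ht).2⟩
  have hP : ∀ t ∈ Set.Icc (0 : ℝ) 1, 0 < Real.sin (Real.pi / 6 + t * b) := fun t ht =>
    Real.sin_pos_of_pos_of_lt_pi (hY t ht).1 (hY t ht).2
  -- the derivative is monotone
  have hmono : MonotoneOn (fun t => (1 / 2 * ((2 * Real.sin (Real.pi / 4 + t * a) ^ 2 +
      Real.sin (Real.pi / 4 + t * a) ^ 2 / Real.cos (Real.pi / 4 + t * a) ^ 2) /
        Real.sin (Real.pi / 6 + t * b) ^ 2 * a -
      2 * (Real.sin (Real.pi / 4 + t * a) ^ 3 / Real.cos (Real.pi / 4 + t * a)) *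
        Real.cos (Real.pi / 6 + t * b) / Real.sin (Real.pi / 6 + t * b) ^ 3 * b -
      1 / Real.cos (Real.pi / 4 + t * a) ^ 2 * a))) (Set.Icc 0 1) := by
    refine monotoneOn_of_deriv_nonneg (convex_Icc 0 1) ?_ ?_ ?_
    · intro t ht
      exact (g1_d2 _ _ a b t (hC t ht).ne' (hP t ht).ne').continuousAt.continuousWithinAt
    · intro t ht
      rw [interior_Icc] at ht
      have ht' := Set.Ioo_subset_Icc_self ht
      exact (g1_d2 _ _ a b t (hC t ht').ne' (hP t ht').ne').differentiableAt.differentiableWithinAt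
    · intro t ht
      rw [interior_Icc] at ht
      have ht' := Set.Ioo_subset_Icc_self ht
      rw [(g1_d2 _ _ a b t (hC t ht').ne' (hP t ht').ne').deriv]
      have h1 := hS t ht'
      have h2 := hC t ht'
      have h3 := hP t ht'
      positivity
  obtain ⟨c, hc, hc'⟩ := exists_hasDerivAt_eq_slope
    (fun t => 1 / 2 * (Real.sin (Real.pi / 4 + t * a) ^ 3 / Real.cos (Real.pi / 4 + t * a) /
        Real.sin (Real.pi / 6 + t * b) ^ 2 - Real.sin (Real.pi / 4 + t * a) /
          Real.cos (Real.pi / 4 + t * a)))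
    _ zero_lt_one
    (fun t ht => (g1_d1 _ _ a b t (hC t ht).ne' (hP t ht).ne').continuousAt.continuousWithinAt)
    (fun t ht => g1_d1 _ _ a b t (hC t (Set.Ioo_subset_Icc_self ht)).ne'
      (hP t (Set.Ioo_subset_Icc_self ht)).ne')
  have h0 := hmono (Set.left_mem_Icc.2 zero_le_one) (Set.Ioo_subset_Icc_self hc) hc.1.le
  beta_reduce at h0
  rw [hc'] at h0
  have e1 : Real.pi / 4 + 1 * a = x := by rw [ha]; ring
  have e2 : Real.pi / 6 + 1 * b = y := by rw [hb]; ring
  rw [e1, e2] at h0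
  simp only [zero_mul, add_zero, sub_zero, div_one, Real.sin_pi_div_four, Real.cos_pi_div_four,
    Real.sin_pi_div_six, Real.cos_pi_div_six] at h0
  have hsx : 0 < Real.sin x := Real.sin_pos_of_pos_of_lt_pi hx0 (by linarith)
  have hcx : 0 < Real.cos x := Real.cos_pos_of_mem_Ioo ⟨by linarith, hx1⟩
  have hsy : 0 < Real.sin y := Real.sin_pos_of_pos_of_lt_pi hy0 (by linarith)
  have e3 : 1 / 2 * (Real.sin x ^ 2 / Real.sin y ^ 2 - 1) * Real.tan x =
      1 / 2 * (Real.sin x ^ 3 / Real.cos x / Real.sin y ^ 2 - Real.sin x / Real.cos x) := by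
    rw [Real.tan_eq_sin_div_cos]
    field_simp
  rw [e3]
  have s2 : (√2 : ℝ) ^ 2 = 2 := Real.sq_sqrt (by norm_num)
  have s3 : (√2 : ℝ) ^ 3 = 2 * √2 := by rw [pow_succ, s2]
  have s2' : (√2 : ℝ) ≠ 0 := by positivity
  have e4 : (√2 / 2) ^ 3 / (√2 / 2) / (1 / 2) ^ 2 - √2 / 2 / (√2 / 2) = (1 : ℝ) := by
    field_simp
    rw [s2]
    norm_num
  rw [e4] at h0
  have e5 : (2 * (√2 / 2) ^ 2 + (√2 / 2) ^ 2 / (√2 / 2) ^ 2) / (1 / 2) ^ 2 * a -
      2 * ((√2 / 2) ^ 3 / (√2 / 2)) * (√3 / 2) / (1 / 2) ^ 3 * b - 1 / (√2 / 2) ^ 2 * a =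
      6 * a - 4 * √3 * b := by
    have t1 : (√2 / 2 : ℝ) ^ 2 = 1 / 2 := by rw [div_pow, s2]; norm_num
    have t2 : (√2 / 2 : ℝ) ^ 3 / (√2 / 2) = 1 / 2 := by
      rw [pow_succ, mul_div_assoc, div_self (by positivity), mul_one, t1]
    rw [t2, t1]
    ring
  rw [e5] at h0
  unfold c0
  rw [ha, hb] at h0
  linarith

end Pool.Agent.Helper65.PK
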