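import Pool.Agent.Helper65.PK.P.G1

/-!
# Project PK, piece G2

From G1. `GG (p / cos θ) = lam (1 - cos θ / √(1 + p² - sin² θ)) - p² / (2 cos² θ)` has the primitive
`lam (θ - arcsin (sin θ / √(1 + p²))) - ½ p² tan θ` on `(-π/2, π/2)`. With `x = β`,
`y = arcsin (sin β / √(1 + p²))`: `p² = sin²x / sin²y - 1` and
`lam (x - y) - ½ p² tan x ≤ lam (x - y) - 3 x + 2√3 y + c0 = c1 x + c0` by G1 (`lam = 2√3`,
`c1 = 2√3 - 3`). For `β = 0` trivial (`c0 > 0`).
-/

namespace Pool.Agent.Helper65.PK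

open MeasureTheory Module Set
open scoped ENNReal RealInnerProductSpace

theorem c0_pos_G2 : 0 < c0 := by
  have h1 := Real.pi_gt_d2
  have h2 : √3 < 1.7321 := by
    rw [Real.sqrt_lt' (by norm_num)]
    norm_num
  have h3 : 0 < Real.pi := Real.pi_pos
  rw [c0]
  nlinarith

theorem hasDerivAt_primG {p θ : ℝ} (hp : 0 < p) (hc : 0 < Real.cos θ) :
    HasDerivAt (fun θ => lam * (θ - Real.arcsin (Real.sin θ / √(1 + p ^ 2))) -
      1 / 2 * p ^ 2 * Real.tan θ) (GG (p / Real.cos θ)) θ := by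
  have hq : 0 < √(1 + p ^ 2) := Real.sqrt_pos.2 (by positivity)
  have hq2 : √(1 + p ^ 2) ^ 2 = 1 + p ^ 2 := Real.sq_sqrt (by positivity)
  have hsc := Real.sin_sq_add_cos_sq θ
  have hlt : (Real.sin θ / √(1 + p ^ 2)) ^ 2 < 1 := by
    rw [div_pow, hq2, div_lt_one (by positivity)]
    nlinarith
  have h1 := (abs_lt.1 ((sq_lt_one_iff_abs_lt_one _).1 hlt))
  have ha := (Real.hasDerivAt_arcsin h1.1.ne' h1.2.ne).comp θ
    ((Real.hasDerivAt_sin θ).div_const (√(1 + p ^ 2)))
  have ht := Real.hasDerivAt_tan hc.ne'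
  have h2 := (((hasDerivAt_id θ).sub ha).const_mul lam).sub (ht.const_mul (1 / 2 * p ^ 2))
  refine h2.congr_deriv ?_
  have h3 : √(1 - (Real.sin θ / √(1 + p ^ 2)) ^ 2) =
      √(p ^ 2 + Real.cos θ ^ 2) / √(1 + p ^ 2) := by
    rw [← Real.sqrt_div (by positivity), div_pow, hq2]
    congr 1
    field_simp
    linarith
  have h4 : √(1 + (p / Real.cos θ) ^ 2) = √(p ^ 2 + Real.cos θ ^ 2) / Real.cos θ := by
    have : 1 + (p / Real.cos θ) ^ 2 = (p ^ 2 + Real.cos θ ^ 2) / Real.cos θ ^ 2 := by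
      field_simp
      ring
    rw [this, Real.sqrt_div (by positivity), Real.sqrt_sq hc.le]
  have hw : 0 < √(p ^ 2 + Real.cos θ ^ 2) := Real.sqrt_pos.2 (by positivity)
  rw [GG, h3, h4]
  field_simp

/-- G2. -/
theorem integral_GG_le {p β : ℝ} (hp : 0 < p) (hβ0 : 0 ≤ β) (hβ1 : β < Real.pi / 2) :
    ∫ θ in (0 : ℝ)..β, GG (p / Real.cos θ) ≤ c1 * β + c0 := by
  have hcos : ∀ θ ∈ Set.uIcc 0 β, 0 < Real.cos θ := by
    intro θ hθ
    rw [Set.uIcc_of_le hβ0] at hθ
    exact Real.cos_pos_of_mem_Ioo ⟨by linarith [hθ.1, Real.pi_pos], by linarith [hθ.2]⟩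
  have hq : 0 < √(1 + p ^ 2) := Real.sqrt_pos.2 (by positivity)
  have hq2 : √(1 + p ^ 2) ^ 2 = 1 + p ^ 2 := Real.sq_sqrt (by positivity)
  have hint : IntervalIntegrable (fun θ => GG (p / Real.cos θ)) volume 0 β := by
    refine ContinuousOn.intervalIntegrable ?_
    have h1 : ContinuousOn (fun θ => p / Real.cos θ) (Set.uIcc 0 β) :=
      continuousOn_const.div Real.continuous_cos.continuousOn fun θ hθ => (hcos θ hθ).ne'
    have h2 : Continuous GG := by
      unfold GG
      refine (continuous_const.mul (continuous_const.sub (continuous_const.div ?_ ?_))).sub ?_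
      · fun_prop
      · intro x
        exact (Real.sqrt_pos.2 (by positivity)).ne'
      · fun_prop
    exact h2.comp_continuousOn h1
  rw [intervalIntegral.integral_eq_sub_of_hasDerivAt
    (fun θ hθ => hasDerivAt_primG hp (hcos θ hθ)) hint]
  rcases hβ0.eq_or_lt with h | h
  · subst h
    simp [c0_pos_G2.le]
  · have hsβ : 0 < Real.sin β := Real.sin_pos_of_pos_of_lt_pi h (by linarith [Real.pi_pos])
    set v := Real.sin β / √(1 + p ^ 2) with hv
    have hv0 : 0 < v := div_pos hsβ hq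
    have hv1 : v < 1 := by
      rw [hv, div_lt_one hq]
      refine lt_of_le_of_lt (Real.sin_le_one β) ?_
      rw [Real.lt_sqrt (by norm_num)]
      nlinarith
    have hy0 : 0 < Real.arcsin v := Real.arcsin_pos.2 hv0
    have hy1 : Real.arcsin v < Real.pi / 2 := Real.arcsin_lt_pi_div_two.2 hv1
    have key := tangent_ineq h hβ1 hy0 hy1
    rw [Real.sin_arcsin (by linarith) hv1.le] at key
    have h5 : Real.sin β ^ 2 / v ^ 2 - 1 = p ^ 2 := by
      rw [hv, div_pow, hq2]
      field_simp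
      ring
    rw [h5] at key
    simp only [Real.sin_zero, zero_div, Real.arcsin_zero, Real.tan_zero, mul_zero, sub_zero]
    rw [c1, lam]
    linarith

end Pool.Agent.Helper65.PK
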