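import Pool.Agent.Helper65.PK.P.G2

/-!
# Project PK, piece G3

From G2. With `t = √(1 + s²)` one has `GG s - c1 = -(t - √3) (t² + √3 t - 4) / (2 t)`, so
`GG s ≥ c1` for `s_a ≤ s ≤ √2` and `GG s ≤ c1` otherwise, where `s_a = √(t_a² - 1)`,
`t_a = (√19 - √3) / 2`. If `p ≥ s_a`: the positive part is
supported on `[0, β]`, `β = arccos (p/√2)` (or empty), so the integral is
`∫_0^β GG (p/cos θ) - c1 β ≤ c0`. If `p < s_a`: substitute `θ = arccos (cos σ / κ)`, `κ = s_a/p > 1`
(`p / cos θ = s_a / cos σ`, `dθ/dσ = sin σ / √(κ² - cos² σ) ≤ 1`), the integral is at most the one for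
`p = s_a`. (At `θ = π/2` the integrand is `max (GG 0 - c1) 0 = 0`, harmless.)
-/

namespace Pool.Agent.Helper65.PK

open MeasureTheory Module Set
open scoped ENNReal RealInnerProductSpace

namespace G3

theorem GG_sub_c1 (s : ℝ) : GG s - c1 =
    -((√(1 + s ^ 2) - √3) * (√(1 + s ^ 2) ^ 2 + √3 * √(1 + s ^ 2) - 4)) /
      (2 * √(1 + s ^ 2)) := by
  have ht : 0 < √(1 + s ^ 2) := Real.sqrt_pos.2 (by positivity)
  have h2 : √(1 + s ^ 2) ^ 2 = 1 + s ^ 2 := Real.sq_sqrt (by positivity)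
  have h3 : √(3 : ℝ) ^ 2 = 3 := Real.sq_sqrt (by norm_num)
  unfold GG c1 lam
  generalize √(1 + s ^ 2) = t at ht h2
  have hs : s ^ 2 = t ^ 2 - 1 := by linarith
  rw [hs, eq_div_iff (by positivity)]
  field_simp
  linear_combination (-t) * h3

/-- the larger zero parameter -/
noncomputable def ta : ℝ := (√19 - √3) / 2

/-- the smaller zero of `GG - c1` -/
noncomputable def sa : ℝ := √(ta ^ 2 - 1)

theorem ta_eq : ta ^ 2 + √3 * ta = 4 := by
  have h3 : √(3 : ℝ) ^ 2 = 3 := Real.sq_sqrt (by norm_num)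
  have h19 : √(19 : ℝ) ^ 2 = 19 := Real.sq_sqrt (by norm_num)
  unfold ta
  linear_combination (1 / 4) * h19 - (1 / 4) * h3

theorem sqrt3_lt : √(3 : ℝ) < 1.7321 := by
  rw [Real.sqrt_lt' (by norm_num)]; norm_num

theorem lt_sqrt3 : (1.732 : ℝ) < √(3 : ℝ) := by
  rw [Real.lt_sqrt (by norm_num)]; norm_num

theorem one_lt_ta : 1 < ta := by
  have h1 : (4 : ℝ) < √19 := by rw [Real.lt_sqrt (by norm_num)]; norm_num
  have h2 := sqrt3_lt
  unfold ta
  linarith

theorem ta_lt : ta < √3 := by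
  have h1 : √(19 : ℝ) < 4.5 := by rw [Real.sqrt_lt' (by norm_num)]; norm_num
  have h2 := lt_sqrt3
  unfold ta
  linarith

theorem sa_pos : 0 < sa := by
  have := one_lt_ta
  exact Real.sqrt_pos.2 (by nlinarith)

theorem sa_sq : 1 + sa ^ 2 = ta ^ 2 := by
  have := one_lt_ta
  unfold sa
  rw [Real.sq_sqrt (by nlinarith)]
  ring

theorem sa_lt : sa < √2 := by
  have h1 := ta_lt
  have h2 := one_lt_ta
  have h3 : √(3 : ℝ) ^ 2 = 3 := Real.sq_sqrt (by norm_num)
  unfold sa
  exact Real.sqrt_lt_sqrt (by nlinarith) (by nlinarith)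

theorem c1_pos : 0 < c1 := by
  have := lt_sqrt3
  unfold c1
  linarith

theorem GG_zero : GG 0 = 0 := by
  simp [GG]

theorem GG_le_of_ge {s : ℝ} (hs : √2 ≤ s) : GG s ≤ c1 := by
  have h3 : √(3 : ℝ) ^ 2 = 3 := Real.sq_sqrt (by norm_num)
  have h30 : 0 < √(3 : ℝ) := Real.sqrt_pos.2 (by norm_num)
  have h2 : √(2 : ℝ) ^ 2 = 2 := Real.sq_sqrt (by norm_num)
  have h20 : 0 ≤ √(2 : ℝ) := Real.sqrt_nonneg _
  have ht : √3 ≤ √(1 + s ^ 2) := Real.sqrt_le_sqrt (by nlinarith)
  have h := GG_sub_c1 s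
  generalize √(1 + s ^ 2) = t at ht h
  have h4 : 0 ≤ (t - √3) * (t ^ 2 + √3 * t - 4) :=
    mul_nonneg (by linarith) (by nlinarith)
  have h5 : -((t - √3) * (t ^ 2 + √3 * t - 4)) / (2 * t) ≤ 0 :=
    div_nonpos_of_nonpos_of_nonneg (by linarith) (by linarith)
  linarith

theorem GG_le_of_le {s : ℝ} (hs0 : 0 ≤ s) (hs : s ≤ sa) : GG s ≤ c1 := by
  have h30 : 0 < √(3 : ℝ) := Real.sqrt_pos.2 (by norm_num)
  have hta := one_lt_ta
  have hta' := ta_lt
  have htae := ta_eq
  have hsq := sa_sq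
  have ht : √(1 + s ^ 2) ≤ ta := by
    rw [Real.sqrt_le_left (by linarith), ← hsq]
    nlinarith
  have ht0 : 0 < √(1 + s ^ 2) := Real.sqrt_pos.2 (by positivity)
  have h := GG_sub_c1 s
  generalize √(1 + s ^ 2) = t at ht h ht0
  have h4 : 0 ≤ (√3 - t) * (4 - (t ^ 2 + √3 * t)) :=
    mul_nonneg (by linarith) (by nlinarith)
  have h5 : -((t - √3) * (t ^ 2 + √3 * t - 4)) / (2 * t) ≤ 0 :=
    div_nonpos_of_nonpos_of_nonneg (by linarith) (by linarith)
  linarith

theorem GG_ge {s : ℝ} (h1 : sa ≤ s) (h2 : s ≤ √2) : c1 ≤ GG s := by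
  have h30 : 0 < √(3 : ℝ) := Real.sqrt_pos.2 (by norm_num)
  have hta := one_lt_ta
  have htae := ta_eq
  have hsq := sa_sq
  have hsa := sa_pos
  have h22 : √(2 : ℝ) ^ 2 = 2 := Real.sq_sqrt (by norm_num)
  have ht : ta ≤ √(1 + s ^ 2) := by
    rw [Real.le_sqrt (by linarith) (by positivity), ← hsq]
    nlinarith
  have ht' : √(1 + s ^ 2) ≤ √3 := Real.sqrt_le_sqrt (by nlinarith)
  have h := GG_sub_c1 s
  generalize √(1 + s ^ 2) = t at ht h ht'
  have h4 : 0 ≤ (√3 - t) * ((t ^ 2 + √3 * t) - 4) :=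
    mul_nonneg (by linarith) (by nlinarith)
  have h5 : 0 ≤ -((t - √3) * (t ^ 2 + √3 * t - 4)) / (2 * t) :=
    div_nonneg (by linarith) (by linarith)
  linarith

theorem continuous_GG : Continuous GG := by
  unfold GG
  have h : ∀ s : ℝ, √(1 + s ^ 2) ≠ 0 := fun s => (Real.sqrt_pos.2 (by positivity)).ne'
  fun_prop (disch := assumption)

theorem cos_pos' {θ : ℝ} (h0 : 0 ≤ θ) (h1 : θ < Real.pi / 2) : 0 < Real.cos θ :=
  Real.cos_pos_of_mem_Ioo ⟨by linarith [Real.pi_pos], h1⟩

theorem cont_GG {p a b : ℝ} (ha : 0 ≤ a) (hab : a ≤ b) (hb : b < Real.pi / 2) :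
    ContinuousOn (fun θ => GG (p / Real.cos θ) - c1) (uIcc a b) := by
  rw [uIcc_of_le hab]
  refine ContinuousOn.sub ?_ continuousOn_const
  refine continuous_GG.comp_continuousOn ?_
  refine continuousOn_const.div Real.continuous_cos.continuousOn fun θ hθ => ?_
  exact (cos_pos' (ha.trans hθ.1) (hθ.2.trans_lt hb)).ne'

theorem case1 {p β : ℝ} (hp : 0 < p) (h0 : 0 ≤ β) (h1 : β < Real.pi / 2) :
    ∫ θ in (0 : ℝ)..β, (GG (p / Real.cos θ) - c1) ≤ c0 := by
  have hG : ContinuousOn (fun θ => GG (p / Real.cos θ)) (uIcc 0 β) := by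
    have : ContinuousOn (fun θ => GG (p / Real.cos θ) - c1 + c1) (uIcc 0 β) :=
      (cont_GG (p := p) le_rfl h0 h1).add (continuousOn_const (c := c1))
    simpa only [sub_add_cancel] using this
  rw [intervalIntegral.integral_sub hG.intervalIntegrable intervalIntegrable_const,
    intervalIntegral.integral_const]
  have := integral_GG_le hp h0 h1
  simp only [sub_zero, smul_eq_mul]
  linarith

theorem c0_nonneg : 0 ≤ c0 := by
  have := case1 (p := 1) (β := 0) one_pos le_rfl (by positivity)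
  simpa using this

/-- the integrand vanishes where `√2 cos θ ≤ p`. -/
theorem zero_right {p θ : ℝ} (hθ0 : 0 ≤ θ) (hθ1 : θ ≤ Real.pi / 2)
    (h : √2 * Real.cos θ ≤ p) : max (GG (p / Real.cos θ) - c1) 0 = 0 := by
  apply max_eq_right
  rcases eq_or_lt_of_le hθ1 with h1 | h1
  · rw [h1, Real.cos_pi_div_two, div_zero, GG_zero]
    linarith [c1_pos]
  · have hc := cos_pos' hθ0 h1
    have : √2 ≤ p / Real.cos θ := by rwa [le_div_iff₀ hc]
    linarith [GG_le_of_ge this]

/-- the integrand vanishes where `p ≤ s_a cos θ`. -/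
theorem zero_left {p θ : ℝ} (hp : 0 < p) (hc : 0 < Real.cos θ)
    (h : p ≤ sa * Real.cos θ) : max (GG (p / Real.cos θ) - c1) 0 = 0 := by
  apply max_eq_right
  have : p / Real.cos θ ≤ sa := by rwa [div_le_iff₀ hc]
  linarith [GG_le_of_le (div_pos hp hc).le this]

theorem pos_mid {p θ : ℝ} (hc : 0 < Real.cos θ) (h1 : sa * Real.cos θ ≤ p)
    (h2 : p ≤ √2 * Real.cos θ) :
    max (GG (p / Real.cos θ) - c1) 0 = GG (p / Real.cos θ) - c1 := by
  apply max_eq_left
  have h3 : sa ≤ p / Real.cos θ := by rwa [le_div_iff₀ hc]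
  have h4 : p / Real.cos θ ≤ √2 := by rwa [div_le_iff₀ hc]
  linarith [GG_ge h3 h4]

/-- the integral over the right part vanishes. -/
theorem right_part {p β : ℝ} (h0 : 0 ≤ β) (h1 : β ≤ Real.pi / 2)
    (h : √2 * Real.cos β ≤ p) :
    IntervalIntegrable (fun θ => max (GG (p / Real.cos θ) - c1) 0) volume β (Real.pi / 2) ∧
      ∫ θ in β..(Real.pi / 2), max (GG (p / Real.cos θ) - c1) 0 = 0 := by
  have hz : ∀ θ ∈ uIcc β (Real.pi / 2), max (GG (p / Real.cos θ) - c1) 0 = 0 := by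
    intro θ hθ
    rw [uIcc_of_le h1] at hθ
    refine zero_right (h0.trans hθ.1) hθ.2 (le_trans ?_ h)
    refine mul_le_mul_of_nonneg_left ?_ (Real.sqrt_nonneg _)
    exact Real.cos_le_cos_of_nonneg_of_le_pi h0 (by linarith [hθ.2, Real.pi_pos]) hθ.1
  constructor
  · exact ((continuousOn_const (c := (0 : ℝ))).congr hz).intervalIntegrable
  · rw [intervalIntegral.integral_congr hz]
    simp

/-- the substitution. -/
theorem subst {p : ℝ} (hp : 0 < p) (hps : p < sa) :
    ∫ θ in (Real.arccos (p / sa))..(Real.arccos (p / √2)), (GG (p / Real.cos θ) - c1) ≤ c0 := by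
  have hsa := sa_pos
  have hsa2 := sa_lt
  have h20 : 0 < √(2 : ℝ) := Real.sqrt_pos.2 (by norm_num)
  set b : ℝ := Real.arccos (sa / √2) with hb
  have hb0 : 0 ≤ b := Real.arccos_nonneg _
  have hb1 : b < Real.pi / 2 := Real.arccos_lt_pi_div_two.2 (by positivity)
  have hcosb : Real.cos b = sa / √2 := by
    rw [hb, Real.cos_arccos]
    · have : 0 < sa / √2 := by positivity
      linarith
    · rw [div_le_one h20]; exact hsa2.le
  set φ : ℝ → ℝ := fun σ => Real.arccos (Real.cos σ * (p / sa)) with hφ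
  set φ' : ℝ → ℝ := fun σ =>
    -(1 / √(1 - (Real.cos σ * (p / sa)) ^ 2)) * (-Real.sin σ * (p / sa)) with hφ'
  have hk0 : 0 < p / sa := by positivity
  have hk1 : p / sa < 1 := by rw [div_lt_one hsa]; exact hps
  have habs : ∀ σ : ℝ, |Real.cos σ * (p / sa)| < 1 := by
    intro σ
    rw [abs_mul, abs_of_pos hk0]
    have := Real.abs_cos_le_one σ
    nlinarith [abs_nonneg (Real.cos σ)]
  have hsq : ∀ σ : ℝ, 0 < 1 - (Real.cos σ * (p / sa)) ^ 2 := by
    intro σ
    have h1 := habs σ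
    have h2 : (Real.cos σ * (p / sa)) ^ 2 < 1 := by
      rw [← sq_abs]
      nlinarith [abs_nonneg (Real.cos σ * (p / sa))]
    linarith
  have hder : ∀ σ ∈ uIcc 0 b, HasDerivAt φ (φ' σ) σ := by
    intro σ _
    have h1 := abs_lt.1 (habs σ)
    have h2 := Real.hasDerivAt_arccos (x := Real.cos σ * (p / sa)) h1.1.ne' h1.2.ne
    have h3 : HasDerivAt (fun σ => Real.cos σ * (p / sa)) (-Real.sin σ * (p / sa)) σ :=
      (Real.hasDerivAt_cos σ).mul_const _
    exact HasDerivAt.comp (h₂ := Real.arccos) σ h2 h3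
  have hcont' : ContinuousOn φ' (uIcc 0 b) := by
    have h1 : ∀ σ : ℝ, √(1 - (Real.cos σ * (p / sa)) ^ 2) ≠ 0 := fun σ =>
      (Real.sqrt_pos.2 (hsq σ)).ne'
    rw [hφ']
    fun_prop (disch := assumption)
  have hcosφ : ∀ σ : ℝ, Real.cos (φ σ) = Real.cos σ * (p / sa) := by
    intro σ
    have h1 := abs_lt.1 (habs σ)
    exact Real.cos_arccos h1.1.le h1.2.le
  have hcosp : ∀ σ ∈ uIcc 0 b, 0 < Real.cos σ := by
    intro σ hσ
    rw [uIcc_of_le hb0] at hσ
    exact cos_pos' hσ.1 (hσ.2.trans_lt hb1)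
  have hgc : ContinuousOn (fun θ => GG (p / Real.cos θ) - c1) (φ '' uIcc 0 b) := by
    refine ContinuousOn.sub ?_ continuousOn_const
    refine continuous_GG.comp_continuousOn ?_
    refine continuousOn_const.div Real.continuous_cos.continuousOn ?_
    rintro θ ⟨σ, hσ, rfl⟩
    rw [hcosφ]
    exact (mul_pos (hcosp σ hσ) hk0).ne'
  have hmain := intervalIntegral.integral_comp_mul_deriv' hder hcont' hgc
  have hφ0 : φ 0 = Real.arccos (p / sa) := by simp [hφ]
  have hφb : φ b = Real.arccos (p / √2) := by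
    simp only [hφ]
    rw [hcosb]
    congr 1
    field_simp
  rw [hφ0, hφb] at hmain
  rw [← hmain]
  have hcomp : ∀ σ ∈ uIcc 0 b, ((fun θ => GG (p / Real.cos θ) - c1) ∘ φ) σ =
      GG (sa / Real.cos σ) - c1 := by
    intro σ hσ
    have := hcosp σ hσ
    simp only [Function.comp_apply]
    rw [hcosφ]
    congr 2
    field_simp
  refine le_trans ?_ (case1 (p := sa) (β := b) hsa hb0 hb1)
  refine intervalIntegral.integral_mono_on hb0 ?_ ?_ ?_
  · refine ContinuousOn.intervalIntegrable (ContinuousOn.mul ?_ hcont')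
    exact (cont_GG (p := sa) le_rfl hb0 hb1).congr hcomp
  · exact (cont_GG (p := sa) le_rfl hb0 hb1).intervalIntegrable
  · intro σ hσ
    have hσ' : σ ∈ uIcc 0 b := by rw [uIcc_of_le hb0]; exact hσ
    rw [hcomp σ hσ']
    have hc := hcosp σ hσ'
    have hpos : 0 ≤ GG (sa / Real.cos σ) - c1 := by
      have h1 : sa ≤ sa / Real.cos σ := by
        rw [le_div_iff₀ hc]
        nlinarith [Real.cos_le_one σ]
      have h2 : sa / Real.cos σ ≤ √2 := by
        have h3 : sa / √2 ≤ Real.cos σ := by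
          rw [← hcosb]
          exact Real.cos_le_cos_of_nonneg_of_le_pi hσ.1 (by linarith [Real.pi_pos]) hσ.2
        rw [div_le_iff₀ hc]
        rw [div_le_iff₀ h20] at h3
        linarith
      linarith [GG_ge h1 h2]
    have hle : φ' σ ≤ 1 := by
      have hs0 : 0 ≤ Real.sin σ :=
        Real.sin_nonneg_of_nonneg_of_le_pi hσ.1 (by linarith [Real.pi_pos, hσ.2])
      have h1 := Real.sqrt_pos.2 (hsq σ)
      have h2 : φ' σ = Real.sin σ * (p / sa) / √(1 - (Real.cos σ * (p / sa)) ^ 2) := by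
        simp only [hφ']
        ring
      rw [h2, div_le_one h1]
      apply Real.le_sqrt_of_sq_le
      have h3 := Real.sin_sq_add_cos_sq σ
      have h4 : (Real.sin σ * (p / sa)) ^ 2 + (Real.cos σ * (p / sa)) ^ 2 = (p / sa) ^ 2 := by
        rw [mul_pow, mul_pow, ← add_mul, h3, one_mul]
      nlinarith
    nlinarith

end G3

open G3

/-- G3. The contribution of half an edge. -/
theorem integral_pos_le {p : ℝ} (hp : 0 < p) :
    ∫ θ in (0 : ℝ)..(Real.pi / 2), max (GG (p / Real.cos θ) - c1) 0 ≤ c0 := by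
  have hpi := Real.pi_pos
  have h20 : 0 < √(2 : ℝ) := Real.sqrt_pos.2 (by norm_num)
  have hsa := sa_pos
  have hsa2 := sa_lt
  by_cases hp2 : √2 ≤ p
  · have h1 : √2 * Real.cos 0 ≤ p := by simpa using hp2
    rw [(right_part (p := p) le_rfl (by positivity) h1).2]
    exact c0_nonneg
  rw [not_le] at hp2
  set β : ℝ := Real.arccos (p / √2) with hβ
  have hβ0 : 0 ≤ β := Real.arccos_nonneg _
  have hβ1 : β < Real.pi / 2 := Real.arccos_lt_pi_div_two.2 (by positivity)
  have hcosβ : Real.cos β = p / √2 := by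
    rw [hβ, Real.cos_arccos]
    · have : 0 < p / √2 := by positivity
      linarith
    · rw [div_le_one h20]; exact hp2.le
  have hr : √2 * Real.cos β ≤ p := by
    rw [hcosβ]
    exact le_of_eq (by field_simp)
  obtain ⟨hI3, hr0⟩ := right_part hβ0 hβ1.le hr
  have hle2 : ∀ θ, 0 ≤ θ → θ ≤ β → p ≤ √2 * Real.cos θ := by
    intro θ h0 h1
    have h2 : Real.cos β ≤ Real.cos θ :=
      Real.cos_le_cos_of_nonneg_of_le_pi h0 (by linarith) h1
    rw [hcosβ, div_le_iff₀ h20] at h2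
    linarith
  by_cases hps : sa ≤ p
  · have hmid : ∀ θ ∈ uIcc 0 β, max (GG (p / Real.cos θ) - c1) 0 =
        GG (p / Real.cos θ) - c1 := by
      intro θ hθ
      rw [uIcc_of_le hβ0] at hθ
      have hc := cos_pos' hθ.1 (hθ.2.trans_lt hβ1)
      refine pos_mid hc ?_ (hle2 θ hθ.1 hθ.2)
      nlinarith [Real.cos_le_one θ]
    have hI1 : IntervalIntegrable (fun θ => max (GG (p / Real.cos θ) - c1) 0) volume 0 β :=
      ((cont_GG (p := p) le_rfl hβ0 hβ1).congr hmid).intervalIntegrable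
    rw [← intervalIntegral.integral_add_adjacent_intervals hI1 hI3, hr0, add_zero,
      intervalIntegral.integral_congr hmid]
    exact case1 hp hβ0 hβ1
  · rw [not_le] at hps
    set α : ℝ := Real.arccos (p / sa) with hα
    have hα0 : 0 ≤ α := Real.arccos_nonneg _
    have hα1 : α < Real.pi / 2 := Real.arccos_lt_pi_div_two.2 (by positivity)
    have hcosα : Real.cos α = p / sa := by
      rw [hα, Real.cos_arccos]
      · have : 0 < p / sa := by positivity
        linarith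
      · rw [div_le_one hsa]; exact hps.le
    have hαβ : α ≤ β := by
      rw [hα, hβ]
      refine Real.arccos_le_arccos ?_
      exact div_le_div_of_nonneg_left hp.le hsa hsa2.le
    have hleft : ∀ θ ∈ uIcc 0 α, max (GG (p / Real.cos θ) - c1) 0 = 0 := by
      intro θ hθ
      rw [uIcc_of_le hα0] at hθ
      have hc := cos_pos' hθ.1 (hθ.2.trans_lt hα1)
      refine zero_left hp hc ?_
      have h2 : Real.cos α ≤ Real.cos θ :=
        Real.cos_le_cos_of_nonneg_of_le_pi hθ.1 (by linarith) hθ.2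
      rw [hcosα, div_le_iff₀ hsa] at h2
      linarith
    have hmid : ∀ θ ∈ uIcc α β, max (GG (p / Real.cos θ) - c1) 0 =
        GG (p / Real.cos θ) - c1 := by
      intro θ hθ
      rw [uIcc_of_le hαβ] at hθ
      have hc := cos_pos' (hα0.trans hθ.1) (hθ.2.trans_lt hβ1)
      refine pos_mid hc ?_ (hle2 θ (hα0.trans hθ.1) hθ.2)
      have h2 : Real.cos θ ≤ Real.cos α :=
        Real.cos_le_cos_of_nonneg_of_le_pi hα0 (by linarith [hθ.2]) hθ.1
      rw [hcosα, le_div_iff₀ hsa] at h2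
      linarith
    have hI1 : IntervalIntegrable (fun θ => max (GG (p / Real.cos θ) - c1) 0) volume 0 α :=
      ((continuousOn_const (c := (0 : ℝ))).congr hleft).intervalIntegrable
    have hI2 : IntervalIntegrable (fun θ => max (GG (p / Real.cos θ) - c1) 0) volume α β :=
      ((cont_GG (p := p) hα0 hαβ hβ1).congr hmid).intervalIntegrable
    rw [← intervalIntegral.integral_add_adjacent_intervals (hI1.trans hI2) hI3, hr0, add_zero,
      ← intervalIntegral.integral_add_adjacent_intervals hI1 hI2,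
      intervalIntegral.integral_congr hleft, intervalIntegral.integral_congr hmid]
    simp only [intervalIntegral.integral_zero, zero_add]
    exact subst hp hps

end Pool.Agent.Helper65.PK
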