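import Mathlib
import Pool.Agent.Helper65.PK.Defs

/-!
# Project PK, piece G4a

Polar coordinates (`Complex.integral_comp_polarCoord_symm` or
`integral_comp_polarCoord_symm`): the integral over `{w | ‖w‖ ≤ s (arg w)}` of
`2√3 (1+‖w‖²)^(-3/2) - 1` is `∫_{-π}^{π} ∫_0^{s φ} (2√3 (1+r²)^(-3/2) - 1) r dr dφ` and the inner
integral is `GG (s φ)` (for `0 ≤ s φ ≤ √2`; `GG' r = (lam (1+r²)^(-3/2) - 1) r`, `GG 0 = 0`).
The power is written `(1 + ‖w‖ ^ 2) ^ (-(3 / 2) : ℝ)`.
-/

namespace Pool.Agent.Helper65.PK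

open MeasureTheory Module Set
open scoped ENNReal RealInnerProductSpace

theorem rpow_eq_G4a (r : ℝ) : (1 + r ^ 2) ^ (-(3 / 2) : ℝ) = (√(1 + r ^ 2) ^ 3)⁻¹ := by
  have h : 0 ≤ 1 + r ^ 2 := by positivity
  have h3 : √(1 + r ^ 2) ^ 3 = (1 + r ^ 2) ^ (3 / 2 : ℝ) := by
    rw [Real.sqrt_eq_rpow, ← Real.rpow_natCast (_ ^ (1 / 2 : ℝ)) 3, ← Real.rpow_mul h]
    norm_num
  rw [Real.rpow_neg h, h3]

theorem hasDerivAt_GG (r : ℝ) :
    HasDerivAt GG (r * (lam * (1 + r ^ 2) ^ (-(3 / 2) : ℝ) - 1)) r := by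
  have h : (1 + r ^ 2) ≠ 0 := by positivity
  have hs : 0 < √(1 + r ^ 2) := Real.sqrt_pos.2 (by positivity)
  have h1 : HasDerivAt (fun r : ℝ => 1 + r ^ 2) (2 * r) r := by
    have := (hasDerivAt_pow 2 r).const_add 1
    simpa using this
  have h2 := (((h1.sqrt h).inv hs.ne').const_sub 1).const_mul lam
  have h3 : HasDerivAt (fun r : ℝ => r ^ 2 / 2) r r := by
    have := (hasDerivAt_pow 2 r).div_const 2
    simpa using this
  have h4 := h2.sub h3
  have h5 : GG = fun r => lam * (1 - (√(1 + r ^ 2))⁻¹) - r ^ 2 / 2 := by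
    funext r
    rw [GG, one_div]
  rw [h5]
  refine h4.congr_deriv ?_
  rw [rpow_eq_G4a]
  field_simp

theorem continuous_g_G4a : Continuous fun r : ℝ => r * (lam * (1 + r ^ 2) ^ (-(3 / 2) : ℝ) - 1) := by
  have : (fun r : ℝ => r * (lam * (1 + r ^ 2) ^ (-(3 / 2) : ℝ) - 1)) =
      fun r => r * (lam * (√(1 + r ^ 2) ^ 3)⁻¹ - 1) := by
    funext r
    rw [rpow_eq_G4a]
  rw [this]
  refine continuous_id.mul ((continuous_const.mul (Continuous.inv₀ (by fun_prop) fun x => ?_)).sub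
    continuous_const)
  have hs : 0 < √(1 + x ^ 2) := Real.sqrt_pos.2 (by positivity)
  positivity

theorem inner_G4a {c : ℝ} (hc : 0 ≤ c) :
    ∫ r in Set.Ioi (0 : ℝ), (if r ≤ c then r * (lam * (1 + r ^ 2) ^ (-(3 / 2) : ℝ) - 1) else 0) =
      GG c := by
  have h1 : (fun r : ℝ => if r ≤ c then r * (lam * (1 + r ^ 2) ^ (-(3 / 2) : ℝ) - 1) else 0) =
      (Set.Iic c).indicator fun r => r * (lam * (1 + r ^ 2) ^ (-(3 / 2) : ℝ) - 1) := by
    funext r
    simp only [Set.indicator_apply, Set.mem_Iic]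
  rw [h1, setIntegral_indicator measurableSet_Iic, Set.Ioi_inter_Iic,
    ← intervalIntegral.integral_of_le hc,
    intervalIntegral.integral_eq_sub_of_hasDerivAt (fun r _ => hasDerivAt_GG r)
      (continuous_g_G4a.intervalIntegrable 0 c)]
  simp [GG]

/-- G4a. Polar coordinates. -/
theorem integral_polar {s : ℝ → ℝ} (hs : Measurable s) (h0 : ∀ φ, 0 ≤ s φ)
    (h1 : ∀ φ, s φ ≤ √2) :
    ∫ w in {w : ℂ | ‖w‖ ≤ s w.arg}, (lam * (1 + ‖w‖ ^ 2) ^ (-(3 / 2) : ℝ) - 1) =
      ∫ φ in (-Real.pi)..Real.pi, GG (s φ) := by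
  have hA : MeasurableSet {w : ℂ | ‖w‖ ≤ s w.arg} :=
    measurableSet_le measurable_norm (hs.comp Complex.measurable_arg)
  rw [← integral_indicator hA, ← Complex.integral_comp_polarCoord_symm]
  let F : ℝ × ℝ → ℝ := fun q =>
    if q.2 ≤ s q.1 then q.2 * (lam * (1 + q.2 ^ 2) ^ (-(3 / 2) : ℝ) - 1) else 0
  have hF : Measurable F := by
    refine Measurable.ite (measurableSet_le measurable_snd (hs.comp measurable_fst)) ?_
      measurable_const
    exact continuous_g_G4a.measurable.comp measurable_snd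
  have e1 : ∫ p in polarCoord.target, p.1 • ({w : ℂ | ‖w‖ ≤ s w.arg}.indicator
      (fun w => lam * (1 + ‖w‖ ^ 2) ^ (-(3 / 2) : ℝ) - 1) (Complex.polarCoord.symm p)) =
      ∫ p in Set.Ioi (0 : ℝ) ×ˢ Set.Ioo (-Real.pi) Real.pi, F p.swap := by
    rw [show polarCoord.target = Set.Ioi (0 : ℝ) ×ˢ Set.Ioo (-Real.pi) Real.pi from rfl]
    refine setIntegral_congr_fun (measurableSet_Ioi.prod measurableSet_Ioo) fun p hp => ?_
    have hp' : p ∈ Complex.polarCoord.target := hp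
    have h2 := Complex.polarCoord.right_inv hp'
    rw [Complex.polarCoord_apply] at h2
    have h3 : ‖Complex.polarCoord.symm p‖ = p.1 := congrArg Prod.fst h2
    have h4 : (Complex.polarCoord.symm p).arg = p.2 := congrArg Prod.snd h2
    simp only [F, Prod.snd_swap, Prod.fst_swap, Set.indicator_apply, Set.mem_ofPred_eq, h3, h4,
      smul_eq_mul, mul_ite, mul_zero]
  rw [e1, Measure.volume_eq_prod]
  rw [setIntegral_prod_swap (μ := (volume : Measure ℝ)) (ν := (volume : Measure ℝ))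
    (Set.Ioo (-Real.pi) Real.pi) (Set.Ioi (0 : ℝ)) F]
  have hint : IntegrableOn F (Set.Ioo (-Real.pi) Real.pi ×ˢ Set.Ioi (0 : ℝ))
      ((volume : Measure ℝ).prod volume) := by
    have hlam : 0 ≤ lam := by
      rw [lam]
      positivity
    have hfin : IntegrableOn (fun _ : ℝ × ℝ => √2 * (lam + 1))
        (Set.Ioo (-Real.pi) Real.pi ×ˢ Set.Ioc (0 : ℝ) √2) ((volume : Measure ℝ).prod volume) := by
      refine integrableOn_const ?_
      rw [Measure.prod_prod]
      simp [Real.volume_Ioo, Real.volume_Ioc, ENNReal.mul_eq_top]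
    have hind := hfin.integrable_indicator (measurableSet_Ioo.prod measurableSet_Ioc)
    refine Integrable.mono' (hind.integrableOn (s := Set.Ioo (-Real.pi) Real.pi ×ˢ
      Set.Ioi (0 : ℝ))) hF.aestronglyMeasurable ?_
    refine (ae_restrict_iff' (measurableSet_Ioo.prod measurableSet_Ioi)).2
      (Filter.Eventually.of_forall fun q hq => ?_)
    obtain ⟨hq1, hq2⟩ := hq
    have hq2' : 0 < q.2 := hq2
    simp only [F]
    split_ifs with hle
    · have hmem : q ∈ Set.Ioo (-Real.pi) Real.pi ×ˢ Set.Ioc (0 : ℝ) √2 :=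
        ⟨hq1, hq2', hle.trans (h1 _)⟩
      rw [Set.indicator_of_mem hmem, Real.norm_eq_abs, abs_mul, abs_of_pos hq2']
      refine mul_le_mul (hle.trans (h1 _)) ?_ (abs_nonneg _) (Real.sqrt_nonneg _)
      have h5 : (1 + q.2 ^ 2) ^ (-(3 / 2) : ℝ) ≤ 1 :=
        Real.rpow_le_one_of_one_le_of_nonpos (by nlinarith) (by norm_num)
      have h6 : 0 ≤ (1 + q.2 ^ 2) ^ (-(3 / 2) : ℝ) := by positivity
      rw [abs_le]
      constructor <;> nlinarith
    · rw [norm_zero]
      exact Set.indicator_nonneg (fun _ _ => by positivity) _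
  rw [setIntegral_prod _ hint, intervalIntegral.integral_of_le (by linarith [Real.pi_pos]),
    integral_Ioc_eq_integral_Ioo]
  refine setIntegral_congr_fun measurableSet_Ioo fun φ _ => ?_
  exact inner_G4a (h0 φ)

end Pool.Agent.Helper65.PK
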