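import Pool.Agent.Helper65.PK.P.G3
import Pool.Agent.Helper65.PK.P.G4a

/-!
# Project PK, piece G4b

From G3, G4a. `T = {‖w‖ ≤ √2, Re (conj (c j) w) ≤ b j ∀ j ∈ J}`, `b j > 0`; its radial function is
`s φ = min (√2) (min over j with Re (conj (c j) e^{iφ}) > 0 of b j / Re (conj (c j) e^{iφ}))`, and
`b j / Re (conj (c j) e^{iφ}) = p_j / cos (φ - arg (c j))`, `p_j = b j / ‖c j‖`. For a direction `φ`
with `s φ < √2` the point `s φ e^{iφ}` lies on some line `j`; if the line `j` meets `T` in at most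
one point this happens for at most one `φ` (finitely many exceptional `φ`). So for almost all `φ`:
`GG (s φ) ≤ c1 + Σ_{j ∈ J'} max (GG (p_j / cos (φ - arg (c j))) - c1) 0 · 1_{cos > 0}`, `J'` = the
`j` with `{w ∈ T, Re (conj (c j) w) = b j}` nontrivial (`GG √2 = c1`). Each of these integrals over a
period is `2 ∫_0^{π/2} ≤ 2 c0` by G3 (evenness, periodicity).
-/

namespace Pool.Agent.Helper65.PK

open MeasureTheory Module Set
open scoped ENNReal RealInnerProductSpace

namespace G4b

/-- `Re (conj z e^{iφ})`. -/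
noncomputable def qq (z : ℂ) (φ : ℝ) : ℝ := ‖z‖ * Real.cos (φ - z.arg)

/-- The point with polar coordinates `r, φ`. -/
noncomputable def pt (r φ : ℝ) : ℂ := r * (Complex.cos φ + Complex.sin φ * Complex.I)

theorem pt_re (r φ : ℝ) : (pt r φ).re = r * Real.cos φ := by
  simp [pt, Complex.cos_ofReal_re, Complex.sin_ofReal_re, Complex.cos_ofReal_im,
    Complex.sin_ofReal_im]

theorem pt_im (r φ : ℝ) : (pt r φ).im = r * Real.sin φ := by
  simp [pt, Complex.cos_ofReal_re, Complex.sin_ofReal_re, Complex.cos_ofReal_im,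
    Complex.sin_ofReal_im]

theorem re_star_mul_pt (z : ℂ) (r φ : ℝ) : (star z * pt r φ).re = r * qq z φ := by
  have h1 := Complex.norm_mul_cos_arg z
  have h2 := Complex.norm_mul_sin_arg z
  rw [qq, Real.cos_sub]
  simp only [Complex.star_def, Complex.mul_re, Complex.conj_re, Complex.conj_im, pt_re, pt_im]
  rw [← h1, ← h2]
  ring

theorem pt_norm_arg (w : ℂ) : pt ‖w‖ w.arg = w := by
  apply Complex.ext
  · rw [pt_re, Complex.norm_mul_cos_arg]
  · rw [pt_im, Complex.norm_mul_sin_arg]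

theorem re_star_mul (z w : ℂ) : (star z * w).re = ‖w‖ * qq z w.arg := by
  conv_lhs => rw [← pt_norm_arg w]
  exact re_star_mul_pt z _ _

theorem norm_pt {r : ℝ} (hr : 0 ≤ r) (φ : ℝ) : ‖pt r φ‖ = r := by
  have h : ‖pt r φ‖ ^ 2 = r ^ 2 := by
    rw [← Complex.normSq_eq_norm_sq, Complex.normSq_apply, pt_re, pt_im]
    have := Real.sin_sq_add_cos_sq φ
    nlinarith
  exact (sq_eq_sq₀ (norm_nonneg _) hr).1 h

theorem arg_pt {r φ : ℝ} (hr : 0 < r) (hφ : φ ∈ Ioc (-Real.pi) Real.pi) : (pt r φ).arg = φ :=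
  Complex.arg_mul_cos_add_sin_mul_I hr hφ

/-- The distance to the line in the direction `φ`, cut off at `√2`. -/
noncomputable def rho (z : ℂ) (b φ : ℝ) : ℝ := if 0 < qq z φ then b / qq z φ else √2

/-- The radial function. -/
noncomputable def ss {J : Type} (A : Finset J) (c : J → ℂ) (b : J → ℝ) (φ : ℝ) : ℝ :=
  A.fold min (√2) (fun j => rho (c j) (b j) φ)

theorem le_ss {J : Type} {A : Finset J} {c : J → ℂ} {b : J → ℝ} {φ x : ℝ} :
    x ≤ ss A c b φ ↔ x ≤ √2 ∧ ∀ j ∈ A, x ≤ rho (c j) (b j) φ :=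
  Finset.le_fold_min _

theorem ss_le {J : Type} {A : Finset J} {c : J → ℂ} {b : J → ℝ} {φ x : ℝ} :
    ss A c b φ ≤ x ↔ √2 ≤ x ∨ ∃ j ∈ A, rho (c j) (b j) φ ≤ x :=
  Finset.fold_min_le _

theorem measurable_qq (z : ℂ) : Measurable (qq z) := by
  unfold qq
  exact measurable_const.mul (Real.measurable_cos.comp (measurable_id.sub_const _))

theorem measurable_rho (z : ℂ) (b : ℝ) : Measurable (rho z b) := by
  unfold rho
  exact Measurable.ite (measurableSet_lt measurable_const (measurable_qq z))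
    (measurable_const.div (measurable_qq z)) measurable_const

theorem measurable_ss {J : Type} [DecidableEq J] (A : Finset J) (c : J → ℂ) (b : J → ℝ) :
    Measurable (ss A c b) := by
  unfold ss
  induction A using Finset.induction_on with
  | empty => simp
  | insert a t ha ih =>
    simp only [Finset.fold_insert ha]
    exact (measurable_rho _ _).min ih

theorem rho_pos {z : ℂ} {b : ℝ} (hb : 0 < b) (φ : ℝ) : 0 < rho z b φ := by
  unfold rho
  split_ifs with h
  · exact div_pos hb h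
  · positivity

theorem ss_pos {J : Type} {A : Finset J} {c : J → ℂ} {b : J → ℝ} (hb : ∀ j ∈ A, 0 < b j)
    (φ : ℝ) : 0 < ss A c b φ := by
  unfold ss
  rw [Finset.lt_fold_min]
  exact ⟨by positivity, fun j hj => rho_pos (hb j hj) φ⟩

theorem ss_le_sqrt {J : Type} {A : Finset J} {c : J → ℂ} {b : J → ℝ} (φ : ℝ) :
    ss A c b φ ≤ √2 := ss_le.2 (Or.inl le_rfl)

theorem mem_T_iff {J : Type} {A : Finset J} {c : J → ℂ} {b : J → ℝ} (hb : ∀ j ∈ A, 0 < b j)
    {r φ : ℝ} (hr : 0 ≤ r) :
    (r ≤ √2 ∧ ∀ i ∈ A, r * qq (c i) φ ≤ b i) ↔ r ≤ ss A c b φ := by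
  rw [le_ss]
  refine and_congr_right fun hw => forall₂_congr fun i hi => ?_
  unfold rho
  split_ifs with h
  · rw [le_div_iff₀ h]
  · simp only [hw, iff_true]
    have := hb i hi
    push Not at h
    nlinarith [mul_nonneg hr (neg_nonneg.2 h)]

theorem T_eq {J : Type} {A : Finset J} {c : J → ℂ} {b : J → ℝ} (hb : ∀ j ∈ A, 0 < b j) :
    {w : ℂ | ‖w‖ ≤ √2 ∧ ∀ i ∈ A, (star (c i) * w).re ≤ b i} = {w : ℂ | ‖w‖ ≤ ss A c b w.arg} := by
  ext w
  simp only [Set.mem_ofPred_eq, re_star_mul]
  exact mem_T_iff hb (norm_nonneg w)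

theorem GG_sqrt_two : GG √2 = c1 := by
  have h3 : √3 ≠ 0 := by positivity
  have h : (1 + √2 ^ 2 : ℝ) = 3 := by rw [Real.sq_sqrt (by norm_num)]; norm_num
  have h3' : √3 * √3 = 3 := Real.mul_self_sqrt (by norm_num)
  rw [GG, h, Real.sq_sqrt (by norm_num), lam, c1]
  field_simp
  nlinarith

theorem GG_zero : GG 0 = 0 := by
  simp [GG]

theorem GG_le (s : ℝ) : GG s ≤ lam := by
  unfold GG
  have h1 : 0 ≤ 1 / √(1 + s ^ 2) := by positivity
  have h2 : 0 ≤ lam := by unfold lam; positivity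
  nlinarith [mul_nonneg h2 h1, sq_nonneg s]

theorem c1_pos : 0 < c1 := by
  unfold c1
  have : (3 / 2 : ℝ) < √3 := by
    rw [Real.lt_sqrt (by norm_num)]
    norm_num
  linarith

theorem measurable_GG : Measurable GG := by
  unfold GG
  fun_prop

/-- The positive part over the half circle. -/
noncomputable def HH (p θ : ℝ) : ℝ := if 0 < Real.cos θ then max (GG (p / Real.cos θ) - c1) 0 else 0

theorem HH_nonneg (p θ : ℝ) : 0 ≤ HH p θ := by
  unfold HH
  split_ifs
  · exact le_max_right _ _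
  · exact le_rfl

theorem HH_le (p θ : ℝ) : HH p θ ≤ 3 := by
  unfold HH
  split_ifs
  · refine max_le ?_ (by norm_num)
    have := GG_le (p / Real.cos θ)
    have h2 : lam - c1 = 3 := by unfold lam c1; ring
    linarith
  · norm_num

theorem measurable_HH (p : ℝ) : Measurable (HH p) := by
  unfold HH
  refine Measurable.ite (measurableSet_lt measurable_const Real.measurable_cos) ?_ measurable_const
  exact ((measurable_GG.comp (measurable_const.div Real.measurable_cos)).sub_const _).max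
    measurable_const

theorem integrable_HH (p x y α : ℝ) :
    IntervalIntegrable (fun φ => HH p (φ - α)) volume x y := by
  rw [intervalIntegrable_iff]
  refine Measure.integrableOn_of_bounded (M := 3) (by simp) ?_ ?_
  · exact ((measurable_HH p).comp (measurable_id.sub_const _)).aestronglyMeasurable
  · refine Filter.Eventually.of_forall fun φ => ?_
    rw [Real.norm_eq_abs, abs_of_nonneg (HH_nonneg _ _)]
    exact HH_le _ _

theorem integrable_HH' (p x y : ℝ) : IntervalIntegrable (HH p) volume x y := by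
  simpa using integrable_HH p x y 0

theorem HH_neg (p θ : ℝ) : HH p (-θ) = HH p θ := by
  simp [HH]

theorem HH_periodic (p : ℝ) : Function.Periodic (HH p) (2 * Real.pi) := by
  intro θ
  simp [HH]

theorem integral_HH_half {p : ℝ} (hp : 0 < p) : ∫ θ in (0 : ℝ)..Real.pi, HH p θ ≤ c0 := by
  have hpi := Real.pi_pos
  rw [← intervalIntegral.integral_add_adjacent_intervals (integrable_HH' p 0 (Real.pi / 2))
    (integrable_HH' p (Real.pi / 2) Real.pi)]
  have h1 : ∫ θ in (0 : ℝ)..(Real.pi / 2), HH p θ =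
      ∫ θ in (0 : ℝ)..(Real.pi / 2), max (GG (p / Real.cos θ) - c1) 0 := by
    refine intervalIntegral.integral_congr fun θ hθ => ?_
    rw [uIcc_of_le (by positivity)] at hθ
    simp only [HH]
    split_ifs with h
    · rfl
    · have h0 : Real.cos θ = 0 :=
        le_antisymm (not_lt.1 h) (Real.cos_nonneg_of_neg_pi_div_two_le_of_le
          (by linarith [hθ.1]) hθ.2)
      rw [h0, div_zero, GG_zero, max_eq_right]
      linarith [c1_pos]
  have h2 : ∫ θ in (Real.pi / 2)..Real.pi, HH p θ = 0 := by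
    have : ∀ θ ∈ uIcc (Real.pi / 2) Real.pi, HH p θ = (fun _ => (0 : ℝ)) θ := by
      intro θ hθ
      rw [uIcc_of_le (by linarith)] at hθ
      simp only [HH]
      rw [if_neg]
      exact not_lt.2 (Real.cos_nonpos_of_pi_div_two_le_of_le hθ.1 (by linarith [hθ.2]))
    rw [intervalIntegral.integral_congr this]
    simp
  rw [h1, h2, add_zero]
  exact integral_pos_le hp

theorem integral_HH {p : ℝ} (hp : 0 < p) (α : ℝ) :
    ∫ φ in (-Real.pi)..Real.pi, HH p (φ - α) ≤ 2 * c0 := by
  rw [intervalIntegral.integral_comp_sub_right (fun θ => HH p θ) α]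
  have h1 : ∫ θ in (-Real.pi - α)..(Real.pi - α), HH p θ =
      ∫ θ in (-Real.pi)..Real.pi, HH p θ := by
    have := (HH_periodic p).intervalIntegral_add_eq (-Real.pi - α) (-Real.pi)
    rw [show -Real.pi - α + 2 * Real.pi = Real.pi - α by ring,
      show -Real.pi + 2 * Real.pi = Real.pi by ring] at this
    exact this
  rw [h1, ← intervalIntegral.integral_add_adjacent_intervals (integrable_HH' p (-Real.pi) 0)
    (integrable_HH' p 0 Real.pi)]
  have h2 : ∫ θ in (-Real.pi)..0, HH p θ = ∫ θ in (0 : ℝ)..Real.pi, HH p θ := by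
    have := intervalIntegral.integral_comp_neg (a := 0) (b := Real.pi) (fun θ => HH p θ)
    simp only [HH_neg, neg_zero] at this
    exact this.symm
  rw [h2]
  linarith [integral_HH_half hp]

theorem c0_nonneg : 0 ≤ c0 := by
  refine le_trans ?_ (integral_pos_le one_pos)
  exact intervalIntegral.integral_nonneg (by positivity) fun θ _ => le_max_right _ _

/-- The contribution of the line. -/
noncomputable def FFF (z : ℂ) (b φ : ℝ) : ℝ :=
  if 0 < qq z φ then max (GG (b / qq z φ) - c1) 0 else 0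

theorem FFF_nonneg (z : ℂ) (b φ : ℝ) : 0 ≤ FFF z b φ := by
  unfold FFF
  split_ifs
  · exact le_max_right _ _
  · exact le_rfl

theorem FFF_eq {z : ℂ} (hz : z ≠ 0) (b φ : ℝ) : FFF z b φ = HH (b / ‖z‖) (φ - z.arg) := by
  have h : 0 < ‖z‖ := norm_pos_iff.2 hz
  simp only [FFF, HH, qq]
  have h1 : 0 < ‖z‖ * Real.cos (φ - z.arg) ↔ 0 < Real.cos (φ - z.arg) :=
    mul_pos_iff_of_pos_left h
  simp only [h1]
  rw [div_div]

theorem FFF_zero (b φ : ℝ) : FFF 0 b φ = 0 := by
  simp [FFF, qq]

theorem integrable_FFF (z : ℂ) (b x y : ℝ) : IntervalIntegrable (FFF z b) volume x y := by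
  by_cases hz : z = 0
  · subst hz
    have : FFF 0 b = fun _ => 0 := funext fun φ => FFF_zero b φ
    rw [this]
    exact intervalIntegrable_const
  · have : FFF z b = fun φ => HH (b / ‖z‖) (φ - z.arg) := funext fun φ => FFF_eq hz b φ
    rw [this]
    exact integrable_HH _ _ _ _

theorem integral_FFF (z : ℂ) {b : ℝ} (hb : 0 < b) :
    ∫ φ in (-Real.pi)..Real.pi, FFF z b φ ≤ 2 * c0 := by
  by_cases hz : z = 0
  · subst hz
    simp only [FFF_zero, intervalIntegral.integral_zero]
    linarith [c0_nonneg]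
  · simp only [FFF_eq hz]
    exact integral_HH (div_pos hb (norm_pos_iff.2 hz)) _

end G4b

open G4b in
/-- G4b. The integral over a truncated disc. -/
theorem disc_lemma {J : Type} [DecidableEq J] (A : Finset J) (c : J → ℂ) (b : J → ℝ)
    (hb : ∀ j ∈ A, 0 < b j) (A' : Finset J)
    (hA' : ∀ j ∈ A, {w : ℂ | ‖w‖ ≤ √2 ∧ (∀ i ∈ A, (star (c i) * w).re ≤ b i) ∧
      (star (c j) * w).re = b j}.Nontrivial → j ∈ A') :
    ∫ w in {w : ℂ | ‖w‖ ≤ √2 ∧ ∀ i ∈ A, (star (c i) * w).re ≤ b i},
      (lam * (1 + ‖w‖ ^ 2) ^ (-(3 / 2) : ℝ) - 1) ≤ 2 * Real.pi * c1 + 2 * c0 * A'.card := by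
  classical
  have hpi := Real.pi_pos
  rw [T_eq hb, integral_polar (measurable_ss A c b) (fun φ => (ss_pos hb φ).le) ss_le_sqrt]
  -- the exceptional directions
  let N : Set ℝ := ⋃ j ∈ (↑(A \ A') : Set J), {φ : ℝ | φ ∈ Ioc (-Real.pi) Real.pi ∧
    ss A c b φ * qq (c j) φ = b j}
  have hN : N.Finite := by
    refine Set.Finite.biUnion (Finset.finite_toSet _) fun j hj => ?_
    have hj' := Finset.mem_sdiff.1 (Finset.mem_coe.1 hj)
    refine Set.Subsingleton.finite fun φ hφ ψ hψ => ?_
    by_contra hne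
    refine hj'.2 (hA' j hj'.1 ⟨pt (ss A c b φ) φ, ?_, pt (ss A c b ψ) ψ, ?_, ?_⟩)
    · have h := (mem_T_iff hb (r := ss A c b φ) (φ := φ) (ss_pos hb φ).le).2 le_rfl
      refine ⟨by rw [norm_pt (ss_pos hb φ).le]; exact h.1, fun i hi => ?_, ?_⟩
      · rw [re_star_mul_pt]; exact h.2 i hi
      · rw [re_star_mul_pt]; exact hφ.2
    · have h := (mem_T_iff hb (r := ss A c b ψ) (φ := ψ) (ss_pos hb ψ).le).2 le_rfl
      refine ⟨by rw [norm_pt (ss_pos hb ψ).le]; exact h.1, fun i hi => ?_, ?_⟩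
      · rw [re_star_mul_pt]; exact h.2 i hi
      · rw [re_star_mul_pt]; exact hψ.2
    · intro h
      apply hne
      rw [← arg_pt (ss_pos hb φ) hφ.1, h, arg_pt (ss_pos hb ψ) hψ.1]
  have hpt : ∀ φ ∈ Ioc (-Real.pi) Real.pi, φ ∉ N →
      GG (ss A c b φ) ≤ c1 + ∑ j ∈ A ∩ A', FFF (c j) (b j) φ := by
    intro φ hφ hφN
    have hsum : ∀ j ∈ A ∩ A', FFF (c j) (b j) φ ≤ ∑ j ∈ A ∩ A', FFF (c j) (b j) φ :=
      fun j hj => Finset.single_le_sum (f := fun j => FFF (c j) (b j) φ)
        (fun i _ => FFF_nonneg _ _ _) hj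
    rcases (ss_le (A := A) (c := c) (b := b) (φ := φ)).1 le_rfl with h | ⟨j, hj, h⟩
    · have h1 : ss A c b φ = √2 := le_antisymm (ss_le_sqrt φ) h
      rw [h1, GG_sqrt_two]
      have : 0 ≤ ∑ j ∈ A ∩ A', FFF (c j) (b j) φ := Finset.sum_nonneg fun i _ => FFF_nonneg _ _ _
      linarith
    · by_cases hq : 0 < qq (c j) φ
      · have h1 : ss A c b φ = b j / qq (c j) φ := by
          have h2 : rho (c j) (b j) φ = b j / qq (c j) φ := by rw [rho, if_pos hq]
          rw [← h2]
          exact le_antisymm ((le_ss.1 le_rfl).2 j hj) h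
        have hjA : j ∈ A' := by
          by_contra hjA
          apply hφN
          refine Set.mem_biUnion (x := j) (by simpa using ⟨hj, hjA⟩) ⟨hφ, ?_⟩
          rw [h1, div_mul_cancel₀ _ hq.ne']
        have h3 : GG (ss A c b φ) ≤ c1 + FFF (c j) (b j) φ := by
          rw [FFF, if_pos hq, ← h1]
          linarith [le_max_left (GG (ss A c b φ) - c1) 0]
        linarith [hsum j (Finset.mem_inter.2 ⟨hj, hjA⟩)]
      · have h2 : rho (c j) (b j) φ = √2 := by rw [rho, if_neg hq]
        rw [h2] at h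
        have h1 : ss A c b φ = √2 := le_antisymm (ss_le_sqrt φ) h
        rw [h1, GG_sqrt_two]
        have : 0 ≤ ∑ j ∈ A ∩ A', FFF (c j) (b j) φ :=
          Finset.sum_nonneg fun i _ => FFF_nonneg _ _ _
        linarith
  have hint1 : IntervalIntegrable (fun φ => GG (ss A c b φ)) volume (-Real.pi) Real.pi := by
    rw [intervalIntegrable_iff]
    refine Measure.integrableOn_of_bounded (M := lam + 1) (by simp) ?_ ?_
    · exact (measurable_GG.comp (measurable_ss A c b)).aestronglyMeasurable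
    · refine Filter.Eventually.of_forall fun φ => ?_
      have h1 := GG_le (ss A c b φ)
      have h2 : -1 ≤ GG (ss A c b φ) := by
        have h3 := ss_le_sqrt (A := A) (c := c) (b := b) φ
        have h4 := ss_pos (c := c) hb φ
        have h5 : ss A c b φ ^ 2 ≤ 2 := by
          have := Real.sq_sqrt (show (0 : ℝ) ≤ 2 by norm_num)
          nlinarith
        have h6 : 1 / √(1 + ss A c b φ ^ 2) ≤ 1 := by
          rw [div_le_one (by positivity)]
          rw [Real.one_le_sqrt]
          nlinarith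
        have h7 : 0 ≤ lam := by unfold lam; positivity
        unfold GG
        nlinarith [mul_nonneg h7 (sub_nonneg.2 h6)]
      have h7 : 0 ≤ lam := by unfold lam; positivity
      rw [Real.norm_eq_abs, abs_le]
      constructor <;> linarith
  have hint2 : IntervalIntegrable (fun φ => ∑ j ∈ A ∩ A', FFF (c j) (b j) φ) volume
      (-Real.pi) Real.pi := by
    have h0 : (fun φ => ∑ j ∈ A ∩ A', FFF (c j) (b j) φ) = ∑ j ∈ A ∩ A', FFF (c j) (b j) := by
      funext φ
      rw [Finset.sum_apply]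
    rw [h0]
    exact IntervalIntegrable.sum (A ∩ A') (f := fun j => FFF (c j) (b j)) (μ := volume)
      (a := -Real.pi) (b := Real.pi) (fun j _ => integrable_FFF _ _ _ _)
  have hint3 : IntervalIntegrable (fun φ => c1 + ∑ j ∈ A ∩ A', FFF (c j) (b j) φ) volume
      (-Real.pi) Real.pi := intervalIntegrable_const.add hint2
  have hle : ∫ φ in (-Real.pi)..Real.pi, GG (ss A c b φ) ≤
      ∫ φ in (-Real.pi)..Real.pi, (c1 + ∑ j ∈ A ∩ A', FFF (c j) (b j) φ) := by
    rw [intervalIntegral.integral_of_le (by linarith), intervalIntegral.integral_of_le (by linarith)]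
    rw [intervalIntegrable_iff_integrableOn_Ioc_of_le (by linarith)] at hint1 hint3
    refine integral_mono_ae hint1 hint3 ?_
    have hN0 : ∀ᵐ φ : ℝ, φ ∉ N := by
      rw [ae_iff]
      simpa using hN.measure_zero volume
    filter_upwards [ae_restrict_mem measurableSet_Ioc, ae_restrict_of_ae hN0] with φ h1 h2
    exact hpt φ h1 h2
  refine hle.trans ?_
  rw [intervalIntegral.integral_add intervalIntegrable_const hint2,
    intervalIntegral.integral_finsetSum (fun j _ => integrable_FFF _ _ _ _),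
    intervalIntegral.integral_const]
  have h1 : ∑ j ∈ A ∩ A', ∫ φ in (-Real.pi)..Real.pi, FFF (c j) (b j) φ ≤
      ∑ j ∈ A ∩ A', 2 * c0 :=
    Finset.sum_le_sum fun j hj => integral_FFF _ (hb j (Finset.mem_inter.1 hj).1)
  rw [Finset.sum_const, nsmul_eq_mul] at h1
  have h2 : ((A ∩ A').card : ℝ) ≤ A'.card := by
    exact_mod_cast Finset.card_le_card Finset.inter_subset_right
  have h3 := c0_nonneg
  have h4 : ((A ∩ A').card : ℝ) * (2 * c0) ≤ 2 * c0 * A'.card := by nlinarith
  rw [smul_eq_mul]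
  linarith

end Pool.Agent.Helper65.PK
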