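import Mathlib
import Pool.Agent.Helper65.PK.Defs
import Pool.Agent.Helper75.Zeta

/-!
# Project PK, piece M3

`homothety c t` is an affine bijection; it maps `poly I` to the polyhedron with the constraints
`⟪a, x⟫ ≤ t b + (1 - t) ⟪a, c⟫`, faces `mface P x` to faces `mface _ (homothety x)`, preserves
`vectorSpan` (`map` of the direction, same span for `t ≠ 0`), and multiplies `μHE[k]` by `t^k`
(`euclideanHausdorffMeasure_homothety_image` in Mathlib/Geometry/Euclidean/Volume/Measure.lean).
-/

namespace Pool.Agent.Helper65.PK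

open MeasureTheory Module Set
open scoped ENNReal RealInnerProductSpace

theorem homothety_eq {E : Type*} [NormedAddCommGroup E] [InnerProductSpace ℝ E] (c : E) (t : ℝ)
    (x : E) : AffineMap.homothety c t x = t • (x - c) + c := by
  rw [AffineMap.homothety_apply, vsub_eq_sub, vadd_eq_add]

theorem homothety_inj {E : Type*} [NormedAddCommGroup E] [InnerProductSpace ℝ E] (c : E) {t : ℝ}
    (ht : 0 < t) : Function.Injective (AffineMap.homothety c t) := by
  intro x y h
  rw [homothety_eq, homothety_eq, add_left_inj] at h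
  have h2 := smul_right_injective E ht.ne' h
  exact sub_left_injective h2

/-- M3. Homotheties. -/
theorem exists_poly_homothety {E : Type*} [NormedAddCommGroup E] [InnerProductSpace ℝ E]
    (I : Finset (E × ℝ)) (c : E) {t : ℝ} (ht : 0 < t) :
    ∃ J : Finset (E × ℝ), Helper75.poly J = AffineMap.homothety c t '' Helper75.poly I := by
  classical
  refine ⟨I.image fun p => (p.1, t * p.2 + (1 - t) * ⟪p.1, c⟫), ?_⟩
  have key : ∀ (p : E × ℝ) (y : E), ⟪p.1, AffineMap.homothety c t y⟫ ≤
      t * p.2 + (1 - t) * ⟪p.1, c⟫ ↔ ⟪p.1, y⟫ ≤ p.2 := by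
    intro p y
    rw [homothety_eq, inner_add_right, inner_smul_right, inner_sub_right]
    constructor
    · intro h
      have h2 : t * ⟪p.1, y⟫ ≤ t * p.2 := by linarith
      exact le_of_mul_le_mul_left h2 ht
    · intro h
      have h2 := mul_le_mul_of_nonneg_left h ht.le
      linarith
  ext x
  rw [Helper75.mem_poly, Finset.forall_mem_image]
  constructor
  · intro h
    have hx : AffineMap.homothety c t (t⁻¹ • (x - c) + c) = x := by
      rw [homothety_eq, add_sub_cancel_right, smul_inv_smul₀ ht.ne', sub_add_cancel]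
    refine ⟨t⁻¹ • (x - c) + c, ?_, hx⟩
    intro p hp
    rw [← key, hx]
    exact h hp
  · rintro ⟨y, hy, rfl⟩ p hp
    exact (key p y).2 (hy p hp)

theorem mface_homothety {E : Type*} [NormedAddCommGroup E] [InnerProductSpace ℝ E] (P : Set E)
    (c : E) {t : ℝ} (ht : 0 < t) (x : E) :
    Helper75.mface (AffineMap.homothety c t '' P) (AffineMap.homothety c t x) =
      AffineMap.homothety c t '' Helper75.mface P x := by
  have key : ∀ (y : E) (ε : ℝ), AffineMap.homothety c t x +
      ε • (AffineMap.homothety c t x - AffineMap.homothety c t y) =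
      AffineMap.homothety c t (x + ε • (x - y)) := by
    intro y ε
    simp only [homothety_eq]
    module
  ext z
  constructor
  · rintro ⟨⟨y, hy, rfl⟩, ε, hε, h⟩
    refine ⟨y, ⟨hy, ε, hε, ?_⟩, rfl⟩
    rw [key] at h
    exact (homothety_inj c ht).mem_set_image.1 h
  · rintro ⟨y, ⟨hy, ε, hε, h⟩, rfl⟩
    refine ⟨⟨y, hy, rfl⟩, ε, hε, ?_⟩
    rw [key]
    exact ⟨_, h, rfl⟩

theorem finrank_homothety {E : Type*} [NormedAddCommGroup E] [InnerProductSpace ℝ E] (F : Set E)
    (c : E) {t : ℝ} (ht : 0 < t) :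
    finrank ℝ (vectorSpan ℝ (AffineMap.homothety c t '' F)) = finrank ℝ (vectorSpan ℝ F) := by
  rw [← AffineMap.map_vectorSpan]
  have hinj : Function.Injective (AffineMap.homothety c t).linear :=
    (AffineMap.linear_injective_iff _).2 (homothety_inj c ht)
  exact (LinearEquiv.finrank_eq (Submodule.equivMapOfInjective _ hinj (vectorSpan ℝ F))).symm

theorem zeta_homothety (k : ℕ) (I : Finset (E3 × ℝ)) (c : E3) {t : ℝ} (ht : 0 < t) :
    Helper75.zeta k (AffineMap.homothety c t '' Helper75.poly I) =
      ENNReal.ofReal (t ^ k) * Helper75.zeta k (Helper75.poly I) := by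
  set P := Helper75.poly I
  have hmem : ∀ F ∈ Helper75.kfaces k P,
      AffineMap.homothety c t '' F ∈ Helper75.kfaces k (AffineMap.homothety c t '' P) := by
    rintro F ⟨⟨x, hx, rfl⟩, hk⟩
    refine ⟨⟨AffineMap.homothety c t x, ⟨x, hx, rfl⟩, (mface_homothety P c ht x).symm⟩, ?_⟩
    rw [finrank_homothety _ c ht, hk]
  let e : Helper75.kfaces k P → Helper75.kfaces k (AffineMap.homothety c t '' P) :=
    fun F => ⟨AffineMap.homothety c t '' F.1, hmem F.1 F.2⟩
  have he : Function.Bijective e := by
    constructor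
    · intro F G h
      have h2 := congrArg Subtype.val h
      exact Subtype.ext ((homothety_inj c ht).image_injective h2)
    · rintro ⟨G, ⟨y, ⟨x, hx, rfl⟩, rfl⟩, hk⟩
      refine ⟨⟨Helper75.mface P x, ⟨x, hx, rfl⟩, ?_⟩, ?_⟩
      · rw [mface_homothety P c ht, finrank_homothety _ c ht] at hk
        exact hk
      · exact Subtype.ext (mface_homothety P c ht x).symm
  unfold Helper75.zeta
  rw [← (Equiv.ofBijective e he).tsum_eq, ← ENNReal.tsum_mul_left]
  refine tsum_congr fun F => ?_
  change μHE[k] (AffineMap.homothety c t '' (F : Set E3)) = _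
  rw [euclideanHausdorffMeasure_homothety_image k c ht.ne', ENNReal.smul_def, smul_eq_mul]
  congr 1
  rw [ENNReal.coe_pow, ENNReal.ofReal_pow ht.le]
  congr 1
  rw [← enorm_eq_nnnorm, Real.enorm_eq_ofReal ht.le]

end Pool.Agent.Helper65.PK
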